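import Mathlib

open Set Topology Filter

namespace AltGenus

/-- The colour of the wall at height `q`. -/
noncomputable def colour {n : ℕ} (a : Fin n → ℝ) (q : ℝ) : ℝ :=
  ∑ i : Fin n, if q = (i : ℝ) then a i else 0

open Classical in
/-- Transport of the value `r` at `w` to a nearby point `w'`: reflection when crossing a wall
`{(p, i) | 0 < p}` downwards. -/
noncomputable def jump {n : ℕ} (a : Fin n → ℝ) (w w' : ℝ × ℝ) (r : ℝ) : ℝ :=
  if 0 < w.1 ∧ w'.2 < w.2 ∧ ∃ i : Fin n, w.2 = (i : ℝ) then 2 * colour a w.2 - r else r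

/-- `f` is a flat function over the subset `A` of `Y`, along `φ : Y → ℝ²`. -/
def FlatOn {n : ℕ} (a : Fin n → ℝ) {Y : Type*} [TopologicalSpace Y] (φ : Y → ℝ × ℝ)
    (A : Set Y) (f : Y → ℝ) : Prop :=
  ∀ y ∈ A, ∀ᶠ y' in 𝓝[A] y, f y' = jump a (φ y) (φ y') (f y)

variable {n : ℕ} {Y Z : Type*} [TopologicalSpace Y] [TopologicalSpace Z]

theorem colour_self (a : Fin n → ℝ) (i : Fin n) : colour a (i : ℝ) = a i := by
  unfold colour
  rw [Finset.sum_eq_single i]
  · simp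
  · intro j _ hj
    rw [if_neg]
    intro h
    apply hj
    have : (i : ℕ) = (j : ℕ) := by exact_mod_cast h
    exact (Fin.ext this).symm
  · simp

theorem colour_add (a b : Fin n → ℝ) (q : ℝ) : colour (a + b) q = colour a q + colour b q := by
  unfold colour
  rw [← Finset.sum_add_distrib]
  apply Finset.sum_congr rfl
  intro i _
  split_ifs <;> simp

theorem colour_smul (c : ℝ) (a : Fin n → ℝ) (q : ℝ) : colour (c • a) q = c * colour a q := by
  unfold colour
  rw [Finset.mul_sum]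
  apply Finset.sum_congr rfl
  intro i _
  split_ifs <;> simp

theorem jump_add (a b : Fin n → ℝ) (w w' : ℝ × ℝ) (r s : ℝ) :
    jump (a + b) w w' (r + s) = jump a w w' r + jump b w w' s := by
  unfold jump
  split_ifs with h
  · rw [colour_add]; ring
  · rfl

theorem jump_smul (c : ℝ) (a : Fin n → ℝ) (w w' : ℝ × ℝ) (r : ℝ) :
    jump (c • a) w w' (c * r) = c * jump a w w' r := by
  unfold jump
  split_ifs with h
  · rw [colour_smul]; ring
  · rfl

theorem jump_inj {a : Fin n → ℝ} {w w' : ℝ × ℝ} {r s : ℝ}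
    (h : jump a w w' r = jump a w w' s) : r = s := by
  unfold jump at h
  split_ifs at h with h1
  · linarith
  · exact h

theorem jump_self (a : Fin n → ℝ) (w : ℝ × ℝ) (r : ℝ) : jump a w w r = r := by
  unfold jump
  rw [if_neg]
  rintro ⟨_, h, _⟩
  exact lt_irrefl _ h

theorem jump_sub_sq (a : Fin n → ℝ) (w w' : ℝ × ℝ) (r s : ℝ) :
    (jump a w w' r - jump a w w' s) ^ 2 = (r - s) ^ 2 := by
  unfold jump
  split_ifs <;> ring

theorem FlatOn.add {a b : Fin n → ℝ} {φ : Y → ℝ × ℝ} {A : Set Y} {f g : Y → ℝ}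
    (hf : FlatOn a φ A f) (hg : FlatOn b φ A g) : FlatOn (a + b) φ A (f + g) := by
  intro y hy
  filter_upwards [hf y hy, hg y hy] with y' h1 h2
  simp only [Pi.add_apply]
  rw [jump_add, h1, h2]

theorem FlatOn.smul {a : Fin n → ℝ} {φ : Y → ℝ × ℝ} {A : Set Y} {f : Y → ℝ}
    (c : ℝ) (hf : FlatOn a φ A f) : FlatOn (c • a) φ A (c • f) := by
  intro y hy
  filter_upwards [hf y hy] with y' h1
  simp only [Pi.smul_apply, smul_eq_mul]
  rw [jump_smul, h1]

theorem FlatOn.sub {a b : Fin n → ℝ} {φ : Y → ℝ × ℝ} {A : Set Y} {f g : Y → ℝ}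
    (hf : FlatOn a φ A f) (hg : FlatOn b φ A g) : FlatOn (a - b) φ A (f - g) := by
  have := hf.add (hg.smul (-1))
  have e1 : a + (-1 : ℝ) • b = a - b := by ext i; simp [sub_eq_add_neg]
  have e2 : f + (-1 : ℝ) • g = f - g := by ext i; simp [sub_eq_add_neg]
  rwa [e1, e2] at this

theorem FlatOn.mono {a : Fin n → ℝ} {φ : Y → ℝ × ℝ} {A B : Set Y} {f : Y → ℝ}
    (hf : FlatOn a φ A f) (h : B ⊆ A) : FlatOn a φ B f := by
  intro y hy
  exact nhdsWithin_mono y h (hf y (h hy))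

theorem FlatOn.congr {a : Fin n → ℝ} {φ : Y → ℝ × ℝ} {A : Set Y} {f g : Y → ℝ}
    (hf : FlatOn a φ A f) (h : EqOn f g A) : FlatOn a φ A g := by
  intro y hy
  filter_upwards [hf y hy, self_mem_nhdsWithin] with y' h1 h2
  rw [← h h2, ← h hy, h1]

theorem FlatOn.comp {a : Fin n → ℝ} {φ : Y → ℝ × ℝ} {A : Set Y} {f : Y → ℝ}
    (hf : FlatOn a φ A f) {g : Z → Y} {B : Set Z} (hg : ContinuousOn g B) (hm : MapsTo g B A) :
    FlatOn a (φ ∘ g) B (f ∘ g) := by
  intro z hz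
  have h1 : Tendsto g (𝓝[B] z) (𝓝[A] (g z)) := by
    apply tendsto_nhdsWithin_iff.2
    refine ⟨hg z hz, ?_⟩
    filter_upwards [self_mem_nhdsWithin] with w hw using hm hw
  exact h1.eventually (hf (g z) (hm hz))

/-- two flat functions with the same colours on a preconnected set, equal at one point -/
theorem FlatOn.eqOn {a : Fin n → ℝ} {φ : Y → ℝ × ℝ} {A : Set Y} {f g : Y → ℝ}
    (hf : FlatOn a φ A f) (hg : FlatOn a φ A g) (hA : IsPreconnected A) {y₀ : Y} (hy₀ : y₀ ∈ A)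
    (h0 : f y₀ = g y₀) : EqOn f g A := by
  haveI : PreconnectedSpace A := Subtype.preconnectedSpace hA
  have hcl : IsClopen {y : A | f y = g y} := by
    constructor
    · rw [← isOpen_compl_iff, isOpen_iff_mem_nhds]
      rintro ⟨y, hy⟩ hne
      have h1 : ∀ᶠ y' in 𝓝[A] y, ¬ f y' = g y' := by
        filter_upwards [hf y hy, hg y hy] with y' e1 e2 e3
        rw [e1, e2] at e3
        exact hne (jump_inj e3)
      rw [nhds_subtype_eq_comap]
      have h2 := h1
      rw [nhdsWithin, eventually_inf_principal] at h2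
      refine Filter.mem_comap.2 ⟨_, h2, ?_⟩
      rintro ⟨z, hz⟩ hz'
      exact hz' hz
    · rw [isOpen_iff_mem_nhds]
      rintro ⟨y, hy⟩ hne
      have h1 : ∀ᶠ y' in 𝓝[A] y, f y' = g y' := by
        filter_upwards [hf y hy, hg y hy] with y' e1 e2
        rw [e1, e2]
        simp only [mem_setOf_eq] at hne
        rw [hne]
      rw [nhds_subtype_eq_comap]
      have h2 := h1
      rw [nhdsWithin, eventually_inf_principal] at h2
      refine Filter.mem_comap.2 ⟨_, h2, ?_⟩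
      rintro ⟨z, hz⟩ hz'
      exact hz' hz
  rcases isClopen_iff.1 hcl with h | h
  · exfalso
    have : (⟨y₀, hy₀⟩ : A) ∈ ({y : A | f y = g y}) := h0
    rw [h] at this
    exact this
  · intro y hy
    have : (⟨y, hy⟩ : A) ∈ ({y : A | f y = g y}) := by rw [h]; trivial
    exact this

theorem FlatOn.sq_sub {a : Fin n → ℝ} {φ : Y → ℝ × ℝ} {A : Set Y} {f g : Y → ℝ}
    (hf : FlatOn a φ A f) (hg : FlatOn a φ A g) (hA : IsPreconnected A) {y y' : Y} (hy : y ∈ A)
    (hy' : y' ∈ A) : (f y - g y) ^ 2 = (f y' - g y') ^ 2 := by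
  have key : ContinuousOn (fun z => (f z - g z) ^ 2) A := by
    intro z hz
    apply ContinuousWithinAt.congr_of_eventuallyEq (f := fun _ => (f z - g z) ^ 2)
    · exact continuousWithinAt_const
    · filter_upwards [hf z hz, hg z hz] with z' e1 e2
      rw [e1, e2, jump_sub_sq]
    · rfl
  have hloc : ∀ z ∈ A, ∀ᶠ z' in 𝓝[A] z, (f z' - g z') ^ 2 = (f z - g z) ^ 2 := by
    intro z hz
    filter_upwards [hf z hz, hg z hz] with z' e1 e2
    rw [e1, e2, jump_sub_sq]
  haveI : PreconnectedSpace A := Subtype.preconnectedSpace hA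
  have hlc : IsLocallyConstant (fun z : A => (f z - g z) ^ 2) := by
    rw [IsLocallyConstant.iff_eventually_eq]
    rintro ⟨z, hz⟩
    have h2 := hloc z hz
    rw [nhdsWithin, eventually_inf_principal] at h2
    rw [nhds_subtype_eq_comap]
    refine Filter.mem_comap.2 ⟨_, h2, ?_⟩
    rintro ⟨w, hw⟩ hw'
    exact hw' hw
  exact hlc.apply_eq_of_preconnectedSpace ⟨y, hy⟩ ⟨y', hy'⟩

theorem flatOn_const {a : Fin n → ℝ} {φ : Y → ℝ × ℝ} {A : Set Y} (i : Fin n)
    (h : ∀ y ∈ A, |(φ y).2 - (i : ℝ)| < 1 / 2) : FlatOn a φ A (fun _ => a i) := by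
  intro y hy
  filter_upwards with y'
  unfold jump
  split_ifs with h1
  · obtain ⟨_, _, j, hj⟩ := h1
    have h2 := h y hy
    rw [hj] at h2 ⊢
    have : j = i := by
      have h3 : |((j : ℕ) : ℝ) - ((i : ℕ) : ℝ)| < 1 := by linarith
      have h4 : |(((j : ℕ) : ℤ) - ((i : ℕ) : ℤ))| < 1 := by exact_mod_cast h3
      rw [Int.abs_lt_one_iff] at h4
      apply Fin.ext
      omega
    rw [this, colour_self]
    ring
  · rfl

theorem FlatOn.sq_near {a : Fin n → ℝ} {φ : Y → ℝ × ℝ} {A : Set Y} {f : Y → ℝ}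
    (hf : FlatOn a φ A f) (hA : IsPreconnected A) (i : Fin n)
    (h : ∀ y ∈ A, |(φ y).2 - (i : ℝ)| < 1 / 2) {y y' : Y} (hy : y ∈ A)
    (hy' : y' ∈ A) : (f y - a i) ^ 2 = (f y' - a i) ^ 2 :=
  hf.sq_sub (flatOn_const i h) hA hy hy'

theorem FlatOn.eq_near {a : Fin n → ℝ} {φ : Y → ℝ × ℝ} {A : Set Y} {f : Y → ℝ}
    (hf : FlatOn a φ A f) (hA : IsPreconnected A) (i : Fin n)
    (h : ∀ y ∈ A, |(φ y).2 - (i : ℝ)| < 1 / 2) {y y' : Y} (hy : y ∈ A)
    (h0 : f y = a i) (hy' : y' ∈ A) : f y' = a i :=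
  hf.eqOn (flatOn_const i h) hA hy h0 hy'

/-- gluing along relatively open sets -/
theorem FlatOn.union_open {a : Fin n → ℝ} {φ : Y → ℝ × ℝ} {A B : Set Y} {f : Y → ℝ}
    (hA : FlatOn a φ A f) (hB : FlatOn a φ B f) (hoA : IsOpen A) (hoB : IsOpen B) :
    FlatOn a φ (A ∪ B) f := by
  intro y hy
  rcases hy with hy | hy
  · have h1 := hA y hy
    rw [hoA.nhdsWithin_eq hy] at h1
    exact mem_nhdsWithin_of_mem_nhds h1
  · have h1 := hB y hy
    rw [hoB.nhdsWithin_eq hy] at h1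
    exact mem_nhdsWithin_of_mem_nhds h1

/-- gluing along closed sets -/
theorem FlatOn.union_closed {a : Fin n → ℝ} {φ : Y → ℝ × ℝ} {A B : Set Y} {f : Y → ℝ}
    (hA : FlatOn a φ A f) (hB : FlatOn a φ B f)
    (hcA : ∀ y ∈ B, y ∉ A → 𝓝[A] y = ⊥) (hcB : ∀ y ∈ A, y ∉ B → 𝓝[B] y = ⊥) :
    FlatOn a φ (A ∪ B) f := by
  intro y hy
  rw [nhdsWithin_union, eventually_sup]
  constructor
  · by_cases hyA : y ∈ A
    · exact hA y hyA
    · rw [hcA y (hy.resolve_left hyA) hyA]; trivial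
  · by_cases hyB : y ∈ B
    · exact hB y hyB
    · rw [hcB y (hy.resolve_right hyB) hyB]; trivial

end AltGenus
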