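import Pool.Agent.AltGenus.Defs
import Pool.Agent.AltGenus.Flat

open Set Topology Filter

namespace AltGenus

/-- above both strands -/
def UpR (h₁ h₂ : ℝ → ℝ) : Set (ℝ × ℝ × ℝ) :=
  {v | (v.2.1 = 0 → h₁ v.1 < v.2.2) ∧ (v.1 = 0 → h₂ v.2.1 < v.2.2)}

/-- below the over strand, above the under strand -/
def MidR (h₁ h₂ : ℝ → ℝ) : Set (ℝ × ℝ × ℝ) :=
  {v | (v.2.1 = 0 → v.2.2 < h₁ v.1) ∧ (v.1 = 0 → h₂ v.2.1 < v.2.2)}

/-- below both strands -/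
def LowR (h₁ h₂ : ℝ → ℝ) : Set (ℝ × ℝ × ℝ) :=
  {v | (v.2.1 = 0 → v.2.2 < h₁ v.1) ∧ (v.1 = 0 → v.2.2 < h₂ v.2.1)}

/-- over `J`, above the strand -/
def UJ (J : Set ℝ) (h : ℝ → ℝ) : Set (ℝ × ℝ × ℝ) :=
  {v | v.1 ∈ J ∧ (v.2.1 = 0 → h v.1 < v.2.2)}

/-- over `J`, below the strand -/
def DJ (J : Set ℝ) (h : ℝ → ℝ) : Set (ℝ × ℝ × ℝ) :=
  {v | v.1 ∈ J ∧ (v.2.1 = 0 → v.2.2 < h v.1)}

/-- holonomy property: a flat function on a punctured neighbourhood of a point of the link takes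
the value `a i` somewhere in it -/
def Hol {Y : Type} [TopologicalSpace Y] (n : ℕ) (ψ : Y → ℝ × ℝ) : Prop :=
  ∀ (a : Fin n → ℝ) (i : Fin n) (v₀ : Y), ψ v₀ = (0, (i : ℝ)) →
    ∀ U : Set Y, IsOpen U → v₀ ∈ U →
      ∀ F : Y → ℝ, FlatOn a ψ (U ∩ {v | ∀ j : Fin n, ψ v ≠ (0, (j : ℝ))}) F →
        ∃ v ∈ U, (∀ j : Fin n, ψ v ≠ (0, (j : ℝ))) ∧ F v = a i


/-- the map `S³ → ℝ²`, `(z,w) ↦ (Re zw, 2n Im zw)` where `z = v₀ + i v₁`, `w = v₂ + i v₃` -/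
noncomputable def kap (n : ℕ) (v : S3) : ℝ × ℝ :=
  (v.1 0 * v.1 2 - v.1 1 * v.1 3, 2 * n * (v.1 0 * v.1 3 + v.1 1 * v.1 2))

/-- the link `{(z,w) | zw ∈ {ik/2n : k < n}}`, as a set -/
def Lset (n : ℕ) : Set S3 := {v | ∃ i : Fin n, kap n v = (0, (i : ℝ))}

/-- the points which are neither on nor below `L` -/
def Rp {g : ℕ} {H : Heegaard g} (E : Collar H) (L : Set S3) : Set S3 :=
  {v | (v ∈ H.Wp ∧ v ∉ range E.e) ∨ ∃ s t, v = E.e (s, t) ∧ ∀ t', t ≤ t' → E.e (s, t') ∉ L}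


/-- exchange the two sides of a Heegaard surface -/
def Heegaard.flip {g : ℕ} (H : Heegaard g) : Heegaard g where
  Sig := H.Sig
  Wp := H.Wm
  Wm := H.Wp
  union := by rw [union_comm]; exact H.union
  inter := by rw [inter_comm]; exact H.inter
  hp := H.hm
  hm := H.hp
  hp_mem := H.hm_mem
  hm_mem := H.hp_mem

/-- reverse the height of a product neighbourhood -/
def Collar.flip {g : ℕ} {H : Heegaard g} (E : Collar H) : Collar H.flip where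
  e := fun p => E.e (p.1, -p.2)
  emb := E.emb.comp
    ((Homeomorph.refl H.Sig).prodCongr (Homeomorph.neg ℝ)).isOpenEmbedding
  zero := fun s => by
    show E.e (s, -(0:ℝ)) = s
    rw [neg_zero]; exact E.zero s
  pos := fun s t ht => E.neg s (-t) (by linarith)
  neg := fun s t ht => E.pos s (-t) (by linarith)


/-- upper half of the standard handlebody -/
def HBU (g : ℕ) : Set ((ℝ × ℝ) × ℝ) := {v | v ∈ HB g ∧ 3 / 2 ≤ v.1.2}

/-- lower half of the standard handlebody -/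
def HBL (g : ℕ) : Set ((ℝ × ℝ) × ℝ) := {v | v ∈ HB g ∧ v.1.2 ≤ 3 / 2}

end AltGenus
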