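import Mathlib

open Set Topology Filter

namespace AltGenus

/-- The 3-sphere `S³`, the unit sphere of `ℝ⁴`. -/
abbrev S3 : Type := Metric.sphere (0 : EuclideanSpace ℝ (Fin 4)) 1

/-- A smooth link in `S³` with `n` components: closed curves `γ i` of period `1`, smooth and
regular as curves in `ℝ⁴`, injective modulo the period, with pairwise disjoint images. -/
structure Link (n : ℕ) where
  γ : Fin n → ℝ → S3
  smooth : ∀ i, ContDiff ℝ (⊤ : ℕ∞) (fun t => (γ i t : EuclideanSpace ℝ (Fin 4)))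
  regular : ∀ i t, deriv (fun t => (γ i t : EuclideanSpace ℝ (Fin 4))) t ≠ 0
  periodic : ∀ i t, γ i (t + 1) = γ i t
  inj : ∀ i j s t, γ i s = γ j t → i = j ∧ ∃ m : ℤ, s = t + m

/-- The underlying subset of `S³` of a link. -/
def Link.carrier {n : ℕ} (K : Link n) : Set S3 := ⋃ i, range (K.γ i)

/-- The plane rectangle `[0, 2g+1] × [0,3]` with the `g` open unit squares
`(2j+1, 2j+2) × (1,2)`, `j < g`, removed: a disk with `g` holes. -/
def PS (g : ℕ) : Set (ℝ × ℝ) :=
  {v | 0 ≤ v.1 ∧ v.1 ≤ 2 * g + 1 ∧ 0 ≤ v.2 ∧ v.2 ≤ 3 ∧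
    ∀ j : ℕ, j < g →
      ¬ (2 * (j : ℝ) + 1 < v.1 ∧ v.1 < 2 * (j : ℝ) + 2 ∧ 1 < v.2 ∧ v.2 < 2)}

/-- The standard handlebody of genus `g`, in `ℝ³`: a thickened disk with `g` holes. -/
def HB (g : ℕ) : Set ((ℝ × ℝ) × ℝ) := PS g ×ˢ Icc (0 : ℝ) 1

/-- A Heegaard surface `Sig` of genus `g` of `S³`: it splits `S³` into the two genus-`g`
handlebodies `Wp` and `Wm`, whose common boundary it is. -/
structure Heegaard (g : ℕ) where
  Sig : Set S3
  Wp : Set S3
  Wm : Set S3
  union : Wp ∪ Wm = univ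
  inter : Wp ∩ Wm = Sig
  hp : HB g ≃ₜ Wp
  hm : HB g ≃ₜ Wm
  hp_mem : ∀ v : HB g, (hp v : S3) ∈ Sig ↔ (v : (ℝ × ℝ) × ℝ) ∈ frontier (HB g)
  hm_mem : ∀ v : HB g, (hm v : S3) ∈ Sig ↔ (v : (ℝ × ℝ) × ℝ) ∈ frontier (HB g)

/-- An (open) product neighbourhood `Sig × ℝ` of the Heegaard surface `Sig = Sig × {0}`
(`Sig × ℝ` is `Sig × (-1,1)` with the interval reparametrised). -/
structure Collar {g : ℕ} (H : Heegaard g) where
  e : H.Sig × ℝ → S3
  emb : IsOpenEmbedding e
  zero : ∀ s : H.Sig, e (s, 0) = s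
  pos : ∀ (s : H.Sig) (t : ℝ), 0 ≤ t → e (s, t) ∈ H.Wp
  neg : ∀ (s : H.Sig) (t : ℝ), t ≤ 0 → e (s, t) ∈ H.Wm

/-- The projection of `L` to the Heegaard surface. -/
def Collar.proj {g : ℕ} {H : Heegaard g} (E : Collar H) (L : Set S3) : Set H.Sig :=
  {s | ∃ t, E.e (s, t) ∈ L}

/-- `L` lies in the product neighbourhood and projects to the Heegaard surface with finitely
many crossings `cross`, which are transverse double points: near any other point of the
projection, `L` is the graph of a height function over an arc (the first axis of a chart), near a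
crossing it consists of two graphs over the two axes of a chart, at different heights over the
crossing. -/
structure Diagram {g : ℕ} {H : Heegaard g} (E : Collar H) (L : Set S3) where
  sub : L ⊆ range E.e
  cross : Set H.Sig
  fin : cross.Finite
  reg : ∀ s ∈ E.proj L, s ∉ cross → ∃ (χ : ℝ × ℝ → H.Sig) (h : ℝ → ℝ),
    IsOpenEmbedding χ ∧ Continuous h ∧ χ (0, 0) = s ∧
    ∀ x y t, E.e (χ (x, y), t) ∈ L ↔ y = 0 ∧ t = h x
  crs : ∀ s ∈ cross, ∃ (χ : ℝ × ℝ → H.Sig) (h₁ h₂ : ℝ → ℝ),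
    IsOpenEmbedding χ ∧ Continuous h₁ ∧ Continuous h₂ ∧ χ (0, 0) = s ∧ h₂ 0 < h₁ 0 ∧
    ∀ x y t, E.e (χ (x, y), t) ∈ L ↔ (y = 0 ∧ t = h₁ x) ∨ (x = 0 ∧ t = h₂ y)

/-- `v` is the upper point of `L` over a crossing. -/
def Collar.Over {g : ℕ} {H : Heegaard g} (E : Collar H) (L : Set S3) (v : S3) : Prop :=
  v ∈ L ∧ ∃ s t t', v = E.e (s, t) ∧ t' < t ∧ E.e (s, t') ∈ L

/-- `v` is the lower point of `L` over a crossing. -/
def Collar.Under {g : ℕ} {H : Heegaard g} (E : Collar H) (L : Set S3) (v : S3) : Prop :=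
  v ∈ L ∧ ∃ s t t', v = E.e (s, t) ∧ t < t' ∧ E.e (s, t') ∈ L

/-- Travelling along each component, the crossings alternate between over and under: of two
successive passages through crossings (at times `t < t'`), one is over and the other under. -/
def Alternating {g n : ℕ} {H : Heegaard g} (E : Collar H) (K : Link n) : Prop :=
  ∀ (i : Fin n) (t t' : ℝ), t < t' →
    (E.Over K.carrier (K.γ i t) ∨ E.Under K.carrier (K.γ i t)) →
    (E.Over K.carrier (K.γ i t') ∨ E.Under K.carrier (K.γ i t')) →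
    (∀ u, t < u → u < t' →
      ¬ (E.Over K.carrier (K.γ i u) ∨ E.Under K.carrier (K.γ i u))) →
    (E.Over K.carrier (K.γ i t) ↔ E.Under K.carrier (K.γ i t'))

/-- The complement of the projection is a disjoint union of open disks. -/
def Cellular {g : ℕ} {H : Heegaard g} (E : Collar H) (L : Set S3) : Prop :=
  ∀ s : H.Sig, s ∉ E.proj L →
    Nonempty (connectedComponentIn (E.proj L)ᶜ s ≃ₜ
      Metric.ball (0 : EuclideanSpace ℝ (Fin 2)) 1)

/-- The link `K` has an alternating diagram with complement a disjoint union of open disks on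
some Heegaard surface of genus `g`. -/
def HasAltDiagram {n : ℕ} (K : Link n) (g : ℕ) : Prop :=
  ∃ (H : Heegaard g) (E : Collar H), Nonempty (Diagram E K.carrier) ∧ Alternating E K ∧
    Cellular E K.carrier

/-- The alternating genus (`⊤` if there were no such diagram at all). -/
noncomputable def gAlt {n : ℕ} (K : Link n) : ℕ∞ :=
  ⨅ (g : ℕ) (_ : HasAltDiagram K g), (g : ℕ∞)

end AltGenus
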