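import Pool.Agent.AltGenus.Defs

open Set Topology Filter

namespace AltGenus

/-- the larger radius -/
noncomputable def hopfR (n k : ℕ) : ℝ := √((1 + √(1 - ((k : ℝ) / n) ^ 2)) / 2)

/-- the smaller radius; `hopfR² + hopfS² = 1`, `hopfR * hopfS = k / 2n` -/
noncomputable def hopfS (n k : ℕ) : ℝ := √((1 - √(1 - ((k : ℝ) / n) ^ 2)) / 2)

/-- the curve `t ↦ (r e^{2πit}, i s e^{-2πit})` in `ℂ² = ℝ⁴` -/
noncomputable def hopfCurve (r s : ℝ) (t : ℝ) : EuclideanSpace ℝ (Fin 4) :=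
  !₂[r * Real.cos (2 * Real.pi * t), r * Real.sin (2 * Real.pi * t),
    s * Real.sin (2 * Real.pi * t), s * Real.cos (2 * Real.pi * t)]

/-- the `2n` curves -/
noncomputable def hopfPt (n : ℕ) (i : Fin (2 * n)) (t : ℝ) : EuclideanSpace ℝ (Fin 4) :=
  if (i : ℕ) < n then hopfCurve (hopfR n i) (hopfS n i) t
  else hopfCurve (hopfS n (i - n)) (hopfR n (i - n)) t

end AltGenus
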