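import Pool.Agent.AltGenus.HopfDefs
import Pool.Agent.AltGenus.ChartDefs

open Set Topology Filter

namespace AltGenus

namespace X_hopf_fields
theorem hopf_aux {n k : ℕ} (hk : k < n) :
    0 ≤ hopfS n k ∧ hopfS n k < hopfR n k ∧ hopfR n k ^ 2 + hopfS n k ^ 2 = 1 ∧
      hopfR n k * hopfS n k = (k : ℝ) / n / 2 := by
  have hn : (0 : ℝ) < n := by exact_mod_cast (by omega : 0 < n)
  have hx0 : 0 ≤ (k : ℝ) / n := by positivity
  have hx1 : (k : ℝ) / n < 1 := by
    rw [div_lt_one hn]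
    exact_mod_cast hk
  set x : ℝ := (k : ℝ) / n with hx
  have h1 : 0 < 1 - x ^ 2 := by nlinarith
  have hq0 : 0 < √(1 - x ^ 2) := Real.sqrt_pos.2 h1
  have hq2 : √(1 - x ^ 2) ^ 2 = 1 - x ^ 2 := Real.sq_sqrt h1.le
  have hq1 : √(1 - x ^ 2) ≤ 1 := by
    rw [Real.sqrt_le_left (by norm_num)]
    nlinarith [sq_nonneg x]
  have hR2 : hopfR n k ^ 2 = (1 + √(1 - x ^ 2)) / 2 := Real.sq_sqrt (by linarith)
  have hS2 : hopfS n k ^ 2 = (1 - √(1 - x ^ 2)) / 2 := Real.sq_sqrt (by linarith)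
  have hS0 : 0 ≤ hopfS n k := Real.sqrt_nonneg _
  have hR0 : 0 ≤ hopfR n k := Real.sqrt_nonneg _
  refine ⟨hS0, ?_, ?_, ?_⟩
  · by_contra hcon
    push Not at hcon
    have := pow_le_pow_left₀ hR0 hcon 2
    linarith
  · rw [hR2, hS2]
    ring
  · have h2 : (hopfR n k * hopfS n k) ^ 2 = (x / 2) ^ 2 := by
      rw [mul_pow, hR2, hS2]
      nlinarith
    exact (pow_left_inj₀ (mul_nonneg hR0 hS0) (by positivity) (by norm_num)).1 h2

/-- parameters of the curves -/
theorem hopf_param (n : ℕ) (i : Fin (2 * n)) : ∃ (k : ℕ) (r s : ℝ), k < n ∧ 0 ≤ r ∧ 0 ≤ s ∧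
    r ^ 2 + s ^ 2 = 1 ∧ r * s = (k : ℝ) / n / 2 ∧ (∀ t, hopfPt n i t = hopfCurve r s t) ∧
    (((i : ℕ) = k ∧ s < r) ∨ ((i : ℕ) = k + n ∧ r < s)) := by
  by_cases h : (i : ℕ) < n
  · obtain ⟨h1, h2, h3, h4⟩ := hopf_aux h
    refine ⟨i, hopfR n i, hopfS n i, h, h1.trans h2.le, h1, h3, h4, fun t => ?_, Or.inl ⟨rfl, h2⟩⟩
    unfold hopfPt
    rw [if_pos h]
  · have hk : (i : ℕ) - n < n := by
      have := i.2
      omega
    obtain ⟨h1, h2, h3, h4⟩ := hopf_aux hk
    refine ⟨(i : ℕ) - n, hopfS n (i - n), hopfR n (i - n), hk, h1, h1.trans h2.le, ?_, ?_,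
      fun t => ?_, Or.inr ⟨by omega, h2⟩⟩
    · rw [add_comm]
      exact h3
    · rw [mul_comm]
      exact h4
    · unfold hopfPt
      rw [if_neg h]

theorem hopf_coord (r s t : ℝ) : (hopfCurve r s t) 0 = r * Real.cos (2 * Real.pi * t) ∧
    (hopfCurve r s t) 1 = r * Real.sin (2 * Real.pi * t) ∧
    (hopfCurve r s t) 2 = s * Real.sin (2 * Real.pi * t) ∧
    (hopfCurve r s t) 3 = s * Real.cos (2 * Real.pi * t) := by
  refine ⟨?_, ?_, ?_, ?_⟩ <;> simp [hopfCurve]

theorem hopf_smooth (r s : ℝ) : ContDiff ℝ (⊤ : ℕ∞) (fun t => hopfCurve r s t) := by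
  rw [contDiff_euclidean]
  have hc : ContDiff ℝ (⊤ : ℕ∞) (fun t : ℝ => Real.cos (2 * Real.pi * t)) :=
    Real.contDiff_cos.comp (contDiff_const.mul contDiff_id)
  have hs : ContDiff ℝ (⊤ : ℕ∞) (fun t : ℝ => Real.sin (2 * Real.pi * t)) :=
    Real.contDiff_sin.comp (contDiff_const.mul contDiff_id)
  intro i
  fin_cases i
  · show ContDiff ℝ (⊤ : ℕ∞) (fun t => (hopfCurve r s t) 0)
    simp only [(hopf_coord r s _).1]
    exact contDiff_const.mul hc
  · show ContDiff ℝ (⊤ : ℕ∞) (fun t => (hopfCurve r s t) 1)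
    simp only [(hopf_coord r s _).2.1]
    exact contDiff_const.mul hs
  · show ContDiff ℝ (⊤ : ℕ∞) (fun t => (hopfCurve r s t) 2)
    simp only [(hopf_coord r s _).2.2.1]
    exact contDiff_const.mul hs
  · show ContDiff ℝ (⊤ : ℕ∞) (fun t => (hopfCurve r s t) 3)
    simp only [(hopf_coord r s _).2.2.2]
    exact contDiff_const.mul hc

theorem hopf_deriv_coord (r s t : ℝ) (i : Fin 4) (h : deriv (fun t => hopfCurve r s t) t = 0)
    (f' : ℝ) (hf : HasDerivAt (fun t => (hopfCurve r s t) i) f' t) : f' = 0 := by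
  have h1 : DifferentiableAt ℝ (fun t => hopfCurve r s t) t :=
    (hopf_smooth r s).differentiable (by simp) t
  have h2 := h1.hasDerivAt
  rw [h] at h2
  have h3 := ((EuclideanSpace.proj i : EuclideanSpace ℝ (Fin 4) →L[ℝ] ℝ).hasFDerivAt).comp_hasDerivAt t h2
  have h5 := hf.unique h3
  rw [h5]
  exact map_zero _

theorem cos_deriv' (t : ℝ) : HasDerivAt (fun t : ℝ => Real.cos (2 * Real.pi * t))
    (-(2 * Real.pi * Real.sin (2 * Real.pi * t))) t := by
  have h1 : HasDerivAt (fun t : ℝ => 2 * Real.pi * t) (2 * Real.pi * 1) t :=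
    (hasDerivAt_id t).const_mul _
  refine h1.cos.congr_deriv ?_
  ring

theorem sin_deriv' (t : ℝ) : HasDerivAt (fun t : ℝ => Real.sin (2 * Real.pi * t))
    (2 * Real.pi * Real.cos (2 * Real.pi * t)) t := by
  have h1 : HasDerivAt (fun t : ℝ => 2 * Real.pi * t) (2 * Real.pi * 1) t :=
    (hasDerivAt_id t).const_mul _
  refine h1.sin.congr_deriv ?_
  ring

theorem hopf_deriv_ne (r s t : ℝ) (h1 : r ^ 2 + s ^ 2 = 1) :
    deriv (fun t => hopfCurve r s t) t ≠ 0 := by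
  intro h
  have e0 := hopf_deriv_coord r s t 0 h (r * -(2 * Real.pi * Real.sin (2 * Real.pi * t))) (by
    simp only [(hopf_coord r s _).1]
    exact (cos_deriv' t).const_mul r)
  have e1 := hopf_deriv_coord r s t 1 h (r * (2 * Real.pi * Real.cos (2 * Real.pi * t))) (by
    simp only [(hopf_coord r s _).2.1]
    exact (sin_deriv' t).const_mul r)
  have e2 := hopf_deriv_coord r s t 2 h (s * (2 * Real.pi * Real.cos (2 * Real.pi * t))) (by
    simp only [(hopf_coord r s _).2.2.1]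
    exact (sin_deriv' t).const_mul s)
  have e3 := hopf_deriv_coord r s t 3 h (s * -(2 * Real.pi * Real.sin (2 * Real.pi * t))) (by
    simp only [(hopf_coord r s _).2.2.2]
    exact (cos_deriv' t).const_mul s)
  have hpi := Real.pi_pos
  have hsc := Real.sin_sq_add_cos_sq (2 * Real.pi * t)
  have e4 : (2 * Real.pi) ^ 2 * (r ^ 2 + s ^ 2) * (Real.sin (2 * Real.pi * t) ^ 2 +
      Real.cos (2 * Real.pi * t) ^ 2) = 0 := by
    have : (2 * Real.pi) ^ 2 * (r ^ 2 + s ^ 2) * (Real.sin (2 * Real.pi * t) ^ 2 +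
      Real.cos (2 * Real.pi * t) ^ 2) = (r * -(2 * Real.pi * Real.sin (2 * Real.pi * t))) ^ 2 +
      (r * (2 * Real.pi * Real.cos (2 * Real.pi * t))) ^ 2 +
      (s * (2 * Real.pi * Real.cos (2 * Real.pi * t))) ^ 2 +
      (s * -(2 * Real.pi * Real.sin (2 * Real.pi * t))) ^ 2 := by ring
    rw [this, e0, e1, e2, e3]
    ring
  rw [h1, hsc] at e4
  have : (0 : ℝ) < (2 * Real.pi) ^ 2 := by positivity
  linarith

theorem hopf_fields (n : ℕ) :
    (∀ (i : Fin (2 * n)) (t : ℝ),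
      hopfPt n i t ∈ Metric.sphere (0 : EuclideanSpace ℝ (Fin 4)) 1) ∧
    (∀ i : Fin (2 * n), ContDiff ℝ (⊤ : ℕ∞) (fun t => hopfPt n i t)) ∧
    (∀ (i : Fin (2 * n)) (t : ℝ), deriv (fun t => hopfPt n i t) t ≠ 0) ∧
    (∀ (i : Fin (2 * n)) (t : ℝ), hopfPt n i (t + 1) = hopfPt n i t) ∧
    (∀ (i j : Fin (2 * n)) (s t : ℝ), hopfPt n i s = hopfPt n j t → i = j ∧ ∃ m : ℤ, s = t + m) := by
  refine ⟨?_, ?_, ?_, ?_, ?_⟩
  · intro i t
    obtain ⟨k, r, s, hk, hr, hs, h1, h2, h3, h4⟩ := hopf_param n i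
    rw [h3, mem_sphere_zero_iff_norm]
    have hsc := Real.sin_sq_add_cos_sq (2 * Real.pi * t)
    have h5 : ‖hopfCurve r s t‖ ^ 2 = 1 := by
      rw [EuclideanSpace.norm_sq_eq, Fin.sum_univ_four]
      simp only [Real.norm_eq_abs, sq_abs]
      obtain ⟨c0, c1, c2, c3⟩ := hopf_coord r s t
      rw [c0, c1, c2, c3]
      calc _ = (r ^ 2 + s ^ 2) * (Real.sin (2 * Real.pi * t) ^ 2 +
          Real.cos (2 * Real.pi * t) ^ 2) := by ring
        _ = 1 := by rw [h1, hsc, one_mul]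
    have h6 : ‖hopfCurve r s t‖ ^ 2 = 1 ^ 2 := by rw [h5]; norm_num
    exact (pow_left_inj₀ (norm_nonneg _) zero_le_one (by norm_num)).1 h6
  · intro i
    obtain ⟨k, r, s, hk, hr, hs, h1, h2, h3, h4⟩ := hopf_param n i
    simp only [h3]
    exact hopf_smooth r s
  · intro i t
    obtain ⟨k, r, s, hk, hr, hs, h1, h2, h3, h4⟩ := hopf_param n i
    simp only [h3]
    exact hopf_deriv_ne r s t h1
  · intro i t
    obtain ⟨k, r, s, hk, hr, hs, h1, h2, h3, h4⟩ := hopf_param n i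
    rw [h3, h3]
    have e1 : 2 * Real.pi * (t + 1) = 2 * Real.pi * t + 2 * Real.pi := by ring
    unfold hopfCurve
    rw [e1, Real.cos_add_two_pi, Real.sin_add_two_pi]
  · intro i j a b hab
    obtain ⟨k, r, s, hk, hr, hs, h1, h2, h3, h4⟩ := hopf_param n i
    obtain ⟨k', r', s', hk', hr', hs', h1', h2', h3', h4'⟩ := hopf_param n j
    rw [h3, h3'] at hab
    obtain ⟨c0, c1, c2, c3⟩ := hopf_coord r s a
    obtain ⟨d0, d1, d2, d3⟩ := hopf_coord r' s' b
    have g0 : r * Real.cos (2 * Real.pi * a) = r' * Real.cos (2 * Real.pi * b) := by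
      rw [← c0, ← d0, hab]
    have g1 : r * Real.sin (2 * Real.pi * a) = r' * Real.sin (2 * Real.pi * b) := by
      rw [← c1, ← d1, hab]
    have g2 : s * Real.sin (2 * Real.pi * a) = s' * Real.sin (2 * Real.pi * b) := by
      rw [← c2, ← d2, hab]
    have g3 : s * Real.cos (2 * Real.pi * a) = s' * Real.cos (2 * Real.pi * b) := by
      rw [← c3, ← d3, hab]
    have sa := Real.sin_sq_add_cos_sq (2 * Real.pi * a)
    have sb := Real.sin_sq_add_cos_sq (2 * Real.pi * b)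
    have er : r ^ 2 = r' ^ 2 := by
      calc r ^ 2 = (r * Real.sin (2 * Real.pi * a)) ^ 2 + (r * Real.cos (2 * Real.pi * a)) ^ 2 := by
            linear_combination (-r ^ 2) * sa
        _ = (r' * Real.sin (2 * Real.pi * b)) ^ 2 + (r' * Real.cos (2 * Real.pi * b)) ^ 2 := by
            rw [g0, g1]
        _ = r' ^ 2 := by linear_combination (r' ^ 2) * sb
    have es : s ^ 2 = s' ^ 2 := by linarith
    have er' : r = r' := (pow_left_inj₀ hr hr' (by norm_num)).1 er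
    have es' : s = s' := (pow_left_inj₀ hs hs' (by norm_num)).1 es
    subst er' es'
    have hn : (0 : ℝ) < n := by exact_mod_cast (by omega : 0 < n)
    have ek : (k : ℝ) = k' := by
      have := h2.symm.trans h2'
      field_simp at this
      linarith
    have ek' : k = k' := by exact_mod_cast ek
    refine ⟨?_, ?_⟩
    · apply Fin.ext
      rcases h4 with ⟨p1, p2⟩ | ⟨p1, p2⟩ <;> rcases h4' with ⟨p3, p4⟩ | ⟨p3, p4⟩
      · omega
      · linarith
      · linarith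
      · omega
    · have hcs : Real.cos (2 * Real.pi * a) = Real.cos (2 * Real.pi * b) ∧
          Real.sin (2 * Real.pi * a) = Real.sin (2 * Real.pi * b) := by
        by_cases hr0 : r = 0
        · have hs0 : s ≠ 0 := by
            rintro rfl
            rw [hr0] at h1
            norm_num at h1
          exact ⟨mul_left_cancel₀ hs0 g3, mul_left_cancel₀ hs0 g2⟩
        · exact ⟨mul_left_cancel₀ hr0 g0, mul_left_cancel₀ hr0 g1⟩
      have hA := Real.Angle.cos_sin_inj hcs.1 hcs.2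
      obtain ⟨m, hm⟩ := Real.Angle.angle_eq_iff_two_pi_dvd_sub.1 hA
      refine ⟨m, ?_⟩
      have hpi := Real.pi_pos
      have : 2 * Real.pi * (a - b - m) = 0 := by linarith
      rcases mul_eq_zero.1 this with h | h
      · linarith
      · linarith

end X_hopf_fields

alias hopf_fields := X_hopf_fields.hopf_fields

end AltGenus
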