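import Pool.Agent.AltGenus.Defs
import Pool.Agent.AltGenus.P_hopf_fields

open Set Topology Filter

namespace AltGenus

/-- The link consisting of `2n` fibres of the Hopf fibration: the curves
`t ↦ (r e^{2πit}, i s e^{-2πit})` in `S³ ⊂ ℂ²`, with `(r, s)` running through
`(hopfR n k, hopfS n k)` and `(hopfS n k, hopfR n k)`, `k < n`. -/
noncomputable def hopfLink (n : ℕ) : Link (2 * n) where
  γ := fun i t => ⟨hopfPt n i t, (hopf_fields n).1 i t⟩
  smooth := (hopf_fields n).2.1
  regular := (hopf_fields n).2.2.1
  periodic := fun i t => Subtype.ext ((hopf_fields n).2.2.2.1 i t)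
  inj := fun i j s t h => (hopf_fields n).2.2.2.2 i j s t (congrArg Subtype.val h)

end AltGenus
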