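import Pool.Agent.AltGenus.ChartDefs

open Set Topology Filter

namespace AltGenus

namespace X_HB_connected
theorem PS_isCompact_aux (g : ℕ) : IsCompact (PS g) := by
  have hcl : IsClosed (PS g) := by
    have : PS g = {v : ℝ × ℝ | 0 ≤ v.1} ∩ ({v | v.1 ≤ 2 * g + 1} ∩ ({v | 0 ≤ v.2} ∩ ({v | v.2 ≤ 3} ∩
        ⋂ j : ℕ, ⋂ _ : j < g, {v | 2 * (j : ℝ) + 1 < v.1 ∧ v.1 < 2 * (j : ℝ) + 2 ∧ 1 < v.2 ∧
          v.2 < 2}ᶜ))) := by
      ext v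
      simp [PS]
    rw [this]
    refine (isClosed_le continuous_const continuous_fst).inter
      ((isClosed_le continuous_fst continuous_const).inter
      ((isClosed_le continuous_const continuous_snd).inter
      ((isClosed_le continuous_snd continuous_const).inter
      (isClosed_iInter fun j => isClosed_iInter fun _ => ?_))))
    apply IsOpen.isClosed_compl
    refine IsOpen.inter (isOpen_lt continuous_const continuous_fst)
      (IsOpen.inter (isOpen_lt continuous_fst continuous_const)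
      (IsOpen.inter (isOpen_lt continuous_const continuous_snd)
      (isOpen_lt continuous_snd continuous_const)))
  refine (isCompact_Icc (a := ((0 : ℝ), (0 : ℝ))) (b := (2 * (g : ℝ) + 1, 3))).of_isClosed_subset
    hcl ?_
  rintro v ⟨h1, h2, h3, h4, -⟩
  exact ⟨⟨h1, h3⟩, ⟨h2, h4⟩⟩

theorem PS_zero_mem_aux (g : ℕ) : ((0 : ℝ), (0 : ℝ)) ∈ PS g := by
  refine ⟨le_rfl, by positivity, le_rfl, by norm_num, ?_⟩
  rintro j _ ⟨-, -, h, -⟩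
  have h' : (1 : ℝ) < 0 := h
  linarith

theorem PS_isConnected_aux (g : ℕ) : IsConnected (PS g) := by
  refine ⟨⟨_, PS_zero_mem_aux g⟩, ?_⟩
  have hg : (0 : ℝ) ≤ 2 * g + 1 := by positivity
  -- the bottom and top lines
  have hbot : (Icc (0 : ℝ) (2 * g + 1)) ×ˢ ({0} : Set ℝ) ⊆ PS g := by
    rintro ⟨x, y⟩ ⟨hx, hy⟩
    have hy' : y = 0 := hy
    refine ⟨hx.1, hx.2, by simp [hy'], by simp [hy'], ?_⟩
    rintro j _ ⟨-, -, h, -⟩
    simp only [hy'] at h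
    linarith
  have htop : (Icc (0 : ℝ) (2 * g + 1)) ×ˢ ({3} : Set ℝ) ⊆ PS g := by
    rintro ⟨x, y⟩ ⟨hx, hy⟩
    have hy' : y = 3 := hy
    refine ⟨hx.1, hx.2, by simp [hy'], by simp [hy'], ?_⟩
    rintro j _ ⟨-, -, -, h⟩
    simp only [hy'] at h
    linarith
  have hleft : ({0} : Set ℝ) ×ˢ (Icc (0 : ℝ) 3) ⊆ PS g := by
    rintro ⟨x, y⟩ ⟨hx, hy⟩
    have hx' : x = 0 := hx
    refine ⟨by simp [hx'], by simpa [hx'] using hg, hy.1, hy.2, ?_⟩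
    rintro j _ ⟨h, -⟩
    simp only [hx'] at h
    have : (0 : ℝ) ≤ j := Nat.cast_nonneg j
    linarith
  apply isPreconnected_of_forall ((0 : ℝ), (0 : ℝ))
  rintro ⟨x, y⟩ hv
  obtain ⟨h1, h2, h3, h4, h5⟩ := hv
  simp only at h1 h2 h3 h4 h5
  by_cases hy : 2 ≤ y
  · refine ⟨(({x} : Set ℝ) ×ˢ Icc y 3 ∪ (Icc (0 : ℝ) (2 * g + 1)) ×ˢ ({3} : Set ℝ)) ∪
      ({0} : Set ℝ) ×ˢ (Icc (0 : ℝ) 3), ?_, ?_, ?_, ?_⟩
    · refine union_subset (union_subset ?_ htop) hleft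
      rintro ⟨x', y'⟩ ⟨hx', hy'⟩
      have hx'' : x' = x := hx'
      subst hx''
      refine ⟨h1, h2, h3.trans hy'.1, hy'.2, ?_⟩
      rintro j _ ⟨-, -, -, h⟩
      have h7 : y ≤ y' := hy'.1
      have h8 : y' < 2 := h
      linarith
    · exact Or.inr ⟨rfl, by norm_num, by norm_num⟩
    · exact Or.inl (Or.inl ⟨rfl, le_rfl, h4⟩)
    · refine IsPreconnected.union ((0 : ℝ), (3 : ℝ)) (Or.inr ⟨⟨le_rfl, hg⟩, rfl⟩)
        ⟨rfl, by norm_num, le_rfl⟩ ?_ (isPreconnected_singleton.prod isPreconnected_Icc)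
      exact IsPreconnected.union (x, (3 : ℝ)) ⟨rfl, h4, le_rfl⟩ ⟨⟨h1, h2⟩, rfl⟩
        (isPreconnected_singleton.prod isPreconnected_Icc)
        (isPreconnected_Icc.prod isPreconnected_singleton)
  · push Not at hy
    refine ⟨({x} : Set ℝ) ×ˢ Icc 0 y ∪ (Icc (0 : ℝ) (2 * g + 1)) ×ˢ ({0} : Set ℝ), ?_, ?_, ?_, ?_⟩
    · refine union_subset ?_ hbot
      rintro ⟨x', y'⟩ ⟨hx', hy'⟩
      have hx'' : x' = x := hx'
      subst hx''
      have h7 : 0 ≤ y' := hy'.1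
      have h8 : y' ≤ y := hy'.2
      refine ⟨h1, h2, h7, h8.trans h4, ?_⟩
      rintro j hj ⟨ha, hb, hc, hd⟩
      apply h5 j hj
      exact ⟨ha, hb, lt_of_lt_of_le hc h8, hy⟩
    · exact Or.inr ⟨⟨le_rfl, hg⟩, rfl⟩
    · exact Or.inl ⟨rfl, h3, le_rfl⟩
    · exact IsPreconnected.union (x, (0 : ℝ)) ⟨rfl, le_rfl, h3⟩ ⟨⟨h1, h2⟩, rfl⟩
        (isPreconnected_singleton.prod isPreconnected_Icc)
        (isPreconnected_Icc.prod isPreconnected_singleton)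

theorem PS_zero_frontier_aux (g : ℕ) : ((0 : ℝ), (0 : ℝ)) ∈ frontier (PS g) := by
  refine ⟨subset_closure (PS_zero_mem_aux g), fun h => ?_⟩
  rw [mem_interior_iff_mem_nhds] at h
  have hc : Continuous fun s : ℝ => (s, (0 : ℝ)) := by fun_prop
  have h1 : (fun s : ℝ => (s, (0 : ℝ))) ⁻¹' (PS g) ∈ 𝓝 (0 : ℝ) := hc.continuousAt h
  have h2 : (fun s : ℝ => (s, (0 : ℝ))) ⁻¹' (PS g) ⊆ Ici (0 : ℝ) := by
    intro s hs
    exact hs.1
  have h3 := Filter.mem_of_superset h1 h2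
  obtain ⟨ε, hε, h4⟩ := Metric.mem_nhds_iff.1 h3
  have h5 : (-(ε / 2) : ℝ) ∈ Ici (0 : ℝ) := by
    apply h4
    rw [Metric.mem_ball, Real.dist_eq, sub_zero, abs_neg, abs_of_pos (by positivity)]
    linarith
  have h6 : (0 : ℝ) ≤ -(ε / 2) := h5
  linarith

theorem HB_connected (g : ℕ) : IsConnected (HB g) ∧ IsConnected (frontier (HB g)) ∧
    IsCompact (HB g) := by
  have hc := PS_isCompact_aux g
  have hconn := PS_isConnected_aux g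
  have hIcc : IsConnected (Icc (0 : ℝ) 1) := isConnected_Icc zero_le_one
  refine ⟨hconn.prod hIcc, ?_, hc.prod isCompact_Icc⟩
  have hfr : frontier (HB g) = PS g ×ˢ ({0, 1} : Set ℝ) ∪ frontier (PS g) ×ˢ Icc (0 : ℝ) 1 := by
    unfold HB
    rw [frontier_prod_eq, hc.isClosed.closure_eq, frontier_Icc zero_le_one, isClosed_Icc.closure_eq]
  rw [hfr]
  have hbase : (((0 : ℝ), (0 : ℝ)), (0 : ℝ)) ∈ PS g ×ˢ ({0, 1} : Set ℝ) ∪
      frontier (PS g) ×ˢ Icc (0 : ℝ) 1 := Or.inl ⟨PS_zero_mem_aux g, by simp⟩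
  refine ⟨⟨_, hbase⟩, ?_⟩
  have h0 : PS g ×ˢ ({0} : Set ℝ) ⊆ PS g ×ˢ ({0, 1} : Set ℝ) ∪ frontier (PS g) ×ˢ Icc (0 : ℝ) 1 := by
    rintro ⟨b, t⟩ ⟨hb, ht⟩
    have ht' : t = 0 := ht
    exact Or.inl ⟨hb, by simp [ht']⟩
  have h1 : PS g ×ˢ ({1} : Set ℝ) ⊆ PS g ×ˢ ({0, 1} : Set ℝ) ∪ frontier (PS g) ×ˢ Icc (0 : ℝ) 1 := by
    rintro ⟨b, t⟩ ⟨hb, ht⟩
    have ht' : t = 1 := ht
    exact Or.inl ⟨hb, by simp [ht']⟩
  have h2 : ∀ b ∈ frontier (PS g), ({b} : Set (ℝ × ℝ)) ×ˢ Icc (0 : ℝ) 1 ⊆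
      PS g ×ˢ ({0, 1} : Set ℝ) ∪ frontier (PS g) ×ˢ Icc (0 : ℝ) 1 := by
    rintro b hb ⟨b', t⟩ ⟨hb', ht⟩
    have hb'' : b' = b := hb'
    subst hb''
    exact Or.inr ⟨hb, ht⟩
  apply isPreconnected_of_forall (((0 : ℝ), (0 : ℝ)), (0 : ℝ))
  rintro ⟨b, t⟩ hv
  rcases hv with ⟨hb, ht⟩ | ⟨hb, ht⟩
  · rcases ht with ht | ht
    · have ht' : t = 0 := ht
      subst ht'
      exact ⟨_, h0, ⟨PS_zero_mem_aux g, rfl⟩, ⟨hb, rfl⟩,
        hconn.isPreconnected.prod isPreconnected_singleton⟩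
    · have ht' : t = 1 := ht
      subst ht'
      refine ⟨({((0 : ℝ), (0 : ℝ))} : Set (ℝ × ℝ)) ×ˢ Icc (0 : ℝ) 1 ∪ PS g ×ˢ ({1} : Set ℝ),
        union_subset (h2 _ (PS_zero_frontier_aux g)) h1, Or.inl ⟨rfl, le_rfl, zero_le_one⟩,
        Or.inr ⟨hb, rfl⟩, ?_⟩
      exact IsPreconnected.union (((0 : ℝ), (0 : ℝ)), (1 : ℝ)) ⟨rfl, zero_le_one, le_rfl⟩
        ⟨PS_zero_mem_aux g, rfl⟩ (isPreconnected_singleton.prod isPreconnected_Icc)
        (hconn.isPreconnected.prod isPreconnected_singleton)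
  · have hbP : b ∈ PS g := by
      have := hb.1
      rwa [hc.isClosed.closure_eq] at this
    refine ⟨({b} : Set (ℝ × ℝ)) ×ˢ Icc (0 : ℝ) 1 ∪ PS g ×ˢ ({0} : Set ℝ),
        union_subset (h2 _ hb) h0, Or.inr ⟨PS_zero_mem_aux g, rfl⟩,
        Or.inl ⟨rfl, ht⟩, ?_⟩
    exact IsPreconnected.union (b, (0 : ℝ)) ⟨rfl, le_rfl, zero_le_one⟩
        ⟨hbP, rfl⟩ (isPreconnected_singleton.prod isPreconnected_Icc)
        (hconn.isPreconnected.prod isPreconnected_singleton)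

end X_HB_connected

alias HB_connected := X_HB_connected.HB_connected

end AltGenus
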