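import Pool.Agent.AltGenus.ChartDefs

open Set Topology Filter

namespace AltGenus

namespace X_height_bound
theorem height_bound {g : ℕ} {H : Heegaard g} (E : Collar H) (L : Set S3) (hL : IsClosed L)
    (hsub : L ⊆ range E.e) : ∃ T : ℝ, 0 < T ∧ ∀ s t, E.e (s, t) ∈ L → |t| < T := by
  have hLc : IsCompact L := hL.isCompact
  have h1 : IsCompact (E.e ⁻¹' L) := (E.emb.isInducing.isCompact_preimage_iff hsub).2 hLc
  have h2 : IsCompact ((fun p : H.Sig × ℝ => |p.2|) '' (E.e ⁻¹' L)) :=
    h1.image (continuous_abs.comp continuous_snd)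
  obtain ⟨B, hB⟩ := h2.bddAbove
  refine ⟨max B 0 + 1, by positivity, ?_⟩
  intro s t hst
  have h3 : |t| ≤ B := hB ⟨(s, t), hst, rfl⟩
  have h4 := le_max_left B 0
  linarith

end X_height_bound

alias height_bound := X_height_bound.height_bound

end AltGenus
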