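import Pool.Agent.AltGenus.ChartDefs

open Set Topology Filter

namespace AltGenus

/-! ### auxiliary -/
theorem isCompact_PS (g : ℕ) : IsCompact (PS g) := by
  apply IsCompact.of_isClosed_subset (s := Icc (0 : ℝ) (2 * g + 1) ×ˢ Icc (0 : ℝ) 3)
    (isCompact_Icc.prod isCompact_Icc)
  · have h : PS g = {v : ℝ × ℝ | 0 ≤ v.1} ∩ {v : ℝ × ℝ | v.1 ≤ 2 * g + 1} ∩ {v : ℝ × ℝ | 0 ≤ v.2} ∩
        {v : ℝ × ℝ | v.2 ≤ 3} ∩ ⋂ j : ℕ, ⋂ _ : j < g,
        {v : ℝ × ℝ | 2 * (j : ℝ) + 1 < v.1 ∧ v.1 < 2 * (j : ℝ) + 2 ∧ 1 < v.2 ∧ v.2 < 2}ᶜ := by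
      ext v
      simp only [PS, mem_setOf_eq, mem_inter_iff, mem_iInter, mem_compl_iff]
      tauto
    rw [h]
    refine IsClosed.inter (IsClosed.inter (IsClosed.inter (IsClosed.inter ?_ ?_) ?_) ?_) ?_
    · exact isClosed_le continuous_const continuous_fst
    · exact isClosed_le continuous_fst continuous_const
    · exact isClosed_le continuous_const continuous_snd
    · exact isClosed_le continuous_snd continuous_const
    · refine isClosed_iInter fun j => isClosed_iInter fun _ => ?_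
      refine IsOpen.isClosed_compl ?_
      exact (isOpen_lt continuous_const continuous_fst).inter
        ((isOpen_lt continuous_fst continuous_const).inter
          ((isOpen_lt continuous_const continuous_snd).inter
            (isOpen_lt continuous_snd continuous_const)))
  · rintro v ⟨h1, h2, h3, h4, _⟩
    exact ⟨⟨h1, h2⟩, ⟨h3, h4⟩⟩
theorem isCompact_HB (g : ℕ) : IsCompact (HB g) := (isCompact_PS g).prod isCompact_Icc

theorem Heegaard.isCompact_Wp {g : ℕ} (H : Heegaard g) : IsCompact H.Wp := by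
  haveI : CompactSpace (HB g) := isCompact_iff_compactSpace.1 (isCompact_HB g)
  haveI : CompactSpace H.Wp := H.hp.compactSpace
  exact isCompact_iff_compactSpace.2 inferInstance

theorem Heegaard.isCompact_Wm {g : ℕ} (H : Heegaard g) : IsCompact H.Wm := by
  haveI : CompactSpace (HB g) := isCompact_iff_compactSpace.1 (isCompact_HB g)
  haveI : CompactSpace H.Wm := H.hm.compactSpace
  exact isCompact_iff_compactSpace.2 inferInstance

theorem Heegaard.isCompact_Sig {g : ℕ} (H : Heegaard g) : IsCompact H.Sig := by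
  rw [← H.inter]
  exact H.isCompact_Wp.inter H.isCompact_Wm


theorem push_continuous {g : ℕ} {H : Heegaard g} (E : Collar H) (m : unitInterval × ℝ → ℝ)
    (hm : Continuous m) (T : ℝ) (hT : ∀ τ t, T ≤ t → m (τ, t) = t)
    (M : unitInterval × S3 → S3) (hM1 : ∀ τ s t, M (τ, E.e (s, t)) = E.e (s, m (τ, t)))
    (hM2 : ∀ τ v, v ∉ range E.e → M (τ, v) = v) :
    ContinuousOn M {p | p.2 ∈ H.Wp ∨ p.2 ∈ range E.e} := by
  rintro ⟨τ, v⟩ hp
  by_cases hv : v ∈ range E.e
  · obtain ⟨⟨s, t⟩, rfl⟩ := hv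
    refine ContinuousAt.continuousWithinAt ?_
    have hemb : IsOpenEmbedding (Prod.map (id : unitInterval → unitInterval) E.e) :=
      IsOpenEmbedding.id.prodMap E.emb
    have h1 : ContinuousAt (M ∘ Prod.map (id : unitInterval → unitInterval) E.e) (τ, (s, t)) := by
      have h2 : M ∘ Prod.map (id : unitInterval → unitInterval) E.e =
          fun q => E.e (q.2.1, m (q.1, q.2.2)) := by
        funext q
        obtain ⟨a, b, c⟩ := q
        exact hM1 a b c
      rw [h2]
      apply Continuous.continuousAt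
      exact E.emb.continuous.comp ((continuous_fst.comp continuous_snd).prodMk
        (hm.comp (continuous_fst.prodMk (continuous_snd.comp continuous_snd))))
    have h3 := hemb.continuousAt_iff.1 h1
    exact h3
  · have hvp : v ∈ H.Wp := by
      rcases hp with hp | hp
      · exact hp
      · exact absurd hp hv
    haveI : CompactSpace H.Sig := isCompact_iff_compactSpace.1 H.isCompact_Sig
    have hK : IsCompact (E.e '' ((univ : Set H.Sig) ×ˢ Icc (0 : ℝ) T)) :=
      (isCompact_univ.prod isCompact_Icc).image E.emb.continuous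
    have hU : IsOpen (H.Wm ∪ E.e '' ((univ : Set H.Sig) ×ˢ Icc (0 : ℝ) T))ᶜ :=
      (H.isCompact_Wm.isClosed.union hK.isClosed).isOpen_compl
    have hvU : v ∈ (H.Wm ∪ E.e '' ((univ : Set H.Sig) ×ˢ Icc (0 : ℝ) T))ᶜ := by
      rintro (h | h)
      · have hs : v ∈ H.Sig := by
          rw [← H.inter]
          exact ⟨hvp, h⟩
        exact hv ⟨(⟨v, hs⟩, 0), E.zero ⟨v, hs⟩⟩
      · obtain ⟨q, _, hq⟩ := h
        exact hv ⟨q, hq⟩
    have hev : ∀ᶠ p in 𝓝[{p : unitInterval × S3 | p.2 ∈ H.Wp ∨ p.2 ∈ range E.e}] (τ, v),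
        p.2 = M p := by
      have h1 : ∀ᶠ p in 𝓝 (τ, v), p.2 ∈ (H.Wm ∪ E.e '' ((univ : Set H.Sig) ×ˢ Icc (0 : ℝ) T))ᶜ :=
        (continuous_snd.tendsto (τ, v)).eventually (hU.mem_nhds hvU)
      filter_upwards [nhdsWithin_le_nhds h1] with p hp1
      obtain ⟨σ, w⟩ := p
      by_cases hw : w ∈ range E.e
      · obtain ⟨⟨s, t⟩, rfl⟩ := hw
        have ht0 : 0 < t := by
          by_contra hcon
          exact hp1 (Or.inl (E.neg s t (not_lt.1 hcon)))
        have htT : T < t := by
          by_contra hcon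
          exact hp1 (Or.inr ⟨(s, t), ⟨mem_univ _, ht0.le, not_lt.1 hcon⟩, rfl⟩)
        show E.e (s, t) = M (σ, E.e (s, t))
        rw [hM1, hT σ t htT.le]
      · exact (hM2 σ w hw).symm
    refine ContinuousWithinAt.congr_of_eventuallyEq
      (f := fun p : unitInterval × S3 => p.2) continuous_snd.continuousWithinAt ?_ ?_
    · filter_upwards [hev] with p hp1
      exact hp1.symm
    · exact hM2 τ v hv



end AltGenus
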