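import Pool.Agent.AltGenus.ChartDefs

open Set Topology Filter

namespace AltGenus

namespace X_S0_connected
noncomputable def S0_F (p : ℂ × ℂ) : EuclideanSpace ℝ (Fin 4) :=
  WithLp.toLp 2 ![p.1.re, p.1.im, p.2.re, p.2.im]

theorem S0_F_cont : Continuous S0_F := by
  unfold S0_F
  refine (PiLp.continuous_toLp 2 _).comp (continuous_pi fun i => ?_)
  fin_cases i <;> simp <;> fun_prop

theorem S0_F_norm (p : ℂ × ℂ) : ‖S0_F p‖ ^ 2 = ‖p.1‖ ^ 2 + ‖p.2‖ ^ 2 := by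
  rw [EuclideanSpace.norm_sq_eq, Fin.sum_univ_four, ← Complex.normSq_eq_norm_sq,
    ← Complex.normSq_eq_norm_sq, Complex.normSq_apply, Complex.normSq_apply]
  simp [S0_F]
  ring

noncomputable def S0_R (c : ℂ) : ℝ := (√(1 + 2 * ‖c‖) + √(1 - 2 * ‖c‖)) / 2

theorem S0_R_pos (c : ℂ) : 0 < S0_R c := by
  unfold S0_R
  have h1 : 0 < √(1 + 2 * ‖c‖) := Real.sqrt_pos.2 (by positivity)
  have h2 := Real.sqrt_nonneg (1 - 2 * ‖c‖)
  linarith

theorem S0_R_cont : Continuous S0_R := by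
  unfold S0_R
  fun_prop

theorem S0_R_eq (c : ℂ) (hc : ‖c‖ ≤ 1 / 2) : S0_R c ^ 2 + (‖c‖ / S0_R c) ^ 2 = 1 := by
  have ha : √(1 + 2 * ‖c‖) ^ 2 = 1 + 2 * ‖c‖ := Real.sq_sqrt (by positivity)
  have hb : √(1 - 2 * ‖c‖) ^ 2 = 1 - 2 * ‖c‖ := Real.sq_sqrt (by linarith)
  have hR := S0_R_pos c
  have h : ‖c‖ / S0_R c = (√(1 + 2 * ‖c‖) - √(1 - 2 * ‖c‖)) / 2 := by
    rw [div_eq_iff hR.ne']
    unfold S0_R
    linear_combination (-1 / 4) * ha + (1 / 4) * hb
  rw [h]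
  unfold S0_R
  linear_combination (1 / 2) * ha + (1 / 2) * hb

/-- the disk without the walls -/
def S0_D (n : ℕ) : Set ℂ := {c | ‖c‖ ≤ 1 / 2 ∧ ¬ (0 ≤ c.re ∧ ∃ i : Fin n, 2 * n * c.im = (i : ℝ))}

/-- the ambient form of the set -/
def S0_S (n : ℕ) : Set (EuclideanSpace ℝ (Fin 4)) :=
  Subtype.val '' {v : S3 | ¬ (0 ≤ (kap n v).1 ∧ ∃ i : Fin n, (kap n v).2 = (i : ℝ))}

theorem S0_mem (n : ℕ) (z w : ℂ) (h : ‖z‖ ^ 2 + ‖w‖ ^ 2 = 1)
    (hd : ¬ (0 ≤ (z * w).re ∧ ∃ i : Fin n, 2 * n * (z * w).im = (i : ℝ))) :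
    S0_F (z, w) ∈ S0_S n := by
  have h1 : ‖S0_F (z, w)‖ = 1 := by
    have := S0_F_norm (z, w)
    simp only at this
    rw [h] at this
    have h0 := norm_nonneg (S0_F (z, w))
    nlinarith
  refine ⟨⟨S0_F (z, w), mem_sphere_zero_iff_norm.2 h1⟩, ?_, rfl⟩
  simpa [kap, S0_F, Complex.mul_re, Complex.mul_im] using hd

theorem S0_repr (v : S3) : ∃ z w : ℂ, ‖z‖ ^ 2 + ‖w‖ ^ 2 = 1 ∧ (v : EuclideanSpace ℝ (Fin 4)) =
    S0_F (z, w) := by
  refine ⟨⟨v.1 0, v.1 1⟩, ⟨v.1 2, v.1 3⟩, ?_, ?_⟩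
  · have h1 : ‖v.1‖ = 1 := mem_sphere_zero_iff_norm.1 v.2
    have h2 : ‖v.1‖ ^ 2 = 1 := by rw [h1]; norm_num
    rw [EuclideanSpace.norm_sq_eq, Fin.sum_univ_four] at h2
    rw [← Complex.normSq_eq_norm_sq,
      ← Complex.normSq_eq_norm_sq, Complex.normSq_apply, Complex.normSq_apply]
    simp only [Real.norm_eq_abs, sq_abs] at h2
    simp only
    linarith
  · ext i
    fin_cases i <;> simp [S0_F]

noncomputable def S0_T1 (p : ℂ × ℂ) : ℂ × ℂ := (S0_R p.2 * p.1, p.2 / (S0_R p.2 * p.1))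
noncomputable def S0_T2 (p : ℂ × ℂ) : ℂ × ℂ := (p.2 / (S0_R p.2 * p.1), S0_R p.2 * p.1)

theorem S0_T1_cont (s : Set (ℂ × ℂ)) (hs : ∀ p ∈ s, ‖p.1‖ = 1) : ContinuousOn S0_T1 s := by
  have h1 : Continuous fun p : ℂ × ℂ => ((S0_R p.2 : ℂ)) :=
    Complex.continuous_ofReal.comp (S0_R_cont.comp continuous_snd)
  have h2 : Continuous fun p : ℂ × ℂ => ((S0_R p.2 : ℂ) * p.1) := h1.mul continuous_fst
  refine h2.continuousOn.prodMk (continuous_snd.continuousOn.div h2.continuousOn fun p hp => ?_)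
  refine mul_ne_zero (Complex.ofReal_ne_zero.2 (S0_R_pos _).ne') ?_
  rw [← norm_ne_zero_iff, hs p hp]; norm_num

theorem S0_T2_cont (s : Set (ℂ × ℂ)) (hs : ∀ p ∈ s, ‖p.1‖ = 1) : ContinuousOn S0_T2 s :=
  continuous_swap.comp_continuousOn (S0_T1_cont s hs)

theorem S0_T_prod (u c : ℂ) (hu : ‖u‖ = 1) : (S0_R c * u) * (c / (S0_R c * u)) = c := by
  have h1 : (S0_R c : ℂ) * u ≠ 0 := by
    refine mul_ne_zero (Complex.ofReal_ne_zero.2 (S0_R_pos _).ne') ?_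
    rw [← norm_ne_zero_iff, hu]; norm_num
  exact mul_div_cancel₀ c h1

theorem S0_T_norm (u c : ℂ) (hu : ‖u‖ = 1) (hc : ‖c‖ ≤ 1 / 2) :
    ‖(S0_R c * u)‖ ^ 2 + ‖(c / (S0_R c * u))‖ ^ 2 = 1 := by
  rw [norm_div, norm_mul, hu, mul_one, Complex.norm_real, Real.norm_of_nonneg (S0_R_pos c).le]
  exact S0_R_eq c hc

theorem S0_T1_mem (n : ℕ) (u c : ℂ) (hu : ‖u‖ = 1) (hc : c ∈ S0_D n) :
    S0_F (S0_T1 (u, c)) ∈ S0_S n := by
  unfold S0_T1
  simp only
  refine S0_mem n _ _ (S0_T_norm u c hu hc.1) ?_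
  rw [S0_T_prod u c hu]
  exact hc.2

theorem S0_T2_mem (n : ℕ) (u c : ℂ) (hu : ‖u‖ = 1) (hc : c ∈ S0_D n) :
    S0_F (S0_T2 (u, c)) ∈ S0_S n := by
  unfold S0_T2
  simp only
  refine S0_mem n _ _ (by rw [add_comm]; exact S0_T_norm u c hu hc.1) ?_
  rw [mul_comm, S0_T_prod u c hu]
  exact hc.2

theorem S0_R_val (z w : ℂ) (h : ‖z‖ ^ 2 + ‖w‖ ^ 2 = 1) (hzw : ‖w‖ ≤ ‖z‖) :
    S0_R (z * w) = ‖z‖ := by
  unfold S0_R
  rw [norm_mul]
  have h1 : (1 : ℝ) + 2 * (‖z‖ * ‖w‖) = (‖z‖ + ‖w‖) ^ 2 := by rw [← h]; ring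
  have h2 : (1 : ℝ) - 2 * (‖z‖ * ‖w‖) = (‖z‖ - ‖w‖) ^ 2 := by rw [← h]; ring
  rw [h1, h2, Real.sqrt_sq (by positivity), Real.sqrt_sq (by linarith)]
  ring

theorem S0_disk (z w : ℂ) (h : ‖z‖ ^ 2 + ‖w‖ ^ 2 = 1) : ‖z * w‖ ≤ 1 / 2 := by
  rw [norm_mul]
  nlinarith [sq_nonneg (‖z‖ - ‖w‖)]

theorem S0_T1_surj (z w : ℂ) (h : ‖z‖ ^ 2 + ‖w‖ ^ 2 = 1) (hzw : ‖w‖ ≤ ‖z‖) :
    ∃ u : ℂ, ‖u‖ = 1 ∧ S0_T1 (u, z * w) = (z, w) := by
  have hz : ‖z‖ ≠ 0 := by
    intro h0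
    rw [h0] at h hzw
    have : ‖w‖ = 0 := le_antisymm hzw (norm_nonneg _)
    rw [this] at h
    norm_num at h
  have hz' : z ≠ 0 := norm_ne_zero_iff.1 hz
  have hzc : (‖z‖ : ℂ) ≠ 0 := Complex.ofReal_ne_zero.2 hz
  refine ⟨z / ‖z‖, ?_, ?_⟩
  · rw [norm_div, Complex.norm_real, norm_norm, div_self hz]
  · unfold S0_T1
    simp only [S0_R_val z w h hzw]
    have e : (‖z‖ : ℂ) * (z / ‖z‖) = z := by field_simp
    rw [e]
    congr 1
    field_simp

theorem S0_T2_eq (p : ℂ × ℂ) : S0_T2 p = (S0_T1 p).swap := rfl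

theorem S0_cover (n : ℕ) (x : EuclideanSpace ℝ (Fin 4)) (hx : x ∈ S0_S n) :
    ∃ u c : ℂ, ‖u‖ = 1 ∧ c ∈ S0_D n ∧ (x = S0_F (S0_T1 (u, c)) ∨ x = S0_F (S0_T2 (u, c))) := by
  obtain ⟨v, hv, rfl⟩ := hx
  obtain ⟨z, w, h, hvz⟩ := S0_repr v
  have hmem : z * w ∈ S0_D n := by
    refine ⟨S0_disk z w h, ?_⟩
    simp only [mem_setOf_eq, kap, hvz] at hv
    simpa [S0_F, Complex.mul_re, Complex.mul_im] using hv
  rcases le_total ‖w‖ ‖z‖ with hl | hl
  · obtain ⟨u, hu, he⟩ := S0_T1_surj z w h hl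
    exact ⟨u, z * w, hu, hmem, Or.inl (by rw [he]; exact hvz)⟩
  · obtain ⟨u, hu, he⟩ := S0_T1_surj w z (by rw [add_comm]; exact h) hl
    rw [mul_comm] at he
    exact ⟨u, z * w, hu, hmem, Or.inr (by rw [S0_T2_eq, he]; exact hvz)⟩

theorem S0_D_base (n : ℕ) : (-(1 / 2) : ℂ) ∈ S0_D n := by
  refine ⟨?_, ?_⟩
  · simp
  · rintro ⟨h, -⟩
    norm_num at h

theorem S0_D_conn (n : ℕ) : IsPreconnected (S0_D n) := by
  have hconv : Convex ℝ {c : ℂ | ‖c‖ ≤ 1 / 2} := by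
    have h1 : {c : ℂ | ‖c‖ ≤ 1 / 2} = Metric.closedBall 0 (1 / 2) := by
      ext c; simp
    rw [h1]
    exact convex_closedBall (0 : ℂ) (1 / 2)
  have hneg : ∀ c : ℂ, c ∈ S0_D n → c.re ≤ 0 → segment ℝ (-(1 / 2) : ℂ) c ⊆ S0_D n := by
    intro c hc hre x hx
    refine ⟨hconv.segment_subset (S0_D_base n).1 hc.1 hx, ?_⟩
    obtain ⟨a, b, ha, hb, hab, rfl⟩ := hx
    rintro ⟨h0, i, hi⟩
    simp only [Complex.add_re, Complex.real_smul, Complex.mul_re, Complex.neg_re,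
      Complex.ofReal_re, Complex.ofReal_im] at h0
    norm_num at h0
    have ha0 : a = 0 := by nlinarith [mul_nonneg hb (neg_nonneg.2 hre)]
    subst ha0
    have hb1 : b = 1 := by linarith
    subst hb1
    simp only [zero_smul, one_smul, zero_add] at hi
    refine hc.2 ⟨?_, i, hi⟩
    simpa using h0
  refine isPreconnected_of_forall (-(1 / 2) : ℂ) fun c hc => ?_
  rcases le_total c.re 0 with hre | hre
  · exact ⟨_, hneg c hc hre, left_mem_segment ℝ _ _, right_mem_segment ℝ _ _,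
      (convex_segment _ _).isPreconnected⟩
  · set c' : ℂ := ⟨0, c.im⟩ with hc'
    have hc'D : c' ∈ S0_D n := by
      refine ⟨?_, ?_⟩
      · have h1 : ‖c'‖ = |c.im| := by
          have : c' = (c.im : ℂ) * Complex.I := by
            apply Complex.ext <;> simp [hc']
          rw [this, norm_mul, Complex.norm_I, mul_one, Complex.norm_real, Real.norm_eq_abs]
        rw [h1]
        exact (Complex.abs_im_le_norm c).trans hc.1
      · rintro ⟨-, i, hi⟩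
        exact hc.2 ⟨hre, i, hi⟩
    have hseg : segment ℝ c' c ⊆ S0_D n := by
      intro x hx
      refine ⟨hconv.segment_subset hc'D.1 hc.1 hx, ?_⟩
      obtain ⟨a, b, ha, hb, hab, rfl⟩ := hx
      rintro ⟨h0, i, hi⟩
      refine hc.2 ⟨hre, i, ?_⟩
      rw [← hi]
      simp only [Complex.add_im, Complex.real_smul, Complex.mul_im, Complex.ofReal_re,
        Complex.ofReal_im, hc']
      have : a * c.im + 0 * 0 + (b * c.im + 0 * c.re) = c.im := by
        rw [zero_mul, zero_mul, add_zero, add_zero, ← add_mul, hab, one_mul]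
      rw [this]
    refine ⟨segment ℝ (-(1 / 2) : ℂ) c' ∪ segment ℝ c' c,
      union_subset (hneg c' hc'D le_rfl) hseg, Or.inl (left_mem_segment ℝ _ _),
      Or.inr (right_mem_segment ℝ _ _), ?_⟩
    exact IsPreconnected.union c' (right_mem_segment ℝ _ _) (left_mem_segment ℝ _ _)
      (convex_segment _ _).isPreconnected (convex_segment _ _).isPreconnected

theorem S0_circ : IsPreconnected (Metric.sphere (0 : ℂ) 1) :=
  (isPreconnected_sphere (by simp [Complex.rank_real_complex]) 0 1)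

theorem S0_S_conn (n : ℕ) : IsPreconnected (S0_S n) := by
  set dom : Set (ℂ × ℂ) := Metric.sphere (0 : ℂ) 1 ×ˢ S0_D n with hdom
  have hd : IsPreconnected dom := S0_circ.prod (S0_D_conn n)
  have hn : ∀ p ∈ dom, ‖p.1‖ = 1 := fun p hp => mem_sphere_zero_iff_norm.1 hp.1
  have h1 : IsPreconnected ((fun p => S0_F (S0_T1 p)) '' dom) :=
    hd.image _ (S0_F_cont.comp_continuousOn (S0_T1_cont dom hn))
  have h2 : IsPreconnected ((fun p => S0_F (S0_T2 p)) '' dom) :=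
    hd.image _ (S0_F_cont.comp_continuousOn (S0_T2_cont dom hn))
  have hS : S0_S n = ((fun p => S0_F (S0_T1 p)) '' dom) ∪ ((fun p => S0_F (S0_T2 p)) '' dom) := by
    ext x
    constructor
    · intro hx
      obtain ⟨u, c, hu, hc, h | h⟩ := S0_cover n x hx
      · exact Or.inl ⟨(u, c), ⟨mem_sphere_zero_iff_norm.2 hu, hc⟩, h.symm⟩
      · exact Or.inr ⟨(u, c), ⟨mem_sphere_zero_iff_norm.2 hu, hc⟩, h.symm⟩
    · rintro (⟨⟨u, c⟩, ⟨hu, hc⟩, rfl⟩ | ⟨⟨u, c⟩, ⟨hu, hc⟩, rfl⟩)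
      · exact S0_T1_mem n u c (mem_sphere_zero_iff_norm.1 hu) hc
      · exact S0_T2_mem n u c (mem_sphere_zero_iff_norm.1 hu) hc
  rw [hS]
  have hR : S0_R (-(1 / 2)) ^ 2 = 1 / 2 := by
    unfold S0_R
    have h3 : ‖(-(1 / 2) : ℂ)‖ = 1 / 2 := by simp
    rw [h3]
    norm_num
    rw [div_pow, Real.sq_sqrt (by norm_num)]
    norm_num
  have hRc : (S0_R (-(1 / 2)) : ℂ) ^ 2 = 1 / 2 := by
    rw [← Complex.ofReal_pow, hR]; norm_num
  have hR0 : (S0_R (-(1 / 2)) : ℂ) ≠ 0 := Complex.ofReal_ne_zero.2 (S0_R_pos _).ne'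
  refine IsPreconnected.union (S0_F (S0_T1 (1, -(1 / 2)))) ?_ ?_ h1 h2
  · exact ⟨(1, -(1 / 2)), ⟨by simp, S0_D_base n⟩, rfl⟩
  · refine ⟨(-1, -(1 / 2)), ⟨by simp, S0_D_base n⟩, ?_⟩
    simp only [S0_T1, S0_T2]
    congr 1
    ext1
    · simp only
      field_simp
      linear_combination (-2) * hRc
    · simp only
      field_simp
      linear_combination (-2) * hRc

theorem S0_S_dense (n : ℕ) (v : S3) : (v : EuclideanSpace ℝ (Fin 4)) ∈ closure (S0_S n) := by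
  obtain ⟨z, w, h, hvz⟩ := S0_repr v
  by_cases hv : z * w ∈ S0_D n
  · rw [hvz]
    exact subset_closure (S0_mem n z w h hv.2)
  · have hc := S0_disk z w h
    set c := z * w with hcdef
    have hv2 : 0 ≤ c.re ∧ ∃ i : Fin n, 2 * n * c.im = (i : ℝ) := by
      by_contra h3
      exact hv ⟨hc, h3⟩
    obtain ⟨h0, i, hi⟩ := hv2
    have hn : 0 < n := i.pos
    -- the path
    set γ : ℝ → ℂ := fun s => (1 - s : ℂ) * c + (s : ℂ) * (-(Complex.I / 2)) with hγ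
    have hγc : Continuous γ := by
      rw [hγ]; fun_prop
    have hγ0 : γ 0 = c := by simp [hγ]
    have hγD : ∀ s : ℝ, 0 < s → s < 1 / (2 * n) → γ s ∈ S0_D n := by
      intro s hs0 hs1
      have hn' : (1 : ℝ) ≤ n := by exact_mod_cast hn
      have hs2 : s * (2 * n) < 1 := by
        rwa [lt_div_iff₀ (by positivity)] at hs1
      have hs3 : s < 1 := by nlinarith
      refine ⟨?_, ?_⟩
      · calc ‖γ s‖ ≤ ‖(1 - s : ℂ) * c‖ + ‖(s : ℂ) * (-(Complex.I / 2))‖ := norm_add_le _ _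
          _ = (1 - s) * ‖c‖ + s * (1 / 2) := by
              rw [norm_mul _ c, norm_mul _ (-(Complex.I / 2)), norm_neg, norm_div, Complex.norm_I,
                Complex.norm_real, Real.norm_of_nonneg hs0.le]
              have : ‖(1 - s : ℂ)‖ = 1 - s := by
                rw [← Complex.ofReal_one, ← Complex.ofReal_sub, Complex.norm_real,
                  Real.norm_of_nonneg (by linarith)]
              rw [this]
              norm_num
          _ ≤ 1 / 2 := by nlinarith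
      · rintro ⟨-, j, hj⟩
        have him : (γ s).im = (1 - s) * c.im - s / 2 := by
          simp [hγ]; ring
        rw [him] at hj
        have hij : (j : ℝ) = (i : ℝ) - s * ((i : ℝ) + n) := by
          rw [← hj, ← hi]; ring
        have hil : ((i : ℕ) : ℝ) < n := by exact_mod_cast i.2
        have hi0 : (0 : ℝ) ≤ ((i : ℕ) : ℝ) := Nat.cast_nonneg _
        have l1 : ((j : ℕ) : ℝ) < ((i : ℕ) : ℝ) := by
          have : 0 < s * (((i : ℕ) : ℝ) + n) := by positivity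
          linarith
        have l2 : ((i : ℕ) : ℝ) - 1 < ((j : ℕ) : ℝ) := by
          have : s * (((i : ℕ) : ℝ) + n) < s * (2 * n) := by
            apply mul_lt_mul_of_pos_left _ hs0
            linarith
          linarith
        have l1' : (j : ℕ) < (i : ℕ) := by exact_mod_cast l1
        have l2' : ((i : ℕ) : ℝ) < ((j : ℕ) : ℝ) + 1 := by linarith
        have l3' : (i : ℕ) < (j : ℕ) + 1 := by exact_mod_cast l2'
        omega
    have hev : ∀ᶠ s in 𝓝[>] (0 : ℝ), γ s ∈ S0_D n := by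
      have hpos : (0 : ℝ) < 1 / (2 * n) := by
        have : (0 : ℝ) < n := by exact_mod_cast hn
        positivity
      filter_upwards [Ioo_mem_nhdsGT hpos] with s hs
      exact hγD s hs.1 hs.2
    have hγt : Tendsto γ (𝓝[>] (0 : ℝ)) (𝓝 c) := by
      have := (hγc.tendsto 0).mono_left (nhdsWithin_le_nhds (s := Ioi (0 : ℝ)))
      rwa [hγ0] at this
    rcases le_total ‖w‖ ‖z‖ with hl | hl
    · obtain ⟨u, hu, he⟩ := S0_T1_surj z w h hl
      have hcont : ContinuousAt (fun c' : ℂ => S0_F (S0_T1 (u, c'))) c := by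
        have h5 : Continuous fun c' : ℂ => S0_F (S0_T1 (u, c')) := by
          refine S0_F_cont.comp ?_
          rw [← continuousOn_univ]
          exact (S0_T1_cont {p | ‖p.1‖ = 1} fun p hp => hp).comp
            (Continuous.continuousOn (by fun_prop)) fun p _ => hu
        exact h5.continuousAt
      rw [hvz, ← he]
      refine mem_closure_of_tendsto (hcont.tendsto.comp hγt) ?_
      filter_upwards [hev] with s hs
      exact S0_T1_mem n u _ hu hs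
    · obtain ⟨u, hu, he⟩ := S0_T1_surj w z (by rw [add_comm]; exact h) hl
      rw [mul_comm, ← hcdef] at he
      have hcont : ContinuousAt (fun c' : ℂ => S0_F (S0_T2 (u, c'))) c := by
        have h5 : Continuous fun c' : ℂ => S0_F (S0_T2 (u, c')) := by
          refine S0_F_cont.comp ?_
          rw [← continuousOn_univ]
          exact (S0_T2_cont {p | ‖p.1‖ = 1} fun p hp => hp).comp
            (Continuous.continuousOn (by fun_prop)) fun p _ => hu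
        exact h5.continuousAt
      have he2 : S0_T2 (u, c) = (z, w) := by rw [S0_T2_eq, he]; rfl
      rw [hvz, ← he2]
      refine mem_closure_of_tendsto (hcont.tendsto.comp hγt) ?_
      filter_upwards [hev] with s hs
      exact S0_T2_mem n u _ hu hs

theorem S0_connected (n : ℕ) :
    IsPreconnected {v : S3 | ¬ (0 ≤ (kap n v).1 ∧ ∃ i : Fin n, (kap n v).2 = (i : ℝ))} ∧
    Dense {v : S3 | ¬ (0 ≤ (kap n v).1 ∧ ∃ i : Fin n, (kap n v).2 = (i : ℝ))} := by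
  constructor
  · exact Topology.IsInducing.subtypeVal.isPreconnected_image.1 (S0_S_conn n)
  · intro v
    exact closure_subtype.2 (S0_S_dense n v)

end X_S0_connected

alias S0_connected := X_S0_connected.S0_connected

end AltGenus
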