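import Pool.Agent.AltGenus.ChartDefs

open Set Topology Filter

namespace AltGenus

namespace X_cyclic_sum
theorem cyclic_sum_const (v : ℝ → ℝ) (a b : ℝ)
    (hloc : ∀ t ∈ Ioo a b, ∀ᶠ u in 𝓝 t, v u = v t) :
    ∀ x ∈ Ioo a b, ∀ y ∈ Ioo a b, v x = v y := by
  intro x hx y hy
  have hd : ∀ t ∈ Ioo a b, HasDerivAt v 0 t := by
    intro t ht
    have h1 : HasDerivAt (fun _ : ℝ => v t) 0 t := hasDerivAt_const t (v t)
    exact h1.congr_of_eventuallyEq (hloc t ht)
  refine IsOpen.is_const_of_deriv_eq_zero isOpen_Ioo isPreconnected_Ioo ?_ ?_ hx hy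
  · intro t ht
    exact (hd t ht).differentiableAt.differentiableWithinAt
  · intro t ht
    exact (hd t ht).deriv
theorem cyclic_sum_match (v : ℝ → ℝ) (a b A B : ℝ) (hab : a < b)
    (hloc : ∀ t ∈ Ioo a b, ∀ᶠ u in 𝓝 t, v u = v t)
    (ha : ∀ᶠ u in 𝓝[>] a, v u = A) (hb : ∀ᶠ u in 𝓝[<] b, v u = B) : A = B := by
  obtain ⟨x, hx1, hx2⟩ := (ha.and (Ioo_mem_nhdsGT hab)).exists
  obtain ⟨y, hy1, hy2⟩ := (hb.and (Ioo_mem_nhdsLT hab)).exists
  rw [← hx1, ← hy1]
  exact cyclic_sum_const v a b hloc x hx2 y hy2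


theorem cyclic_sum (T : Finset ℝ) (hT : ∀ t ∈ T, 0 ≤ t ∧ t < 1) (v vm vp δ : ℝ → ℝ)
    (hv : ∀ t, v (t + 1) = v t) (hδ : ∀ t, δ (t + 1) = δ t)
    (hloc : ∀ t : ℝ, (¬ ∃ s ∈ T, ∃ m : ℤ, t = s + m) → ∀ᶠ u in 𝓝 t, v u = v t)
    (hm : ∀ t ∈ T, ∀ᶠ u in 𝓝[<] t, v u = vm t)
    (hp : ∀ t ∈ T, ∀ᶠ u in 𝓝[>] t, v u = vp t)
    (hδ1 : ∀ t t' : ℝ, t < t' → (∃ s ∈ T, ∃ m : ℤ, t = s + m) →
      (∃ s ∈ T, ∃ m : ℤ, t' = s + m) →
      (∀ u, t < u → u < t' → ¬ ∃ s ∈ T, ∃ m : ℤ, u = s + m) → δ t' = - δ t) :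
    ∑ t ∈ T, δ t * (vm t + vp t) = 0 := by
  classical
  -- matching for two consecutive points
  have key : ∀ a ∈ T, ∀ c ∈ T, ∀ b, (b = c ∨ b = c + 1) → a < b →
      (∀ u, a < u → u < b → ¬ ∃ s ∈ T, ∃ m : ℤ, u = s + m) →
      vp a = vm c ∧ δ c = - δ a := by
    intro a ha c hc b hb hab hno
    constructor
    · refine cyclic_sum_match v a b _ _ hab (fun t ht => hloc t (hno t ht.1 ht.2)) (hp a ha) ?_
      rcases hb with rfl | rfl
      · exact hm b hc
      · have h1 : Tendsto (fun u : ℝ => u - 1) (𝓝[<] (c + 1)) (𝓝[<] c) := by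
          apply tendsto_nhdsWithin_iff.2
          constructor
          · have h2 : Tendsto (fun u : ℝ => u - 1) (𝓝 (c + 1)) (𝓝 (c + 1 - 1)) :=
              (continuous_id.sub continuous_const).tendsto (c + 1)
            rw [add_sub_cancel_right] at h2
            exact h2.mono_left nhdsWithin_le_nhds
          · filter_upwards [self_mem_nhdsWithin] with u hu
            have : u < c + 1 := hu
            show u - 1 < c
            linarith
        filter_upwards [h1.eventually (hm c hc)] with u hu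
        rw [← hu, ← hv (u - 1), sub_add_cancel]
    · have h1 := hδ1 a b hab ⟨a, ha, 0, by simp⟩ (by
        rcases hb with rfl | rfl
        · exact ⟨b, hc, 0, by simp⟩
        · exact ⟨c, hc, 1, by simp⟩) hno
      rcases hb with rfl | rfl
      · exact h1
      · rw [← hδ c]; exact h1
  rcases Nat.eq_zero_or_pos T.card with h0 | hpos
  · rw [Finset.card_eq_zero.1 h0]; simp
  obtain ⟨k, hk⟩ := Nat.exists_eq_succ_of_ne_zero hpos.ne'
  have hk' : T.card = k + 1 := hk
  set t : Fin (k + 1) ↪o ℝ := T.orderEmbOfFin hk' with ht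
  have htT : ∀ i, t i ∈ T := fun i => Finset.orderEmbOfFin_mem T hk' i
  have htr : ∀ s ∈ T, ∃ i, t i = s := by
    intro s hs
    have := Finset.range_orderEmbOfFin T hk'
    have h2 : s ∈ Set.range (T.orderEmbOfFin hk') := by rw [this]; exact hs
    exact h2
  have hsum : ∀ f : ℝ → ℝ, ∑ s ∈ T, f s = ∑ i : Fin (k + 1), f (t i) := by
    intro f
    conv_lhs => rw [← Finset.image_orderEmbOfFin_univ T hk']
    rw [Finset.sum_image]
    intro i _ j _ hij
    exact t.injective hij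
  -- points between
  have hstep : ∀ i : Fin (k + 1), vp (t i) = vm (t (i + 1)) ∧ δ (t (i + 1)) = - δ (t i) := by
    intro i
    by_cases hi : i = Fin.last k
    · subst hi
      have h1 : Fin.last k + 1 = 0 := Fin.last_add_one k
      rw [h1]
      refine key _ (htT _) _ (htT _) (t 0 + 1) (Or.inr rfl) ?_ ?_
      · have h2 := (hT _ (htT (Fin.last k))).2
        have h3 := (hT _ (htT 0)).1
        linarith
      · rintro u hu1 hu2 ⟨s, hs, m, rfl⟩
        obtain ⟨j, rfl⟩ := htr s hs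
        obtain ⟨h2, h3⟩ := hT _ (htT j)
        obtain ⟨h4, h5⟩ := hT _ (htT (Fin.last k))
        obtain ⟨h6, h7⟩ := hT _ (htT 0)
        have h8 : t j ≤ t (Fin.last k) := t.monotone (Fin.le_last j)
        have h9 : t 0 ≤ t j := t.monotone (Fin.zero_le j)
        have h10 : (0 : ℝ) < m := by linarith
        have h11 : (m : ℝ) < 1 := by linarith
        have h12 : (0 : ℤ) < m := by exact_mod_cast h10
        have h13 : m < (1 : ℤ) := by exact_mod_cast h11
        omega
    · have hi' : i < Fin.last k := lt_of_le_of_ne (Fin.le_last i) hi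
      have hlt : i < i + 1 := by
        rw [Fin.lt_def, Fin.val_add_one_of_lt hi']
        omega
      refine key _ (htT _) _ (htT _) (t (i + 1)) (Or.inl rfl) (t.strictMono hlt) ?_
      rintro u hu1 hu2 ⟨s, hs, m, rfl⟩
      obtain ⟨j, rfl⟩ := htr s hs
      obtain ⟨h2, h3⟩ := hT _ (htT j)
      obtain ⟨h4, h5⟩ := hT _ (htT i)
      obtain ⟨h6, h7⟩ := hT _ (htT (i + 1))
      have h10 : (-1 : ℝ) < m := by linarith
      have h11 : (m : ℝ) < 1 := by linarith
      have h12 : (-1 : ℤ) < m := by exact_mod_cast h10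
      have h13 : m < (1 : ℤ) := by exact_mod_cast h11
      have h14 : m = 0 := by omega
      subst h14
      simp only [Int.cast_zero, add_zero] at hu1 hu2
      have h15 : i < j := t.lt_iff_lt.1 hu1
      have h16 : j < i + 1 := t.lt_iff_lt.1 hu2
      rw [Fin.lt_def] at h15 h16
      rw [Fin.val_add_one_of_lt hi'] at h16
      omega
  rw [hsum (fun s => δ s * (vm s + vp s))]
  have h1 : ∑ i : Fin (k + 1), δ (t i) * vp (t i) =
      - ∑ i : Fin (k + 1), δ (t i) * vm (t i) := by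
    have h2 : ∑ i : Fin (k + 1), δ (t i) * vm (t i) =
        ∑ i : Fin (k + 1), δ (t (i + 1)) * vm (t (i + 1)) :=
      (Equiv.sum_comp (Equiv.addRight (1 : Fin (k + 1)))
        (fun i => δ (t i) * vm (t i))).symm
    rw [h2, ← Finset.sum_neg_distrib]
    refine Finset.sum_congr rfl fun i _ => ?_
    rw [(hstep i).1, (hstep i).2]
    ring
  have h3 : ∑ i : Fin (k + 1), δ (t i) * (vm (t i) + vp (t i)) =
      ∑ i : Fin (k + 1), δ (t i) * vm (t i) + ∑ i : Fin (k + 1), δ (t i) * vp (t i) := by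
    rw [← Finset.sum_add_distrib]
    exact Finset.sum_congr rfl fun i _ => by ring
  rw [h3, h1]
  ring

end X_cyclic_sum

alias cyclic_sum := X_cyclic_sum.cyclic_sum

end AltGenus
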