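import Pool.Agent.AltGenus.ChartDefs
import Pool.Agent.AltGenus.P_cyclic_sum

open Set Topology Filter

namespace AltGenus

namespace X_count
theorem heights_h411 {g : ℕ} {H : Heegaard g} {E : Collar H} {L : Set S3} (D : Diagram E L) :
    ∃ ho hu : H.Sig → ℝ, (∀ s ∈ D.cross, hu s < ho s ∧
      ∀ t, E.e (s, t) ∈ L ↔ t = ho s ∨ t = hu s) := by
  classical
  have h1 : ∀ s : H.Sig, ∃ a b : ℝ, s ∈ D.cross → b < a ∧
      ∀ t, E.e (s, t) ∈ L ↔ t = a ∨ t = b := by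
    intro s
    by_cases hs : s ∈ D.cross
    · obtain ⟨χ, h₁, h₂, -, -, -, h0, hlt, hiff⟩ := D.crs s hs
      refine ⟨h₁ 0, h₂ 0, fun _ => ⟨hlt, fun t => ?_⟩⟩
      have := hiff 0 0 t
      rw [h0] at this
      simpa using this
    · exact ⟨0, 0, fun h => absurd h hs⟩
  choose ho hu h using h1
  exact ⟨ho, hu, fun s hs => h s hs⟩

theorem cross_mem_h411 {g : ℕ} {H : Heegaard g} {E : Collar H} {L : Set S3} (D : Diagram E L)
    (s : H.Sig) (t t' : ℝ) (hlt : t' ≠ t) (h1 : E.e (s, t) ∈ L) (h2 : E.e (s, t') ∈ L) :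
    s ∈ D.cross := by
  by_contra hs
  obtain ⟨χ, h, -, -, h0, hiff⟩ := D.reg s ⟨t, h1⟩ hs
  have a := hiff 0 0 t
  have b := hiff 0 0 t'
  rw [h0] at a b
  exact hlt ((b.1 h2).2.trans (a.1 h1).2.symm)

theorem over_iff_h411 {g : ℕ} {H : Heegaard g} {E : Collar H} {L : Set S3} (D : Diagram E L)
    (ho hu : H.Sig → ℝ) (hh : ∀ s ∈ D.cross, hu s < ho s ∧
      ∀ t, E.e (s, t) ∈ L ↔ t = ho s ∨ t = hu s) (v : S3) :
    E.Over L v ↔ ∃ s ∈ D.cross, v = E.e (s, ho s) := by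
  constructor
  · rintro ⟨hv, s, t, t', rfl, hlt, h'⟩
    have hs := cross_mem_h411 D s t t' hlt.ne hv h'
    refine ⟨s, hs, ?_⟩
    obtain ⟨h1, h2⟩ := hh s hs
    rcases (h2 t).1 hv with h3 | h3
    · rw [h3]
    · exfalso
      rcases (h2 t').1 h' with h4 | h4 <;> linarith
  · rintro ⟨s, hs, rfl⟩
    obtain ⟨h1, h2⟩ := hh s hs
    exact ⟨(h2 _).2 (Or.inl rfl), s, ho s, hu s, rfl, h1, (h2 _).2 (Or.inr rfl)⟩

theorem under_iff_h411 {g : ℕ} {H : Heegaard g} {E : Collar H} {L : Set S3} (D : Diagram E L)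
    (ho hu : H.Sig → ℝ) (hh : ∀ s ∈ D.cross, hu s < ho s ∧
      ∀ t, E.e (s, t) ∈ L ↔ t = ho s ∨ t = hu s) (v : S3) :
    E.Under L v ↔ ∃ s ∈ D.cross, v = E.e (s, hu s) := by
  constructor
  · rintro ⟨hv, s, t, t', rfl, hlt, h'⟩
    have hs := cross_mem_h411 D s t t' hlt.ne' hv h'
    refine ⟨s, hs, ?_⟩
    obtain ⟨h1, h2⟩ := hh s hs
    rcases (h2 t).1 hv with h3 | h3
    · exfalso
      rcases (h2 t').1 h' with h4 | h4 <;> linarith
    · rw [h3]
  · rintro ⟨s, hs, rfl⟩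
    obtain ⟨h1, h2⟩ := hh s hs
    exact ⟨(h2 _).2 (Or.inr rfl), s, hu s, ho s, rfl, h1, (h2 _).2 (Or.inl rfl)⟩

theorem per_h411 {n : ℕ} (K : Link n) (i : Fin n) (t : ℝ) (m : ℤ) :
    K.γ i (t + m) = K.γ i t := by
  have hp : Function.Periodic (K.γ i) 1 := fun t => K.periodic i t
  have := (hp.int_mul m) t
  simpa using this

theorem param_h411 {n : ℕ} (K : Link n) (v : S3) (hv : v ∈ K.carrier) :
    ∃ p : Fin n × ℝ, 0 ≤ p.2 ∧ p.2 < 1 ∧ K.γ p.1 p.2 = v := by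
  obtain ⟨i, hi⟩ := mem_iUnion.1 hv
  obtain ⟨t, rfl⟩ := hi
  refine ⟨(i, Int.fract t), Int.fract_nonneg t, Int.fract_lt_one t, ?_⟩
  have := per_h411 K i t (-⌊t⌋)
  rw [← this]
  congr 1
  push_cast
  rw [Int.fract]; ring

theorem cont_h411 {n : ℕ} (K : Link n) (i : Fin n) : Continuous (K.γ i) :=
  (Topology.IsInducing.subtypeVal.continuous_iff).2 (K.smooth i).continuous

theorem loc_h411 {n : ℕ} (K : Link n) (W : S3 → ℝ) (i : Fin n) (t : ℝ)
    (h : ∀ᶠ q' in 𝓝[K.carrier] (K.γ i t), W q' = W (K.γ i t)) :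
    ∀ᶠ u in 𝓝 t, W (K.γ i u) = W (K.γ i t) := by
  have h1 : Tendsto (K.γ i) (𝓝 t) (𝓝[K.carrier] (K.γ i t)) := by
    refine tendsto_nhdsWithin_iff.2 ⟨(cont_h411 K i).tendsto t, Eventually.of_forall fun u => ?_⟩
    exact mem_iUnion.2 ⟨i, u, rfl⟩
  exact h1.eventually h


theorem count {g n : ℕ} {H : Heegaard g} {E : Collar H} (K : Link n) (L : Set S3)
    (hKL : K.carrier = L) (D : Diagram E L) (hA : Alternating E K) (W : S3 → ℝ)
    (hloc : ∀ q ∈ L, ¬ E.Under L q → ∀ᶠ q' in 𝓝[L] q, W q' = W q)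
    (A B : H.Sig → ℝ)
    (hunder : ∀ i t s τ, K.γ i t = E.e (s, τ) → E.Under L (K.γ i t) →
      ∃ vm vp : ℝ, (∀ᶠ u in 𝓝[<] t, W (K.γ i u) = vm) ∧ (∀ᶠ u in 𝓝[>] t, W (K.γ i u) = vp) ∧
        vm + vp = A s)
    (hover : ∀ i t s τ, K.γ i t = E.e (s, τ) → E.Over L (K.γ i t) → W (K.γ i t) = B s)
    (hle : ∀ s ∈ D.cross, 2 * B s ≤ A s) : ∀ s ∈ D.cross, 2 * B s = A s := by
  classical
  subst hKL
  intro s0 hs0
  obtain ⟨ho, hu, hh⟩ := heights_h411 D
  have hOver := over_iff_h411 D ho hu hh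
  have hUnder := under_iff_h411 D ho hu hh
  have hinjE : Function.Injective E.e := E.emb.injective
  have hdisj : ∀ v, E.Over K.carrier v → E.Under K.carrier v → False := by
    intro v h1 h2
    obtain ⟨s, hs, rfl⟩ := (hOver v).1 h1
    obtain ⟨s', hs', he⟩ := (hUnder _).1 h2
    have := hinjE he
    simp only [Prod.mk.injEq] at this
    obtain ⟨rfl, h3⟩ := this
    have h4 := (hh s hs).1
    rw [h3] at h4
    exact lt_irrefl _ h4
  have hmo : ∀ s ∈ D.cross, E.e (s, ho s) ∈ K.carrier :=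
    fun s hs => ((hh s hs).2 _).2 (Or.inl rfl)
  have hmu : ∀ s ∈ D.cross, E.e (s, hu s) ∈ K.carrier :=
    fun s hs => ((hh s hs).2 _).2 (Or.inr rfl)
  obtain ⟨p0, -⟩ := param_h411 K _ (hmo s0 hs0)
  haveI : Nonempty (Fin n × ℝ) := ⟨p0⟩
  have hpo1 : ∀ s ∈ D.cross, ∃ p : Fin n × ℝ, 0 ≤ p.2 ∧ p.2 < 1 ∧
      K.γ p.1 p.2 = E.e (s, ho s) := fun s hs => param_h411 K _ (hmo s hs)
  have hpu1 : ∀ s ∈ D.cross, ∃ p : Fin n × ℝ, 0 ≤ p.2 ∧ p.2 < 1 ∧
      K.γ p.1 p.2 = E.e (s, hu s) := fun s hs => param_h411 K _ (hmu s hs)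
  choose! po hpo using hpo1
  choose! pu hpu using hpu1
  obtain ⟨C, hC⟩ : ∃ C, C = D.fin.toFinset := ⟨_, rfl⟩
  have hCm : ∀ s, s ∈ C ↔ s ∈ D.cross := by
    intro s
    rw [hC, Set.Finite.mem_toFinset]
  obtain ⟨P, hP⟩ : ∃ P : Finset (Fin n × ℝ), P = C.image po ∪ C.image pu := ⟨_, rfl⟩
  have hPm : ∀ (i : Fin n) (t : ℝ), (i, t) ∈ P ↔ (0 ≤ t ∧ t < 1) ∧
      (E.Over K.carrier (K.γ i t) ∨ E.Under K.carrier (K.γ i t)) := by
    intro i t
    rw [hP, Finset.mem_union, Finset.mem_image, Finset.mem_image]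
    constructor
    · rintro (⟨s, hs, he⟩ | ⟨s, hs, he⟩)
      · obtain ⟨h1, h2, h3⟩ := hpo s ((hCm s).1 hs)
        rw [he] at h1 h2 h3
        exact ⟨⟨h1, h2⟩, Or.inl ((hOver _).2 ⟨s, (hCm s).1 hs, h3⟩)⟩
      · obtain ⟨h1, h2, h3⟩ := hpu s ((hCm s).1 hs)
        rw [he] at h1 h2 h3
        exact ⟨⟨h1, h2⟩, Or.inr ((hUnder _).2 ⟨s, (hCm s).1 hs, h3⟩)⟩
    · have key : ∀ p : Fin n × ℝ, 0 ≤ p.2 → p.2 < 1 → K.γ p.1 p.2 = K.γ i t →
          0 ≤ t → t < 1 → p = (i, t) := by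
        intro p h1 h2 h3 h4 h5
        obtain ⟨h6, m, h7⟩ := K.inj _ _ _ _ h3
        have h8 : m = 0 := by
          have h9 : (m : ℝ) < 1 := by linarith
          have h10 : (-1 : ℝ) < m := by linarith
          have h11 : m < 1 := by exact_mod_cast h9
          have h12 : -1 < m := by exact_mod_cast h10
          omega
        rw [h8] at h7
        ext
        · simpa using congrArg Fin.val h6
        · simpa using h7
      rintro ⟨⟨ht0, ht1⟩, h | h⟩
      · obtain ⟨s, hs, he⟩ := (hOver _).1 h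
        obtain ⟨h1, h2, h3⟩ := hpo s hs
        exact Or.inl ⟨s, (hCm s).2 hs, key _ h1 h2 (h3.trans he.symm) ht0 ht1⟩
      · obtain ⟨s, hs, he⟩ := (hUnder _).1 h
        obtain ⟨h1, h2, h3⟩ := hpu s hs
        exact Or.inr ⟨s, (hCm s).2 hs, key _ h1 h2 (h3.trans he.symm) ht0 ht1⟩
  obtain ⟨T, hT⟩ : ∃ T : Fin n → Finset ℝ, T = fun i => (P.filter (fun p => p.1 = i)).image Prod.snd :=
    ⟨_, rfl⟩
  have hTm : ∀ i t, t ∈ T i ↔ (i, t) ∈ P := by
    intro i t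
    rw [hT]
    simp only [Finset.mem_image, Finset.mem_filter, Prod.exists]
    constructor
    · rintro ⟨a, b, ⟨h1, rfl⟩, rfl⟩
      exact h1
    · intro h
      exact ⟨i, t, ⟨h, rfl⟩, rfl⟩
  have hTu : ∀ i u, (∃ s ∈ T i, ∃ m : ℤ, u = s + m) ↔
      (E.Over K.carrier (K.γ i u) ∨ E.Under K.carrier (K.γ i u)) := by
    intro i u
    constructor
    · rintro ⟨s, hs, m, rfl⟩
      rw [per_h411]
      exact ((hPm i s).1 ((hTm i s).1 hs)).2
    · intro h
      refine ⟨Int.fract u, (hTm i _).2 ((hPm i _).2 ⟨⟨Int.fract_nonneg u, Int.fract_lt_one u⟩, ?_⟩),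
        ⌊u⌋, (Int.fract_add_floor u).symm⟩
      have h1 : K.γ i (Int.fract u) = K.γ i u := by
        have := per_h411 K i (Int.fract u) ⌊u⌋
        rw [← this, Int.fract_add_floor]
      rw [h1]
      exact h
  have hex : ∀ i t, ∃ a b : ℝ, ((E.Over K.carrier (K.γ i t) ∨ E.Under K.carrier (K.γ i t)) →
      (∀ᶠ u in 𝓝[<] t, W (K.γ i u) = a) ∧ (∀ᶠ u in 𝓝[>] t, W (K.γ i u) = b)) ∧
      (∀ s ∈ D.cross, K.γ i t = E.e (s, ho s) → a + b = 2 * B s) ∧
      (∀ s ∈ D.cross, K.γ i t = E.e (s, hu s) → a + b = A s) := by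
    intro i t
    by_cases h1 : E.Under K.carrier (K.γ i t)
    · obtain ⟨s, hs, he⟩ := (hUnder _).1 h1
      obtain ⟨a, b, h2, h3, h4⟩ := hunder i t s (hu s) he h1
      refine ⟨a, b, fun _ => ⟨h2, h3⟩, ?_, ?_⟩
      · intro s' hs' he'
        exact (hdisj _ ((hOver _).2 ⟨s', hs', he'⟩) h1).elim
      · intro s' hs' he'
        have := hinjE (he.symm.trans he')
        simp only [Prod.mk.injEq] at this
        rw [← this.1]
        exact h4
    · by_cases h2 : E.Over K.carrier (K.γ i t)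
      · have h3 := hloc (K.γ i t) h2.1 h1
        have h4 := loc_h411 K W i t h3
        refine ⟨W (K.γ i t), W (K.γ i t), fun _ => ⟨h4.filter_mono nhdsWithin_le_nhds,
          h4.filter_mono nhdsWithin_le_nhds⟩, ?_, ?_⟩
        · intro s hs he
          rw [hover i t s (ho s) he h2]
          ring
        · intro s hs he
          exact (h1 ((hUnder _).2 ⟨s, hs, he⟩)).elim
      · refine ⟨0, 0, fun h => ?_, ?_, ?_⟩
        · rcases h with h | h
          · exact (h2 h).elim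
          · exact (h1 h).elim
        · intro s hs he
          exact (h2 ((hOver _).2 ⟨s, hs, he⟩)).elim
        · intro s hs he
          exact (h1 ((hUnder _).2 ⟨s, hs, he⟩)).elim
  choose vm vp hv1 hv2 hv3 using hex
  obtain ⟨δ, hδ⟩ : ∃ δ : Fin n → ℝ → ℝ, δ = fun i u => if E.Under K.carrier (K.γ i u) then 1 else
    if E.Over K.carrier (K.γ i u) then -1 else 0 := ⟨_, rfl⟩
  have hδU : ∀ i u, E.Under K.carrier (K.γ i u) → δ i u = 1 := by
    intro i u h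
    rw [hδ]
    simp only [if_pos h]
  have hδO : ∀ i u, E.Over K.carrier (K.γ i u) → δ i u = -1 := by
    intro i u h
    rw [hδ]
    have h2 : ¬ E.Under K.carrier (K.γ i u) := fun h3 => hdisj _ h h3
    simp only [if_neg h2, if_pos h]
  have hcyc : ∀ i, ∑ t ∈ T i, δ i t * (vm i t + vp i t) = 0 := by
    intro i
    refine cyclic_sum (T i) ?_ (fun u => W (K.γ i u)) (vm i) (vp i) (δ i) ?_ ?_ ?_ ?_ ?_ ?_
    · intro t ht
      exact ((hPm i t).1 ((hTm i t).1 ht)).1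
    · intro t
      simp only [K.periodic]
    · intro t
      rw [hδ]
      simp only [K.periodic]
    · intro t ht
      rw [hTu] at ht
      exact loc_h411 K W i t (hloc _ (mem_iUnion.2 ⟨i, t, rfl⟩) fun h => ht (Or.inr h))
    · intro t ht
      exact (hv1 i t ((hPm i t).1 ((hTm i t).1 ht)).2).1
    · intro t ht
      exact (hv1 i t ((hPm i t).1 ((hTm i t).1 ht)).2).2
    · intro t t' htt h1 h2 h3
      rw [hTu] at h1 h2
      have h4 : ∀ u, t < u → u < t' →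
          ¬ (E.Over K.carrier (K.γ i u) ∨ E.Under K.carrier (K.γ i u)) := by
        intro u hu1 hu2
        have := h3 u hu1 hu2
        rwa [hTu] at this
      have h5 := hA i t t' htt h1 h2 h4
      rcases h1 with h1 | h1
      · rw [hδO i t h1, hδU i t' (h5.1 h1)]
        norm_num
      · rcases h2 with h2 | h2
        · rw [hδU i t h1, hδO i t' h2]
        · exact (hdisj _ (h5.2 h2) h1).elim
  have hsum : ∑ p ∈ P, δ p.1 p.2 * (vm p.1 p.2 + vp p.1 p.2) = 0 := by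
    rw [Finset.sum_finset_product P Finset.univ T (by
      intro p
      rw [hTm]
      simp)]
    exact Finset.sum_eq_zero fun i _ => hcyc i
  have hdP : Disjoint (C.image po) (C.image pu) := by
    rw [Finset.disjoint_left]
    intro p h1 h2
    obtain ⟨s, hs, h3⟩ := Finset.mem_image.1 h1
    obtain ⟨s', hs', h4⟩ := Finset.mem_image.1 h2
    have h5 := (hpo s ((hCm s).1 hs)).2.2
    have h6 := (hpu s' ((hCm s').1 hs')).2.2
    rw [h3] at h5
    rw [h4] at h6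
    exact hdisj _ ((hOver (K.γ p.1 p.2)).2 ⟨s, (hCm s).1 hs, h5⟩)
      ((hUnder (K.γ p.1 p.2)).2 ⟨s', (hCm s').1 hs', h6⟩)
  rw [hP, Finset.sum_union hdP] at hsum
  rw [Finset.sum_image, Finset.sum_image] at hsum
  rotate_left
  · intro s hs s' hs' he
    have h5 := (hpu s ((hCm s).1 hs)).2.2
    have h6 := (hpu s' ((hCm s').1 hs')).2.2
    rw [he] at h5
    have := hinjE (h5.symm.trans h6)
    simp only [Prod.mk.injEq] at this
    exact this.1
  · intro s hs s' hs' he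
    have h5 := (hpo s ((hCm s).1 hs)).2.2
    have h6 := (hpo s' ((hCm s').1 hs')).2.2
    rw [he] at h5
    have := hinjE (h5.symm.trans h6)
    simp only [Prod.mk.injEq] at this
    exact this.1
  rw [← Finset.sum_add_distrib] at hsum
  have hterm : ∀ s ∈ C, δ (po s).1 (po s).2 * (vm (po s).1 (po s).2 + vp (po s).1 (po s).2) +
      δ (pu s).1 (pu s).2 * (vm (pu s).1 (pu s).2 + vp (pu s).1 (pu s).2) = A s - 2 * B s := by
    intro s hs
    have hs' := (hCm s).1 hs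
    have h1 := (hpo s hs').2.2
    have h2 := (hpu s hs').2.2
    rw [hδO _ _ ((hOver _).2 ⟨s, hs', h1⟩), hδU _ _ ((hUnder _).2 ⟨s, hs', h2⟩),
      hv2 _ _ s hs' h1, hv3 _ _ s hs' h2]
    ring
  rw [Finset.sum_congr rfl hterm] at hsum
  have h0 := (Finset.sum_eq_zero_iff_of_nonneg (fun s hs => by
    have := hle s ((hCm s).1 hs)
    linarith)).1 hsum s0 ((hCm s0).2 hs0)
  linarith

end X_count

alias count := X_count.count

end AltGenus
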