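import Pool.Agent.AltGenus.ChartDefs

open Set Topology Filter

namespace AltGenus

namespace X_dconn
theorem dconn_annulus (r : ℝ) (hr : 0 ≤ r) :
    IsPreconnected {z : Metric.ball (0 : EuclideanSpace ℝ (Fin 2)) 1 |
      r < ‖(z : EuclideanSpace ℝ (Fin 2))‖} := by
  rw [← Topology.IsInducing.subtypeVal.isPreconnected_image]
  have hrank : 1 < Module.rank ℝ (EuclideanSpace ℝ (Fin 2)) := by
    rw [← Module.finrank_eq_rank, finrank_euclideanSpace_fin]
    norm_num
  have h1 : IsPreconnected (Metric.sphere (0 : EuclideanSpace ℝ (Fin 2)) 1) :=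
    isPreconnected_sphere hrank 0 1
  have h2 : IsPreconnected (Ioo r 1) := isPreconnected_Ioo
  have h3 := (h2.prod h1).image (fun p : ℝ × EuclideanSpace ℝ (Fin 2) => p.1 • p.2)
    (by fun_prop)
  convert h3 using 1
  ext z
  simp only [mem_image, mem_ofPred_eq, Subtype.exists, Metric.mem_ball, dist_zero_right,
    exists_and_left, exists_prop, exists_eq_right_right, mem_prod, mem_Ioo, mem_sphere_iff_norm,
    sub_zero, Prod.exists]
  constructor
  · rintro ⟨hz1, hz2⟩
    have hz0 : ‖z‖ ≠ 0 := by linarith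
    refine ⟨‖z‖, ‖z‖⁻¹ • z, ⟨⟨hz1, hz2⟩, ?_⟩, ?_⟩
    · rw [norm_smul, norm_inv, norm_norm, inv_mul_cancel₀ hz0]
    · rw [smul_smul, mul_inv_cancel₀ hz0, one_smul]
  · rintro ⟨t, v, ⟨⟨ht1, ht2⟩, hv⟩, rfl⟩
    rw [norm_smul, hv, mul_one, Real.norm_eq_abs, abs_of_nonneg (by linarith)]
    exact ⟨ht1, ht2⟩

/-- the closure of a component of the complement meets only one of the two pieces -/
theorem dconn_key {X : Type} [TopologicalSpace X] [CompactSpace X] [T2Space X]
    (D1 D2 F : Set X) (hD1 : IsClosed D1) (hD2 : IsClosed D2) (hdis : Disjoint D1 D2)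
    (hF1 : F ∩ D1 = ∅) (hF2 : F ∩ D2 = ∅)
    (hcl : ∀ p ∈ closure F, p ∉ D1 → p ∉ D2 → p ∈ F)
    (h : F ≃ₜ Metric.ball (0 : EuclideanSpace ℝ (Fin 2)) 1)
    (d1 d2 : X) (hd1 : d1 ∈ D1) (hd2 : d2 ∈ D2) (hc1 : d1 ∈ closure F) (hc2 : d2 ∈ closure F) :
    False := by
  classical
  obtain ⟨N1, N2, hN1, hN2, hDN1, hDN2, hN⟩ := normal_separation hD1 hD2 hdis
  let K : Set X := closure F \ (N1 ∪ N2)
  have hKc : IsCompact K := (isClosed_closure.sdiff (hN1.union hN2)).isCompact
  have hKF : K ⊆ F := fun p hp => hcl p hp.1 (fun hq => hp.2 (Or.inl (hDN1 hq)))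
    (fun hq => hp.2 (Or.inr (hDN2 hq)))
  let ψ : Metric.ball (0 : EuclideanSpace ℝ (Fin 2)) 1 → X := fun z => (h.symm z : X)
  have hψi : Topology.IsInducing ψ := Topology.IsInducing.subtypeVal.comp h.symm.isInducing
  have hψF : ∀ z, ψ z ∈ F := fun z => (h.symm z).2
  have hψs : ∀ p ∈ F, ∃ z, ψ z = p := fun p hp => ⟨h ⟨p, hp⟩, by simp [ψ]⟩
  have hKr : K ⊆ range ψ := fun p hp => hψs p (hKF hp)
  have hKp : IsCompact (ψ ⁻¹' K) := (hψi.isCompact_preimage_iff hKr).2 hKc
  obtain ⟨r, hr0, hr1, hr⟩ : ∃ r : ℝ, 0 ≤ r ∧ r < 1 ∧ ∀ z ∈ ψ ⁻¹' K,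
      ‖(z : EuclideanSpace ℝ (Fin 2))‖ ≤ r := by
    rcases (ψ ⁻¹' K).eq_empty_or_nonempty with he | hne
    · exact ⟨0, le_rfl, one_pos, by simp [he]⟩
    · obtain ⟨z, hz, hzm⟩ := hKp.exists_isMaxOn hne
        (f := fun z => ‖(z : EuclideanSpace ℝ (Fin 2))‖) (by fun_prop)
      exact ⟨‖(z : EuclideanSpace ℝ (Fin 2))‖, norm_nonneg _, mem_ball_zero_iff.1 z.2, fun w hw => hzm hw⟩
  let A : Set X := ψ '' {z | r < ‖(z : EuclideanSpace ℝ (Fin 2))‖}
  let B : Set X := ψ '' {z | ‖(z : EuclideanSpace ℝ (Fin 2))‖ ≤ r}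
  have hA : IsPreconnected A := (dconn_annulus r hr0).image ψ hψi.continuous.continuousOn
  have hB : IsCompact B := by
    refine IsCompact.image ?_ hψi.continuous
    rw [Topology.IsInducing.subtypeVal.isCompact_iff]
    have : Subtype.val '' {z : Metric.ball (0 : EuclideanSpace ℝ (Fin 2)) 1 |
        ‖(z : EuclideanSpace ℝ (Fin 2))‖ ≤ r} = Metric.closedBall 0 r := by
      ext z
      simp only [mem_image, mem_ofPred_eq, Subtype.exists, Metric.mem_ball, dist_zero_right,
        exists_and_left, exists_prop, exists_eq_right_right, Metric.mem_closedBall]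
      exact ⟨fun hz => hz.1, fun hz => ⟨hz, lt_of_le_of_lt hz hr1⟩⟩
    rw [this]
    exact isCompact_closedBall _ _
  have hFAB : F ⊆ A ∪ B := by
    intro p hp
    obtain ⟨z, rfl⟩ := hψs p hp
    rcases lt_or_ge r ‖(z : EuclideanSpace ℝ (Fin 2))‖ with hz | hz
    · exact Or.inl ⟨z, hz, rfl⟩
    · exact Or.inr ⟨z, hz, rfl⟩
  have hBF : B ⊆ F := by
    rintro _ ⟨z, _, rfl⟩; exact hψF z
  have hAN : A ⊆ N1 ∪ N2 := by
    rintro _ ⟨z, hz, rfl⟩
    by_contra hc
    have : ψ z ∈ K := ⟨subset_closure (hψF z), hc⟩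
    exact absurd (hr z this) (not_le.2 hz)
  have hclF : closure F ⊆ closure A ∪ B := by
    have := closure_mono hFAB
    rwa [closure_union, hB.isClosed.closure_eq] at this
  have hd1B : d1 ∉ B := fun hc => by
    have : d1 ∈ F ∩ D1 := ⟨hBF hc, hd1⟩
    rw [hF1] at this; exact this
  have hd2B : d2 ∉ B := fun hc => by
    have : d2 ∈ F ∩ D2 := ⟨hBF hc, hd2⟩
    rw [hF2] at this; exact this
  rcases hA.subset_or_subset hN1 hN2 hN hAN with hsub | hsub
  · have h2 : d2 ∈ closure A := (hclF hc2).resolve_right hd2B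
    obtain ⟨q, hq1, hq2⟩ := mem_closure_iff.1 h2 N2 hN2 (hDN2 hd2)
    exact disjoint_left.1 hN (hsub hq2) hq1
  · have h1 : d1 ∈ closure A := (hclF hc1).resolve_right hd1B
    obtain ⟨q, hq1, hq2⟩ := mem_closure_iff.1 h1 N1 hN1 (hDN1 hd1)
    exact disjoint_left.1 hN hq1 (hsub hq2)

/-- openness of the set of points attached to one piece -/
theorem dconn_open {X : Type} [TopologicalSpace X] [LocallyConnectedSpace X]
    (D D1 D2 : Set X) (hD : IsClosed D) (hD2 : IsClosed D2) (hun : D = D1 ∪ D2)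
    (hdis : Disjoint D1 D2)
    (hcl : ∀ x, ∀ p ∈ closure (connectedComponentIn Dᶜ x), p ∉ D → p ∈ connectedComponentIn Dᶜ x) :
    IsOpen (D1 ∪ {x | x ∉ D ∧ (closure (connectedComponentIn Dᶜ x) ∩ D1).Nonempty}) := by
  rw [isOpen_iff_mem_nhds]
  rintro x (hx | ⟨hx, hx1⟩)
  · have hx2 : x ∈ D2ᶜ := fun hc => disjoint_left.1 hdis hx hc
    obtain ⟨W, hWs, hWo, hxW, hWc⟩ := locallyConnectedSpace_iff_subsets_isOpen_isConnected.1
      inferInstance x D2ᶜ (hD2.isOpen_compl.mem_nhds hx2)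
    refine Filter.mem_of_superset (hWo.mem_nhds hxW) fun w hw => ?_
    by_cases hwD : w ∈ D
    · left
      rw [hun] at hwD
      exact hwD.resolve_right (hWs hw)
    · right
      refine ⟨hwD, ?_⟩
      by_contra hc
      rw [not_nonempty_iff_eq_empty] at hc
      set F := connectedComponentIn Dᶜ w with hF
      have hFo : IsOpen F := hD.isOpen_compl.connectedComponentIn
      have hwF : w ∈ F := mem_connectedComponentIn hwD
      have hcov : W ⊆ F ∪ (closure F)ᶜ := by
        intro p hp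
        by_cases hpc : p ∈ closure F
        · left
          refine hcl w p hpc ?_
          rw [hun]
          rintro (h | h)
          · have : p ∈ closure F ∩ D1 := ⟨hpc, h⟩
            rw [hc] at this; exact this
          · exact hWs hp h
        · exact Or.inr hpc
      have hxc : x ∈ (closure F)ᶜ := fun h => by
        have : x ∈ closure F ∩ D1 := ⟨h, hx⟩
        rw [hc] at this; exact this
      obtain ⟨p, _, hp1, hp2⟩ := hWc.isPreconnected F (closure F)ᶜ hFo
        isClosed_closure.isOpen_compl hcov ⟨w, hw, hwF⟩ ⟨x, hxW, hxc⟩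
      exact hp2 (subset_closure hp1)
  · refine Filter.mem_of_superset ((hD.isOpen_compl.connectedComponentIn (x := x)).mem_nhds
      (mem_connectedComponentIn hx)) fun y hy => ?_
    right
    refine ⟨connectedComponentIn_subset _ _ hy, ?_⟩
    rw [← connectedComponentIn_eq hy]
    exact hx1


theorem dconn {X : Type} [TopologicalSpace X] [CompactSpace X] [T2Space X]
    [LocallyConnectedSpace X] [PreconnectedSpace X] (D : Set X) (hD : IsClosed D)
    (hne : D.Nonempty)
    (hcell : ∀ x, x ∉ D → Nonempty (connectedComponentIn Dᶜ x ≃ₜ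
      Metric.ball (0 : EuclideanSpace ℝ (Fin 2)) 1)) : IsPreconnected D := by
  classical
  have hcl : ∀ x, ∀ p ∈ closure (connectedComponentIn Dᶜ x), p ∉ D →
      p ∈ connectedComponentIn Dᶜ x := by
    intro x p hp hpD
    by_cases hx : x ∈ Dᶜ
    · have h1 : IsPreconnected (insert p (connectedComponentIn Dᶜ x)) :=
        isPreconnected_connectedComponentIn.subset_closure (subset_insert _ _)
          (insert_subset hp subset_closure)
      have h2 := h1.subset_connectedComponentIn (x := x) (F := Dᶜ)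
        (mem_insert_of_mem _ (mem_connectedComponentIn hx))
        (insert_subset hpD (connectedComponentIn_subset _ _))
      exact h2 (mem_insert _ _)
    · rw [connectedComponentIn_eq_empty hx] at hp
      simp at hp
  rw [isPreconnected_closed_iff]
  intro t t' ht ht' hDt h1 h2
  by_contra hcon
  rw [not_nonempty_iff_eq_empty] at hcon
  have hD1c : IsClosed (D ∩ t) := hD.inter ht
  have hD2c : IsClosed (D ∩ t') := hD.inter ht'
  have hun : D = (D ∩ t) ∪ (D ∩ t') := by
    rw [← inter_union_distrib_left]; exact (inter_eq_left.2 hDt).symm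
  have hdis : Disjoint (D ∩ t) (D ∩ t') := by
    rw [disjoint_left]
    rintro x ⟨hx1, hx2⟩ ⟨_, hx3⟩
    have : x ∈ D ∩ (t ∩ t') := ⟨hx1, hx2, hx3⟩
    rw [hcon] at this; exact this
  set D1 := D ∩ t with hD1
  set D2 := D ∩ t' with hD2
  have hun' : D = D2 ∪ D1 := by rw [union_comm]; exact hun
  let G1 : Set X := D1 ∪ {x | x ∉ D ∧ (closure (connectedComponentIn Dᶜ x) ∩ D1).Nonempty}
  let G2 : Set X := D2 ∪ {x | x ∉ D ∧ (closure (connectedComponentIn Dᶜ x) ∩ D2).Nonempty}
  have hG1 : IsOpen G1 := dconn_open D D1 D2 hD hD2c hun hdis hcl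
  have hG2 : IsOpen G2 := dconn_open D D2 D1 hD hD1c hun' hdis.symm hcl
  have hcov : (univ : Set X) ⊆ G1 ∪ G2 := by
    intro x _
    by_cases hx : x ∈ D
    · rw [hun] at hx
      rcases hx with h | h
      · exact Or.inl (Or.inl h)
      · exact Or.inr (Or.inl h)
    · set F := connectedComponentIn Dᶜ x with hF
      have hne' : (closure F ∩ D).Nonempty := by
        by_contra hc
        rw [not_nonempty_iff_eq_empty] at hc
        have hFc : IsClosed F := by
          rw [← closure_subset_iff_isClosed]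
          intro p hp
          refine hcl x p hp fun h => ?_
          have : p ∈ closure F ∩ D := ⟨hp, h⟩
          rw [hc] at this; exact this
        have hFo : IsOpen F := hD.isOpen_compl.connectedComponentIn
        have hFu : F = univ := IsClopen.eq_univ ⟨hFc, hFo⟩ ⟨x, mem_connectedComponentIn hx⟩
        obtain ⟨d, hd⟩ := hne
        have : d ∈ F := by rw [hFu]; exact mem_univ d
        exact connectedComponentIn_subset _ _ this hd
      obtain ⟨p, hp1, hp2⟩ := hne'
      rw [hun] at hp2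
      rcases hp2 with h | h
      · exact Or.inl (Or.inr ⟨hx, p, hp1, h⟩)
      · exact Or.inr (Or.inr ⟨hx, p, hp1, h⟩)
  obtain ⟨x1, hx1⟩ := h1
  obtain ⟨x2, hx2⟩ := h2
  obtain ⟨q, _, hq1, hq2⟩ := isPreconnected_univ (α := X) G1 G2 hG1 hG2 hcov
    ⟨x1, mem_univ _, Or.inl hx1⟩ ⟨x2, mem_univ _, Or.inl hx2⟩
  have hsub1 : D1 ⊆ D := inter_subset_left
  have hsub2 : D2 ⊆ D := inter_subset_left
  rcases hq1 with hq1 | ⟨hq, p1, hp1, hp1'⟩
  · rcases hq2 with hq2 | ⟨hq, _⟩
    · exact disjoint_left.1 hdis hq1 hq2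
    · exact hq (hsub1 hq1)
  · rcases hq2 with hq2 | ⟨_, p2, hp2, hp2'⟩
    · exact hq (hsub2 hq2)
    · obtain ⟨h⟩ := hcell q hq
      refine dconn_key D1 D2 (connectedComponentIn Dᶜ q) hD1c hD2c hdis ?_ ?_ ?_ h p1 p2
        hp1' hp2' hp1 hp2
      · rw [eq_empty_iff_forall_notMem]
        rintro p ⟨hp, hp'⟩
        exact connectedComponentIn_subset _ _ hp (hsub1 hp')
      · rw [eq_empty_iff_forall_notMem]
        rintro p ⟨hp, hp'⟩
        exact connectedComponentIn_subset _ _ hp (hsub2 hp')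
      · intro p hp h1 h2
        refine hcl q p hp fun h => ?_
        rw [hun] at h
        exact h.elim h1 h2

end X_dconn

alias dconn := X_dconn.dconn

end AltGenus
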