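import Pool.Agent.AltGenus.ChartDefs

open Set Topology Filter

namespace AltGenus

namespace X_proj_closed
theorem proj_closed {g : ℕ} {H : Heegaard g} (E : Collar H) (L : Set S3) (hL : IsClosed L)
    (hsub : L ⊆ range E.e) : IsClosed (E.proj L) := by
  have hcomp : IsCompact L := hL.isCompact
  have h1 : E.e '' (E.e ⁻¹' L) = L := image_preimage_eq_of_subset hsub
  have h2 : IsCompact (E.e ⁻¹' L) := by
    rw [E.emb.isEmbedding.isCompact_iff, h1]
    exact hcomp
  have h3 : E.proj L = Prod.fst '' (E.e ⁻¹' L) := by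
    ext s
    constructor
    · rintro ⟨t, ht⟩
      exact ⟨(s, t), ht, rfl⟩
    · rintro ⟨⟨s', t⟩, ht, rfl⟩
      exact ⟨t, ht⟩
  rw [h3]
  exact (h2.image continuous_fst).isClosed

end X_proj_closed

alias proj_closed := X_proj_closed.proj_closed

end AltGenus
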