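import Pool.Agent.AltGenus.ChartDefs

open Set Topology Filter

namespace AltGenus

namespace X_propagate
/-- `t` is the largest height of `L` over `s` -/
def propTop {g : ℕ} {H : Heegaard g} (E : Collar H) (L : Set S3) (s : H.Sig) (t : ℝ) : Prop :=
  E.e (s, t) ∈ L ∧ ∀ t', E.e (s, t') ∈ L → t' ≤ t

open Classical in
/-- value of `W` at the top point over `s` -/
noncomputable def propV {g : ℕ} {H : Heegaard g} (E : Collar H) (L : Set S3) (W : S3 → ℝ)
    (s : H.Sig) : ℝ :=
  if h : ∃ t, propTop E L s t then W (E.e (s, h.choose)) else 0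

theorem propV_eq {g : ℕ} {H : Heegaard g} {E : Collar H} {L : Set S3} {W : S3 → ℝ}
    {s : H.Sig} {t : ℝ} (h : propTop E L s t) : propV E L W s = W (E.e (s, t)) := by
  have hex : ∃ t, propTop E L s t := ⟨t, h⟩
  unfold propV
  rw [dif_pos hex]
  have h1 := hex.choose_spec
  have : hex.choose = t := le_antisymm (h.2 _ h1.1) (h1.2 _ h.1)
  rw [this]

theorem prop_not_under {g : ℕ} {H : Heegaard g} {E : Collar H} {L : Set S3}
    {s : H.Sig} {t : ℝ} (h : propTop E L s t) : ¬ E.Under L (E.e (s, t)) := by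
  rintro ⟨_, s', t1, t2, heq, hlt, hmem⟩
  have h1 := E.emb.injective heq
  rw [Prod.mk.injEq] at h1
  obtain ⟨rfl, rfl⟩ := h1
  exact absurd (h.2 _ hmem) (not_le.2 hlt)

theorem propagate {g : ℕ} {H : Heegaard g} (E : Collar H) (L : Set S3) (hL : IsClosed L)
    (D : Diagram E L) (hconn : IsPreconnected (E.proj L)) (W : S3 → ℝ)
    (hloc : ∀ q ∈ L, ¬ E.Under L q → ∀ᶠ q' in 𝓝[L] q, W q' = W q)
    (hc : ∀ s t t', t < t' → E.e (s, t) ∈ L → E.e (s, t') ∈ L →
      ∀ᶠ q' in 𝓝[L \ {E.e (s, t)}] (E.e (s, t)), W q' = W (E.e (s, t'))) :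
    ∀ q ∈ L, ∀ q' ∈ L, ¬ E.Under L q → ¬ E.Under L q' → W q = W q' := by
  have hE : Continuous E.e := E.emb.continuous
  have hlocal : ∀ s ∈ E.proj L, ∀ᶠ s' in 𝓝[E.proj L] s, propV E L W s = propV E L W s' := by
    intro s hs
    by_cases hcr : s ∈ D.cross
    · obtain ⟨χ, h₁, h₂, hχ, hh₁, hh₂, hχ0, hlt, hchar⟩ := D.crs s hcr
      have htop : propTop E L s (h₁ 0) := by
        rw [← hχ0]
        refine ⟨(hchar 0 0 _).2 (Or.inl ⟨rfl, rfl⟩), fun t' ht' => ?_⟩
        rcases (hchar 0 0 t').1 ht' with h | h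
        · exact h.2.le
        · rw [h.2]; exact hlt.le
      have hlow : E.e (s, h₂ 0) ∈ L := by
        rw [← hχ0]
        exact (hchar 0 0 _).2 (Or.inr ⟨rfl, rfl⟩)
      have hVs : propV E L W s = W (E.e (s, h₁ 0)) := propV_eq htop
      have ev1 : ∀ᶠ x : ℝ in 𝓝 0, W (E.e (χ (x, 0), h₁ x)) = W (E.e (s, h₁ 0)) := by
        have ht : Tendsto (fun x : ℝ => E.e (χ (x, 0), h₁ x)) (𝓝 0) (𝓝[L] (E.e (s, h₁ 0))) := by
          apply tendsto_nhdsWithin_of_tendsto_nhds_of_eventually_within
          · have hcont : Continuous (fun x : ℝ => E.e (χ (x, 0), h₁ x)) :=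
              hE.comp ((hχ.continuous.comp (by fun_prop)).prodMk hh₁)
            have := hcont.tendsto 0
            simp only [hχ0] at this
            exact this
          · exact Eventually.of_forall fun x => (hchar x 0 _).2 (Or.inl ⟨rfl, rfl⟩)
        exact ht.eventually (hloc _ htop.1 (prop_not_under htop))
      have ev2 : ∀ᶠ y : ℝ in 𝓝 0, y ≠ 0 → W (E.e (χ (0, y), h₂ y)) = W (E.e (s, h₁ 0)) := by
        have ht : Tendsto (fun y : ℝ => E.e (χ (0, y), h₂ y)) (𝓝[≠] 0)
            (𝓝[L \ {E.e (s, h₂ 0)}] (E.e (s, h₂ 0))) := by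
          apply tendsto_nhdsWithin_of_tendsto_nhds_of_eventually_within
          · have hcont : Continuous (fun y : ℝ => E.e (χ (0, y), h₂ y)) :=
              hE.comp ((hχ.continuous.comp (by fun_prop)).prodMk hh₂)
            have := hcont.tendsto 0
            simp only [hχ0] at this
            exact this.mono_left nhdsWithin_le_nhds
          · filter_upwards [self_mem_nhdsWithin] with y hy
            refine ⟨(hchar 0 y _).2 (Or.inr ⟨rfl, rfl⟩), ?_⟩
            intro heq
            have h1 := E.emb.injective heq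
            rw [Prod.mk.injEq] at h1
            have h2 := h1.1
            rw [← hχ0] at h2
            have h3 := hχ.injective h2
            rw [Prod.mk.injEq] at h3
            exact hy h3.2
        have h1 := ht.eventually (hc s _ _ hlt hlow htop.1)
        rw [eventually_nhdsWithin_iff] at h1
        exact h1
      rw [eventually_nhdsWithin_iff]
      have hmap : 𝓝 s = Filter.map χ (𝓝 (0, 0)) := by rw [hχ.map_nhds_eq, hχ0]
      rw [hmap, eventually_map]
      have f1 : ∀ᶠ p : ℝ × ℝ in 𝓝 (0, 0), W (E.e (χ (p.1, 0), h₁ p.1)) = W (E.e (s, h₁ 0)) :=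
        (continuous_fst.tendsto ((0, 0) : ℝ × ℝ)).eventually ev1
      have f2 : ∀ᶠ p : ℝ × ℝ in 𝓝 (0, 0),
          p.2 ≠ 0 → W (E.e (χ (0, p.2), h₂ p.2)) = W (E.e (s, h₁ 0)) :=
        (continuous_snd.tendsto ((0, 0) : ℝ × ℝ)).eventually ev2
      filter_upwards [f1, f2] with p g1 g2
      obtain ⟨x, y⟩ := p
      simp only at g1 g2
      rintro ⟨t, ht⟩
      rw [hVs]
      by_cases hx : x = 0
      · subst hx
        by_cases hy : y = 0
        · subst hy
          rw [hχ0, hVs]
        · rw [← g2 hy]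
          symm
          apply propV_eq
          refine ⟨(hchar 0 y _).2 (Or.inr ⟨rfl, rfl⟩), fun t' ht' => ?_⟩
          rcases (hchar 0 y t').1 ht' with h | h
          · exact absurd h.1 hy
          · exact h.2.le
      · have hy : y = 0 := by
          rcases (hchar x y t).1 ht with h | h
          · exact h.1
          · exact absurd h.1 hx
        subst hy
        rw [← g1]
        symm
        apply propV_eq
        refine ⟨(hchar x 0 _).2 (Or.inl ⟨rfl, rfl⟩), fun t' ht' => ?_⟩
        rcases (hchar x 0 t').1 ht' with h | h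
        · exact h.2.le
        · exact absurd h.1 hx
    · obtain ⟨χ, h, hχ, hh, hχ0, hchar⟩ := D.reg s hs hcr
      have htopx : ∀ x, propTop E L (χ (x, 0)) (h x) := fun x =>
        ⟨(hchar x 0 _).2 ⟨rfl, rfl⟩, fun t' ht' => ((hchar x 0 t').1 ht').2.le⟩
      have htop : propTop E L s (h 0) := by
        rw [← hχ0]
        exact htopx 0
      have hVs : propV E L W s = W (E.e (s, h 0)) := propV_eq htop
      have ev1 : ∀ᶠ x : ℝ in 𝓝 0, W (E.e (χ (x, 0), h x)) = W (E.e (s, h 0)) := by
        have ht : Tendsto (fun x : ℝ => E.e (χ (x, 0), h x)) (𝓝 0) (𝓝[L] (E.e (s, h 0))) := by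
          apply tendsto_nhdsWithin_of_tendsto_nhds_of_eventually_within
          · have hcont : Continuous (fun x : ℝ => E.e (χ (x, 0), h x)) :=
              hE.comp ((hχ.continuous.comp (by fun_prop)).prodMk hh)
            have := hcont.tendsto 0
            simp only [hχ0] at this
            exact this
          · exact Eventually.of_forall fun x => (htopx x).1
        exact ht.eventually (hloc _ htop.1 (prop_not_under htop))
      rw [eventually_nhdsWithin_iff]
      have hmap : 𝓝 s = Filter.map χ (𝓝 (0, 0)) := by rw [hχ.map_nhds_eq, hχ0]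
      rw [hmap, eventually_map]
      have f1 : ∀ᶠ p : ℝ × ℝ in 𝓝 (0, 0), W (E.e (χ (p.1, 0), h p.1)) = W (E.e (s, h 0)) :=
        (continuous_fst.tendsto ((0, 0) : ℝ × ℝ)).eventually ev1
      filter_upwards [f1] with p g1
      obtain ⟨x, y⟩ := p
      simp only at g1
      rintro ⟨t, ht⟩
      have hy : y = 0 := ((hchar x y t).1 ht).1
      subst hy
      rw [hVs, ← g1]
      symm
      exact propV_eq (htopx x)
  have hVq : ∀ q ∈ L, ¬ E.Under L q → ∃ s ∈ E.proj L, W q = propV E L W s := by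
    intro q hq hqu
    obtain ⟨⟨s, t⟩, rfl⟩ := D.sub hq
    refine ⟨s, ⟨t, hq⟩, ?_⟩
    symm
    apply propV_eq
    refine ⟨hq, fun t' ht' => ?_⟩
    by_contra hlt
    push Not at hlt
    exact hqu ⟨hq, s, t, t', rfl, hlt, ht'⟩
  intro q hq q' hq' hu hu'
  obtain ⟨s, hs, h1⟩ := hVq q hq hu
  obtain ⟨s', hs', h2⟩ := hVq q' hq' hu'
  rw [h1, h2]
  exact hconn.induction₂ (fun a b => propV E L W a = propV E L W b) hlocal
    (fun a b c _ _ _ hab hbc => hab.trans hbc) (fun a b _ _ hab => hab.symm) hs hs'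

end X_propagate

alias propagate := X_propagate.propagate

end AltGenus
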