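import Pool.Agent.AltGenus.ChartDefs
import Pool.Agent.AltGenus.P_HB_connected

open Set Topology Filter

namespace AltGenus

namespace X_sig_facts
theorem sig_facts {g : ℕ} {H : Heegaard g} (E : Collar H) :
    CompactSpace H.Sig ∧ LocallyConnectedSpace H.Sig ∧ PreconnectedSpace H.Sig := by
  obtain ⟨_, hfr, hcpt⟩ := HB_connected g
  haveI : CompactSpace (HB g) := isCompact_iff_compactSpace.mp hcpt
  haveI : CompactSpace H.Wp := H.hp.compactSpace
  haveI : CompactSpace H.Wm := H.hm.compactSpace
  have hWp : IsCompact H.Wp := isCompact_iff_compactSpace.mpr inferInstance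
  have hWm : IsCompact H.Wm := isCompact_iff_compactSpace.mpr inferInstance
  refine ⟨?_, ?_, ?_⟩
  · rw [← isCompact_iff_compactSpace, ← H.inter]
    exact hWp.inter hWm
  · haveI : Fact (Module.finrank ℝ (EuclideanSpace ℝ (Fin 4)) = 3 + 1) := ⟨by simp⟩
    haveI : LocallyConnectedSpace (EuclideanSpace ℝ (Fin 3)) := inferInstance
    haveI : LocallyConnectedSpace S3 :=
      ChartedSpace.locallyConnectedSpace (EuclideanSpace ℝ (Fin 3)) S3
    haveI : LocallyConnectedSpace (H.Sig × ℝ) := E.emb.locallyConnectedSpace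
    rw [locallyConnectedSpace_iff_subsets_isOpen_isConnected]
    intro x U hU
    have hU' : (Prod.fst : H.Sig × ℝ → H.Sig) ⁻¹' U ∈ 𝓝 ((x, 0) : H.Sig × ℝ) :=
      continuous_fst.continuousAt.preimage_mem_nhds hU
    obtain ⟨V, hVU, hVo, hxV, hVc⟩ :=
      (locallyConnectedSpace_iff_subsets_isOpen_isConnected.mp
        (inferInstance : LocallyConnectedSpace (H.Sig × ℝ))) (x, 0) _ hU'
    refine ⟨Prod.fst '' V, ?_, isOpenMap_fst V hVo, ⟨(x, 0), hxV, rfl⟩,
      hVc.image _ continuous_fst.continuousOn⟩
    rintro _ ⟨v, hv, rfl⟩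
    exact hVU hv
  · have hsub : frontier (HB g) ⊆ HB g := hcpt.isClosed.frontier_subset
    have hpre : IsPreconnected ((Subtype.val : HB g → (ℝ × ℝ) × ℝ) ⁻¹' frontier (HB g)) := by
      rw [← Topology.IsInducing.subtypeVal.isPreconnected_image]
      rw [Subtype.image_preimage_coe, Set.inter_eq_self_of_subset_right hsub]
      exact hfr.isPreconnected
    have himg : (fun v : HB g => (H.hp v : S3)) ''
        ((Subtype.val : HB g → (ℝ × ℝ) × ℝ) ⁻¹' frontier (HB g)) = H.Sig := by
      ext s
      constructor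
      · rintro ⟨v, hv, rfl⟩
        exact (H.hp_mem v).mpr hv
      · intro hs
        have hsW : s ∈ H.Wp := by
          have := H.inter ▸ hs
          exact this.1
        refine ⟨H.hp.symm ⟨s, hsW⟩, ?_, by simp⟩
        refine (H.hp_mem _).mp ?_
        simpa using hs
    have hSig : IsPreconnected H.Sig := by
      rw [← himg]
      exact hpre.image _ (continuous_subtype_val.comp H.hp.continuous).continuousOn
    exact isPreconnected_iff_preconnectedSpace.mp hSig

end X_sig_facts

alias sig_facts := X_sig_facts.sig_facts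

end AltGenus
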