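import Pool.Agent.AltGenus.ChartDefs

open Set Topology Filter

namespace AltGenus

namespace X_under_lim
theorem under_lim {g n : ℕ} {H : Heegaard g} {E : Collar H} (K : Link n) (L : Set S3)
    (hKL : K.carrier = L)
    (χ : ℝ × ℝ → H.Sig) (h₁ h₂ : ℝ → ℝ) (hχ : IsOpenEmbedding χ) (hc₁ : Continuous h₁)
    (hc₂ : Continuous h₂) (h21 : h₂ 0 < h₁ 0)
    (hΛ : ∀ x y t, E.e (χ (x, y), t) ∈ L ↔ (y = 0 ∧ t = h₁ x) ∨ (x = 0 ∧ t = h₂ y))
    (i : Fin n) (t : ℝ) (ht : K.γ i t = E.e (χ (0, 0), h₂ 0)) :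
    ((∀ᶠ u in 𝓝[<] t, ∃ y, 0 < y ∧ K.γ i u = E.e (χ (0, y), h₂ y)) ∧
      (∀ᶠ u in 𝓝[>] t, ∃ y, y < 0 ∧ K.γ i u = E.e (χ (0, y), h₂ y))) ∨
    ((∀ᶠ u in 𝓝[<] t, ∃ y, y < 0 ∧ K.γ i u = E.e (χ (0, y), h₂ y)) ∧
      (∀ᶠ u in 𝓝[>] t, ∃ y, 0 < y ∧ K.γ i u = E.e (χ (0, y), h₂ y))) := by
  let θ : (ℝ × ℝ) × ℝ → S3 := fun p => E.e (χ p.1, p.2)
  have hθ : IsOpenEmbedding θ := E.emb.comp (hχ.prodMap IsOpenEmbedding.id)
  let φ : S3 → (ℝ × ℝ) × ℝ := (hθ.toOpenPartialHomeomorph θ).symm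
  have hφl : ∀ p, φ (θ p) = p := fun p => hθ.toOpenPartialHomeomorph_left_inv θ
  have hφr : ∀ q ∈ range θ, θ (φ q) = q := fun q hq => hθ.toOpenPartialHomeomorph_right_inv θ hq
  have hγ : Continuous (K.γ i) := continuous_induced_rng.2 (K.smooth i).continuous
  have hmem : K.γ i t ∈ range θ := ⟨((0, 0), h₂ 0), ht.symm⟩
  have hφc : ContinuousOn φ (range θ) := by
    have h := (hθ.toOpenPartialHomeomorph θ).continuousOn_invFun
    simpa [φ] using h
  obtain ⟨m, hm1, hm2⟩ := exists_between h21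
  let c : ℝ → (ℝ × ℝ) × ℝ := fun u => φ (K.γ i u)
  have hct : c t = ((0, 0), h₂ 0) := by
    show φ (K.γ i t) = _
    rw [ht]
    exact hφl ((0, 0), h₂ 0)
  have hUo : IsOpen (K.γ i ⁻¹' range θ) := hθ.isOpen_range.preimage hγ
  have hcc : ContinuousOn c (K.γ i ⁻¹' range θ) := hφc.comp hγ.continuousOn (fun _ h => h)
  have hV : IsOpen {p : (ℝ × ℝ) × ℝ | p.2 < m ∧ m < h₁ p.1.1} :=
    (isOpen_lt continuous_snd continuous_const).inter
      (isOpen_lt continuous_const (hc₁.comp (continuous_fst.comp continuous_fst)))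
  have hW := hcc.isOpen_inter_preimage hUo hV
  have htW : t ∈ K.γ i ⁻¹' range θ ∩ c ⁻¹' {p : (ℝ × ℝ) × ℝ | p.2 < m ∧ m < h₁ p.1.1} := by
    refine ⟨hmem, ?_⟩
    show (c t).2 < m ∧ m < h₁ (c t).1.1
    rw [hct]
    exact ⟨hm1, hm2⟩
  obtain ⟨δ, hδ, hball⟩ := Metric.isOpen_iff.1 hW t htW
  obtain ⟨d, hd⟩ : ∃ d, d = min δ (1 / 2) := ⟨_, rfl⟩
  have hd0 : 0 < d := by rw [hd]; exact lt_min hδ (by norm_num)
  have hdδ : d ≤ δ := by rw [hd]; exact min_le_left _ _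
  have hdh : d ≤ 1 / 2 := by rw [hd]; exact min_le_right _ _
  have hIn : ∀ u ∈ Ioo (t - d) (t + d),
      u ∈ K.γ i ⁻¹' range θ ∩ c ⁻¹' {p : (ℝ × ℝ) × ℝ | p.2 < m ∧ m < h₁ p.1.1} := by
    intro u hu
    apply hball
    rw [Metric.mem_ball, Real.dist_eq, abs_lt]
    constructor <;> linarith [hu.1, hu.2]
  have hgood : ∀ u ∈ Ioo (t - d) (t + d),
      K.γ i u = E.e (χ (0, (c u).1.2), h₂ (c u).1.2) := by
    intro u hu
    obtain ⟨h1, h2, h3⟩ := hIn u hu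
    have h4 : θ (c u) = K.γ i u := hφr _ h1
    have h5 : E.e (χ ((c u).1.1, (c u).1.2), (c u).2) ∈ L := by
      have : E.e (χ ((c u).1.1, (c u).1.2), (c u).2) = K.γ i u := h4
      rw [this, ← hKL]
      exact mem_iUnion.2 ⟨i, mem_range_self u⟩
    rcases (hΛ _ _ _).1 h5 with ⟨_, h7⟩ | ⟨h6, h7⟩
    · exfalso
      rw [h7] at h2
      exact lt_irrefl _ (h2.trans h3)
    · have h8 : θ (c u) = E.e (χ ((c u).1.1, (c u).1.2), (c u).2) := rfl
      rw [← h4, h8, h6, h7]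
  have hinj : InjOn (fun u => (c u).1.2) (Ioo (t - d) (t + d)) := by
    intro u hu v hv huv
    have h1 : K.γ i u = K.γ i v := by
      rw [hgood u hu, hgood v hv]
      have : (c u).1.2 = (c v).1.2 := huv
      rw [this]
    obtain ⟨_, k, hk⟩ := K.inj i i u v h1
    have hk1 : (k : ℝ) < 1 := by linarith [hu.1, hu.2, hv.1, hv.2]
    have hk2 : (-1 : ℝ) < k := by linarith [hu.1, hu.2, hv.1, hv.2]
    have hk1' : k < 1 := by exact_mod_cast hk1
    have hk2' : -1 < k := by exact_mod_cast hk2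
    have hk0 : k = 0 := by omega
    rw [hk, hk0]; simp
  have hcont : ContinuousOn (fun u => (c u).1.2) (Ioo (t - d) (t + d)) :=
    (continuous_snd.comp continuous_fst).comp_continuousOn (hcc.mono (fun u hu => (hIn u hu).1))
  have htIoo : t ∈ Ioo (t - d) (t + d) := ⟨by linarith, by linarith⟩
  have hyt : (c t).1.2 = 0 := by rw [hct]
  have hL : Ioo (t - d) t ∈ 𝓝[<] t := Ioo_mem_nhdsLT (by linarith)
  have hR : Ioo t (t + d) ∈ 𝓝[>] t := Ioo_mem_nhdsGT (by linarith)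
  rcases hcont.strictMonoOn_of_injOn_Ioo (by linarith) hinj with hmono | hanti
  · right
    constructor
    · filter_upwards [hL] with u hu
      have huI : u ∈ Ioo (t - d) (t + d) := ⟨hu.1, by linarith [hu.2]⟩
      refine ⟨(c u).1.2, ?_, hgood u huI⟩
      have := hmono huI htIoo hu.2
      simpa [hyt] using this
    · filter_upwards [hR] with u hu
      have huI : u ∈ Ioo (t - d) (t + d) := ⟨by linarith [hu.1], hu.2⟩
      refine ⟨(c u).1.2, ?_, hgood u huI⟩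
      have := hmono htIoo huI hu.1
      simpa [hyt] using this
  · left
    constructor
    · filter_upwards [hL] with u hu
      have huI : u ∈ Ioo (t - d) (t + d) := ⟨hu.1, by linarith [hu.2]⟩
      refine ⟨(c u).1.2, ?_, hgood u huI⟩
      have := hanti huI htIoo hu.2
      simpa [hyt] using this
    · filter_upwards [hR] with u hu
      have huI : u ∈ Ioo (t - d) (t + d) := ⟨by linarith [hu.1], hu.2⟩
      refine ⟨(c u).1.2, ?_, hgood u huI⟩
      have := hanti htIoo huI hu.1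
      simpa [hyt] using this

end X_under_lim

alias under_lim := X_under_lim.under_lim

end AltGenus
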