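import Pool.Agent.AltGenus.ChartDefs

open Set Topology Filter

namespace AltGenus

namespace X_chart_facts
theorem chart_facts {g : ℕ} {H : Heegaard g} (E : Collar H) (L : Set S3)
    (χ : ℝ × ℝ → H.Sig) (hχ : IsOpenEmbedding χ) :
    IsOpenEmbedding (fun v : ℝ × ℝ × ℝ => E.e (χ (v.1, v.2.1), v.2.2)) ∧
    (∀ v : ℝ × ℝ × ℝ, E.e (χ (v.1, v.2.1), v.2.2) ∈ Rp E L ↔
      ∀ t', v.2.2 ≤ t' → E.e (χ (v.1, v.2.1), t') ∉ L) ∧
    (∀ h₁ h₂ : ℝ → ℝ, h₂ 0 < h₁ 0 → (∀ x y t, E.e (χ (x, y), t) ∈ L ↔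
        (y = 0 ∧ t = h₁ x) ∨ (x = 0 ∧ t = h₂ y)) →
      ∀ v : ℝ × ℝ × ℝ, E.e (χ (v.1, v.2.1), v.2.2) ∈ Rp E L ↔ v ∈ UpR h₁ h₂) ∧
    (∀ h : ℝ → ℝ, (∀ x y t, E.e (χ (x, y), t) ∈ L ↔ y = 0 ∧ t = h x) →
      ∀ v : ℝ × ℝ × ℝ, E.e (χ (v.1, v.2.1), v.2.2) ∈ Rp E L ↔ v ∈ UJ univ h) := by
  have h2 : ∀ v : ℝ × ℝ × ℝ, E.e (χ (v.1, v.2.1), v.2.2) ∈ Rp E L ↔
      ∀ t', v.2.2 ≤ t' → E.e (χ (v.1, v.2.1), t') ∉ L := by
    intro v
    constructor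
    · rintro (⟨_, h⟩ | ⟨s, t, hst, h⟩)
      · exact absurd ⟨_, rfl⟩ h
      · have := E.emb.injective hst
        rw [Prod.mk.injEq] at this
        obtain ⟨h1, h2⟩ := this
        rw [h1, h2]
        exact h
    · intro h
      exact Or.inr ⟨_, _, rfl, h⟩
  refine ⟨?_, h2, ?_, ?_⟩
  · have h3 : IsOpenEmbedding (Prod.map χ (id : ℝ → ℝ)) := hχ.prodMap IsOpenEmbedding.id
    exact (E.emb.comp h3).comp (Homeomorph.prodAssoc ℝ ℝ ℝ).symm.isOpenEmbedding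
  · intro h₁ h₂ h0 hL v
    rw [h2]
    constructor
    · intro h
      constructor
      · intro hy
        by_contra hle
        exact h (h₁ v.1) (not_lt.1 hle) ((hL _ _ _).2 (Or.inl ⟨hy, rfl⟩))
      · intro hx
        by_contra hle
        exact h (h₂ v.2.1) (not_lt.1 hle) ((hL _ _ _).2 (Or.inr ⟨hx, rfl⟩))
    · rintro ⟨ha, hb⟩ t' ht' hmem
      rcases (hL _ _ _).1 hmem with ⟨hy, ht⟩ | ⟨hx, ht⟩
      · have := ha hy
        linarith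
      · have := hb hx
        linarith
  · intro h hL v
    rw [h2]
    constructor
    · intro hh
      refine ⟨trivial, fun hy => ?_⟩
      by_contra hle
      exact hh (h v.1) (not_lt.1 hle) ((hL _ _ _).2 ⟨hy, rfl⟩)
    · rintro ⟨-, ha⟩ t' ht' hmem
      obtain ⟨hy, ht⟩ := (hL _ _ _).1 hmem
      have := ha hy
      linarith

end X_chart_facts

alias chart_facts := X_chart_facts.chart_facts

end AltGenus
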