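import Pool.Agent.AltGenus.ChartDefs

open Set Topology Filter

namespace AltGenus

namespace X_lift_homotopy
section lifting

/-- chart domains -/
def Uc {n : ℕ} (c : Option (Fin n)) : Set (ℝ × ℝ) :=
  match c with
  | none => {w | ∀ i : Fin n, ¬ (w.2 = (i : ℝ) ∧ 0 ≤ w.1)}
  | some i => {w | 0 < w.1 ∧ |w.2 - (i : ℝ)| < 1 / 2}

theorem isOpen_Uc {n : ℕ} (c : Option (Fin n)) : IsOpen (Uc c) := by
  cases c with
  | none =>
    have : (Uc (none : Option (Fin n))) = ⋂ i : Fin n, {w : ℝ × ℝ | w.2 = (i : ℝ) ∧ 0 ≤ w.1}ᶜ := by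
      ext w
      simp [Uc]
    rw [this]
    refine isOpen_iInter_of_finite fun i => ?_
    rw [isOpen_compl_iff]
    exact (isClosed_eq continuous_snd continuous_const).inter
      (isClosed_le continuous_const continuous_fst)
  | some i =>
    exact (isOpen_lt continuous_const continuous_fst).inter
      (isOpen_lt ((continuous_snd.sub continuous_const).abs) continuous_const)

theorem exists_Uc {n : ℕ} {w : ℝ × ℝ} (h : ∀ i : Fin n, w ≠ (0, (i : ℝ))) :
    ∃ c : Option (Fin n), w ∈ Uc c := by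
  by_cases h1 : ∀ i : Fin n, ¬ (w.2 = (i : ℝ) ∧ 0 ≤ w.1)
  · exact ⟨none, h1⟩
  · push Not at h1
    obtain ⟨i, h2, h3⟩ := h1
    refine ⟨some i, lt_of_le_of_ne h3 fun h0 => h i (Prod.ext h0.symm h2), ?_⟩
    rw [h2, sub_self, abs_zero]
    norm_num

/-- the local trivialisations -/
noncomputable def sg {n : ℕ} (a : Fin n → ℝ) (c : Option (Fin n)) (w : ℝ × ℝ) (r : ℝ) : ℝ :=
  match c with
  | none => r
  | some i => if w.2 < (i : ℝ) then 2 * a i - r else r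

theorem sg_sg {n : ℕ} (a : Fin n → ℝ) (c : Option (Fin n)) (w : ℝ × ℝ) (r : ℝ) :
    sg a c w (sg a c w r) = r := by
  cases c with
  | none => rfl
  | some i =>
    simp only [sg]
    split_ifs
    · ring
    · rfl

theorem sg_inj {n : ℕ} {a : Fin n → ℝ} {c : Option (Fin n)} {w : ℝ × ℝ} {r s : ℝ}
    (h : sg a c w r = sg a c w s) : r = s := by
  rw [← sg_sg a c w r, h, sg_sg]

theorem sg_jump {n : ℕ} (a : Fin n → ℝ) (c : Option (Fin n)) {w : ℝ × ℝ} (hw : w ∈ Uc c) :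
    ∀ᶠ w' in 𝓝 w, ∀ r, sg a c w' (jump a w w' r) = sg a c w r := by
  cases c with
  | none =>
    refine Filter.Eventually.of_forall fun w' r => ?_
    simp only [sg, jump]
    rw [if_neg]
    rintro ⟨h1, h2, i, hi⟩
    exact hw i ⟨hi, h1.le⟩
  | some i =>
    obtain ⟨hw1, hw2⟩ := hw
    have huniq : ∀ j : Fin n, w.2 = (j : ℝ) → j = i := by
      intro j hj
      rw [hj] at hw2
      have h3 : |((j : ℕ) : ℝ) - ((i : ℕ) : ℝ)| < 1 := by linarith
      have h4 : |(((j : ℕ) : ℤ) - ((i : ℕ) : ℤ))| < 1 := by exact_mod_cast h3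
      rw [Int.abs_lt_one_iff] at h4
      apply Fin.ext
      omega
    rcases lt_trichotomy w.2 (i : ℝ) with h | h | h
    · have h1 : ∀ᶠ w' : ℝ × ℝ in 𝓝 w, w'.2 < (i : ℝ) :=
        (isOpen_lt continuous_snd continuous_const).mem_nhds h
      filter_upwards [h1] with w' hw' r
      have hj : jump a w w' r = r := by
        unfold jump
        rw [if_neg]
        rintro ⟨_, _, j, hj⟩
        have := huniq j hj
        rw [this] at hj
        exact h.ne hj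
      simp only [sg, hj, if_pos hw', if_pos h]
    · refine Filter.Eventually.of_forall fun w' r => ?_
      simp only [sg, jump, h, lt_irrefl, if_false, colour_self]
      by_cases h' : w'.2 < i
      · rw [if_pos h', if_pos ⟨hw1, h', i, rfl⟩]
        ring
      · rw [if_neg h', if_neg (fun hh => h' hh.2.1)]
    · have h1 : ∀ᶠ w' : ℝ × ℝ in 𝓝 w, (i : ℝ) < w'.2 :=
        (isOpen_lt continuous_const continuous_snd).mem_nhds h
      filter_upwards [h1] with w' hw' r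
      have hj : jump a w w' r = r := by
        unfold jump
        rw [if_neg]
        rintro ⟨_, _, j, hj⟩
        have := huniq j hj
        rw [this] at hj
        exact h.ne' hj
      simp only [sg, hj, if_neg (not_lt.2 hw'.le), if_neg (not_lt.2 h.le)]

theorem flatOn_iff_sg {n : ℕ} {Y : Type*} [TopologicalSpace Y] (a : Fin n → ℝ)
    (c : Option (Fin n)) {φ : Y → ℝ × ℝ} {A : Set Y} {f : Y → ℝ} (hφ : ContinuousOn φ A)
    (hA : ∀ y ∈ A, φ y ∈ Uc c) :
    FlatOn a φ A f ↔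
      ∀ y ∈ A, ∀ᶠ y' in 𝓝[A] y, sg a c (φ y') (f y') = sg a c (φ y) (f y) := by
  refine forall₂_congr fun y hy => ?_
  have h1 := (hφ y hy).eventually (sg_jump a c (hA y hy))
  constructor
  · intro h
    filter_upwards [h, h1] with y' e1 e2
    rw [e1, e2]
  · intro h
    filter_upwards [h, h1] with y' e1 e2
    exact sg_inj (e1.trans (e2 _).symm)

theorem lift_step {n : ℕ} (a : Fin n → ℝ) {Y : Type} [TopologicalSpace Y]
    (H : unitInterval × Y → ℝ × ℝ) (hc : Continuous H) (c : Option (Fin n)) {s t : unitInterval}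
    (hst : s ≤ t) {V : Set Y} (hV : ∀ τ ∈ Icc s t, ∀ y ∈ V, H (τ, y) ∈ Uc c) (g : Y → ℝ)
    (hg : FlatOn a (fun y => H (s, y)) V g) :
    FlatOn a H (Icc s t ×ˢ V) (fun p => sg a c (H p) (sg a c (H (s, p.2)) (g p.2))) := by
  rw [flatOn_iff_sg a c hc.continuousOn (fun p hp => hV p.1 hp.1 p.2 hp.2)]
  have hcs : Continuous (fun y => H (s, y)) := by fun_prop
  rw [flatOn_iff_sg a c hcs.continuousOn (fun y hy => hV s ⟨le_rfl, hst⟩ y hy)] at hg
  rintro ⟨τ, y⟩ ⟨hτ, hy⟩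
  have h1 : Tendsto Prod.snd (𝓝[Icc s t ×ˢ V] (τ, y)) (𝓝[V] y) := by
    rw [nhdsWithin_prod_eq]
    exact tendsto_snd
  filter_upwards [h1.eventually (hg y hy)] with p hp
  simp only [sg_sg]
  exact hp

theorem lift_glue {n : ℕ} (a : Fin n → ℝ) {Y : Type} [TopologicalSpace Y]
    (H : unitInterval × Y → ℝ × ℝ) {s t : unitInterval} (hst : s ≤ t) {V : Set Y}
    {F₁ F₂ : unitInterval × Y → ℝ} (h1 : FlatOn a H (Icc 0 s ×ˢ V) F₁)
    (h2 : FlatOn a H (Icc s t ×ˢ V) F₂) (h12 : ∀ y ∈ V, F₁ (s, y) = F₂ (s, y)) :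
    ∃ F, FlatOn a H (Icc 0 t ×ˢ V) F ∧ ∀ y, F (0, y) = F₁ (0, y) := by
  classical
  obtain ⟨F, hF⟩ : ∃ F : unitInterval × Y → ℝ, ∀ p, F p = if p.1 ≤ s then F₁ p else F₂ p :=
    ⟨_, fun _ => rfl⟩
  have h1' : FlatOn a H (Icc 0 s ×ˢ V) F := h1.congr fun p hp => by
    rw [hF, if_pos hp.1.2]
  have h2' : FlatOn a H (Icc s t ×ˢ V) F := h2.congr fun p hp => by
    rw [hF]
    split_ifs with h
    · obtain ⟨τ, y⟩ := p
      have e : τ = s := le_antisymm h hp.1.1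
      rw [e]
      exact (h12 y hp.2).symm
    · rfl
  refine ⟨F, ?_, fun y => by rw [hF, if_pos]; exact s.2.1⟩
  have hs0 : (0 : unitInterval) ≤ s := s.2.1
  have e : Icc (0 : unitInterval) t ×ˢ V = Icc 0 s ×ˢ V ∪ Icc s t ×ˢ V := by
    rw [← union_prod, Icc_union_Icc_eq_Icc hs0 hst]
  rw [e]
  refine h1'.union_closed h2' ?_ ?_
  · rintro ⟨τ, y⟩ ⟨hτ, hy⟩ hn
    have hlt : s < τ := by
      by_contra hle
      exact hn ⟨⟨τ.2.1, not_lt.1 hle⟩, hy⟩
    rw [← empty_mem_iff_bot, mem_nhdsWithin]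
    refine ⟨{p | s < p.1}, isOpen_lt continuous_const continuous_fst, hlt, ?_⟩
    rintro p ⟨hp1, hp2⟩
    exact absurd hp2.1.2 (not_le.2 hp1)
  · rintro ⟨τ, y⟩ ⟨hτ, hy⟩ hn
    have hlt : τ < s := by
      by_contra hle
      exact hn ⟨⟨not_lt.1 hle, hτ.2.trans hst⟩, hy⟩
    rw [← empty_mem_iff_bot, mem_nhdsWithin]
    refine ⟨{p | p.1 < s}, isOpen_lt continuous_fst continuous_const, hlt, ?_⟩
    rintro p ⟨hp1, hp2⟩
    exact absurd hp2.1.1 (not_le.2 hp1)

theorem lift_local {n : ℕ} (a : Fin n → ℝ) {Y : Type} [TopologicalSpace Y]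
    (H : unitInterval × Y → ℝ × ℝ) (hc : Continuous H)
    (hav : ∀ p, ∀ i : Fin n, H p ≠ (0, (i : ℝ))) (f₀ : Y → ℝ)
    (h₀ : FlatOn a (fun y => H (0, y)) univ f₀) (y₀ : Y) :
    ∃ V : Set Y, IsOpen V ∧ y₀ ∈ V ∧ ∃ F : unitInterval × Y → ℝ,
      FlatOn a H (univ ×ˢ V) F ∧ ∀ y ∈ V, F (0, y) = f₀ y := by
  obtain ⟨t, ht0, htm, ⟨N, hN⟩, ht⟩ := exists_monotone_Icc_subset_open_cover_unitInterval
    (c := fun c : Option (Fin n) => {τ : unitInterval | H (τ, y₀) ∈ Uc c})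
    (fun c => (isOpen_Uc c).preimage (by fun_prop : Continuous fun τ : unitInterval => H (τ, y₀)))
    (fun τ _ => by
      obtain ⟨c, hcc⟩ := exists_Uc (hav (τ, y₀))
      exact mem_iUnion.2 ⟨c, hcc⟩)
  have key : ∀ j : ℕ, ∃ V : Set Y, IsOpen V ∧ y₀ ∈ V ∧ ∃ F : unitInterval × Y → ℝ,
      FlatOn a H (Icc 0 (t j) ×ˢ V) F ∧ ∀ y ∈ V, F (0, y) = f₀ y := by
    intro j
    induction j with
    | zero =>
      refine ⟨univ, isOpen_univ, mem_univ _, fun p => f₀ p.2, ?_, fun y _ => rfl⟩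
      rintro ⟨τ, y⟩ ⟨hτ, -⟩
      rw [ht0] at hτ ⊢
      have hτ0 : τ = 0 := le_antisymm hτ.2 hτ.1
      subst hτ0
      have h1 : Tendsto Prod.snd (𝓝[Icc (0 : unitInterval) 0 ×ˢ (univ : Set Y)] (0, y))
          (𝓝[univ] y) := by
        rw [nhdsWithin_prod_eq]
        exact tendsto_snd
      filter_upwards [h1.eventually (h₀ y (mem_univ y)), self_mem_nhdsWithin] with p hp hp'
      have hp0 : p.1 = 0 := le_antisymm hp'.1.2 hp'.1.1
      rw [hp]
      obtain ⟨p1, p2⟩ := p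
      simp only at hp0
      rw [hp0]
    | succ j ih =>
      obtain ⟨V, hVo, hyV, F, hF, hF0⟩ := ih
      obtain ⟨c, hcc⟩ := ht j
      have htj : t j ≤ t (j + 1) := htm (Nat.le_succ j)
      obtain ⟨u, v, -, hv, hu1, hv1, huv⟩ := generalized_tube_lemma
        (isCompact_Icc (a := t j) (b := t (j + 1))) (isCompact_singleton (x := y₀))
        ((isOpen_Uc c).preimage hc) (by
          rintro ⟨τ, y⟩ ⟨hτ, hy⟩
          rw [mem_singleton_iff] at hy
          subst hy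
          exact hcc hτ)
      have hyv : y₀ ∈ v := hv1 (mem_singleton _)
      have hFt : FlatOn a (fun y => H (t j, y)) (V ∩ v) (fun y => F (t j, y)) := by
        have := hF.comp (g := fun y : Y => (t j, y)) (B := V ∩ v)
          (by fun_prop) (fun y hy => ⟨⟨(t j).2.1, le_rfl⟩, hy.1⟩)
        exact this
      have h2 := lift_step a H hc c htj (V := V ∩ v)
        (fun τ hτ y hy => huv ⟨hu1 hτ, hy.2⟩) _ hFt
      obtain ⟨F', hF', hF'0⟩ := lift_glue a H htj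
        (hF.mono (prod_mono_right inter_subset_left)) h2 (fun y hy => (sg_sg a c _ _).symm)
      exact ⟨V ∩ v, hVo.inter hv, ⟨hyV, hyv⟩, F', hF', fun y hy => by rw [hF'0, hF0 y hy.1]⟩
  obtain ⟨V, hVo, hyV, F, hF, hF0⟩ := key N
  rw [hN N le_rfl] at hF
  refine ⟨V, hVo, hyV, F, hF.mono ?_, hF0⟩
  rintro ⟨τ, y⟩ ⟨-, hy⟩
  exact ⟨⟨τ.2.1, τ.2.2⟩, hy⟩

end lifting


theorem lift_homotopy {n : ℕ} (a : Fin n → ℝ) {Y : Type} [TopologicalSpace Y]
    (H : unitInterval × Y → ℝ × ℝ) (hc : Continuous H)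
    (hav : ∀ p, ∀ i : Fin n, H p ≠ (0, (i : ℝ))) (f₀ : Y → ℝ)
    (h₀ : FlatOn a (fun y => H (0, y)) univ f₀) :
    ∃ F : unitInterval × Y → ℝ, FlatOn a H univ F ∧ ∀ y, F (0, y) = f₀ y := by
  choose V hVo hyV F hF hF0 using lift_local a H hc hav f₀ h₀
  have huniq : ∀ y₀ : Y, ∀ τ : unitInterval, ∀ y ∈ V y₀, F y (τ, y) = F y₀ (τ, y) := by
    intro y₀ τ y hy
    have hpre : IsPreconnected ((univ : Set unitInterval) ×ˢ ({y} : Set Y)) :=
      isPreconnected_univ.prod isPreconnected_singleton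
    have h1 : FlatOn a H (univ ×ˢ {y}) (F y) :=
      (hF y).mono (prod_mono_right (singleton_subset_iff.2 (hyV y)))
    have h2 : FlatOn a H (univ ×ˢ {y}) (F y₀) :=
      (hF y₀).mono (prod_mono_right (singleton_subset_iff.2 hy))
    exact h1.eqOn h2 hpre (y₀ := (0, y)) ⟨mem_univ _, mem_singleton _⟩
      (by rw [hF0 y y (hyV y), hF0 y₀ y hy]) ⟨mem_univ _, mem_singleton _⟩
  refine ⟨fun p => F p.2 p, ?_, fun y => hF0 y y (hyV y)⟩
  rintro ⟨τ, y⟩ -
  have h1 : FlatOn a H (univ ×ˢ V y) (fun p => F p.2 p) :=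
    (hF y).congr fun p hp => (huniq y p.1 p.2 hp.2).symm
  have h2 := h1 (τ, y) ⟨mem_univ _, hyV y⟩
  rw [(isOpen_univ.prod (hVo y)).nhdsWithin_eq ⟨mem_univ _, hyV y⟩] at h2
  rw [nhdsWithin_univ]
  exact h2

end X_lift_homotopy

alias lift_homotopy := X_lift_homotopy.lift_homotopy

end AltGenus
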