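import Pool.Agent.AltGenus.ChartDefs
import Pool.Agent.AltGenus.P_lift_homotopy

open Set Topology Filter

namespace AltGenus

namespace X_exists_flatOn
theorem exists_flatOn {n : ℕ} (a : Fin n → ℝ) {Y : Type} [TopologicalSpace Y]
    (φ : Y → ℝ × ℝ) (A : Set Y) (hφ : ContinuousOn φ A)
    (hav : ∀ y ∈ A, ∀ i : Fin n, φ y ≠ (0, (i : ℝ))) (hA : ContractibleSpace A)
    {y₀ : Y} (hy₀ : y₀ ∈ A) (c : ℝ) : ∃ f : Y → ℝ, FlatOn a φ A f ∧ f y₀ = c := by
  classical
  obtain ⟨y1, ⟨K⟩⟩ := id_nullhomotopic A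
  let K' := K.symm
  let H : unitInterval × A → ℝ × ℝ := fun p => A.restrict φ (K' p)
  have hres : Continuous (A.restrict φ) := continuousOn_iff_continuous_restrict.1 hφ
  have hHc : Continuous H := hres.comp K'.continuous
  have hHav : ∀ p, ∀ i : Fin n, H p ≠ (0, (i : ℝ)) := fun p i => hav (K' p).1 (K' p).2 i
  have hH0 : ∀ y, H (0, y) = φ y1.1 := by
    intro y
    change φ (K' (0, y)).1 = φ y1.1
    rw [K'.apply_zero]
    rfl
  have hH1 : ∀ y : A, H (1, y) = φ y.1 := by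
    intro y
    change φ (K' (1, y)).1 = φ y.1
    rw [K'.apply_one]
    rfl
  have hlift : ∀ d : ℝ, ∃ F : unitInterval × A → ℝ, FlatOn a H univ F ∧ ∀ y, F (0, y) = d := by
    intro d
    refine lift_homotopy a H hHc hHav (fun _ => d) ?_
    intro y _
    filter_upwards with y'
    simp only [hH0, jump_self]
  choose F hF hF0 using hlift
  let z₀ : A := ⟨y₀, hy₀⟩
  have hsq : ∀ d e : ℝ, (F d (1, z₀) - F e (1, z₀)) ^ 2 = (d - e) ^ 2 := by
    intro d e
    have h1 := (hF d).sq_sub (hF e) (isPreconnected_univ) (mem_univ ((1 : unitInterval), z₀))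
      (mem_univ ((0 : unitInterval), z₀))
    rw [hF0, hF0] at h1
    exact h1
  have hsurj : ∃ d, F d (1, z₀) = c := by
    have h1 := hsq (c - F 0 (1, z₀)) 0
    have h2 := hsq (F 0 (1, z₀) - c) 0
    have h3 := hsq (c - F 0 (1, z₀)) (F 0 (1, z₀) - c)
    obtain ⟨k0, hk0⟩ : ∃ k0, k0 = F 0 (1, z₀) := ⟨_, rfl⟩
    obtain ⟨k1, hk1⟩ : ∃ k1, k1 = F (c - F 0 (1, z₀)) (1, z₀) := ⟨_, rfl⟩
    obtain ⟨k2, hk2⟩ : ∃ k2, k2 = F (F 0 (1, z₀) - c) (1, z₀) := ⟨_, rfl⟩
    rw [← hk1, ← hk0] at h1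
    rw [← hk2, ← hk0] at h2
    rw [← hk1, ← hk2, ← hk0] at h3
    have e1 : (k1 - c) * (k1 - (2 * k0 - c)) = 0 := by nlinarith
    rcases mul_eq_zero.1 e1 with e | e
    · exact ⟨c - F 0 (1, z₀), by rw [← hk1]; linarith⟩
    · have e2 : (k2 - c) * (k2 - (2 * k0 - c)) = 0 := by nlinarith
      rcases mul_eq_zero.1 e2 with e' | e'
      · exact ⟨F 0 (1, z₀) - c, by rw [← hk2]; linarith⟩
      · refine ⟨c - F 0 (1, z₀), ?_⟩
        rw [← hk1]
        have e3 : k1 = k2 := by linarith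
        rw [e3] at h3
        have e4 : (c - k0) ^ 2 = 0 := by nlinarith
        have e5 : c - k0 = 0 := by
          rcases pow_eq_zero_iff (two_ne_zero) |>.1 e4 with h
          exact h
        linarith
  obtain ⟨d, hd⟩ := hsurj
  have hcomp : FlatOn a (fun y : A => φ y.1) univ (fun y : A => F d (1, y)) := by
    have h1 := (hF d).comp (g := fun y : A => ((1 : unitInterval), y)) (B := univ)
      (by fun_prop) (fun _ _ => mem_univ _)
    have h2 : (H ∘ fun y : A => ((1 : unitInterval), y)) = fun y : A => φ y.1 := by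
      funext y
      exact hH1 y
    rw [h2] at h1
    exact h1
  refine ⟨fun y => if h : y ∈ A then F d (1, ⟨y, h⟩) else 0, ?_, ?_⟩
  · intro y hy
    rw [nhdsWithin_eq_map_subtype_coe hy, eventually_map]
    have h1 := hcomp ⟨y, hy⟩ (mem_univ _)
    rw [nhdsWithin_univ] at h1
    filter_upwards [h1] with z hz
    rw [dif_pos z.2, dif_pos hy]
    exact hz
  · simp only [dif_pos hy₀]
    exact hd

end X_exists_flatOn

alias exists_flatOn := X_exists_flatOn.exists_flatOn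

end AltGenus
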