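import Pool.Agent.AltGenus.ChartDefs

open Set Topology Filter

namespace AltGenus

namespace X_vert_contractible
theorem vert_contractible (B : Set (ℝ × ℝ)) (hB : Convex ℝ B) (hBne : B.Nonempty)
    (m : ℝ × ℝ → ℝ) (hm : ContinuousOn m B) (R : Set (ℝ × ℝ × ℝ))
    (h1 : ∀ x y t, (x, y, t) ∈ R → (x, y) ∈ B)
    (h2 : ∀ x y, (x, y) ∈ B → (x, y, m (x, y)) ∈ R)
    (h3 : ∀ x y t s, (x, y, t) ∈ R → s ∈ uIcc t (m (x, y)) → (x, y, s) ∈ R) :
    ContractibleSpace R := by
  classical
  obtain ⟨b0, hb0⟩ := hBne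
  -- the base point
  have hp0 : (b0.1, b0.2, m (b0.1, b0.2)) ∈ R := h2 _ _ hb0
  let σ : unitInterval → ℝ := fun s => min 1 (2 * (1 - (s : ℝ)))
  let ρ : unitInterval → ℝ := fun s => max 0 (1 - 2 * (s : ℝ))
  have hσc : Continuous σ := by fun_prop
  have hρc : Continuous ρ := by fun_prop
  let pr : R → ℝ × ℝ := fun p => (p.1.1, p.1.2.1)
  have hprc : Continuous pr := by
    show Continuous (fun p : R => ((p.1.1, p.1.2.1) : ℝ × ℝ))
    fun_prop
  have hprB : ∀ p, pr p ∈ B := fun p => h1 _ _ _ p.2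
  let b : unitInterval × R → ℝ × ℝ := fun q => b0 + σ q.1 • (pr q.2 - b0)
  have hbc : Continuous b := by
    show Continuous (fun q : unitInterval × R => b0 + σ q.1 • (pr q.2 - b0))
    exact continuous_const.add ((hσc.comp continuous_fst).smul ((hprc.comp continuous_snd).sub continuous_const))
  have hσ0 : ∀ s, 0 ≤ σ s := fun s => by
    have := s.2.2
    exact le_min zero_le_one (by linarith)
  have hσ1 : ∀ s, σ s ≤ 1 := fun s => min_le_left _ _
  have hbB : ∀ q, b q ∈ B := by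
    intro q
    have h4 : b q = (1 - σ q.1) • b0 + σ q.1 • pr q.2 := by
      show b0 + σ q.1 • (pr q.2 - b0) = _
      rw [smul_sub, sub_smul, one_smul]
      abel
    rw [h4]
    exact hB hb0 (hprB _) (by linarith [hσ1 q.1]) (hσ0 _) (by ring)
  let F : unitInterval × R → ℝ × ℝ × ℝ := fun q =>
    ((b q).1, (b q).2, m (b q) + ρ q.1 * (q.2.1.2.2 - m (pr q.2)))
  have hmb : Continuous (fun q => m (b q)) := hm.comp_continuous hbc hbB
  have hmp : Continuous (fun p : R => m (pr p)) := hm.comp_continuous hprc hprB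
  have hFc : Continuous F := by
    refine (continuous_fst.comp hbc).prodMk ((continuous_snd.comp hbc).prodMk (hmb.add ?_))
    refine (hρc.comp continuous_fst).mul (Continuous.sub ?_ (hmp.comp continuous_snd))
    fun_prop
  have hFR : ∀ q, F q ∈ R := by
    rintro ⟨s, p⟩
    rcases le_total (s : ℝ) (1/2) with hs | hs
    · have hσs : σ s = 1 := min_eq_left (by linarith)
      have hb : b (s, p) = pr p := by
        show b0 + σ s • (pr p - b0) = _
        rw [hσs, one_smul]; abel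
      have hρs : ρ s = 1 - 2 * (s : ℝ) := max_eq_right (by linarith)
      show ((b (s, p)).1, (b (s, p)).2, m (b (s, p)) + ρ s * (p.1.2.2 - m (pr p))) ∈ R
      rw [hb, hρs]
      have hs0 := s.2.1
      have hpR : (p.1.1, p.1.2.1, p.1.2.2) ∈ R := p.2
      refine h3 p.1.1 p.1.2.1 p.1.2.2 _ hpR ?_
      rw [← segment_eq_uIcc]
      refine ⟨1 - 2 * (s : ℝ), 2 * (s : ℝ), by linarith, by linarith, by ring, ?_⟩
      simp only [smul_eq_mul]
      show _ = m (p.1.1, p.1.2.1) + (1 - 2 * (s:ℝ)) * (p.1.2.2 - m (p.1.1, p.1.2.1))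
      ring
    · have hρs : ρ s = 0 := max_eq_left (by linarith)
      show ((b (s, p)).1, (b (s, p)).2, m (b (s, p)) + ρ s * (p.1.2.2 - m (pr p))) ∈ R
      rw [hρs, zero_mul, add_zero]
      exact h2 _ _ (hbB (s, p))
  rw [contractible_iff_id_nullhomotopic]
  refine ⟨⟨(b0.1, b0.2, m (b0.1, b0.2)), hp0⟩, ⟨?_⟩⟩
  refine ⟨⟨fun q => ⟨F q, hFR q⟩, hFc.subtype_mk _⟩, ?_, ?_⟩
  · intro p
    apply Subtype.ext
    show ((b (0, p)).1, (b (0, p)).2, m (b (0, p)) + ρ 0 * (p.1.2.2 - m (pr p))) = p.1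
    have hσs : σ 0 = 1 := by
      show min (1:ℝ) (2 * (1 - ((0 : unitInterval) : ℝ))) = 1
      simp
    have hρs : ρ 0 = 1 := by
      show max (0:ℝ) (1 - 2 * ((0 : unitInterval) : ℝ)) = 1
      simp
    have hb : b (0, p) = pr p := by
      show b0 + σ 0 • (pr p - b0) = _
      rw [hσs, one_smul]; abel
    rw [hb, hρs]
    ext
    · rfl
    · rfl
    · show m (pr p) + 1 * (p.1.2.2 - m (pr p)) = p.1.2.2
      ring
  · intro p
    apply Subtype.ext
    show ((b (1, p)).1, (b (1, p)).2, m (b (1, p)) + ρ 1 * (p.1.2.2 - m (pr p))) = (b0.1, b0.2, m (b0.1, b0.2))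
    have hσs : σ 1 = 0 := by
      show min (1:ℝ) (2 * (1 - ((1 : unitInterval) : ℝ))) = 0
      simp
    have hρs : ρ 1 = 0 := by
      show max (0:ℝ) (1 - 2 * ((1 : unitInterval) : ℝ)) = 0
      norm_num
    have hb : b (1, p) = b0 := by
      show b0 + σ 1 • (pr p - b0) = _
      rw [hσs, zero_smul, add_zero]
    rw [hb, hρs, zero_mul, add_zero]

end X_vert_contractible

alias vert_contractible := X_vert_contractible.vert_contractible

end AltGenus
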