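import Pool.Agent.AltGenus.ChartDefs
import Pool.Agent.AltGenus.P_vert_contractible

open Set Topology Filter

namespace AltGenus

namespace X_pass_strand
theorem pass_strand {n : ℕ} (a : Fin n → ℝ) (ψ : ℝ × ℝ × ℝ → ℝ × ℝ) (hψ : Continuous ψ)
    (h : ℝ → ℝ) (hh : Continuous h) (J : Set ℝ) (hJo : IsOpen J) (hJ : J.OrdConnected)
    (x₀ : ℝ) (hx₀ : x₀ ∈ J) (i : Fin n) (hi : ψ (x₀, 0, h x₀) = (0, (i : ℝ)))
    (Z g : ℝ × ℝ × ℝ → ℝ) (hZ : FlatOn a ψ (UJ J h) Z) (hg : FlatOn a ψ (DJ J h) g)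
    (hnear : ∀ᶠ v in 𝓝 ((x₀, 0, h x₀) : ℝ × ℝ × ℝ), v ∈ UJ J h → Z v = a i)
    (ε : ℝ) (hε : ε = 1 ∨ ε = -1) (heq : ∀ v : ℝ × ℝ × ℝ, v.1 ∈ J → 0 < ε * v.2.1 → g v = Z v) :
    ∀ v : ℝ × ℝ × ℝ, v.1 ∈ J → ε * v.2.1 < 0 → g v = Z v := by
  -- the box
  have hE2 : ∀ᶠ v in 𝓝 ((x₀, 0, h x₀) : ℝ × ℝ × ℝ), |(ψ v).2 - (i : ℝ)| < 1 / 2 := by
    have hc : Continuous fun v => |(ψ v).2 - (i : ℝ)| := by fun_prop
    have h0 : |(ψ (x₀, 0, h x₀)).2 - (i : ℝ)| < 1 / 2 := by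
      rw [hi]; simp
    exact hc.continuousAt.eventually_lt continuousAt_const h0
  obtain ⟨ρ, hρ, hball⟩ := Metric.eventually_nhds_iff.1 (hnear.and hE2)
  have hE3 : ∀ᶠ x in 𝓝 x₀, x ∈ J ∧ |h x - h x₀| < ρ / 2 := by
    refine (hJo.mem_nhds hx₀ |> fun hm => ?_ : ∀ᶠ x in 𝓝 x₀, x ∈ J).and ?_
    · exact hm
    · have hc : Continuous fun x => |h x - h x₀| := by fun_prop
      have h0 : |h x₀ - h x₀| < ρ / 2 := by simp; exact hρ
      exact hc.continuousAt.eventually_lt continuousAt_const h0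
  obtain ⟨r', hr', hball'⟩ := Metric.eventually_nhds_iff.1 hE3
  obtain ⟨r, hr, hrρ, hrr'⟩ : ∃ r : ℝ, 0 < r ∧ r ≤ ρ ∧ r ≤ r' :=
    ⟨min ρ r', lt_min hρ hr', min_le_left _ _, min_le_right _ _⟩
  have hbox : ∀ x y t : ℝ, |x - x₀| < r → |y| < r → |t - h x₀| < ρ →
      ((x, y, t) ∈ UJ J h → Z (x, y, t) = a i) ∧ |(ψ (x, y, t)).2 - (i : ℝ)| < 1 / 2 := by
    intro x y t h1 h2 h3
    apply hball
    rw [Prod.dist_eq, Prod.dist_eq, Real.dist_eq, Real.dist_eq, Real.dist_eq]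
    refine max_lt (h1.trans_le hrρ) (max_lt ?_ h3)
    rw [sub_zero]
    exact h2.trans_le hrρ
  have hboxJ : ∀ x : ℝ, |x - x₀| < r → x ∈ J ∧ |h x - h x₀| < ρ / 2 := by
    intro x h1
    apply hball'
    rw [Real.dist_eq]
    exact h1.trans_le hrr'
  -- the lower part of the box
  have hcontr : ContractibleSpace {v : ℝ × ℝ × ℝ | |v.1 - x₀| < r ∧ |v.2.1| < r ∧
      |v.2.2 - h x₀| < ρ ∧ (v.2.1 = 0 → v.2.2 < h v.1)} := by
    refine vert_contractible {w : ℝ × ℝ | |w.1 - x₀| < r ∧ |w.2| < r} ?_ ?_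
      (fun _ => h x₀ - ρ / 2) continuousOn_const _ ?_ ?_ ?_
    · rintro ⟨x, y⟩ ⟨h1, h2⟩ ⟨x', y'⟩ ⟨h3, h4⟩ s t hs ht hst
      simp only [abs_lt] at h1 h2 h3 h4
      simp only [mem_setOf_eq, Prod.smul_mk, Prod.mk_add_mk, smul_eq_mul, abs_lt]
      obtain rfl : s = 1 - t := by linarith
      refine ⟨⟨?_, ?_⟩, ?_, ?_⟩
      · rcases eq_or_lt_of_le ht with rfl | ht'
        · linarith [h1.1]
        · nlinarith [mul_pos ht' (sub_pos.2 h3.1), mul_nonneg hs (sub_pos.2 h1.1).le]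
      · rcases eq_or_lt_of_le ht with rfl | ht'
        · linarith [h1.2]
        · nlinarith [mul_pos ht' (sub_pos.2 h3.2), mul_nonneg hs (sub_pos.2 h1.2).le]
      · rcases eq_or_lt_of_le ht with rfl | ht'
        · linarith [h2.1]
        · nlinarith [mul_pos ht' (sub_pos.2 h4.1), mul_nonneg hs (sub_pos.2 h2.1).le]
      · rcases eq_or_lt_of_le ht with rfl | ht'
        · linarith [h2.2]
        · nlinarith [mul_pos ht' (sub_pos.2 h4.2), mul_nonneg hs (sub_pos.2 h2.2).le]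
    · exact ⟨(x₀, 0), by simpa using hr, by simpa using hr⟩
    · rintro x y t ⟨h1, h2, _, _⟩
      exact ⟨h1, h2⟩
    · rintro x y ⟨h1, h2⟩
      refine ⟨h1, h2, ?_, fun _ => ?_⟩
      · show |h x₀ - ρ / 2 - h x₀| < ρ
        rw [abs_lt]; constructor <;> linarith
      · show h x₀ - ρ / 2 < h x
        have := (abs_lt.1 (hboxJ x h1).2).1
        linarith
    · rintro x y t s ⟨h1, h2, h3, h4⟩ hs
      have h3' := abs_lt.1 (show |t - h x₀| < ρ from h3)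
      have h5 := (abs_lt.1 (hboxJ x h1).2).1
      have hs' : s ∈ uIcc t (h x₀ - ρ / 2) := hs
      rw [mem_uIcc] at hs'
      refine ⟨h1, h2, ?_, fun hy => ?_⟩
      · show |s - h x₀| < ρ
        rw [abs_lt]
        rcases hs' with ⟨h6, h7⟩ | ⟨h6, h7⟩ <;> constructor <;> linarith
      · show s < h x
        have h8 : t < h x := h4 hy
        rcases hs' with ⟨h6, h7⟩ | ⟨h6, h7⟩ <;> linarith
  have hpre : IsPreconnected {v : ℝ × ℝ × ℝ | |v.1 - x₀| < r ∧ |v.2.1| < r ∧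
      |v.2.2 - h x₀| < ρ ∧ (v.2.1 = 0 → v.2.2 < h v.1)} :=
    isPreconnected_iff_preconnectedSpace.2 inferInstance
  have hεabs : |ε * (r / 2)| < r ∧ |-(ε * (r / 2))| < r := by
    rw [abs_neg]
    have : |ε * (r / 2)| = r / 2 := by
      rcases hε with rfl | rfl
      · rw [one_mul, abs_of_pos (by linarith)]
      · rw [neg_one_mul, abs_neg, abs_of_pos (by linarith)]
    rw [this]
    constructor <;> linarith
  have hεε : ε * ε = 1 := by rcases hε with rfl | rfl <;> norm_num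
  have hε0 : ε * (r / 2) ≠ 0 := by
    rcases hε with rfl | rfl
    · have : (0:ℝ) < 1 * (r / 2) := by linarith
      exact this.ne'
    · have : (-1 : ℝ) * (r / 2) < 0 := by linarith
      exact this.ne
  have hxx : |x₀ - x₀| < r := by simpa using hr
  have htt : |h x₀ - h x₀| < ρ := by simpa using hρ
  have hm1 : ((x₀, ε * (r / 2), h x₀) : ℝ × ℝ × ℝ) ∈ {v : ℝ × ℝ × ℝ | |v.1 - x₀| < r ∧ |v.2.1| < r ∧
      |v.2.2 - h x₀| < ρ ∧ (v.2.1 = 0 → v.2.2 < h v.1)} :=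
    ⟨hxx, hεabs.1, htt, fun h0 => absurd h0 hε0⟩
  have hm2 : ((x₀, -(ε * (r / 2)), h x₀) : ℝ × ℝ × ℝ) ∈ {v : ℝ × ℝ × ℝ | |v.1 - x₀| < r ∧
      |v.2.1| < r ∧ |v.2.2 - h x₀| < ρ ∧ (v.2.1 = 0 → v.2.2 < h v.1)} :=
    ⟨hxx, hεabs.2, htt, fun h0 => absurd h0 (neg_ne_zero.2 hε0)⟩
  have hg1 : g (x₀, ε * (r / 2), h x₀) = a i := by
    rw [heq _ hx₀ (by
      show 0 < ε * (ε * (r / 2))
      rw [← mul_assoc, hεε]; linarith)]
    exact (hbox _ _ _ hxx hεabs.1 htt).1 ⟨hx₀, fun h0 => absurd h0 hε0⟩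
  have hg2 : g (x₀, -(ε * (r / 2)), h x₀) = a i := by
    refine FlatOn.eq_near (hg.mono ?_) hpre i ?_ hm1 hg1 hm2
    · rintro ⟨x, y, t⟩ ⟨h1, _, _, h4⟩
      exact ⟨(hboxJ x h1).1, h4⟩
    · rintro ⟨x, y, t⟩ ⟨h1, h2, h3, _⟩
      exact (hbox x y t h1 h2 h3).2
  have hZ2 : Z (x₀, -(ε * (r / 2)), h x₀) = a i :=
    (hbox _ _ _ hxx hεabs.2 htt).1 ⟨hx₀, fun h0 => absurd h0 (neg_ne_zero.2 hε0)⟩
  -- the other side
  have hW : Convex ℝ {v : ℝ × ℝ × ℝ | v.1 ∈ J ∧ ε * v.2.1 < 0} := by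
    rintro ⟨x, y, t⟩ ⟨h1, h2⟩ ⟨x', y', t'⟩ ⟨h3, h4⟩ s u hs hu hsu
    refine ⟨hJ.convex h1 h3 hs hu hsu, ?_⟩
    show ε * (s * y + u * y') < 0
    have h2' : ε * y < 0 := h2
    have h4' : ε * y' < 0 := h4
    have h5 : ε * (s * y + u * y') = s * (ε * y) + u * (ε * y') := by ring
    rw [h5]
    rcases eq_or_lt_of_le hs with rfl | hs'
    · have : u = 1 := by linarith
      subst this; linarith
    · nlinarith [mul_pos hs' (neg_pos.2 h2'), mul_nonneg hu (neg_pos.2 h4').le]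
  have hne0 : ∀ v : ℝ × ℝ × ℝ, ε * v.2.1 < 0 → v.2.1 ≠ 0 := by
    intro v hv h0
    rw [h0, mul_zero] at hv
    exact lt_irrefl _ hv
  have hfin : EqOn g Z {v : ℝ × ℝ × ℝ | v.1 ∈ J ∧ ε * v.2.1 < 0} := by
    refine FlatOn.eqOn (hg.mono ?_) (hZ.mono ?_) hW.isPreconnected
      (y₀ := (x₀, -(ε * (r / 2)), h x₀)) ⟨hx₀, ?_⟩ (hg2.trans hZ2.symm)
    · rintro v ⟨h1, h2⟩
      exact ⟨h1, fun h0 => absurd h0 (hne0 v h2)⟩
    · rintro v ⟨h1, h2⟩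
      exact ⟨h1, fun h0 => absurd h0 (hne0 v h2)⟩
    · show ε * -(ε * (r / 2)) < 0
      have : ε * -(ε * (r / 2)) = -(r / 2) := by
        rw [mul_neg, ← mul_assoc, hεε, one_mul]
      rw [this]; linarith
  intro v hv1 hv2
  exact hfin ⟨hv1, hv2⟩

end X_pass_strand

alias pass_strand := X_pass_strand.pass_strand

end AltGenus
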