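import Pool.Agent.AltGenus.ChartDefs
import Pool.Agent.AltGenus.P_vert_contractible
import Pool.Agent.AltGenus.P_exists_flatOn
import Pool.Agent.AltGenus.P_pass_strand

open Set Topology Filter

namespace AltGenus

namespace X_strand_rel
theorem strand_rel {n : ℕ} (a : Fin n → ℝ) (ψ : ℝ × ℝ × ℝ → ℝ × ℝ) (hψ : Continuous ψ)
    (hol : Hol n ψ) (h : ℝ → ℝ) (hh : Continuous h) (J : Set ℝ) (hJo : IsOpen J)
    (hJ : J.OrdConnected)
    (hΛ : ∀ x ∈ J, ∀ y t, (∃ i : Fin n, ψ (x, y, t) = (0, (i : ℝ))) ↔ y = 0 ∧ t = h x)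
    (x₀ : ℝ) (hx₀ : x₀ ∈ J) (i : Fin n) (hi : ψ (x₀, 0, h x₀) = (0, (i : ℝ)))
    (f₁ b f₂ : ℝ × ℝ × ℝ → ℝ) (hf₁ : FlatOn a ψ (UJ J h) f₁) (hb : FlatOn a ψ (UJ J h) b)
    (hf₂ : FlatOn a ψ (DJ J h) f₂)
    (hnear : ∀ᶠ v in 𝓝 ((x₀, 0, h x₀) : ℝ × ℝ × ℝ), v ∈ UJ J h → b v = a i)
    (heq : ∀ v : ℝ × ℝ × ℝ, v.1 ∈ J → 0 < v.2.1 → f₁ v = f₂ v) :
    ∀ v : ℝ × ℝ × ℝ, v.1 ∈ J → v.2.1 < 0 → f₁ v + f₂ v = 2 * b v := by
  classical
  have hJc : Convex ℝ J := hJ.convex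
  -- the two half spaces
  have hposc : IsPreconnected {v : ℝ × ℝ × ℝ | v.1 ∈ J ∧ 0 < v.2.1} := by
    apply Convex.isPreconnected
    intro v hv w hw s t hs ht hst
    refine ⟨hJc hv.1 hw.1 hs ht hst, ?_⟩
    change 0 < s * v.2.1 + t * w.2.1
    rcases hs.eq_or_lt with h0 | h0
    · rw [← h0] at hst ⊢
      rw [zero_add] at hst
      rw [hst]
      simpa using hw.2
    · have := mul_pos h0 hv.2
      have := mul_nonneg ht hw.2.le
      linarith
  have hnegc : IsPreconnected {v : ℝ × ℝ × ℝ | v.1 ∈ J ∧ v.2.1 < 0} := by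
    apply Convex.isPreconnected
    intro v hv w hw s t hs ht hst
    refine ⟨hJc hv.1 hw.1 hs ht hst, ?_⟩
    change s * v.2.1 + t * w.2.1 < 0
    rcases hs.eq_or_lt with h0 | h0
    · rw [← h0] at hst ⊢
      rw [zero_add] at hst
      rw [hst]
      simpa using hw.2
    · have := mul_neg_of_pos_of_neg h0 hv.2
      have := mul_nonpos_of_nonneg_of_nonpos ht hw.2.le
      linarith
  have posU : {v : ℝ × ℝ × ℝ | v.1 ∈ J ∧ 0 < v.2.1} ⊆ UJ J h :=
    fun v hv => ⟨hv.1, fun h0 => absurd h0 hv.2.ne'⟩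
  have posD : {v : ℝ × ℝ × ℝ | v.1 ∈ J ∧ 0 < v.2.1} ⊆ DJ J h :=
    fun v hv => ⟨hv.1, fun h0 => absurd h0 hv.2.ne'⟩
  have negU : {v : ℝ × ℝ × ℝ | v.1 ∈ J ∧ v.2.1 < 0} ⊆ UJ J h :=
    fun v hv => ⟨hv.1, fun h0 => absurd h0 hv.2.ne⟩
  have negD : {v : ℝ × ℝ × ℝ | v.1 ∈ J ∧ v.2.1 < 0} ⊆ DJ J h :=
    fun v hv => ⟨hv.1, fun h0 => absurd h0 hv.2.ne⟩
  -- openness
  have c1 : Continuous (fun v : ℝ × ℝ × ℝ => v.1) := continuous_fst
  have c2 : Continuous (fun v : ℝ × ℝ × ℝ => v.2.1) := continuous_fst.comp continuous_snd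
  have c3 : Continuous (fun v : ℝ × ℝ × ℝ => v.2.2) := continuous_snd.comp continuous_snd
  have hUo : IsOpen (UJ J h) := by
    have : UJ J h = {v : ℝ × ℝ × ℝ | v.1 ∈ J} ∩
        ({v : ℝ × ℝ × ℝ | v.2.1 ≠ 0} ∪ {v : ℝ × ℝ × ℝ | h v.1 < v.2.2}) := by
      ext v
      change (v.1 ∈ J ∧ (v.2.1 = 0 → h v.1 < v.2.2)) ↔ (v.1 ∈ J ∧ (v.2.1 ≠ 0 ∨ h v.1 < v.2.2))
      tauto
    rw [this]
    exact (hJo.preimage c1).inter ((isOpen_ne_fun c2 continuous_const).union
      (isOpen_lt (hh.comp c1) c3))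
  have hDo : IsOpen (DJ J h) := by
    have : DJ J h = {v : ℝ × ℝ × ℝ | v.1 ∈ J} ∩
        ({v : ℝ × ℝ × ℝ | v.2.1 ≠ 0} ∪ {v : ℝ × ℝ × ℝ | v.2.2 < h v.1}) := by
      ext v
      change (v.1 ∈ J ∧ (v.2.1 = 0 → v.2.2 < h v.1)) ↔ (v.1 ∈ J ∧ (v.2.1 ≠ 0 ∨ v.2.2 < h v.1))
      tauto
    rw [this]
    exact (hJo.preimage c1).inter ((isOpen_ne_fun c2 continuous_const).union
      (isOpen_lt c3 (hh.comp c1)))
  -- contractibility
  have hBJ : Convex ℝ (J ×ˢ (univ : Set ℝ)) := hJc.prod convex_univ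
  have hUcon : ContractibleSpace (UJ J h) := by
    refine vert_contractible (J ×ˢ (univ : Set ℝ)) hBJ ⟨(x₀, 0), hx₀, trivial⟩
      (fun p => h p.1 + 1) ((hh.comp continuous_fst).add continuous_const).continuousOn _ ?_ ?_ ?_
    · intro x y t hv
      exact ⟨hv.1, trivial⟩
    · intro x y hv
      exact ⟨hv.1, fun _ => lt_add_one (h x)⟩
    · intro x y t s hv hs
      refine ⟨hv.1, fun h0 => ?_⟩
      have h1 : h x < t := hv.2 h0
      have h2 := hs.1
      change h x < s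
      refine lt_of_lt_of_le (lt_min h1 (lt_add_one (h x))) h2
  have hDcon : ContractibleSpace (DJ J h) := by
    refine vert_contractible (J ×ˢ (univ : Set ℝ)) hBJ ⟨(x₀, 0), hx₀, trivial⟩
      (fun p => h p.1 - 1) ((hh.comp continuous_fst).sub continuous_const).continuousOn _ ?_ ?_ ?_
    · intro x y t hv
      exact ⟨hv.1, trivial⟩
    · intro x y hv
      exact ⟨hv.1, fun _ => sub_one_lt (h x)⟩
    · intro x y t s hv hs
      refine ⟨hv.1, fun h0 => ?_⟩
      have h1 : t < h x := hv.2 h0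
      have h2 := hs.2
      change s < h x
      exact lt_of_le_of_lt h2 (max_lt h1 (sub_one_lt (h x)))
  have hUpc : IsPreconnected (UJ J h) := by
    rw [isPreconnected_iff_preconnectedSpace]
    infer_instance
  have hDpc : IsPreconnected (DJ J h) := by
    rw [isPreconnected_iff_preconnectedSpace]
    infer_instance
  -- avoiding
  have avD : ∀ y ∈ DJ J h, ∀ j : Fin n, ψ y ≠ (0, (j : ℝ)) := by
    rintro ⟨x, y, t⟩ hv j hj
    have := (hΛ x hv.1 y t).1 ⟨j, hj⟩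
    exact absurd (hv.2 this.1) (by change ¬ t < h x; rw [this.2]; exact lt_irrefl _)
  -- the auxiliary function
  have p0D : ((x₀, 1, 0) : ℝ × ℝ × ℝ) ∈ DJ J h := posD ⟨hx₀, one_pos⟩
  obtain ⟨b', hb', hb'0⟩ := exists_flatOn a ψ (DJ J h) hψ.continuousOn avD hDcon p0D (b (x₀, 1, 0))
  have hbb' : EqOn b' b {v : ℝ × ℝ × ℝ | v.1 ∈ J ∧ 0 < v.2.1} :=
    (hb'.mono posD).eqOn (hb.mono posU) hposc (y₀ := (x₀, 1, 0)) ⟨hx₀, one_pos⟩ hb'0
  have hbneg : ∀ v : ℝ × ℝ × ℝ, v.1 ∈ J → v.2.1 < 0 → b' v = b v := by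
    intro v hv1 hv2
    refine pass_strand a ψ hψ h hh J hJo hJ x₀ hx₀ i hi b b' hb hb' hnear 1 (Or.inl rfl) ?_ v hv1
      (by linarith)
    intro w hw1 hw2
    exact hbb' ⟨hw1, by linarith⟩
  have hsq : ∀ v : ℝ × ℝ × ℝ, v.1 ∈ J → v.2.1 < 0 → (f₂ v - b v) ^ 2 = (f₁ v - b v) ^ 2 := by
    intro v hv1 hv2
    have e1 := hf₂.sq_sub hb' hDpc (negD ⟨hv1, hv2⟩ : v ∈ DJ J h) p0D
    have e2 := hf₁.sq_sub hb hUpc (negU ⟨hv1, hv2⟩ : v ∈ UJ J h)
      (posU ⟨hx₀, one_pos⟩ : ((x₀, 1, 0) : ℝ × ℝ × ℝ) ∈ UJ J h)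
    rw [hbneg v hv1 hv2, hb'0, ← heq (x₀, 1, 0) hx₀ one_pos] at e1
    rw [e1, e2]
  have hpneg : ((x₀, -1, 0) : ℝ × ℝ × ℝ) ∈ {v : ℝ × ℝ × ℝ | v.1 ∈ J ∧ v.2.1 < 0} :=
    ⟨hx₀, by norm_num⟩
  rcases sq_eq_sq_iff_eq_or_eq_neg.1 (hsq (x₀, -1, 0) hx₀ hpneg.2) with hplus | hminus
  · -- plus
    have h12 : EqOn f₂ f₁ {v : ℝ × ℝ × ℝ | v.1 ∈ J ∧ v.2.1 < 0} :=
      (hf₂.mono negD).eqOn (hf₁.mono negU) hnegc hpneg (by linarith)
    set F : ℝ × ℝ × ℝ → ℝ := fun v => if v ∈ UJ J h then f₁ v else f₂ v with hF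
    have hFU : EqOn f₁ F (UJ J h) := by
      intro v hv
      simp only [hF, if_pos hv]
    have hFD : EqOn f₂ F (DJ J h) := by
      intro v hv
      by_cases hvU : v ∈ UJ J h
      · simp only [hF, if_pos hvU]
        rcases lt_trichotomy v.2.1 0 with h0 | h0 | h0
        · exact h12 ⟨hv.1, h0⟩
        · exact absurd (hvU.2 h0) (hv.2 h0).not_gt
        · exact (heq v hv.1 h0).symm
      · simp only [hF, if_neg hvU]
    have hFflat : FlatOn a ψ (UJ J h ∪ DJ J h) F :=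
      (hf₁.congr hFU).union_open (hf₂.congr hFD) hUo hDo
    -- the small box
    have hN : {v : ℝ × ℝ × ℝ | |(ψ v).2 - (i : ℝ)| < 1 / 2 ∧ (v ∈ UJ J h → b v = a i) ∧ v.1 ∈ J} ∈
        𝓝 ((x₀, 0, h x₀) : ℝ × ℝ × ℝ) := by
      have n1 : ∀ᶠ v in 𝓝 ((x₀, 0, h x₀) : ℝ × ℝ × ℝ), |(ψ v).2 - (i : ℝ)| < 1 / 2 := by
        have hc : Continuous (fun v : ℝ × ℝ × ℝ => |(ψ v).2 - (i : ℝ)|) :=
          ((continuous_snd.comp hψ).sub continuous_const).abs
        have := hc.continuousAt (x := ((x₀, 0, h x₀) : ℝ × ℝ × ℝ))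
        apply this.eventually_lt_const
        simp only [hi, sub_self, abs_zero]
        norm_num
      have n3 : ∀ᶠ v in 𝓝 ((x₀, 0, h x₀) : ℝ × ℝ × ℝ), v.1 ∈ J :=
        (hJo.preimage c1).mem_nhds hx₀
      filter_upwards [n1, hnear, n3] with v h1 h2 h3
      exact ⟨h1, h2, h3⟩
    obtain ⟨η, hη, hball⟩ := Metric.mem_nhds_iff.1 hN
    have hcx : ∀ᶠ x in 𝓝 x₀, |h x - h x₀| < η := by
      have hc : Continuous (fun x : ℝ => |h x - h x₀|) := (hh.sub continuous_const).abs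
      apply (hc.continuousAt (x := x₀)).eventually_lt_const
      simp only [sub_self, abs_zero]
      exact hη
    obtain ⟨δ₀, hδ₀, hδ₀'⟩ := Metric.eventually_nhds_iff.1 hcx
    set δ : ℝ := min δ₀ η with hδdef
    have hδ : 0 < δ := lt_min hδ₀ hη
    have hhx : ∀ x, |x - x₀| < δ → |h x - h x₀| < η := fun x hx =>
      hδ₀' (by rw [Real.dist_eq]; exact lt_of_lt_of_le hx (min_le_left _ _))
    set B : Set (ℝ × ℝ × ℝ) := {v | |v.1 - x₀| < δ ∧ |v.2.1| < η ∧ |v.2.2 - h x₀| < η} with hB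
    have hBsub : ∀ v ∈ B, |(ψ v).2 - (i : ℝ)| < 1 / 2 ∧ (v ∈ UJ J h → b v = a i) ∧ v.1 ∈ J := by
      rintro ⟨x, y, t⟩ ⟨h1, h2, h3⟩
      apply hball
      rw [Metric.mem_ball, Prod.dist_eq, Prod.dist_eq, Real.dist_eq, Real.dist_eq, Real.dist_eq]
      refine max_lt (lt_of_lt_of_le h1 (min_le_right _ _)) (max_lt ?_ h3)
      simpa using h2
    have hBo : IsOpen B := by
      have o1 : IsOpen {v : ℝ × ℝ × ℝ | |v.1 - x₀| < δ} :=
        isOpen_lt (c1.sub continuous_const).abs continuous_const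
      have o2 : IsOpen {v : ℝ × ℝ × ℝ | |v.2.1| < η} := isOpen_lt c2.abs continuous_const
      have o3 : IsOpen {v : ℝ × ℝ × ℝ | |v.2.2 - h x₀| < η} :=
        isOpen_lt (c3.sub continuous_const).abs continuous_const
      exact o1.inter (o2.inter o3)
    have hqB : ((x₀, 0, h x₀) : ℝ × ℝ × ℝ) ∈ B := by
      refine ⟨?_, ?_, ?_⟩
      · simpa using hδ
      · simpa using hη
      · simpa using hη
    have hrB : ((x₀, η / 2, h x₀) : ℝ × ℝ × ℝ) ∈ B := by
      refine ⟨?_, ?_, ?_⟩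
      · simpa using hδ
      · change |η / 2| < η
        rw [abs_of_pos (by positivity)]
        linarith
      · simpa using hη
    have hrU : ((x₀, η / 2, h x₀) : ℝ × ℝ × ℝ) ∈ UJ J h := posU ⟨hx₀, by change 0 < η / 2; positivity⟩
    have hrD : ((x₀, η / 2, h x₀) : ℝ × ℝ × ℝ) ∈ DJ J h := posD ⟨hx₀, by change 0 < η / 2; positivity⟩
    have hbase : Convex ℝ (({x : ℝ | |x - x₀| < δ}) ×ˢ ({y : ℝ | |y| < η})) := by
      apply Convex.prod
      · have : {x : ℝ | |x - x₀| < δ} = Metric.ball x₀ δ := by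
          ext x
          rw [Metric.mem_ball, Real.dist_eq]
          rfl
        rw [this]
        exact convex_ball _ _
      · have : {y : ℝ | |y| < η} = Metric.ball 0 η := by
          ext x
          rw [Metric.mem_ball, Real.dist_eq, sub_zero]
          rfl
        rw [this]
        exact convex_ball _ _
    have hbne : (({x : ℝ | |x - x₀| < δ}) ×ˢ ({y : ℝ | |y| < η})).Nonempty :=
      ⟨(x₀, 0), by change |x₀ - x₀| < δ; simpa using hδ, by change |(0:ℝ)| < η; simpa using hη⟩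
    have hBU : IsPreconnected (B ∩ UJ J h) := by
      have : ContractibleSpace ((B ∩ UJ J h : Set (ℝ × ℝ × ℝ))) := by
        refine vert_contractible _ hbase hbne (fun p => (h p.1 + (h x₀ + η)) / 2)
          (((hh.comp continuous_fst).add continuous_const).div_const 2).continuousOn _ ?_ ?_ ?_
        · intro x y t hv
          exact ⟨hv.1.1, hv.1.2.1⟩
        · intro x y hv
          have h1 := abs_lt.1 (hhx x hv.1)
          have h2 : ((x, y, (h x + (h x₀ + η)) / 2) : ℝ × ℝ × ℝ) ∈ B := by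
            refine ⟨hv.1, hv.2, ?_⟩
            change |(h x + (h x₀ + η)) / 2 - h x₀| < η
            rw [abs_lt]
            constructor <;> linarith [h1.1, h1.2]
          refine ⟨h2, (hBsub _ h2).2.2, fun _ => ?_⟩
          change h x < (h x + (h x₀ + η)) / 2
          linarith [h1.2]
        · intro x y t s hv hs
          have h1 := abs_lt.1 (hhx x hv.1.1)
          have h3 := abs_lt.1 hv.1.2.2
          change -η < t - h x₀ ∧ t - h x₀ < η at h3
          have hs1 := hs.1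
          have hs2 := hs.2
          change min t ((h x + (h x₀ + η)) / 2) ≤ s at hs1
          change s ≤ max t ((h x + (h x₀ + η)) / 2) at hs2
          have h2 : ((x, y, s) : ℝ × ℝ × ℝ) ∈ B := by
            refine ⟨hv.1.1, hv.1.2.1, ?_⟩
            change |s - h x₀| < η
            rw [abs_lt]
            constructor
            · have : h x₀ - η < s := lt_of_lt_of_le (lt_min (by linarith) (by linarith)) hs1
              linarith
            · have : s < h x₀ + η := lt_of_le_of_lt hs2 (max_lt (by linarith) (by linarith))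
              linarith
          refine ⟨h2, (hBsub _ h2).2.2, fun h0 => ?_⟩
          have h4 : h x < t := hv.2.2 h0
          change h x < s
          exact lt_of_lt_of_le (lt_min h4 (by linarith)) hs1
      rw [isPreconnected_iff_preconnectedSpace]
      infer_instance
    have hBD : IsPreconnected (B ∩ DJ J h) := by
      have : ContractibleSpace ((B ∩ DJ J h : Set (ℝ × ℝ × ℝ))) := by
        refine vert_contractible _ hbase hbne (fun p => (h p.1 + (h x₀ - η)) / 2)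
          (((hh.comp continuous_fst).add continuous_const).div_const 2).continuousOn _ ?_ ?_ ?_
        · intro x y t hv
          exact ⟨hv.1.1, hv.1.2.1⟩
        · intro x y hv
          have h1 := abs_lt.1 (hhx x hv.1)
          have h2 : ((x, y, (h x + (h x₀ - η)) / 2) : ℝ × ℝ × ℝ) ∈ B := by
            refine ⟨hv.1, hv.2, ?_⟩
            change |(h x + (h x₀ - η)) / 2 - h x₀| < η
            rw [abs_lt]
            constructor <;> linarith [h1.1, h1.2]
          refine ⟨h2, (hBsub _ h2).2.2, fun _ => ?_⟩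
          change (h x + (h x₀ - η)) / 2 < h x
          linarith [h1.1]
        · intro x y t s hv hs
          have h1 := abs_lt.1 (hhx x hv.1.1)
          have h3 := abs_lt.1 hv.1.2.2
          change -η < t - h x₀ ∧ t - h x₀ < η at h3
          have hs1 := hs.1
          have hs2 := hs.2
          change min t ((h x + (h x₀ - η)) / 2) ≤ s at hs1
          change s ≤ max t ((h x + (h x₀ - η)) / 2) at hs2
          have h2 : ((x, y, s) : ℝ × ℝ × ℝ) ∈ B := by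
            refine ⟨hv.1.1, hv.1.2.1, ?_⟩
            change |s - h x₀| < η
            rw [abs_lt]
            constructor
            · have : h x₀ - η < s := lt_of_lt_of_le (lt_min (by linarith) (by linarith)) hs1
              linarith
            · have : s < h x₀ + η := lt_of_le_of_lt hs2 (max_lt (by linarith) (by linarith))
              linarith
          refine ⟨h2, (hBsub _ h2).2.2, fun h0 => ?_⟩
          have h4 : t < h x := hv.2.2 h0
          change s < h x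
          exact lt_of_le_of_lt hs2 (max_lt h4 (by linarith))
      rw [isPreconnected_iff_preconnectedSpace]
      infer_instance
    have hBUD : IsPreconnected (B ∩ (UJ J h ∪ DJ J h)) := by
      rw [inter_union_distrib_left]
      exact IsPreconnected.union _ ⟨hrB, hrU⟩ ⟨hrB, hrD⟩ hBU hBD
    have hoff : B ∩ {v | ∀ j : Fin n, ψ v ≠ (0, (j : ℝ))} ⊆ UJ J h ∪ DJ J h := by
      rintro ⟨x, y, t⟩ ⟨hv1, hv2⟩
      have hxJ : x ∈ J := (hBsub _ hv1).2.2
      by_cases hy : y = 0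
      · rcases lt_trichotomy t (h x) with h0 | h0 | h0
        · exact Or.inr ⟨hxJ, fun _ => h0⟩
        · exfalso
          obtain ⟨j, hj⟩ := (hΛ x hxJ y t).2 ⟨hy, h0⟩
          exact hv2 j hj
        · exact Or.inl ⟨hxJ, fun _ => h0⟩
      · exact Or.inl ⟨hxJ, fun h0 => absurd h0 hy⟩
    obtain ⟨v, hvB, hvoff, hFv⟩ := hol a i (x₀, 0, h x₀) hi B hBo hqB F (hFflat.mono hoff)
    have hFr := (hFflat.mono (inter_subset_right (s := B))).eq_near hBUD i
      (fun y hy => (hBsub y hy.1).1) (⟨hvB, hoff ⟨hvB, hvoff⟩⟩ : v ∈ B ∩ (UJ J h ∪ DJ J h)) hFv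
      (⟨hrB, Or.inl hrU⟩ : ((x₀, η / 2, h x₀) : ℝ × ℝ × ℝ) ∈ B ∩ (UJ J h ∪ DJ J h))
    have hf1r : f₁ (x₀, η / 2, h x₀) = b (x₀, η / 2, h x₀) := by
      rw [hFU hrU, hFr, (hBsub _ hrB).2.1 hrU]
    have hall : EqOn f₁ b (UJ J h) := hf₁.eqOn hb hUpc hrU hf1r
    intro w hw1 hw2
    have e1 := hall (negU ⟨hw1, hw2⟩ : w ∈ UJ J h)
    have e2 := h12 (⟨hw1, hw2⟩ : w ∈ {v : ℝ × ℝ × ℝ | v.1 ∈ J ∧ v.2.1 < 0})
    rw [e2, e1]
    ring
  · -- minus
    have hflat : FlatOn (a + a - (2 : ℝ) • a) ψ {v : ℝ × ℝ × ℝ | v.1 ∈ J ∧ v.2.1 < 0}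
        (f₁ + f₂ - (2 : ℝ) • b) :=
      ((hf₁.mono negU).add (hf₂.mono negD)).sub ((hb.mono negU).smul 2)
    have hzero : FlatOn (a + a - (2 : ℝ) • a) ψ {v : ℝ × ℝ × ℝ | v.1 ∈ J ∧ v.2.1 < 0}
        (fun _ => (0 : ℝ)) := by
      have e : a + a - (2 : ℝ) • a = (0 : ℝ) • a := by
        ext j
        simp only [Pi.sub_apply, Pi.add_apply, Pi.smul_apply, smul_eq_mul]
        ring
      rw [e]
      have := (hb.mono negU).smul 0
      have e2 : (0 : ℝ) • b = fun _ => (0 : ℝ) := by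
        funext v
        simp
      rwa [e2] at this
    have hres := hflat.eqOn hzero hnegc hpneg (by
      simp only [Pi.sub_apply, Pi.add_apply, Pi.smul_apply, smul_eq_mul]
      linarith)
    intro w hw1 hw2
    have := hres (⟨hw1, hw2⟩ : w ∈ {v : ℝ × ℝ × ℝ | v.1 ∈ J ∧ v.2.1 < 0})
    simp only [Pi.sub_apply, Pi.add_apply, Pi.smul_apply, smul_eq_mul] at this
    linarith

end X_strand_rel

alias strand_rel := X_strand_rel.strand_rel

end AltGenus
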