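import Pool.Agent.AltGenus.ChartDefs
import Pool.Agent.AltGenus.P_vert_contractible
import Pool.Agent.AltGenus.P_exists_flatOn
import Pool.Agent.AltGenus.P_pass_strand
import Pool.Agent.AltGenus.P_strand_rel

open Set Topology Filter

namespace AltGenus

namespace X_crossing_rel
theorem cr_accum (R : Set (ℝ × ℝ × ℝ)) (x y t : ℝ) (e : ℝ) (he : 0 < e)
    (h' : ∀ s : ℝ, 0 < s → s < e → (x, y, t + s) ∈ R) :
    ∃ᶠ v in 𝓝 ((x, y, t) : ℝ × ℝ × ℝ), v ∈ R := by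
  have h1 : Tendsto (fun s : ℝ => ((x, y, t + s) : ℝ × ℝ × ℝ)) (𝓝[>] 0) (𝓝 (x, y, t)) := by
    have h2 : Continuous (fun s : ℝ => ((x, y, t + s) : ℝ × ℝ × ℝ)) := by fun_prop
    have h3 := h2.tendsto 0
    simp only [add_zero] at h3
    exact h3.mono_left nhdsWithin_le_nhds
  apply h1.frequently
  apply Filter.Eventually.frequently
  have h4 : Ioo (0 : ℝ) e ∈ 𝓝[>] (0 : ℝ) := Ioo_mem_nhdsGT he
  filter_upwards [h4] with s hs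
  exact h' s hs.1 hs.2

theorem cr_box (g : ℝ × ℝ → ℝ) (hg : Continuous g) (S : Set (ℝ × ℝ)) (R : Set (ℝ × ℝ × ℝ))
    (x₀ y₀ : ℝ)
    (hR : ∀ᶠ v in 𝓝 ((x₀, y₀, g (x₀, y₀)) : ℝ × ℝ × ℝ),
      (v ∈ R ↔ ((v.1, v.2.1) ∈ S → g (v.1, v.2.1) < v.2.2)))
    (U : Set (ℝ × ℝ × ℝ)) (hU : U ∈ 𝓝 ((x₀, y₀, g (x₀, y₀)) : ℝ × ℝ × ℝ)) :
    ∃ W : Set (ℝ × ℝ × ℝ), IsOpen W ∧ ((x₀, y₀, g (x₀, y₀)) : ℝ × ℝ × ℝ) ∈ W ∧ W ⊆ U ∧
      IsPreconnected (W ∩ R) := by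
  have h1 := Filter.inter_mem hU hR
  rw [Metric.mem_nhds_iff] at h1
  obtain ⟨ε, hε, hball⟩ := h1
  have h2 : ∀ᶠ p in 𝓝 ((x₀, y₀) : ℝ × ℝ), |g p - g (x₀, y₀)| < ε / 2 := by
    have := hg.tendsto (x₀, y₀)
    rw [Metric.tendsto_nhds] at this
    have h3 := this (ε / 2) (by linarith)
    simpa [Real.dist_eq] using h3
  rw [Metric.eventually_nhds_iff_ball] at h2
  obtain ⟨δ', hδ', h3⟩ := h2
  set δ := min δ' ε with hδ
  have hδ0 : 0 < δ := lt_min hδ' hε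
  have h3' : ∀ p ∈ Metric.ball ((x₀, y₀) : ℝ × ℝ) δ, |g p - g (x₀, y₀)| < ε / 2 := fun p hp =>
    h3 p (Metric.ball_subset_ball (min_le_left _ _) hp)
  set W : Set (ℝ × ℝ × ℝ) := {v | (v.1, v.2.1) ∈ Metric.ball ((x₀, y₀) : ℝ × ℝ) δ ∧
    |v.2.2 - g (x₀, y₀)| < ε} with hW
  have hWo : IsOpen W := by
    apply IsOpen.inter
    · exact Metric.isOpen_ball.preimage (by fun_prop : Continuous
        (fun v : ℝ × ℝ × ℝ => ((v.1, v.2.1) : ℝ × ℝ)))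
    · exact isOpen_lt (by fun_prop : Continuous (fun v : ℝ × ℝ × ℝ => |v.2.2 - g (x₀, y₀)|))
        continuous_const
  have hWball : W ⊆ Metric.ball ((x₀, y₀, g (x₀, y₀)) : ℝ × ℝ × ℝ) ε := by
    rintro ⟨x, y, t⟩ ⟨h4, h5⟩
    simp only [Metric.mem_ball, Prod.dist_eq, max_lt_iff] at h4 h5 ⊢
    refine ⟨lt_of_lt_of_le h4.1 (min_le_right _ _), lt_of_lt_of_le h4.2 (min_le_right _ _), ?_⟩
    rw [Real.dist_eq]
    exact h5
  refine ⟨W, hWo, ?_, fun v hv => (hball (hWball hv)).1, ?_⟩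
  · refine ⟨Metric.mem_ball_self hδ0, ?_⟩
    simp only [sub_self, abs_zero]
    exact hε
  · have hiff : ∀ v ∈ W, (v ∈ R ↔ ((v.1, v.2.1) ∈ S → g (v.1, v.2.1) < v.2.2)) := fun v hv =>
      (hball (hWball hv)).2
    have hc : ContractibleSpace (W ∩ R : Set (ℝ × ℝ × ℝ)) := by
      apply vert_contractible (Metric.ball ((x₀, y₀) : ℝ × ℝ) δ) (convex_ball _ _)
        ⟨_, Metric.mem_ball_self hδ0⟩ (fun _ => g (x₀, y₀) + ε / 2) continuousOn_const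
      · rintro x y t ⟨h4, _⟩
        exact h4.1
      · intro x y hxy
        have hmem : (x, y, g (x₀, y₀) + ε / 2) ∈ W := by
          refine ⟨hxy, ?_⟩
          simp only [add_sub_cancel_left]
          rw [abs_of_pos (by linarith)]
          linarith
        refine ⟨hmem, ?_⟩
        rw [hiff _ hmem]
        intro _
        have := h3' (x, y) hxy
        rw [abs_lt] at this
        simp only
        linarith [this.2]
      · intro x y t s hmem hs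
        have hW1 := hmem.1
        have hR1 := hmem.2
        rw [hiff _ hW1] at hR1
        have h6 := h3' (x, y) hW1.1
        have h7 := hW1.2
        simp only at h7
        rw [abs_lt] at h6 h7
        rw [mem_uIcc] at hs
        have hs' : (x, y, s) ∈ W := by
          refine ⟨hW1.1, ?_⟩
          simp only
          rw [abs_lt]
          rcases hs with hs | hs
          · constructor <;> linarith [hs.1, hs.2]
          · constructor <;> linarith [hs.1, hs.2]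
        refine ⟨hs', ?_⟩
        rw [hiff _ hs']
        intro h8
        have h9 := hR1 h8
        simp only at h9 ⊢
        rcases hs with hs | hs
        · linarith [hs.1, hs.2]
        · linarith [hs.1, hs.2, h6.2]
    rw [isPreconnected_iff_preconnectedSpace]
    infer_instance

theorem cr_prop {n : ℕ} (a : Fin n → ℝ) (ψ : ℝ × ℝ × ℝ → ℝ × ℝ) (hψ : Continuous ψ)
    (R : Set (ℝ × ℝ × ℝ)) (f : ℝ × ℝ × ℝ → ℝ) (hf : FlatOn a ψ R f) (i : Fin n)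
    (γ : ℝ → ℝ × ℝ × ℝ) (hγ : Continuous γ) (hi : ∀ s, ψ (γ s) = (0, (i : ℝ)))
    (hacc : ∀ s, ∃ᶠ v in 𝓝 (γ s), v ∈ R)
    (hbox : ∀ s, ∀ U ∈ 𝓝 (γ s), ∃ W : Set (ℝ × ℝ × ℝ), IsOpen W ∧ γ s ∈ W ∧ W ⊆ U ∧
      IsPreconnected (W ∩ R)) (s₀ : ℝ) (v₀ : ℝ × ℝ × ℝ) (hv₀ : v₀ ∈ R)
    (hv : f v₀ = a i)
    (hnear : ∃ W : Set (ℝ × ℝ × ℝ), IsOpen W ∧ γ s₀ ∈ W ∧ (∀ v ∈ W, |(ψ v).2 - (i : ℝ)| < 1 / 2) ∧
      IsPreconnected (W ∩ R) ∧ v₀ ∈ W) (s : ℝ) : ∀ᶠ v in 𝓝 (γ s), v ∈ R → f v = a i := by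
  have hclose : ∀ s, {v | |(ψ v).2 - (i : ℝ)| < 1 / 2} ∈ 𝓝 (γ s) := by
    intro s
    apply IsOpen.mem_nhds
    · exact isOpen_lt (by fun_prop) continuous_const
    · simp [hi s]
  have hloc : IsLocallyConstant (fun s => ∀ᶠ v in 𝓝 (γ s), v ∈ R → f v = a i) := by
    rw [IsLocallyConstant.iff_eventually_eq]
    intro s
    obtain ⟨W, hWo, hsW, hWU, hWp⟩ := hbox s _ (hclose s)
    have h1 : ∀ v ∈ W ∩ R, ∀ v' ∈ W ∩ R, f v = a i → f v' = a i := by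
      intro v hv v' hv' h0
      exact (hf.mono inter_subset_right).eq_near hWp i (fun y hy => hWU hy.1) hv h0 hv'
    have h2 : ∀ᶠ s' in 𝓝 s, γ s' ∈ W := (hγ.tendsto s).eventually (hWo.mem_nhds hsW)
    have h3 : ∀ s' , γ s' ∈ W → (∀ᶠ v in 𝓝 (γ s'), v ∈ R → f v = a i) →
        ∀ v ∈ W ∩ R, f v = a i := by
      intro s' hs' h4 v hv
      have h5 := (hacc s').and_eventually (h4.and (hWo.mem_nhds hs'))
      obtain ⟨w, hwR, hw1, hwW⟩ := h5.exists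
      exact h1 w ⟨hwW, hwR⟩ v hv (hw1 hwR)
    have h4 : ∀ s', γ s' ∈ W → (∀ v ∈ W ∩ R, f v = a i) →
        (∀ᶠ v in 𝓝 (γ s'), v ∈ R → f v = a i) := by
      intro s' hs' h5
      filter_upwards [hWo.mem_nhds hs'] with v hv hvR
      exact h5 v ⟨hv, hvR⟩
    filter_upwards [h2] with s' hs'
    apply propext
    constructor
    · intro h5
      exact h4 s hsW (h3 s' hs' h5)
    · intro h5
      exact h4 s' hs' (h3 s hsW h5)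
  have h0 : ∀ᶠ v in 𝓝 (γ s₀), v ∈ R → f v = a i := by
    obtain ⟨W, hWo, hsW, hWc, hWp, hvW⟩ := hnear
    filter_upwards [hWo.mem_nhds hsW] with v hv1 hvR
    exact (hf.mono inter_subset_right).eq_near hWp i (fun y hy => hWc y hy.1) ⟨hvW, hv₀⟩ hv
      ⟨hv1, hvR⟩
  have := hloc.apply_eq_of_preconnectedSpace s₀ s
  rw [← this]
  exact h0

/-- existence of a flat function with the value `a i` near a whole strand -/
theorem cr_exists {n : ℕ} (a : Fin n → ℝ) (ψ : ℝ × ℝ × ℝ → ℝ × ℝ) (hψ : Continuous ψ)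
    (R : Set (ℝ × ℝ × ℝ)) (hR : ContractibleSpace R)
    (hav : ∀ y ∈ R, ∀ i : Fin n, ψ y ≠ (0, (i : ℝ))) (i : Fin n)
    (γ : ℝ → ℝ × ℝ × ℝ) (hγ : Continuous γ) (hi : ∀ s, ψ (γ s) = (0, (i : ℝ)))
    (hacc : ∀ s, ∃ᶠ v in 𝓝 (γ s), v ∈ R)
    (hbox : ∀ s, ∀ U ∈ 𝓝 (γ s), ∃ W : Set (ℝ × ℝ × ℝ), IsOpen W ∧ γ s ∈ W ∧ W ⊆ U ∧
      IsPreconnected (W ∩ R)) :
    ∃ f, FlatOn a ψ R f ∧ ∀ s, ∀ᶠ v in 𝓝 (γ s), v ∈ R → f v = a i := by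
  have hclose : {v | |(ψ v).2 - (i : ℝ)| < 1 / 2} ∈ 𝓝 (γ 0) := by
    apply IsOpen.mem_nhds
    · exact isOpen_lt (by fun_prop) continuous_const
    · simp [hi 0]
  obtain ⟨W, hWo, hsW, hWU, hWp⟩ := hbox 0 _ hclose
  obtain ⟨v₀, hv₀R, hv₀W⟩ := ((hacc 0).and_eventually (hWo.mem_nhds hsW)).exists
  obtain ⟨f, hf, hfv⟩ := exists_flatOn a ψ R hψ.continuousOn hav hR hv₀R (a i)
  exact ⟨f, hf, fun s => cr_prop a ψ hψ R f hf i γ hγ hi hacc hbox 0 v₀ hv₀R hfv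
    ⟨W, hWo, hsW, fun v hv => hWU hv, hWp, hv₀W⟩ s⟩

theorem cr_nat {n : ℕ} (ψ : ℝ × ℝ × ℝ → ℝ × ℝ) (hψ : Continuous ψ)
    (γ : ℝ → ℝ × ℝ × ℝ) (hγ : Continuous γ) (h : ∀ s, ∃ i : Fin n, ψ (γ s) = (0, (i : ℝ)))
    (s₀ : ℝ) (i : Fin n) (hi : ψ (γ s₀) = (0, (i : ℝ))) (s : ℝ) : ψ (γ s) = (0, (i : ℝ)) := by
  have hloc : IsLocallyConstant (fun s => (ψ (γ s)).2) := by
    rw [IsLocallyConstant.iff_eventually_eq]
    intro s
    have h1 : Continuous (fun s => (ψ (γ s)).2) := by fun_prop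
    have h2 := h1.tendsto s
    rw [Metric.tendsto_nhds] at h2
    filter_upwards [h2 1 one_pos] with s' hs'
    obtain ⟨j, hj⟩ := h s
    obtain ⟨j', hj'⟩ := h s'
    rw [hj, hj'] at hs' ⊢
    simp only [Real.dist_eq] at hs' ⊢
    have h4 : |(((j' : ℕ) : ℤ) - ((j : ℕ) : ℤ))| < 1 := by exact_mod_cast hs'
    rw [Int.abs_lt_one_iff] at h4
    have h5 : (j' : ℕ) = (j : ℕ) := by omega
    rw [h5]
  have h1 : (ψ (γ s)).2 = (ψ (γ s₀)).2 := hloc.apply_eq_of_preconnectedSpace s s₀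
  obtain ⟨j, hj⟩ := h s
  rw [hj, hi] at h1
  rw [hj]
  have h2 : (j : ℝ) = (i : ℝ) := h1
  rw [h2]

theorem cr_mem_up (h₁ h₂ : ℝ → ℝ) (x y t : ℝ) : (x, y, t) ∈ UpR h₁ h₂ ↔
    (y = 0 → h₁ x < t) ∧ (x = 0 → h₂ y < t) := Iff.rfl

theorem cr_mem_mid (h₁ h₂ : ℝ → ℝ) (x y t : ℝ) : (x, y, t) ∈ MidR h₁ h₂ ↔
    (y = 0 → t < h₁ x) ∧ (x = 0 → h₂ y < t) := Iff.rfl

theorem cr_up_contr (h₁ h₂ : ℝ → ℝ) (hc₁ : Continuous h₁) (hc₂ : Continuous h₂) :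
    ContractibleSpace (UpR h₁ h₂) := by
  apply vert_contractible univ convex_univ univ_nonempty (fun p => |h₁ p.1| + |h₂ p.2| + 1)
    (by fun_prop)
  · intro x y t _; trivial
  · intro x y _
    rw [cr_mem_up]
    have e1 := le_abs_self (h₁ x)
    have e2 := le_abs_self (h₂ y)
    have e3 := abs_nonneg (h₁ x)
    have e4 := abs_nonneg (h₂ y)
    constructor
    · intro _; simp only; linarith
    · intro _; simp only; linarith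
  · intro x y t s h hs
    rw [cr_mem_up] at h ⊢
    rw [mem_uIcc] at hs
    simp only at hs
    have e1 := le_abs_self (h₁ x)
    have e2 := le_abs_self (h₂ y)
    have e3 := abs_nonneg (h₁ x)
    have e4 := abs_nonneg (h₂ y)
    constructor
    · intro h0
      have := h.1 h0
      rcases hs with hs | hs
      · linarith [hs.1]
      · linarith [hs.1]
    · intro h0
      have := h.2 h0
      rcases hs with hs | hs
      · linarith [hs.1]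
      · linarith [hs.1]

theorem cr_mid_contr (h₁ h₂ : ℝ → ℝ) (hc₁ : Continuous h₁) (hc₂ : Continuous h₂)
    (h21 : h₂ 0 < h₁ 0) : ContractibleSpace (MidR h₁ h₂) := by
  apply vert_contractible univ convex_univ univ_nonempty
    (fun p => (h₁ 0 + h₂ 0) / 2 - |h₁ p.1 - h₁ 0| + |h₂ p.2 - h₂ 0|)
    (by fun_prop)
  · intro x y t _; trivial
  · intro x y _
    rw [cr_mem_mid]
    have e1 := neg_abs_le (h₁ x - h₁ 0)
    have e2 := le_abs_self (h₂ y - h₂ 0)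
    constructor
    · intro h0; subst h0; simp only [sub_self, abs_zero]; linarith
    · intro h0; subst h0; simp only [sub_self, abs_zero]; linarith
  · intro x y t s h hs
    rw [cr_mem_mid] at h ⊢
    rw [mem_uIcc] at hs
    simp only at hs
    have e1 := neg_abs_le (h₁ x - h₁ 0)
    have e2 := le_abs_self (h₂ y - h₂ 0)
    constructor
    · intro h0
      have := h.1 h0
      subst h0
      simp only [sub_self, abs_zero] at hs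
      rcases hs with hs | hs
      · linarith [hs.2]
      · linarith [hs.2]
    · intro h0
      have := h.2 h0
      subst h0
      simp only [sub_self, abs_zero] at hs
      rcases hs with hs | hs
      · linarith [hs.1]
      · linarith [hs.1]

theorem cr_up_half (h₁ h₂ : ℝ → ℝ) (hc₂ : Continuous h₂) (ε : ℝ) (hε : ε = 1 ∨ ε = -1) :
    IsPreconnected (UpR h₁ h₂ ∩ {v | 0 < ε * v.2.1}) := by
  have hc : ContractibleSpace (UpR h₁ h₂ ∩ {v | 0 < ε * v.2.1} : Set (ℝ × ℝ × ℝ)) := by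
    apply vert_contractible {p : ℝ × ℝ | 0 < ε * p.2} ?_ ?_ (fun p => h₂ p.2 + 1) (by fun_prop)
    · intro x y t h; exact h.2
    · intro x y h
      refine ⟨?_, h⟩
      rw [cr_mem_up]
      constructor
      · intro h0; subst h0; simp at h
      · intro _; simp only; linarith
    · intro x y t s h hs
      refine ⟨?_, h.2⟩
      have h3 := h.1
      rw [cr_mem_up] at h3 ⊢
      rw [mem_uIcc] at hs
      simp only at hs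
      constructor
      · intro h0; subst h0; have := h.2; simp at this
      · intro h0
        have := h3.2 h0
        rcases hs with hs | hs
        · linarith [hs.1]
        · linarith [hs.1]
    · exact (convex_halfSpace_gt (f := fun p : ℝ × ℝ => ε * p.2)
        ⟨by intro x y; simp [mul_add], by intro c x; simp; ring⟩ 0)
    · rcases hε with h | h
      · exact ⟨(0, 1), by simp [h]⟩
      · exact ⟨(0, -1), by simp [h]⟩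
  rw [isPreconnected_iff_preconnectedSpace]
  infer_instance

theorem cr_up_mid (h₁ h₂ : ℝ → ℝ) (v : ℝ × ℝ × ℝ) (hv : v.2.1 ≠ 0) :
    v ∈ UpR h₁ h₂ ↔ v ∈ MidR h₁ h₂ := by
  obtain ⟨x, y, t⟩ := v
  rw [cr_mem_up, cr_mem_mid]
  simp only at hv
  constructor
  · intro h; exact ⟨fun h0 => absurd h0 hv, h.2⟩
  · intro h; exact ⟨fun h0 => absurd h0 hv, h.2⟩

/-- flat functions on `Up` and `Mid` agreeing near a point of the under strand agree on the half -/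
theorem cr_half {n : ℕ} (a : Fin n → ℝ) (ψ : ℝ × ℝ × ℝ → ℝ × ℝ)
    (h₁ h₂ : ℝ → ℝ) (hc₂ : Continuous h₂) (ε : ℝ) (hε : ε = 1 ∨ ε = -1)
    (b bu : ℝ × ℝ × ℝ → ℝ) (hb : FlatOn a ψ (UpR h₁ h₂) b) (hbu : FlatOn a ψ (MidR h₁ h₂) bu)
    (j : Fin n) (y : ℝ) (hy : 0 < ε * y)
    (e1 : ∀ᶠ v in 𝓝 ((0, y, h₂ y) : ℝ × ℝ × ℝ), v ∈ UpR h₁ h₂ → b v = a j)
    (e2 : ∀ᶠ v in 𝓝 ((0, y, h₂ y) : ℝ × ℝ × ℝ), v ∈ MidR h₁ h₂ → bu v = a j) :
    ∀ v ∈ UpR h₁ h₂, 0 < ε * v.2.1 → b v = bu v := by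
  have hy0 : y ≠ 0 := by rintro rfl; simp at hy
  have hac : ∃ᶠ v in 𝓝 ((0, y, h₂ y) : ℝ × ℝ × ℝ), v ∈ UpR h₁ h₂ := by
    apply cr_accum _ _ _ _ 1 one_pos
    intro s hs _
    rw [cr_mem_up]
    exact ⟨fun h0 => absurd h0 hy0, fun _ => by linarith⟩
  have hev : ∀ᶠ v in 𝓝 ((0, y, h₂ y) : ℝ × ℝ × ℝ), 0 < ε * v.2.1 := by
    apply IsOpen.mem_nhds
    · exact isOpen_lt continuous_const (by fun_prop)
    · exact hy
  obtain ⟨w, hwU, hw1, hw2, hw3⟩ := (hac.and_eventually (e1.and (e2.and hev))).exists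
  have hne : ∀ v : ℝ × ℝ × ℝ, 0 < ε * v.2.1 → v.2.1 ≠ 0 := by
    intro v hv h0; rw [h0] at hv; simp at hv
  have hbu' : FlatOn a ψ (UpR h₁ h₂ ∩ {v | 0 < ε * v.2.1}) bu := by
    apply hbu.mono
    intro v hv
    exact (cr_up_mid h₁ h₂ v (hne v hv.2)).1 hv.1
  intro v hv hv2
  refine (hb.mono inter_subset_left).eqOn hbu' (cr_up_half h₁ h₂ hc₂ ε hε) (y₀ := w) ⟨hwU, hw3⟩ ?_
    ⟨hv, hv2⟩
  rw [hw1 hwU, hw2 ((cr_up_mid h₁ h₂ w (hne w hw3)).1 hwU)]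

/-- boxes for the over strand in `Up` -/
theorem cr_box_over (h₁ h₂ : ℝ → ℝ) (hc₁ : Continuous h₁) (hc₂ : Continuous h₂)
    (h21 : h₂ 0 < h₁ 0) (s : ℝ) (U : Set (ℝ × ℝ × ℝ)) (hU : U ∈ 𝓝 ((s, 0, h₁ s) : ℝ × ℝ × ℝ)) :
    ∃ W : Set (ℝ × ℝ × ℝ), IsOpen W ∧ ((s, 0, h₁ s) : ℝ × ℝ × ℝ) ∈ W ∧ W ⊆ U ∧
      IsPreconnected (W ∩ UpR h₁ h₂) := by
  apply cr_box (fun p => h₁ p.1) (by fun_prop) {p | p.2 = 0} (UpR h₁ h₂) s 0 _ U hU
  by_cases hs : s = 0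
  · subst hs
    have : ∀ᶠ v in 𝓝 ((0, 0, h₁ 0) : ℝ × ℝ × ℝ), h₂ v.2.1 < v.2.2 := by
      apply IsOpen.mem_nhds
      · exact isOpen_lt (by fun_prop) (by fun_prop)
      · exact h21
    filter_upwards [this] with v hv
    obtain ⟨x, y, t⟩ := v
    rw [cr_mem_up]
    simp only [mem_setOf_eq] at hv ⊢
    exact ⟨fun h => h.1, fun h => ⟨h, fun _ => hv⟩⟩
  · have : ∀ᶠ v in 𝓝 ((s, 0, h₁ s) : ℝ × ℝ × ℝ), v.1 ≠ 0 := by
      apply IsOpen.mem_nhds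
      · exact isOpen_ne_fun (by fun_prop) continuous_const
      · exact hs
    filter_upwards [this] with v hv
    obtain ⟨x, y, t⟩ := v
    rw [cr_mem_up]
    simp only [mem_setOf_eq] at hv ⊢
    exact ⟨fun h => h.1, fun h => ⟨h, fun h0 => absurd h0 hv⟩⟩

/-- boxes for the under strand in `Mid` -/
theorem cr_box_mid (h₁ h₂ : ℝ → ℝ) (hc₁ : Continuous h₁) (hc₂ : Continuous h₂)
    (h21 : h₂ 0 < h₁ 0) (s : ℝ) (U : Set (ℝ × ℝ × ℝ)) (hU : U ∈ 𝓝 ((0, s, h₂ s) : ℝ × ℝ × ℝ)) :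
    ∃ W : Set (ℝ × ℝ × ℝ), IsOpen W ∧ ((0, s, h₂ s) : ℝ × ℝ × ℝ) ∈ W ∧ W ⊆ U ∧
      IsPreconnected (W ∩ MidR h₁ h₂) := by
  apply cr_box (fun p => h₂ p.2) (by fun_prop) {p | p.1 = 0} (MidR h₁ h₂) 0 s _ U hU
  by_cases hs : s = 0
  · subst hs
    have : ∀ᶠ v in 𝓝 ((0, 0, h₂ 0) : ℝ × ℝ × ℝ), v.2.2 < h₁ v.1 := by
      apply IsOpen.mem_nhds
      · exact isOpen_lt (by fun_prop) (by fun_prop)
      · exact h21
    filter_upwards [this] with v hv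
    obtain ⟨x, y, t⟩ := v
    rw [cr_mem_mid]
    simp only [mem_setOf_eq] at hv ⊢
    exact ⟨fun h => h.2, fun h => ⟨fun _ => hv, h⟩⟩
  · have : ∀ᶠ v in 𝓝 ((0, s, h₂ s) : ℝ × ℝ × ℝ), v.2.1 ≠ 0 := by
      apply IsOpen.mem_nhds
      · exact isOpen_ne_fun (by fun_prop) continuous_const
      · exact hs
    filter_upwards [this] with v hv
    obtain ⟨x, y, t⟩ := v
    rw [cr_mem_mid]
    simp only [mem_setOf_eq] at hv ⊢
    exact ⟨fun h => h.2, fun h => ⟨fun h0 => absurd h0 hv, h⟩⟩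

/-- boxes for the under strand in `Up`, away from the crossing -/
theorem cr_box_up (h₁ h₂ : ℝ → ℝ) (hc₂ : Continuous h₂)
    (s : ℝ) (hs : s ≠ 0) (U : Set (ℝ × ℝ × ℝ)) (hU : U ∈ 𝓝 ((0, s, h₂ s) : ℝ × ℝ × ℝ)) :
    ∃ W : Set (ℝ × ℝ × ℝ), IsOpen W ∧ ((0, s, h₂ s) : ℝ × ℝ × ℝ) ∈ W ∧ W ⊆ U ∧
      IsPreconnected (W ∩ UpR h₁ h₂) := by
  apply cr_box (fun p => h₂ p.2) (by fun_prop) {p | p.1 = 0} (UpR h₁ h₂) 0 s _ U hU
  have : ∀ᶠ v in 𝓝 ((0, s, h₂ s) : ℝ × ℝ × ℝ), v.2.1 ≠ 0 := by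
    apply IsOpen.mem_nhds
    · exact isOpen_ne_fun (by fun_prop) continuous_const
    · exact hs
  filter_upwards [this] with v hv
  obtain ⟨x, y, t⟩ := v
  rw [cr_mem_up]
  simp only [mem_setOf_eq] at hv ⊢
  exact ⟨fun h => h.2, fun h => ⟨fun h0 => absurd h0 hv, h⟩⟩

/-- a flat function on `Up` with value `a j` near one point of the under strand -/
theorem cr_exists_pt {n : ℕ} (a : Fin n → ℝ) (ψ : ℝ × ℝ × ℝ → ℝ × ℝ) (hψ : Continuous ψ)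
    (h₁ h₂ : ℝ → ℝ) (hc₁ : Continuous h₁) (hc₂ : Continuous h₂)
    (hav : ∀ y ∈ UpR h₁ h₂, ∀ i : Fin n, ψ y ≠ (0, (i : ℝ))) (j : Fin n) (y : ℝ) (hy : y ≠ 0)
    (hj : ψ (0, y, h₂ y) = (0, (j : ℝ))) :
    ∃ f, FlatOn a ψ (UpR h₁ h₂) f ∧
      ∀ᶠ v in 𝓝 ((0, y, h₂ y) : ℝ × ℝ × ℝ), v ∈ UpR h₁ h₂ → f v = a j := by
  have hclose : {v | |(ψ v).2 - (j : ℝ)| < 1 / 2} ∈ 𝓝 ((0, y, h₂ y) : ℝ × ℝ × ℝ) := by
    apply IsOpen.mem_nhds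
    · exact isOpen_lt (by fun_prop) continuous_const
    · simp [hj]
  obtain ⟨W, hWo, hsW, hWU, hWp⟩ := cr_box_up h₁ h₂ hc₂ y hy _ hclose
  have hac : ∃ᶠ v in 𝓝 ((0, y, h₂ y) : ℝ × ℝ × ℝ), v ∈ UpR h₁ h₂ := by
    apply cr_accum _ _ _ _ 1 one_pos
    intro s hs _
    rw [cr_mem_up]
    exact ⟨fun h0 => absurd h0 hy, fun _ => by linarith⟩
  obtain ⟨v₀, hv₀R, hv₀W⟩ := (hac.and_eventually (hWo.mem_nhds hsW)).exists
  obtain ⟨f, hf, hfv⟩ := exists_flatOn a ψ (UpR h₁ h₂) hψ.continuousOn hav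
    (cr_up_contr h₁ h₂ hc₁ hc₂) hv₀R (a j)
  refine ⟨f, hf, ?_⟩
  filter_upwards [hWo.mem_nhds hsW] with v hv1 hvR
  exact (hf.mono inter_subset_right).eq_near hWp j (fun y hy => hWU hy.1) ⟨hv₀W, hv₀R⟩ hfv
    ⟨hv1, hvR⟩

/-- comparison with `Z` near a point -/
theorem cr_compare {n : ℕ} (a : Fin n → ℝ) (ψ : ℝ × ℝ × ℝ → ℝ × ℝ)
    (R : Set (ℝ × ℝ × ℝ)) (hR : IsPreconnected R) (Z f : ℝ × ℝ × ℝ → ℝ) (hZ : FlatOn a ψ R Z)
    (hf : FlatOn a ψ R f) (j : Fin n) (w : ℝ × ℝ × ℝ) (c : ℝ) (hac : ∃ᶠ v in 𝓝 w, v ∈ R)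
    (h1 : ∀ᶠ v in 𝓝 w, v ∈ R → (Z v - a j) ^ 2 = c) (h2 : ∀ᶠ v in 𝓝 w, v ∈ R → f v = a j)
    (p : ℝ × ℝ × ℝ) (hp : p ∈ R) : c = (f p - Z p) ^ 2 := by
  obtain ⟨v, hvR, hv1, hv2⟩ := (hac.and_eventually (h1.and h2)).exists
  have h3 := hZ.sq_sub hf hR hvR hp
  rw [hv2 hvR, hv1 hvR] at h3
  rw [h3]
  ring

theorem crossing_rel {n : ℕ} (a : Fin n → ℝ) (ψ : ℝ × ℝ × ℝ → ℝ × ℝ) (hψ : Continuous ψ)
    (hol : Hol n ψ) (h₁ h₂ : ℝ → ℝ) (hc₁ : Continuous h₁) (hc₂ : Continuous h₂)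
    (h21 : h₂ 0 < h₁ 0)
    (hΛ : ∀ x y t, (∃ i : Fin n, ψ (x, y, t) = (0, (i : ℝ))) ↔
      (y = 0 ∧ t = h₁ x) ∨ (x = 0 ∧ t = h₂ y))
    (Z : ℝ × ℝ × ℝ → ℝ) (hZ : FlatOn a ψ (UpR h₁ h₂) Z) (i j : Fin n)
    (hi : ψ (0, 0, h₁ 0) = (0, (i : ℝ))) (hj : ψ (0, 0, h₂ 0) = (0, (j : ℝ)))
    (vo v1 v2 y1 y2 : ℝ) (hy1 : 0 < y1) (hy2 : y2 < 0)
    (ho : ∀ᶠ v in 𝓝 ((0, 0, h₁ 0) : ℝ × ℝ × ℝ), v ∈ UpR h₁ h₂ → (Z v - a i) ^ 2 = vo)
    (h1 : ∀ᶠ v in 𝓝 ((0, y1, h₂ y1) : ℝ × ℝ × ℝ), v ∈ UpR h₁ h₂ → (Z v - a j) ^ 2 = v1)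
    (h2 : ∀ᶠ v in 𝓝 ((0, y2, h₂ y2) : ℝ × ℝ × ℝ), v ∈ UpR h₁ h₂ → (Z v - a j) ^ 2 = v2) :
    ∃ x₁ x₂ : ℝ, v1 = x₁ ^ 2 ∧ v2 = x₂ ^ 2 ∧ vo = ((x₁ + x₂) / 2) ^ 2 := by
  have hav : ∀ y ∈ UpR h₁ h₂, ∀ i : Fin n, ψ y ≠ (0, (i : ℝ)) := by
    rintro ⟨x, y, t⟩ hv i h0
    rw [cr_mem_up] at hv
    rcases (hΛ x y t).1 ⟨i, h0⟩ with h | h
    · have := hv.1 h.1; rw [h.2] at this; exact lt_irrefl _ this
    · have := hv.2 h.1; rw [h.2] at this; exact lt_irrefl _ this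
  have havM : ∀ y ∈ MidR h₁ h₂, ∀ i : Fin n, ψ y ≠ (0, (i : ℝ)) := by
    rintro ⟨x, y, t⟩ hv i h0
    rw [cr_mem_mid] at hv
    rcases (hΛ x y t).1 ⟨i, h0⟩ with h | h
    · have := hv.1 h.1; rw [h.2] at this; exact lt_irrefl _ this
    · have := hv.2 h.1; rw [h.2] at this; exact lt_irrefl _ this
  have hγo : Continuous (fun s : ℝ => ((s, 0, h₁ s) : ℝ × ℝ × ℝ)) := by fun_prop
  have hγu : Continuous (fun s : ℝ => ((0, s, h₂ s) : ℝ × ℝ × ℝ)) := by fun_prop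
  have hio : ∀ s, ψ (s, 0, h₁ s) = (0, (i : ℝ)) := by
    intro s
    exact cr_nat ψ hψ (fun s : ℝ => ((s, 0, h₁ s) : ℝ × ℝ × ℝ)) hγo
      (fun s => (hΛ s 0 (h₁ s)).2 (Or.inl ⟨rfl, rfl⟩)) 0 i hi s
  have hju : ∀ s, ψ (0, s, h₂ s) = (0, (j : ℝ)) := by
    intro s
    exact cr_nat ψ hψ (fun s : ℝ => ((0, s, h₂ s) : ℝ × ℝ × ℝ)) hγu
      (fun s => (hΛ 0 s (h₂ s)).2 (Or.inr ⟨rfl, rfl⟩)) 0 j hj s
  have hacO : ∀ s, ∃ᶠ v in 𝓝 ((s, 0, h₁ s) : ℝ × ℝ × ℝ), v ∈ UpR h₁ h₂ := by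
    intro s
    apply cr_accum _ _ _ _ 1 one_pos
    intro r hr _
    rw [cr_mem_up]
    refine ⟨fun _ => by linarith, fun h0 => ?_⟩
    subst h0
    linarith
  have hacM : ∀ s, ∃ᶠ v in 𝓝 ((0, s, h₂ s) : ℝ × ℝ × ℝ), v ∈ MidR h₁ h₂ := by
    intro s
    apply cr_accum _ _ _ _ (h₁ 0 - h₂ 0) (by linarith)
    intro r hr hr2
    rw [cr_mem_mid]
    refine ⟨fun h0 => ?_, fun _ => by linarith⟩
    subst h0
    linarith
  have hacU : ∀ s, s ≠ 0 → ∃ᶠ v in 𝓝 ((0, s, h₂ s) : ℝ × ℝ × ℝ), v ∈ UpR h₁ h₂ := by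
    intro s hs
    apply cr_accum _ _ _ _ 1 one_pos
    intro r hr _
    rw [cr_mem_up]
    exact ⟨fun h0 => absurd h0 hs, fun _ => by linarith⟩
  obtain ⟨bo, hbo, hbo'⟩ := cr_exists a ψ hψ (UpR h₁ h₂) (cr_up_contr h₁ h₂ hc₁ hc₂) hav i
    (fun s : ℝ => ((s, 0, h₁ s) : ℝ × ℝ × ℝ)) hγo hio hacO
    (fun s U hU => cr_box_over h₁ h₂ hc₁ hc₂ h21 s U hU)
  obtain ⟨bu, hbu, hbu'⟩ := cr_exists a ψ hψ (MidR h₁ h₂) (cr_mid_contr h₁ h₂ hc₁ hc₂ h21) havM j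
    (fun s : ℝ => ((0, s, h₂ s) : ℝ × ℝ × ℝ)) hγu hju hacM
    (fun s U hU => cr_box_mid h₁ h₂ hc₁ hc₂ h21 s U hU)
  obtain ⟨b1, hb1, hb1'⟩ := cr_exists_pt a ψ hψ h₁ h₂ hc₁ hc₂ hav j y1 hy1.ne' (hju y1)
  obtain ⟨b2, hb2, hb2'⟩ := cr_exists_pt a ψ hψ h₁ h₂ hc₁ hc₂ hav j y2 hy2.ne (hju y2)
  have hp1 : ∀ v ∈ UpR h₁ h₂, 0 < v.2.1 → b1 v = bu v := by
    intro v hv hv2
    exact cr_half a ψ h₁ h₂ hc₂ 1 (Or.inl rfl) b1 bu hb1 hbu j y1 (by linarith) hb1' (hbu' y1) v hv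
      (by linarith)
  have hp2 : ∀ v ∈ UpR h₁ h₂, v.2.1 < 0 → b2 v = bu v := by
    intro v hv hv2
    exact cr_half a ψ h₁ h₂ hc₂ (-1) (Or.inr rfl) b2 bu hb2 hbu j y2 (by linarith) hb2' (hbu' y2)
      v hv (by linarith)
  have hUJ : UJ (Ioi 0) h₁ ⊆ UpR h₁ h₂ := by
    rintro ⟨x, y, t⟩ hv
    rw [cr_mem_up]
    exact ⟨hv.2, fun h0 => absurd h0 (ne_of_gt hv.1)⟩
  have hDJ : DJ (Ioi 0) h₁ ⊆ MidR h₁ h₂ := by
    rintro ⟨x, y, t⟩ hv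
    rw [cr_mem_mid]
    exact ⟨hv.2, fun h0 => absurd h0 (ne_of_gt hv.1)⟩
  have hsr := strand_rel a ψ hψ hol h₁ hc₁ (Ioi 0) isOpen_Ioi ordConnected_Ioi
    (by
      intro x hx y t
      rw [hΛ x y t]
      constructor
      · rintro (h | h)
        · exact h
        · exact absurd h.1 (ne_of_gt hx)
      · intro h; exact Or.inl h)
    1 (by norm_num) i (hio 1) b1 bo bu (hb1.mono hUJ) (hbo.mono hUJ) (hbu.mono hDJ)
    (by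
      filter_upwards [hbo' 1] with v hv hvU
      exact hv (hUJ hvU))
    (by
      intro v hv1 hv2
      apply hp1 v _ hv2
      apply hUJ
      exact ⟨hv1, fun h0 => absurd h0 hv2.ne'⟩)
  -- the relation on all of Up
  have hUpc : IsPreconnected (UpR h₁ h₂) := by
    haveI := cr_up_contr h₁ h₂ hc₁ hc₂
    rw [isPreconnected_iff_preconnectedSpace]
    infer_instance
  have hrel : ∀ v ∈ UpR h₁ h₂, b1 v + b2 v = 2 * bo v := by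
    have hfl : FlatOn (a + a - (2 : ℝ) • a) ψ (UpR h₁ h₂) (b1 + b2 - (2 : ℝ) • bo) :=
      (hb1.add hb2).sub (hbo.smul 2)
    have h0 : a + a - (2 : ℝ) • a = (0 : ℝ) • a := by ext k; simp; ring
    rw [h0] at hfl
    have hz : FlatOn ((0 : ℝ) • a) ψ (UpR h₁ h₂) ((0 : ℝ) • b1) := hb1.smul 0
    have hw : ((1, -1, 0) : ℝ × ℝ × ℝ) ∈ UpR h₁ h₂ := by
      rw [cr_mem_up]
      exact ⟨fun h => by norm_num at h, fun h => by norm_num at h⟩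
    have hq := hfl.eqOn hz hUpc hw (by
      have e1 := hsr (1, -1, 0) (by norm_num : (0 : ℝ) < 1) (by norm_num)
      have e2 := hp2 (1, -1, 0) hw (by norm_num)
      simp only [Pi.sub_apply, Pi.add_apply, Pi.smul_apply, smul_eq_mul, zero_mul]
      rw [e2]
      linarith)
    intro v hv
    have := hq hv
    simp only [Pi.sub_apply, Pi.add_apply, Pi.smul_apply, smul_eq_mul, zero_mul] at this
    linarith
  have hp : ((1, -1, 0) : ℝ × ℝ × ℝ) ∈ UpR h₁ h₂ := by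
    rw [cr_mem_up]
    exact ⟨fun h => by norm_num at h, fun h => by norm_num at h⟩
  refine ⟨b1 (1, -1, 0) - Z (1, -1, 0), b2 (1, -1, 0) - Z (1, -1, 0), ?_, ?_, ?_⟩
  · exact cr_compare a ψ _ hUpc Z b1 hZ hb1 j _ v1 (hacU y1 hy1.ne') h1 hb1' _ hp
  · exact cr_compare a ψ _ hUpc Z b2 hZ hb2 j _ v2 (hacU y2 hy2.ne) h2 hb2' _ hp
  · have e1 := cr_compare a ψ _ hUpc Z bo hZ hbo i _ vo (hacO 0) ho (hbo' 0) _ hp
    rw [e1]
    have e2 := hrel _ hp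
    have : b1 (1, -1, 0) - Z (1, -1, 0) + (b2 (1, -1, 0) - Z (1, -1, 0)) =
      2 * (bo (1, -1, 0) - Z (1, -1, 0)) := by linarith
    rw [this]
    ring

end X_crossing_rel

alias crossing_rel := X_crossing_rel.crossing_rel

end AltGenus
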