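import Pool.Agent.AltGenus.ChartDefs

open Set Topology Filter

namespace AltGenus

namespace X_hopf_circle
noncomputable def hcE (z w : ℂ) : EuclideanSpace ℝ (Fin 4) := !₂[z.re, z.im, w.re, w.im]

theorem hcE_norm (z w : ℂ) (h : ‖z‖ ^ 2 + ‖w‖ ^ 2 = 1) : ‖hcE z w‖ = 1 := by
  rw [EuclideanSpace.norm_eq, Fin.sum_univ_four]
  simp only [hcE, Real.norm_eq_abs, sq_abs]
  simp only [PiLp.toLp_apply, Matrix.cons_val_zero, Matrix.cons_val_one, Matrix.cons_val]
  rw [Complex.sq_norm, Complex.sq_norm, Complex.normSq_apply, Complex.normSq_apply] at h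
  rw [Real.sqrt_eq_one]
  linarith

theorem hcE_cont {A B : ℂ → ℂ} (hA : Continuous A) (hB : Continuous B) :
    Continuous (fun c => hcE (A c) (B c)) := by
  unfold hcE
  apply (PiLp.continuous_toLp 2 _).comp
  apply continuous_pi
  intro j
  fin_cases j
  · exact Complex.continuous_re.comp hA
  · exact Complex.continuous_im.comp hA
  · exact Complex.continuous_re.comp hB
  · exact Complex.continuous_im.comp hB

/-- a local section of `(z, w) ↦ zw` -/
theorem hc_section (z w : ℂ) (h : ‖z‖ ^ 2 + ‖w‖ ^ 2 = 1) (hlt : ‖w‖ < ‖z‖) :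
    ∃ A B : ℂ → ℂ, Continuous A ∧ Continuous B ∧ A (z * w) = z ∧ B (z * w) = w ∧
      ∀ c : ℂ, ‖c‖ ≤ 1 / 2 → A c * B c = c ∧ ‖A c‖ ^ 2 + ‖B c‖ ^ 2 = 1 := by
  have hz : 0 < ‖z‖ := lt_of_le_of_lt (norm_nonneg w) hlt
  have hz0 : z ≠ 0 := norm_pos_iff.1 hz
  set R : ℂ → ℝ := fun c => Real.sqrt ((1 + Real.sqrt (1 - 4 * ‖c‖ ^ 2)) / 2) with hR
  have hRpos : ∀ c, 0 < R c := by
    intro c
    apply Real.sqrt_pos.2
    have := Real.sqrt_nonneg (1 - 4 * ‖c‖ ^ 2)
    linarith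
  have hRsq : ∀ c, R c ^ 2 = (1 + Real.sqrt (1 - 4 * ‖c‖ ^ 2)) / 2 := by
    intro c
    apply Real.sq_sqrt
    have := Real.sqrt_nonneg (1 - 4 * ‖c‖ ^ 2)
    linarith
  have hRcont : Continuous R := by
    simp only [hR]
    fun_prop
  set u : ℂ := z / (‖z‖ : ℂ) with hu
  have hunorm : ‖u‖ = 1 := by
    rw [hu, norm_div, Complex.norm_real, norm_norm, div_self hz.ne']
  have hu0 : u ≠ 0 := by
    intro h0
    rw [h0, norm_zero] at hunorm
    exact zero_ne_one hunorm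
  have hRu : ∀ c, (R c : ℂ) * u ≠ 0 := fun c => mul_ne_zero (by exact_mod_cast (hRpos c).ne') hu0
  have hR0 : R (z * w) = ‖z‖ := by
    have h1 : Real.sqrt (1 - 4 * ‖z * w‖ ^ 2) = ‖z‖ ^ 2 - ‖w‖ ^ 2 := by
      rw [Real.sqrt_eq_iff_mul_self_eq]
      · rw [norm_mul]
        nlinarith [h, norm_nonneg z, norm_nonneg w]
      · rw [norm_mul]
        have e : 1 - 4 * (‖z‖ * ‖w‖) ^ 2 = (‖z‖ ^ 2 - ‖w‖ ^ 2) ^ 2 := by
          have : (1 : ℝ) = (‖z‖ ^ 2 + ‖w‖ ^ 2) ^ 2 := by rw [h]; norm_num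
          rw [this]; ring
        rw [e]; positivity
      · have := norm_nonneg w
        nlinarith
    simp only [hR]
    rw [h1, show (1 + (‖z‖ ^ 2 - ‖w‖ ^ 2)) / 2 = ‖z‖ ^ 2 by linarith]
    exact Real.sqrt_sq hz.le
  refine ⟨fun c => (R c : ℂ) * u, fun c => c / ((R c : ℂ) * u), ?_, ?_, ?_, ?_, ?_⟩
  · exact (Complex.continuous_ofReal.comp hRcont).mul continuous_const
  · exact continuous_id.div ((Complex.continuous_ofReal.comp hRcont).mul continuous_const) hRu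
  · simp only [hR0, hu]
    rw [mul_div_cancel₀]
    exact_mod_cast hz.ne'
  · simp only [hR0, hu]
    rw [mul_div_cancel₀ _ (by exact_mod_cast hz.ne' : (‖z‖ : ℂ) ≠ 0)]
    field_simp
  · intro c hc
    refine ⟨?_, ?_⟩
    · simp only []
      rw [mul_div_cancel₀ _ (hRu c)]
    · simp only []
      rw [norm_div, norm_mul, hunorm, mul_one, Complex.norm_real, Real.norm_eq_abs,
        abs_of_pos (hRpos c), div_pow, hRsq]
      have hs0 := Real.sqrt_nonneg (1 - 4 * ‖c‖ ^ 2)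
      have hs1 : Real.sqrt (1 - 4 * ‖c‖ ^ 2) ^ 2 = 1 - 4 * ‖c‖ ^ 2 := by
        apply Real.sq_sqrt
        have := norm_nonneg c
        nlinarith
      set s := Real.sqrt (1 - 4 * ‖c‖ ^ 2) with hs
      have hc2 : ‖c‖ ^ 2 = (1 - s ^ 2) / 4 := by linarith
      rw [hc2]
      have : (1 + s) ≠ 0 := by linarith
      field_simp
      ring

theorem hopf_circle_aux (n : ℕ) (k : ℝ) (hk : k < n) (hk0 : 0 ≤ k) (v₀ : S3) (z w : ℂ) (A B : ℂ → ℂ)
    (hv₀ : (v₀ : EuclideanSpace ℝ (Fin 4)) = hcE z w) (hA : Continuous A) (hB : Continuous B)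
    (hc0 : z * w = (⟨0, k / (2 * n)⟩ : ℂ)) (hA0 : A (z * w) = z) (hB0 : B (z * w) = w)
    (hAB : ∀ c : ℂ, ‖c‖ ≤ 1 / 2 → A c * B c = c ∧ ‖A c‖ ^ 2 + ‖B c‖ ^ 2 = 1)
    (U : Set S3) (hU : IsOpen U) (hvU : v₀ ∈ U) :
    ∃ (ε : ℝ) (v : ℝ → S3), 0 < ε ∧ ε < 1 / 2 ∧ Continuous v ∧
      (∀ t, v (t + 2 * Real.pi) = v t) ∧ (∀ t, v t ∈ U) ∧
      (∀ t, kap n (v t) = (ε * Real.cos t, k + ε * Real.sin t)) := by
  have hn : (1 : ℝ) ≤ n := by
    have : (0 : ℝ) < n := lt_of_le_of_lt hk0 hk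
    exact_mod_cast Nat.one_le_iff_ne_zero.2 (by rintro rfl; simp at this)
  obtain ⟨U', hU', rfl⟩ := isOpen_induced_iff.1 hU
  have hG := hcE_cont hA hB
  have h1 : IsOpen ((fun c => hcE (A c) (B c)) ⁻¹' U' ∩ Metric.ball 0 (1 / 2)) :=
    (hU'.preimage hG).inter Metric.isOpen_ball
  have h2 : z * w ∈ (fun c => hcE (A c) (B c)) ⁻¹' U' ∩ Metric.ball 0 (1 / 2) := by
    refine ⟨?_, ?_⟩
    · simp only [mem_preimage, hA0, hB0]
      rw [← hv₀]
      exact hvU
    · rw [mem_ball_zero_iff, hc0]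
      have : (⟨0, k / (2 * n)⟩ : ℂ) = ((k / (2 * n) : ℝ) : ℂ) * Complex.I := by
        rw [Complex.mk_eq_add_mul_I, Complex.ofReal_zero, zero_add]
      rw [this, norm_mul, Complex.norm_I, mul_one, Complex.norm_real, Real.norm_eq_abs,
        abs_of_nonneg (by positivity)]
      rw [div_lt_div_iff₀ (by positivity) (by norm_num)]
      linarith
  obtain ⟨δ, hδ, hball⟩ := Metric.isOpen_iff.1 h1 _ h2
  set ε := min (δ / 4) (1 / 4) with hε
  have hε0 : 0 < ε := by rw [hε]; positivity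
  have hεδ : ε ≤ δ / 4 := min_le_left _ _
  have hε4 : ε ≤ 1 / 4 := min_le_right _ _
  set c : ℝ → ℂ := fun t => ⟨ε * Real.cos t, (k + ε * Real.sin t) / (2 * n)⟩ with hc
  have hcc : Continuous c := by
    have : c = fun t => ((ε * Real.cos t : ℝ) : ℂ) +
        (((k + ε * Real.sin t) / (2 * n) : ℝ) : ℂ) * Complex.I := by
      funext t
      exact Complex.mk_eq_add_mul_I _ _
    rw [this]
    apply Continuous.add
    · exact Complex.continuous_ofReal.comp (by fun_prop)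
    · exact (Complex.continuous_ofReal.comp (by fun_prop)).mul continuous_const
  have hcb : ∀ t, c t ∈ (fun c => hcE (A c) (B c)) ⁻¹' U' ∩ Metric.ball 0 (1 / 2) := by
    intro t
    apply hball
    rw [mem_ball_iff_norm, hc0]
    have e : c t - (⟨0, k / (2 * n)⟩ : ℂ) = ((ε * Real.cos t : ℝ) : ℂ) +
        ((ε * Real.sin t / (2 * n) : ℝ) : ℂ) * Complex.I := by
      rw [← Complex.mk_eq_add_mul_I]
      apply Complex.ext
      · simp only [hc, Complex.sub_re, sub_zero]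
      · simp only [hc, Complex.sub_im]; ring
    rw [e]
    refine lt_of_le_of_lt (norm_add_le _ _) ?_
    rw [norm_mul, Complex.norm_I, mul_one, Complex.norm_real, Complex.norm_real, Real.norm_eq_abs,
      Real.norm_eq_abs, abs_mul, abs_div, abs_mul, abs_of_pos hε0]
    have a1 := Real.abs_cos_le_one t
    have a2 := Real.abs_sin_le_one t
    have a3 : ε * |Real.sin t| / |(2 * n : ℝ)| ≤ ε := by
      rw [abs_of_pos (by positivity : (0 : ℝ) < 2 * n), div_le_iff₀ (by positivity)]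
      nlinarith [abs_nonneg (Real.sin t)]
    have a4 : ε * |Real.cos t| ≤ ε := by nlinarith [abs_nonneg (Real.cos t)]
    linarith
  have hcn : ∀ t, ‖c t‖ ≤ 1 / 2 := fun t => (mem_ball_zero_iff.1 (hcb t).2).le
  refine ⟨ε, fun t => ⟨hcE (A (c t)) (B (c t)), ?_⟩, hε0, by linarith, ?_, ?_, ?_, ?_⟩
  · rw [mem_sphere_zero_iff_norm]
    exact hcE_norm _ _ (hAB _ (hcn t)).2
  · exact Continuous.subtype_mk (hG.comp hcc) _
  · intro t
    apply Subtype.ext
    simp only [hc, Real.cos_add_two_pi, Real.sin_add_two_pi]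
  · intro t
    exact (hcb t).1
  · intro t
    have e := (hAB _ (hcn t)).1
    have e1 := congrArg Complex.re e
    have e2 := congrArg Complex.im e
    rw [Complex.mul_re] at e1
    rw [Complex.mul_im] at e2
    unfold kap
    simp only [hcE, PiLp.toLp_apply, Matrix.cons_val_zero, Matrix.cons_val_one, Matrix.cons_val]
    refine Prod.ext ?_ ?_
    · simp only [e1]; rfl
    · simp only [e2]
      simp only [hc]
      field_simp

theorem hopf_circle (n : ℕ) (v₀ : S3) (i : Fin n) (h : kap n v₀ = (0, (i : ℝ))) (U : Set S3)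
    (hU : IsOpen U) (hvU : v₀ ∈ U) :
    ∃ (ε : ℝ) (v : ℝ → S3), 0 < ε ∧ ε < 1 / 2 ∧ Continuous v ∧
      (∀ t, v (t + 2 * Real.pi) = v t) ∧ (∀ t, v t ∈ U) ∧
      (∀ t, kap n (v t) = (ε * Real.cos t, (i : ℝ) + ε * Real.sin t)) := by
  have hn : (0 : ℝ) < n := by
    have : 0 < n := lt_of_le_of_lt (Nat.zero_le _) i.2
    exact_mod_cast this
  have hi : ((i : ℕ) : ℝ) < n := by exact_mod_cast i.2
  have hi0 : (0 : ℝ) ≤ ((i : ℕ) : ℝ) := Nat.cast_nonneg _
  set z : ℂ := ⟨v₀.1 0, v₀.1 1⟩ with hz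
  set w : ℂ := ⟨v₀.1 2, v₀.1 3⟩ with hw
  have hv₀ : (v₀ : EuclideanSpace ℝ (Fin 4)) = hcE z w := by
    ext j
    fin_cases j <;> rfl
  have hnorm : ‖z‖ ^ 2 + ‖w‖ ^ 2 = 1 := by
    have h1 : ‖(v₀ : EuclideanSpace ℝ (Fin 4))‖ = 1 := mem_sphere_zero_iff_norm.1 v₀.2
    rw [EuclideanSpace.norm_eq, Fin.sum_univ_four, Real.sqrt_eq_one] at h1
    simp only [Real.norm_eq_abs, sq_abs] at h1
    rw [Complex.sq_norm, Complex.sq_norm, Complex.normSq_apply, Complex.normSq_apply]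
    simp only [hz, hw]
    linarith
  unfold kap at h
  have h1 := congrArg Prod.fst h
  have h2 := congrArg Prod.snd h
  simp only at h1 h2
  have hzw : z * w = (⟨0, (i : ℕ) / (2 * n)⟩ : ℂ) := by
    apply Complex.ext
    · rw [Complex.mul_re]; simp only [hz, hw]; exact h1
    · rw [Complex.mul_im]; simp only [hz, hw]
      rw [eq_div_iff (by positivity)]
      linarith
  have hprod : ‖z‖ * ‖w‖ < 1 / 2 := by
    rw [← norm_mul, hzw]
    have : (⟨0, ((i : ℕ) : ℝ) / (2 * n)⟩ : ℂ) = ((((i : ℕ) : ℝ) / (2 * n) : ℝ) : ℂ) * Complex.I := by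
      rw [Complex.mk_eq_add_mul_I, Complex.ofReal_zero, zero_add]
    rw [this, norm_mul, Complex.norm_I, mul_one, Complex.norm_real, Real.norm_eq_abs,
      abs_of_nonneg (by positivity)]
    rw [div_lt_div_iff₀ (by positivity) (by norm_num)]
    linarith
  rcases lt_trichotomy ‖w‖ ‖z‖ with hlt | heq | hlt
  · obtain ⟨A, B, hA, hB, hA0, hB0, hAB⟩ := hc_section z w hnorm hlt
    exact hopf_circle_aux n _ hi hi0 v₀ z w A B hv₀ hA hB hzw hA0 hB0 hAB U hU hvU
  · exfalso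
    rw [heq] at hnorm hprod
    nlinarith
  · obtain ⟨B, A, hB, hA, hB0, hA0, hAB⟩ := hc_section w z (by linarith) hlt
    rw [mul_comm w z] at hB0 hA0
    refine hopf_circle_aux n _ hi hi0 v₀ z w A B hv₀ hA hB hzw hA0 hB0 ?_ U hU hvU
    intro c hc
    obtain ⟨e1, e2⟩ := hAB c hc
    exact ⟨by rw [mul_comm]; exact e1, by linarith⟩

end X_hopf_circle

alias hopf_circle := X_hopf_circle.hopf_circle

end AltGenus
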