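import Pool.Agent.AltGenus.ChartDefs

open Set Topology Filter

namespace AltGenus

namespace X_flat_image
theorem flat_image {n : ℕ} (a : Fin n → ℝ) {Y Z : Type} [TopologicalSpace Y]
    [TopologicalSpace Z] (φ : Y → ℝ × ℝ) (θ : Z → Y) (hθ : IsEmbedding θ) (B : Set Z)
    (g : Z → ℝ) (hg : FlatOn a (φ ∘ θ) B g) : FlatOn a φ (θ '' B) (Function.extend θ g 0) := by
  rintro y ⟨z, hz, rfl⟩
  rw [← hθ.isInducing.map_nhdsWithin_eq B z, Filter.eventually_map]
  filter_upwards [hg z hz] with z' hz'
  rw [hθ.injective.extend_apply, hθ.injective.extend_apply]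
  exact hz'

end X_flat_image

alias flat_image := X_flat_image.flat_image

end AltGenus
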