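import Pool.Agent.AltGenus.ChartDefs
import Pool.Agent.AltGenus.P_flat_image

open Set Topology Filter

namespace AltGenus

namespace X_hol_transfer
theorem hol_transfer {n : ℕ} (φ : S3 → ℝ × ℝ) (hol : Hol n φ) {Z : Type} [TopologicalSpace Z]
    (θ : Z → S3) (hθ : IsOpenEmbedding θ) : Hol n (φ ∘ θ) := by
  intro a i z₀ hz₀ U hU hzU F hF
  have h1 := flat_image a φ θ hθ.isEmbedding _ F hF
  have h2 : θ '' (U ∩ {v | ∀ j : Fin n, (φ ∘ θ) v ≠ (0, (j : ℝ))}) =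
      (θ '' U) ∩ {v | ∀ j : Fin n, φ v ≠ (0, (j : ℝ))} := by
    ext v
    constructor
    · rintro ⟨z, ⟨hz1, hz2⟩, rfl⟩
      exact ⟨⟨z, hz1, rfl⟩, hz2⟩
    · rintro ⟨⟨z, hz1, rfl⟩, hz2⟩
      exact ⟨z, ⟨hz1, hz2⟩, rfl⟩
  rw [h2] at h1
  obtain ⟨v, ⟨z, hz, rfl⟩, hv2, hv3⟩ := hol a i (θ z₀) hz₀ (θ '' U) (hθ.isOpenMap U hU)
    ⟨z₀, hzU, rfl⟩ _ h1
  refine ⟨z, hz, hv2, ?_⟩
  rwa [hθ.injective.extend_apply] at hv3

end X_hol_transfer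

alias hol_transfer := X_hol_transfer.hol_transfer

end AltGenus
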