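import Pool.Agent.AltGenus.ChartDefs
import Pool.Agent.AltGenus.P_crossing_rel
import Pool.Agent.AltGenus.P_hol_kap
import Pool.Agent.AltGenus.P_hol_transfer
import Pool.Agent.AltGenus.P_chart_facts

open Set Topology Filter

namespace AltGenus

namespace X_crossing_W
theorem cw_kap_cont (n : ℕ) : Continuous (kap n) := by
  unfold kap
  fun_prop

theorem cw_const {β : Type} (A : Set ℝ) (hA : IsPreconnected A) (f : ℝ → β)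
    (h : ∀ y ∈ A, ∀ᶠ y' in 𝓝 y, f y' = f y) {y y' : ℝ} (hy : y ∈ A) (hy' : y' ∈ A) :
    f y = f y' := by
  have hP : PreconnectedSpace A := Subtype.preconnectedSpace hA
  have hlc : IsLocallyConstant (fun z : A => f z) := by
    rw [IsLocallyConstant.iff_eventually_eq]
    rintro ⟨z, hz⟩
    have h2 := h z hz
    exact (continuous_subtype_val.tendsto (⟨z, hz⟩ : A)).eventually h2
  exact hlc.apply_eq_of_preconnectedSpace ⟨y, hy⟩ ⟨y', hy'⟩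

theorem cw_near {g n : ℕ} {H : Heegaard g} (E : Collar H) (a : Fin n → ℝ) (Z W : S3 → ℝ)
    (hW1 : ∀ q ∈ Lset n, ¬ E.Under (Lset n) q →
        ∀ᶠ v in 𝓝[Rp E (Lset n)] q, (Z v - colour a (kap n q).2) ^ 2 = W q)
    (θ : ℝ × ℝ × ℝ → S3) (hθ : Continuous θ) (U : Set (ℝ × ℝ × ℝ))
    (hU : ∀ v ∈ U, θ v ∈ Rp E (Lset n)) (p : ℝ × ℝ × ℝ) (hp : θ p ∈ Lset n)
    (hu : ¬ E.Under (Lset n) (θ p)) (i : Fin n) (hi : kap n (θ p) = (0, (i : ℝ))) :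
    ∀ᶠ v in 𝓝 p, v ∈ U → (Z (θ v) - a i) ^ 2 = W (θ p) := by
  have h1 := hW1 (θ p) hp hu
  rw [hi, colour_self, nhdsWithin, eventually_inf_principal] at h1
  filter_upwards [(hθ.tendsto p).eventually h1] with v hv hvU
  exact hv (hU v hvU)

theorem crossing_W {g n : ℕ} {H : Heegaard g} (E : Collar H) (D : Diagram E (Lset n))
    (hn : 0 < n) (a : Fin n → ℝ) (Z : S3 → ℝ) (hZ : FlatOn a (kap n) (Rp E (Lset n)) Z)
    (W : S3 → ℝ)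
    (hW1 : ∀ q ∈ Lset n, ¬ E.Under (Lset n) q →
        ∀ᶠ v in 𝓝[Rp E (Lset n)] q, (Z v - colour a (kap n q).2) ^ 2 = W q)
    (hW2 : ∀ q ∈ Lset n, ¬ E.Under (Lset n) q → ∀ᶠ q' in 𝓝[Lset n] q, W q' = W q)
    (χ : ℝ × ℝ → H.Sig) (h₁ h₂ : ℝ → ℝ) (hχ : IsOpenEmbedding χ) (hc₁ : Continuous h₁)
    (hc₂ : Continuous h₂) (h21 : h₂ 0 < h₁ 0)
    (hΛ : ∀ x y t, E.e (χ (x, y), t) ∈ Lset n ↔ (y = 0 ∧ t = h₁ x) ∨ (x = 0 ∧ t = h₂ y)) :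
    ∃ x₁ x₂ : ℝ, W (E.e (χ (0, 0), h₁ 0)) = ((x₁ + x₂) / 2) ^ 2 ∧
      (∀ y, 0 < y → W (E.e (χ (0, y), h₂ y)) = x₁ ^ 2) ∧
      (∀ y, y < 0 → W (E.e (χ (0, y), h₂ y)) = x₂ ^ 2) := by
  obtain ⟨hθ, -, hRp, -⟩ := chart_facts E (Lset n) χ hχ
  have hRp' := hRp h₁ h₂ h21 hΛ
  set θ : ℝ × ℝ × ℝ → S3 := fun v => E.e (χ (v.1, v.2.1), v.2.2) with hθdef
  have hθc : Continuous θ := hθ.continuous
  have hψ : Continuous (kap n ∘ θ) := (cw_kap_cont n).comp hθc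
  have hol : Hol n (kap n ∘ θ) := hol_transfer (kap n) (hol_kap hn) θ hθ
  have hΛ' : ∀ x y t, (∃ i : Fin n, (kap n ∘ θ) (x, y, t) = (0, (i : ℝ))) ↔
      (y = 0 ∧ t = h₁ x) ∨ (x = 0 ∧ t = h₂ y) := fun x y t => hΛ x y t
  have hUp : ∀ v ∈ UpR h₁ h₂, θ v ∈ Rp E (Lset n) := fun v hv => (hRp' v).mpr hv
  have hZ' : FlatOn a (kap n ∘ θ) (UpR h₁ h₂) (Z ∘ θ) := hZ.comp hθc.continuousOn hUp
  obtain ⟨i, hi⟩ := (hΛ' 0 0 (h₁ 0)).mpr (Or.inl ⟨rfl, rfl⟩)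
  obtain ⟨j, hj⟩ := (hΛ' 0 0 (h₂ 0)).mpr (Or.inr ⟨rfl, rfl⟩)
  -- the strand
  have hsc : Continuous (fun y : ℝ => ((0:ℝ), y, h₂ y)) := by fun_prop
  have hstr : Continuous (fun y : ℝ => θ (0, y, h₂ y)) := hθc.comp hsc
  have hidx : ∀ y : ℝ, ∃ k : Fin n, (kap n ∘ θ) (0, y, h₂ y) = (0, (k : ℝ)) := fun y =>
    (hΛ' 0 y (h₂ y)).mpr (Or.inr ⟨rfl, rfl⟩)
  choose idx hidx using hidx
  have hlc : ∀ y ∈ (univ : Set ℝ), ∀ᶠ y' in 𝓝 y, idx y' = idx y := by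
    intro y _
    have hq : Continuous (fun y : ℝ => ((kap n ∘ θ) (0, y, h₂ y)).2) :=
      continuous_snd.comp (hψ.comp hsc)
    have h1 : ∀ᶠ y' in 𝓝 y, dist ((kap n ∘ θ) (0, y', h₂ y')).2 ((kap n ∘ θ) (0, y, h₂ y)).2 < 1 :=
      (hq.tendsto y).eventually (Metric.ball_mem_nhds _ one_pos)
    filter_upwards [h1] with y' hy'
    rw [hidx y', hidx y, Real.dist_eq] at hy'
    have hy'' : |((idx y' : ℕ) : ℝ) - ((idx y : ℕ) : ℝ)| < 1 := hy'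
    have h3 : |(((idx y' : ℕ) : ℤ) - ((idx y : ℕ) : ℤ))| < 1 := by exact_mod_cast hy''
    rw [Int.abs_lt_one_iff] at h3
    apply Fin.ext
    omega
  have hj' : ∀ y : ℝ, kap n (θ (0, y, h₂ y)) = (0, (j : ℝ)) := by
    intro y
    have h1 := hidx y
    have h2 : idx y = idx 0 := cw_const univ isPreconnected_univ idx hlc (mem_univ _) (mem_univ _)
    have h3 := hidx 0
    rw [hj] at h3
    have h4 : (j : ℝ) = ((idx 0 : ℕ) : ℝ) := congrArg Prod.snd h3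
    rw [h2, ← h4] at h1
    exact h1
  have hLy : ∀ y : ℝ, θ (0, y, h₂ y) ∈ Lset n := fun y => (hΛ 0 y (h₂ y)).mpr (Or.inr ⟨rfl, rfl⟩)
  have hnu : ∀ y : ℝ, y ≠ 0 → ¬ E.Under (Lset n) (θ (0, y, h₂ y)) := by
    rintro y hy ⟨-, s, t, t', h1, h2, h3⟩
    have h4 : (χ (0, y), h₂ y) = (s, t) := E.emb.injective h1
    have h5 : s = χ (0, y) := (congrArg Prod.fst h4).symm
    have h6 : t = h₂ y := (congrArg Prod.snd h4).symm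
    rw [h5, hΛ] at h3
    rcases h3 with ⟨h7, -⟩ | ⟨-, h7⟩
    · exact hy h7
    · rw [h6, h7] at h2
      exact lt_irrefl _ h2
  have hp0L : θ (0, 0, h₁ 0) ∈ Lset n := (hΛ 0 0 (h₁ 0)).mpr (Or.inl ⟨rfl, rfl⟩)
  have hp0 : ¬ E.Under (Lset n) (θ (0, 0, h₁ 0)) := by
    rintro ⟨-, s, t, t', h1, h2, h3⟩
    have h4 : (χ (0, 0), h₁ 0) = (s, t) := E.emb.injective h1
    have h5 : s = χ (0, 0) := (congrArg Prod.fst h4).symm
    have h6 : t = h₁ 0 := (congrArg Prod.snd h4).symm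
    rw [h5, hΛ] at h3
    rcases h3 with ⟨-, h7⟩ | ⟨-, h7⟩
    · rw [h6, h7] at h2
      exact lt_irrefl _ h2
    · rw [h6, h7] at h2
      exact lt_asymm h2 h21
  have hWlc : ∀ y : ℝ, y ≠ 0 → ∀ᶠ y' in 𝓝 y, W (θ (0, y', h₂ y')) = W (θ (0, y, h₂ y)) := by
    intro y hy
    have h1 := hW2 _ (hLy y) (hnu y hy)
    have h2 : Tendsto (fun y : ℝ => θ (0, y, h₂ y)) (𝓝 y) (𝓝[Lset n] (θ (0, y, h₂ y))) := by
      rw [tendsto_nhdsWithin_iff]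
      exact ⟨hstr.tendsto y, Eventually.of_forall hLy⟩
    exact h2.eventually h1
  have ho := cw_near E a Z W hW1 θ hθc (UpR h₁ h₂) hUp (0, 0, h₁ 0) hp0L hp0 i hi
  have he1 := cw_near E a Z W hW1 θ hθc (UpR h₁ h₂) hUp (0, 1, h₂ 1) (hLy 1) (hnu 1 one_ne_zero) j (hj' 1)
  have he2 := cw_near E a Z W hW1 θ hθc (UpR h₁ h₂) hUp (0, -1, h₂ (-1)) (hLy (-1))
    (hnu (-1) (by norm_num)) j (hj' (-1))
  obtain ⟨x₁, x₂, hx1, hx2, hxo⟩ := crossing_rel a (kap n ∘ θ) hψ hol h₁ h₂ hc₁ hc₂ h21 hΛ' (Z ∘ θ) hZ'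
    i j hi hj (W (θ (0, 0, h₁ 0))) (W (θ (0, 1, h₂ 1))) (W (θ (0, -1, h₂ (-1)))) 1 (-1) one_pos
    (by norm_num) ho he1 he2
  refine ⟨x₁, x₂, hxo, ?_, ?_⟩
  · intro y hy
    have h1 : W (θ (0, y, h₂ y)) = W (θ (0, 1, h₂ 1)) :=
      cw_const (Ioi 0) isPreconnected_Ioi (fun y => W (θ (0, y, h₂ y)))
        (fun z hz => hWlc z (ne_of_gt hz)) (mem_Ioi.mpr hy) (mem_Ioi.mpr one_pos)
    rw [← hx1]
    exact h1
  · intro y hy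
    have h1 : W (θ (0, y, h₂ y)) = W (θ (0, -1, h₂ (-1))) :=
      cw_const (Iio 0) isPreconnected_Iio (fun y => W (θ (0, y, h₂ y)))
        (fun z hz => hWlc z (ne_of_lt hz)) (mem_Iio.mpr hy) (mem_Iio.mpr (by norm_num))
    rw [← hx2]
    exact h1

end X_crossing_W

alias crossing_W := X_crossing_W.crossing_W

end AltGenus
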