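import Pool.Agent.AltGenus.ChartDefs

open Set Topology Filter

namespace AltGenus

namespace X_top_closure
theorem top_closure {g n : ℕ} {H : Heegaard g} (E : Collar H) (D : Diagram E (Lset n))
    (q : S3) (hq : q ∈ Lset n) (htop : ¬ E.Under (Lset n) q) :
    q ∈ closure (Rp E (Lset n)) := by
  obtain ⟨⟨s, t⟩, hst⟩ := D.sub hq
  have hno : ∀ t', t < t' → E.e (s, t') ∉ Lset n := by
    intro t' ht' hmem
    exact htop ⟨hq, s, t, t', hst.symm, ht', hmem⟩
  have hcont : Continuous (fun u : ℝ => E.e (s, u)) :=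
    E.emb.continuous.comp (by fun_prop)
  have hten : Tendsto (fun u : ℝ => E.e (s, u)) (𝓝[>] t) (𝓝 q) := by
    rw [← hst]
    exact (hcont.tendsto t).mono_left nhdsWithin_le_nhds
  apply mem_closure_of_tendsto hten
  filter_upwards [self_mem_nhdsWithin] with u hu
  exact Or.inr ⟨s, u, rfl, fun t' ht' => hno t' (lt_of_lt_of_le hu ht')⟩

end X_top_closure

alias top_closure := X_top_closure.top_closure

end AltGenus
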