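import Pool.Agent.AltGenus.ChartDefs
import Pool.Agent.AltGenus.P_near_top
import Pool.Agent.AltGenus.P_top_closure

open Set Topology Filter

namespace AltGenus

namespace X_exists_W
theorem exists_W {g n : ℕ} {H : Heegaard g} (E : Collar H) (D : Diagram E (Lset n))
    (a : Fin n → ℝ) (Z : S3 → ℝ) (hZ : FlatOn a (kap n) (Rp E (Lset n)) Z) :
    ∃ W : S3 → ℝ,
      (∀ q ∈ Lset n, ¬ E.Under (Lset n) q →
        ∀ᶠ v in 𝓝[Rp E (Lset n)] q, (Z v - colour a (kap n q).2) ^ 2 = W q) ∧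
      (∀ q ∈ Lset n, ¬ E.Under (Lset n) q → ∀ᶠ q' in 𝓝[Lset n] q, W q' = W q) := by
  classical
  let Q : S3 → ℝ → Prop := fun q c =>
    ∀ᶠ v in 𝓝[Rp E (Lset n)] q, (Z v - colour a (kap n q).2) ^ 2 = c
  have huniq : ∀ q ∈ Lset n, ¬ E.Under (Lset n) q → ∀ c c' : ℝ, Q q c → Q q c' → c = c' := by
    intro q hq htop c c' h1 h2
    have hcl := top_closure E D q hq htop
    have hne : (𝓝[Rp E (Lset n)] q).NeBot := mem_closure_iff_nhdsWithin_neBot.mp hcl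
    obtain ⟨v, hv1, hv2⟩ := (h1.and h2).exists
    rw [← hv1, ← hv2]
  let W : S3 → ℝ := fun q => if h : ∃ c, Q q c then h.choose else 0
  have hW : ∀ q ∈ Lset n, ¬ E.Under (Lset n) q → ∀ c, Q q c → W q = c := by
    intro q hq htop c hc
    have hex : ∃ c, Q q c := ⟨c, hc⟩
    have h1 : W q = hex.choose := dif_pos hex
    rw [h1]
    exact huniq q hq htop _ _ hex.choose_spec hc
  have key : ∀ q ∈ Lset n, ¬ E.Under (Lset n) q → ∃ (U : Set S3) (c : ℝ), IsOpen U ∧ q ∈ U ∧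
      ∀ q' ∈ Lset n ∩ U, ¬ E.Under (Lset n) q' ∧ Q q' c := by
    intro q hq htop
    obtain ⟨i, hi⟩ := hq
    have hq : q ∈ Lset n := ⟨i, hi⟩
    obtain ⟨U, hU, hqU, hpre, hnear, hL⟩ := near_top E D i q hi htop
    have hcl := top_closure E D q hq htop
    obtain ⟨v0, hv0U, hv0R⟩ := mem_closure_iff.mp hcl U hU hqU
    refine ⟨U, (Z v0 - a i) ^ 2, hU, hqU, fun q' hq' => ?_⟩
    obtain ⟨h1, h2⟩ := hL q' hq'
    refine ⟨h1, ?_⟩
    have h3 : U ∈ 𝓝[Rp E (Lset n)] q' := mem_nhdsWithin_of_mem_nhds (hU.mem_nhds hq'.2)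
    show ∀ᶠ v in 𝓝[Rp E (Lset n)] q', (Z v - colour a (kap n q').2) ^ 2 = (Z v0 - a i) ^ 2
    rw [h2]
    filter_upwards [h3, self_mem_nhdsWithin] with v hvU hvR
    rw [colour_self]
    exact (hZ.mono inter_subset_right).sq_near hpre i (fun y hy => hnear y hy.1)
      ⟨hvU, hvR⟩ ⟨hv0U, hv0R⟩
  refine ⟨W, ?_, ?_⟩
  · intro q hq htop
    obtain ⟨U, c, hU, hqU, hall⟩ := key q hq htop
    have h1 := (hall q ⟨hq, hqU⟩).2
    rw [hW q hq htop c h1]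
    exact h1
  · intro q hq htop
    obtain ⟨U, c, hU, hqU, hall⟩ := key q hq htop
    have h1 := (hall q ⟨hq, hqU⟩).2
    have h3 : U ∈ 𝓝[Lset n] q := mem_nhdsWithin_of_mem_nhds (hU.mem_nhds hqU)
    filter_upwards [h3, self_mem_nhdsWithin] with q' hq'U hq'L
    obtain ⟨h4, h5⟩ := hall q' ⟨hq'L, hq'U⟩
    rw [hW q hq htop c h1, hW q' hq'L h4 c h5]

end X_exists_W

alias exists_W := X_exists_W.exists_W

end AltGenus
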