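import Pool.Agent.AltGenus.ChartDefs
import Pool.Agent.AltGenus.P_lift_homotopy
import Pool.Agent.AltGenus.P_HB_connected
import Pool.Agent.AltGenus.P_push_continuous

open Set Topology Filter

namespace AltGenus

theorem FlatOn.congr_phi {n : ℕ} {Y : Type*} [TopologicalSpace Y] {a : Fin n → ℝ}
    {φ ψ : Y → ℝ × ℝ} {A : Set Y} {f : Y → ℝ}
    (hf : FlatOn a φ A f) (h : EqOn φ ψ A) : FlatOn a ψ A f := by
  intro y hy
  filter_upwards [hf y hy, self_mem_nhdsWithin] with y' h1 h2
  rw [← h h2, ← h hy, h1]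

theorem Sig_sub_Wp {g : ℕ} (H : Heegaard g) : H.Sig ⊆ H.Wp := by
  rw [← H.inter]; exact inter_subset_left

theorem frontier_sub_HB (g : ℕ) : frontier (HB g) ⊆ HB g :=
  (HB_connected g).2.2.isClosed.frontier_subset

theorem Sig_compact {g : ℕ} (H : Heegaard g) : IsCompact H.Sig := by
  have hc : IsCompact ((fun v : HB g => (H.hp v : S3)) '' {v : HB g | (v : (ℝ × ℝ) × ℝ) ∈ frontier (HB g)}) := by
    haveI : CompactSpace (HB g) := isCompact_iff_compactSpace.1 (HB_connected g).2.2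
    apply IsCompact.image
    · apply IsClosed.isCompact
      exact isClosed_frontier.preimage continuous_subtype_val
    · exact continuous_subtype_val.comp H.hp.continuous
  have he : (fun v : HB g => (H.hp v : S3)) '' {v : HB g | (v : (ℝ × ℝ) × ℝ) ∈ frontier (HB g)} = H.Sig := by
    ext s
    constructor
    · rintro ⟨v, hv, rfl⟩
      exact (H.hp_mem v).2 hv
    · intro hs
      refine ⟨H.hp.symm ⟨s, Sig_sub_Wp H hs⟩, ?_, ?_⟩
      · show _ ∈ frontier (HB g)
        rw [← H.hp_mem]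
        simpa using hs
      · simp
  rwa [he] at hc

theorem top_mem_frontier {g : ℕ} {p : ℝ × ℝ} (hp : p ∈ PS g) : (p, (1 : ℝ)) ∈ frontier (HB g) := by
  rw [frontier, mem_diff]
  constructor
  · apply subset_closure
    exact ⟨hp, by simp⟩
  · unfold HB
    rw [interior_prod_eq, interior_Icc]
    rintro ⟨_, h2⟩
    exact lt_irrefl _ h2.2

theorem zero_mem_PS (g : ℕ) : ((0 : ℝ), (0 : ℝ)) ∈ PS g := by
  refine ⟨le_refl _, by positivity, le_refl _, by norm_num, ?_⟩
  intro j _ h
  have : (0 : ℝ) ≤ j := Nat.cast_nonneg j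
  simp only at h
  linarith [h.1]

theorem ext_handlebody {g n : ℕ} {H : Heegaard g} (E : Collar H) (a : Fin n → ℝ)
    (φ : S3 → ℝ × ℝ) (hφ : Continuous φ) (T : ℝ) (hT : 0 < T)
    (hav : ∀ v, ((v ∈ H.Wp ∧ v ∉ range E.e) ∨ ∃ s t, T < t ∧ v = E.e (s, t)) →
      ∀ i : Fin n, φ v ≠ (0, (i : ℝ)))
    (f : S3 → ℝ) (hf : FlatOn a φ {v | ∃ s t, T < t ∧ v = E.e (s, t)} f) :
    ∃ G : S3 → ℝ,
      FlatOn a φ {v | (v ∈ H.Wp ∧ v ∉ range E.e) ∨ ∃ s t, T < t ∧ v = E.e (s, t)} G ∧
      ∀ s t, T < t → G (E.e (s, t)) = f (E.e (s, t)) := by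
  classical
  have hinj : Function.Injective E.e := E.emb.injective
  have hec : Continuous E.e := E.emb.continuous
  set T₁ : ℝ := T + 1 with hT₁
  -- the push
  obtain ⟨M, hM1, hM2⟩ : ∃ M : unitInterval × S3 → S3,
      (∀ τ s t, M (τ, E.e (s, t)) = E.e (s, max t T₁)) ∧ ∀ τ v, v ∉ range E.e → M (τ, v) = v := by
    refine ⟨fun p => if h : p.2 ∈ range E.e then E.e (h.choose.1, max h.choose.2 T₁) else p.2,
      ?_, ?_⟩
    · intro τ s t
      have h : E.e (s, t) ∈ range E.e := ⟨_, rfl⟩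
      have h2 : h.choose = (s, t) := hinj h.choose_spec
      simp only [dif_pos h]
      rw [h2]
    · intro τ v hv
      simp only [dif_neg hv]
  have hMc : ContinuousOn M {p | p.2 ∈ H.Wp ∨ p.2 ∈ range E.e} :=
    push_continuous E (fun q => max q.2 T₁) (by fun_prop) T₁
      (fun τ t ht => by simp [ht]) M hM1 hM2
  set P : S3 → S3 := fun v => M (0, v) with hPdef
  have hP1 : ∀ s t, P (E.e (s, t)) = E.e (s, max t T₁) := fun s t => hM1 0 s t
  have hP2 : ∀ v, v ∉ range E.e → P v = v := fun v hv => hM2 0 v hv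
  have hPc : ContinuousOn P H.Wp := by
    have h1 : ContinuousOn (fun v : S3 => ((0 : unitInterval), v)) H.Wp := by fun_prop
    exact hMc.comp h1 (fun v hv => Or.inl hv)
  have hPR : ∀ v ∈ H.Wp, (P v ∈ H.Wp ∧ P v ∉ range E.e) ∨ ∃ s t, T < t ∧ P v = E.e (s, t) := by
    intro v hv
    by_cases h : v ∈ range E.e
    · right
      obtain ⟨⟨s, t⟩, rfl⟩ := h
      refine ⟨s, max t T₁, ?_, hP1 s t⟩
      exact lt_of_lt_of_le (by linarith) (le_max_right _ _)
    · left
      rw [hP2 v h]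
      exact ⟨hv, h⟩
  -- the map Q
  set Q : HB g → S3 := fun v => P (H.hp v) with hQdef
  have hQc : Continuous Q := by
    apply hPc.comp_continuous (continuous_subtype_val.comp H.hp.continuous)
    intro v
    exact (H.hp v).2
  have hQfr : ∀ v : HB g, (v : (ℝ × ℝ) × ℝ) ∈ frontier (HB g) →
      ∃ s : H.Sig, (s : S3) = H.hp v ∧ Q v = E.e (s, T₁) := by
    intro v hv
    have hs : (H.hp v : S3) ∈ H.Sig := (H.hp_mem v).2 hv
    refine ⟨⟨H.hp v, hs⟩, rfl, ?_⟩
    have h1 := E.zero ⟨H.hp v, hs⟩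
    have h2 := hP1 ⟨H.hp v, hs⟩ 0
    rw [h1] at h2
    simp only [hQdef]
    rw [h2, max_eq_right (by linarith)]
  set Fr : Set (HB g) := {v | (v : (ℝ × ℝ) × ℝ) ∈ frontier (HB g)} with hFr
  have hfb : FlatOn a (φ ∘ Q) Fr (f ∘ Q) := by
    apply hf.comp hQc.continuousOn
    intro v hv
    obtain ⟨s, _, h2⟩ := hQfr v hv
    exact ⟨s, T₁, by linarith, h2⟩
  -- the homotopy
  set j : unitInterval × PS g → HB g := fun q =>
    ⟨(q.2, (unitInterval.symm q.1 : ℝ)), q.2.2, (unitInterval.symm q.1).2⟩ with hj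
  have hjc : Continuous j := by
    apply Continuous.subtype_mk
    fun_prop
  set k : HB g → unitInterval × PS g := fun v =>
    (unitInterval.symm ⟨v.1.2, v.2.2⟩, ⟨v.1.1, v.2.1⟩) with hk
  have hkc : Continuous k := by
    apply Continuous.prodMk
    · apply unitInterval.continuous_symm.comp
      apply Continuous.subtype_mk
      fun_prop
    · apply Continuous.subtype_mk
      fun_prop
  have hjk : ∀ v, j (k v) = v := by
    intro v
    apply Subtype.ext
    simp only [hj, hk, unitInterval.symm_symm]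
  have hj0 : ∀ p : PS g, j (0, p) ∈ Fr := by
    intro p
    have h := top_mem_frontier p.2
    simpa [hFr, hj] using h
  have hj0c : Continuous (fun p : PS g => j (0, p)) := by fun_prop
  obtain ⟨F, hF1, hF2⟩ := lift_homotopy a (fun q : unitInterval × PS g => φ (Q (j q)))
    (by fun_prop)
    (by
      intro q i
      exact hav _ (hPR _ (H.hp (j q)).2) i)
    (fun p => f (Q (j (0, p))))
    (hfb.comp (B := univ) hj0c.continuousOn (fun p _ => hj0 p))
  -- G0
  set G₀ : HB g → ℝ := F ∘ k with hG₀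
  have hG₀f : FlatOn a (φ ∘ Q) univ G₀ := by
    have h1 := hF1.comp (B := univ) hkc.continuousOn (fun p _ => mem_univ _)
    refine FlatOn.congr_phi h1 ?_
    intro v _
    simp only [Function.comp]
    rw [hjk]
  have hFrconn : IsPreconnected Fr := by
    have h1 : (Subtype.val '' Fr) = frontier (HB g) := by
      ext v
      constructor
      · rintro ⟨w, hw, rfl⟩
        exact hw
      · intro hv
        exact ⟨⟨v, frontier_sub_HB g hv⟩, hv, rfl⟩
    have h2 := (HB_connected g).2.1.isPreconnected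
    rw [← h1] at h2
    exact (Topology.IsInducing.subtypeVal.isPreconnected_image).1 h2
  have hG₀b : EqOn G₀ (f ∘ Q) Fr := by
    have p₀ : PS g := ⟨(0, 0), zero_mem_PS g⟩
    refine FlatOn.eqOn (hG₀f.mono (subset_univ _)) hfb hFrconn (hj0 p₀) ?_
    have h1 : k (j (0, p₀)) = (0, p₀) := by
      simp [hj, hk]
    simp only [hG₀, Function.comp]
    rw [h1, hF2]
  -- G'
  set G' : S3 → ℝ := fun v => if h : v ∈ H.Wp then G₀ (H.hp.symm ⟨v, h⟩) else 0 with hG'
  have hG'f : FlatOn a (φ ∘ P) H.Wp G' := by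
    intro v hv
    rw [nhdsWithin_eq_map_subtype_coe hv, eventually_map]
    have h1 := hG₀f.comp (B := univ) H.hp.symm.continuous.continuousOn (fun p _ => mem_univ _)
      ⟨v, hv⟩ (mem_univ _)
    rw [nhdsWithin_univ] at h1
    filter_upwards [h1] with w hw
    have h2 : G' w = G₀ (H.hp.symm w) := by
      simp only [hG', dif_pos w.2]
    have h3 : G' v = G₀ (H.hp.symm ⟨v, hv⟩) := by
      simp only [hG', dif_pos hv]
    rw [h2, h3]
    simpa [hQdef] using hw
  have hG'S : ∀ s : H.Sig, G' s = f (E.e (s, T₁)) := by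
    intro s
    have hs : (s : S3) ∈ H.Wp := Sig_sub_Wp H s.2
    have h1 : H.hp.symm ⟨s, hs⟩ ∈ Fr := by
      show _ ∈ frontier (HB g)
      rw [← H.hp_mem]
      simp
    have h3 : G' s = G₀ (H.hp.symm ⟨s, hs⟩) := by
      simp only [hG', dif_pos hs]
    rw [h3, hG₀b h1]
    obtain ⟨s', h4, h5⟩ := hQfr _ h1
    simp only [Function.comp]
    have hss : s' = s := Subtype.ext (by rw [h4]; simp)
    rw [h5, hss]
  have hvc : ∀ s : H.Sig, Continuous (fun t : ℝ => E.e (s, t)) := fun s =>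
    hec.comp (by fun_prop)
  have hG'T : ∀ s : H.Sig, G' (E.e (s, T₁)) = f (E.e (s, T₁)) := by
    intro s
    have h1 : FlatOn a ((φ ∘ P) ∘ fun t : ℝ => E.e (s, t)) (Icc 0 T₁) (G' ∘ fun t : ℝ => E.e (s, t)) :=
      hG'f.comp (hvc s).continuousOn (fun t ht => E.pos s t ht.1)
    have h2 : FlatOn a ((φ ∘ P) ∘ fun t : ℝ => E.e (s, t)) (Icc 0 T₁) (fun _ => G' s) := by
      intro t ht
      filter_upwards [self_mem_nhdsWithin] with t' ht'
      have e1 : ∀ u ∈ Icc 0 T₁, ((φ ∘ P) ∘ fun t : ℝ => E.e (s, t)) u = φ (E.e (s, T₁)) := by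
        intro u hu
        simp only [Function.comp]
        rw [hP1, max_eq_right hu.2]
      rw [e1 t ht, e1 t' ht', jump_self]
    have h0 : (0 : ℝ) ∈ Icc 0 T₁ := ⟨le_refl _, by linarith⟩
    have h1' : T₁ ∈ Icc 0 T₁ := ⟨by linarith, le_refl _⟩
    have h3 := h1.eqOn h2 isPreconnected_Icc h0 (by simp [E.zero]) h1'
    simp only [Function.comp] at h3
    rw [h3, hG'S]
  have hG'U : ∀ (s : H.Sig) (t : ℝ), T₁ ≤ t → G' (E.e (s, t)) = f (E.e (s, t)) := by
    intro s t ht
    have h1 : FlatOn a ((φ ∘ P) ∘ fun t : ℝ => E.e (s, t)) (Ici T₁) (G' ∘ fun t : ℝ => E.e (s, t)) :=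
      hG'f.comp (hvc s).continuousOn (fun t ht => E.pos s t (by
        have : T₁ ≤ t := ht
        linarith))
    have h2 : FlatOn a (φ ∘ fun t : ℝ => E.e (s, t)) (Ici T₁) (f ∘ fun t : ℝ => E.e (s, t)) :=
      hf.comp (hvc s).continuousOn (fun t ht => ⟨s, t, by
        have : T₁ ≤ t := ht
        linarith, rfl⟩)
    have h3 : FlatOn a (φ ∘ fun t : ℝ => E.e (s, t)) (Ici T₁) (G' ∘ fun t : ℝ => E.e (s, t)) := by
      refine h1.congr_phi ?_
      intro u hu
      simp only [Function.comp]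
      rw [hP1, max_eq_left hu]
    exact h3.eqOn h2 isPreconnected_Ici (mem_Ici.2 (le_refl T₁)) (hG'T s) (mem_Ici.2 ht)
  -- the final function
  refine ⟨fun v => if v ∈ range E.e then f v else G' v, ?_, ?_⟩
  · rintro v (⟨hv1, hv2⟩ | ⟨s, t, ht, rfl⟩)
    · -- off the range
      haveI : CompactSpace H.Sig := isCompact_iff_compactSpace.1 (Sig_compact H)
      have hK : IsClosed (E.e '' (univ ×ˢ Icc 0 T₁)) :=
        ((isCompact_univ.prod isCompact_Icc).image hec).isClosed
      have hvK : v ∉ E.e '' (univ ×ˢ Icc 0 T₁) := by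
        rintro ⟨w, _, rfl⟩
        exact hv2 ⟨w, rfl⟩
      have hnear : ∀ᶠ v' in 𝓝 v, v' ∉ E.e '' (univ ×ˢ Icc 0 T₁) :=
        hK.isOpen_compl.mem_nhds hvK
      have h1 := hG'f v hv1
      rw [nhdsWithin, eventually_inf_principal] at h1
      rw [nhdsWithin, eventually_inf_principal]
      filter_upwards [h1, hnear] with v' h2 h3 h4
      have hPv : P v = v := hP2 v hv2
      rcases h4 with ⟨h5, h6⟩ | ⟨s, t, ht, rfl⟩
      · have h7 := h2 h5
        simp only [Function.comp] at h7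
        rw [hPv, hP2 v' h6] at h7
        simp only [if_neg hv2, if_neg h6]
        exact h7
      · have h8 : T₁ < t := by
          by_contra h9
          push_neg at h9
          exact h3 ⟨(s, t), ⟨mem_univ _, by linarith, h9⟩, rfl⟩
        have h7 := h2 (E.pos s t (by linarith))
        simp only [Function.comp] at h7
        rw [hPv, hP1, max_eq_left h8.le, hG'U s t h8.le] at h7
        simp only [if_neg hv2, if_pos (mem_range_self (s, t))]
        exact h7
    · have hopen : IsOpen {v | ∃ s t, T < t ∧ v = E.e (s, t)} := by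
        have h1 : {v | ∃ s t, T < t ∧ v = E.e (s, t)} = E.e '' (univ ×ˢ Ioi T) := by
          ext v
          constructor
          · rintro ⟨s, t, ht, rfl⟩
            exact ⟨(s, t), ⟨mem_univ _, ht⟩, rfl⟩
          · rintro ⟨⟨s, t⟩, ⟨_, ht⟩, rfl⟩
            exact ⟨s, t, ht, rfl⟩
        rw [h1]
        exact E.emb.isOpenMap _ (isOpen_univ.prod isOpen_Ioi)
      have hmem : E.e (s, t) ∈ {v | ∃ s t, T < t ∧ v = E.e (s, t)} := ⟨s, t, ht, rfl⟩
      have h1 := hf _ hmem
      rw [hopen.nhdsWithin_eq hmem] at h1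
      apply mem_nhdsWithin_of_mem_nhds
      filter_upwards [h1, hopen.mem_nhds hmem] with v' h2 h3
      have h4 : v' ∈ range E.e := by
        obtain ⟨s', t', _, rfl⟩ := h3
        exact ⟨_, rfl⟩
      show (if v' ∈ range E.e then f v' else G' v') = _
      rw [if_pos h4, if_pos (mem_range_self (s, t))]
      exact h2
  · intro s t _
    simp only [if_pos (mem_range_self (s, t))]



end AltGenus
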