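import Pool.Agent.AltGenus.ChartDefs
import Pool.Agent.AltGenus.P_ext_handlebody
import Pool.Agent.AltGenus.P_height_bound
import Pool.Agent.AltGenus.P_Rp_facts

open Set Topology Filter

namespace AltGenus

namespace X_ext_all
theorem xa_PS_compact (g : ℕ) : IsCompact (PS g) := by
  apply Metric.isCompact_of_isClosed_isBounded
  · have h1 : IsClosed {v : ℝ × ℝ | 0 ≤ v.1} := isClosed_le continuous_const continuous_fst
    have h2 : IsClosed {v : ℝ × ℝ | v.1 ≤ 2 * g + 1} := isClosed_le continuous_fst continuous_const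
    have h3 : IsClosed {v : ℝ × ℝ | 0 ≤ v.2} := isClosed_le continuous_const continuous_snd
    have h4 : IsClosed {v : ℝ × ℝ | v.2 ≤ 3} := isClosed_le continuous_snd continuous_const
    have h5 : IsClosed {v : ℝ × ℝ | ∀ j : ℕ, j < g →
      ¬ (2 * (j : ℝ) + 1 < v.1 ∧ v.1 < 2 * (j : ℝ) + 2 ∧ 1 < v.2 ∧ v.2 < 2)} := by
      simp only [setOf_forall]
      apply isClosed_iInter
      intro j
      apply isClosed_iInter
      intro _
      have : IsOpen {v : ℝ × ℝ | 2 * (j : ℝ) + 1 < v.1 ∧ v.1 < 2 * (j : ℝ) + 2 ∧ 1 < v.2 ∧ v.2 < 2} := by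
        refine (isOpen_lt continuous_const continuous_fst).inter
          ((isOpen_lt continuous_fst continuous_const).inter
          ((isOpen_lt continuous_const continuous_snd).inter
          (isOpen_lt continuous_snd continuous_const)))
      exact this.isClosed_compl
    exact h1.inter (h2.inter (h3.inter (h4.inter h5)))
  · apply (Metric.isBounded_Icc ((0:ℝ), (0:ℝ)) (2 * (g:ℝ) + 1, 3)).subset
    intro v hv
    obtain ⟨h1, h2, h3, h4, -⟩ := hv
    exact ⟨⟨h1, h3⟩, ⟨h2, h4⟩⟩

theorem xa_Wp_closed {g : ℕ} (H : Heegaard g) : IsClosed H.Wp := by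
  have h1 : IsCompact (HB g) := (xa_PS_compact g).prod isCompact_Icc
  haveI : CompactSpace (HB g) := isCompact_iff_compactSpace.1 h1
  haveI : CompactSpace H.Wp := H.hp.compactSpace
  exact (isCompact_iff_compactSpace.2 inferInstance : IsCompact H.Wp).isClosed

theorem xa_Wm_closed {g : ℕ} (H : Heegaard g) : IsClosed H.Wm := xa_Wp_closed H.flip

theorem xa_Sig_compact {g : ℕ} (H : Heegaard g) : IsCompact H.Sig := by
  rw [← H.inter]
  exact ((xa_Wp_closed H).inter (xa_Wm_closed H)).isCompact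

theorem xa_kap_cont (n : ℕ) : Continuous (kap n) := by
  unfold kap
  fun_prop

theorem xa_Lset_closed (n : ℕ) : IsClosed (Lset n) := by
  have : Lset n = ⋃ i : Fin n, kap n ⁻¹' {(0, (i : ℝ))} := by
    ext v
    simp [Lset]
  rw [this]
  exact isClosed_iUnion_of_finite (fun i => isClosed_singleton.preimage (xa_kap_cont n))

theorem ext_all {g n : ℕ} {H : Heegaard g} (E : Collar H) (hL : Lset n ⊆ range E.e)
    (a : Fin n → ℝ) (F : S3 → ℝ)
    (hF : FlatOn a (kap n) {v | (v ∈ H.Wp ∨ v ∈ range E.e) ∧ v ∉ Lset n} F) :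
    ∃ G : S3 → ℝ, FlatOn a (kap n) (Lset n)ᶜ G ∧
      ∀ v, (v ∈ H.Wp ∨ v ∈ range E.e) → v ∉ Lset n → G v = F v := by
  classical
  obtain ⟨T, hT, hTL⟩ := height_bound E (Lset n) (xa_Lset_closed n) hL
  have hrange : ∀ v, v ∈ range E.flip.e ↔ v ∈ range E.e := by
    intro v
    constructor
    · rintro ⟨⟨s, t⟩, rfl⟩
      exact ⟨(s, -t), rfl⟩
    · rintro ⟨⟨s, t⟩, rfl⟩
      refine ⟨(s, -t), ?_⟩
      show E.e (s, - -t) = E.e (s, t)
      rw [neg_neg]
  obtain ⟨G₀, hG₀, hG₀e⟩ := ext_handlebody E.flip a (kap n) (xa_kap_cont n) T hT (by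
    intro v hv i hi
    have hvL : v ∈ Lset n := ⟨i, hi⟩
    rcases hv with ⟨_, h2⟩ | ⟨s, t, ht, rfl⟩
    · exact h2 ((hrange v).2 (hL hvL))
    · have h3 := hTL s (-t) hvL
      rw [abs_neg, abs_of_pos (hT.trans ht)] at h3
      linarith) F (hF.mono (by
    rintro v ⟨s, t, ht, rfl⟩
    refine ⟨Or.inr ⟨(s, -t), rfl⟩, fun hvL => ?_⟩
    have h3 := hTL s (-t) hvL
    rw [abs_neg, abs_of_pos (hT.trans ht)] at h3
    linarith))
  set B : Set S3 := {v | (v ∈ H.flip.Wp ∧ v ∉ range E.flip.e) ∨ ∃ s t, T < t ∧ v = E.flip.e (s, t)}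
    with hB
  -- points of `Wp` in range or not
  have hSigr : ∀ v, v ∈ H.Wp → v ∈ H.Wm → ∃ s : H.Sig, v = E.e (s, 0) := by
    intro v h1 h2
    have h3 : v ∈ H.Sig := by rw [← H.inter]; exact ⟨h1, h2⟩
    exact ⟨⟨v, h3⟩, (E.zero ⟨v, h3⟩).symm⟩
  have hBc : Bᶜ = H.Wp ∪ E.e '' (univ ×ˢ Icc (-T) 0) := by
    ext v
    constructor
    · intro hv
      by_cases hp : v ∈ H.Wp
      · exact Or.inl hp
      · right
        have hm : v ∈ H.Wm := by
          have : v ∈ H.Wp ∪ H.Wm := by rw [H.union]; trivial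
          exact this.resolve_left hp
        by_cases hr : v ∈ range E.e
        · obtain ⟨⟨s, t⟩, rfl⟩ := hr
          refine ⟨(s, t), ⟨trivial, ?_, ?_⟩, rfl⟩
          · by_contra hlt
            push Not at hlt
            apply hv
            right
            refine ⟨s, -t, ?_, ?_⟩
            · simp only at hlt; linarith
            · show E.e (s, t) = E.e (s, - -t)
              rw [neg_neg]
          · by_contra hlt
            push Not at hlt
            exact hp (E.pos s t hlt.le)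
        · exfalso
          apply hv
          left
          exact ⟨hm, fun h => hr ((hrange v).1 h)⟩
    · intro hv hvB
      rcases hv with hp | ⟨⟨s, t⟩, ⟨-, ht1, ht2⟩, rfl⟩
      · rcases hvB with ⟨hm, hr⟩ | ⟨s, t, ht, rfl⟩
        · obtain ⟨s, hs⟩ := hSigr v hp hm
          exact hr ((hrange v).2 ⟨(s, 0), hs.symm⟩)
        · have hm : E.e (s, -t) ∈ H.Wm := E.neg s (-t) (by linarith)
          obtain ⟨s', hs'⟩ := hSigr _ hp hm
          have h4 : (s, -t) = (s', (0:ℝ)) := E.emb.injective hs'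
          have h5 : -t = 0 := congrArg Prod.snd h4
          linarith
      · rcases hvB with ⟨hm, hr⟩ | ⟨s', t', ht', h⟩
        · exact hr ((hrange _).2 ⟨(s, t), rfl⟩)
        · have h4 : (s, t) = (s', -t') := E.emb.injective h
          have h5 : t = -t' := congrArg Prod.snd h4
          simp only at ht1
          linarith
  have hBo : IsOpen B := by
    rw [← isClosed_compl_iff, hBc]
    apply (xa_Wp_closed H).union
    haveI : CompactSpace H.Sig := isCompact_iff_compactSpace.1 (xa_Sig_compact H)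
    exact ((isCompact_univ.prod isCompact_Icc).image E.emb.continuous).isClosed
  have hOo : IsOpen {v | (v ∈ H.Wp ∨ v ∈ range E.e) ∧ v ∉ Lset n} :=
    (Rp_facts E hL).2.2.1.inter (xa_Lset_closed n).isOpen_compl
  refine ⟨fun v => if v ∈ H.Wp ∨ v ∈ range E.e then F v else G₀ v, ?_, ?_⟩
  · have h1 : FlatOn a (kap n) B (fun v => if v ∈ H.Wp ∨ v ∈ range E.e then F v else G₀ v) := by
      apply hG₀.congr
      intro v hv
      show G₀ v = if v ∈ H.Wp ∨ v ∈ range E.e then F v else G₀ v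
      rcases hv with ⟨hm, hr⟩ | ⟨s, t, ht, rfl⟩
      · rw [if_neg]
        rintro (hp | hr')
        · obtain ⟨s, hs⟩ := hSigr v hp hm
          exact hr ((hrange v).2 ⟨(s, 0), hs.symm⟩)
        · exact hr ((hrange v).2 hr')
      · rw [if_pos (Or.inr ⟨(s, -t), rfl⟩)]
        exact hG₀e s t ht
    have h2 : FlatOn a (kap n) {v | (v ∈ H.Wp ∨ v ∈ range E.e) ∧ v ∉ Lset n}
        (fun v => if v ∈ H.Wp ∨ v ∈ range E.e then F v else G₀ v) := by
      apply hF.congr
      intro v hv
      show F v = if v ∈ H.Wp ∨ v ∈ range E.e then F v else G₀ v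
      rw [if_pos hv.1]
    apply (h1.union_open h2 hBo hOo).mono
    intro v hv
    by_cases h : v ∈ H.Wp ∨ v ∈ range E.e
    · exact Or.inr ⟨h, hv⟩
    · left; left
      push Not at h
      refine ⟨?_, fun hr => h.2 ((hrange v).1 hr)⟩
      have : v ∈ H.Wp ∪ H.Wm := by rw [H.union]; trivial
      exact this.resolve_left h.1
  · intro v h1 _
    show (if v ∈ H.Wp ∨ v ∈ range E.e then F v else G₀ v) = F v
    rw [if_pos h1]

end X_ext_all

alias ext_all := X_ext_all.ext_all

end AltGenus
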