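import Pool.Agent.AltGenus.ChartDefs

open Set Topology Filter

namespace AltGenus

namespace X_flat_extend
theorem flat_extend {n : ℕ} (a : Fin n → ℝ) {Y : Type} [TopologicalSpace Y] (φ : Y → ℝ × ℝ)
    (O R : Set Y) (hO : IsOpen O) (hR : IsOpen R) (hRO : R ⊆ O) (hd : O ⊆ closure R)
    (Z : Y → ℝ) (hZ : FlatOn a φ R Z)
    (hloc : ∀ y ∈ O, y ∉ R → ∃ (W : Set Y) (g : Y → ℝ), IsOpen W ∧ y ∈ W ∧ W ⊆ O ∧
      FlatOn a φ W g ∧ ∀ z ∈ W ∩ R, g z = Z z) :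
    ∃ F : Y → ℝ, FlatOn a φ O F ∧ ∀ z ∈ R, F z = Z z := by
  classical
  choose! W g hW using hloc
  obtain ⟨F, hF⟩ : ∃ F : Y → ℝ, ∀ z, F z = if z ∈ R then Z z else g z z := ⟨_, fun _ => rfl⟩
  have hFR : ∀ z ∈ R, F z = Z z := fun z hz => by rw [hF, if_pos hz]
  have key : ∀ y ∈ O, y ∉ R → ∀ z ∈ W y, F z = g y z := by
    intro y hy hyR z hz
    obtain ⟨h1, h2, h3, h4, h5⟩ := hW y hy hyR
    by_cases hzR : z ∈ R
    · rw [hFR z hzR]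
      exact (h5 z ⟨hz, hzR⟩).symm
    · obtain ⟨k1, k2, k3, k4, k5⟩ := hW z (h3 hz) hzR
      rw [hF, if_neg hzR]
      have e1 := k4 z k2
      rw [k1.nhdsWithin_eq k2] at e1
      have e2 := h4 z hz
      rw [h1.nhdsWithin_eq hz] at e2
      have e3 : ∃ᶠ x in 𝓝 z, x ∈ R := mem_closure_iff_frequently.1 (hd (h3 hz))
      have m1 : ∀ᶠ x in 𝓝 z, x ∈ W z := k1.mem_nhds k2
      have m2 : ∀ᶠ x in 𝓝 z, x ∈ W y := h1.mem_nhds hz
      obtain ⟨x, hxR, hx1, hx2, hx3, hx4⟩ :=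
        (e3.and_eventually (e1.and (e2.and (m1.and m2)))).exists
      rw [k5 x ⟨hx3, hxR⟩] at hx1
      rw [h5 x ⟨hx4, hxR⟩] at hx2
      exact jump_inj (hx1.symm.trans hx2)
  refine ⟨F, ?_, hFR⟩
  intro y hy
  rw [hO.nhdsWithin_eq hy]
  by_cases hyR : y ∈ R
  · have e1 := hZ y hyR
    rw [hR.nhdsWithin_eq hyR] at e1
    filter_upwards [e1, hR.mem_nhds hyR] with x hx1 hx2
    rw [hFR x hx2, hFR y hyR, hx1]
  · obtain ⟨h1, h2, h3, h4, h5⟩ := hW y hy hyR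
    have e1 := h4 y h2
    rw [h1.nhdsWithin_eq h2] at e1
    filter_upwards [e1, h1.mem_nhds h2] with x hx1 hx2
    rw [key y hy hyR x hx2, key y hy hyR y h2, hx1]

end X_flat_extend

alias flat_extend := X_flat_extend.flat_extend

end AltGenus
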