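import Pool.Agent.AltGenus.ChartDefs
import Pool.Agent.AltGenus.P_vert_contractible
import Pool.Agent.AltGenus.P_exists_flatOn
import Pool.Agent.AltGenus.P_pass_strand

open Set Topology Filter

namespace AltGenus

namespace X_low_ext
theorem low_ext {n : ℕ} (a : Fin n → ℝ) (ψ : ℝ × ℝ × ℝ → ℝ × ℝ) (hψ : Continuous ψ)
    (h₁ h₂ : ℝ → ℝ) (hc₁ : Continuous h₁) (hc₂ : Continuous h₂) (h21 : h₂ 0 < h₁ 0)
    (hΛ : ∀ x y t, (∃ i : Fin n, ψ (x, y, t) = (0, (i : ℝ))) ↔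
      (y = 0 ∧ t = h₁ x) ∨ (x = 0 ∧ t = h₂ y))
    (Z : ℝ × ℝ × ℝ → ℝ) (hZ : FlatOn a ψ (UpR h₁ h₂) Z)
    (hnear : ∀ (i : Fin n) (q : ℝ × ℝ × ℝ), ψ q = (0, (i : ℝ)) →
      (∀ t, q.2.2 < t → (q.1, q.2.1, t) ∈ UpR h₁ h₂) →
      ∀ᶠ v in 𝓝 q, v ∈ UpR h₁ h₂ → Z v = a i) :
    ∃ g : ℝ × ℝ × ℝ → ℝ, FlatOn a ψ (LowR h₁ h₂) g ∧ ∀ v ∈ UpR h₁ h₂ ∩ LowR h₁ h₂, g v = Z v := by
  have hcontr : ContractibleSpace (LowR h₁ h₂) := by
    apply vert_contractible Set.univ convex_univ Set.univ_nonempty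
      (fun p => -(max |h₁ p.1| |h₂ p.2|) - 1)
    · apply Continuous.continuousOn
      fun_prop
    · intro x y t _
      trivial
    · intro x y _
      refine ⟨fun _ => ?_, fun _ => ?_⟩
      · show -(max |h₁ x| |h₂ y|) - 1 < h₁ x
        have h1 := le_max_left |h₁ x| |h₂ y|
        have h2 := neg_abs_le (h₁ x)
        linarith
      · show -(max |h₁ x| |h₂ y|) - 1 < h₂ y
        have h1 := le_max_right |h₁ x| |h₂ y|
        have h2 := neg_abs_le (h₂ y)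
        linarith
    · intro x y t s ht hs
      have hs2 : s ≤ max t (-(max |h₁ x| |h₂ y|) - 1) := by
        rw [Set.mem_uIcc] at hs
        rcases hs with hs | hs
        · exact hs.2.trans (le_max_right _ _)
        · exact hs.2.trans (le_max_left _ _)
      refine ⟨fun hy => ?_, fun hx => ?_⟩
      · have h0 : t < h₁ x := ht.1 hy
        show s < h₁ x
        refine lt_of_le_of_lt hs2 (max_lt h0 ?_)
        have h1 := le_max_left |h₁ x| |h₂ y|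
        have h2 := neg_abs_le (h₁ x)
        linarith
      · have h0 : t < h₂ y := ht.2 hx
        show s < h₂ y
        refine lt_of_le_of_lt hs2 (max_lt h0 ?_)
        have h1 := le_max_right |h₁ x| |h₂ y|
        have h2 := neg_abs_le (h₂ y)
        linarith
  have hav : ∀ v ∈ LowR h₁ h₂, ∀ i : Fin n, ψ v ≠ (0, (i : ℝ)) := by
    rintro ⟨x, y, t⟩ hv i hi
    rcases (hΛ x y t).1 ⟨i, hi⟩ with ⟨h1, h2⟩ | ⟨h1, h2⟩
    · have h3 : t < h₁ x := hv.1 h1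
      linarith
    · have h3 : t < h₂ y := hv.2 h1
      linarith
  have h11 : ((1, 1, 0) : ℝ × ℝ × ℝ) ∈ LowR h₁ h₂ :=
    ⟨fun h => absurd h one_ne_zero, fun h => absurd h one_ne_zero⟩
  obtain ⟨g, hg, hg11⟩ := exists_flatOn a ψ (LowR h₁ h₂) hψ.continuousOn hav hcontr h11
    (Z (1, 1, 0))
  -- the first quadrant
  have hQ : ∀ v : ℝ × ℝ × ℝ, 0 < v.1 → 0 < v.2.1 → g v = Z v := by
    have hQU : {v : ℝ × ℝ × ℝ | 0 < v.1 ∧ 0 < v.2.1} ⊆ UpR h₁ h₂ := by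
      rintro v ⟨h1, h2⟩
      exact ⟨fun h => absurd h h2.ne', fun h => absurd h h1.ne'⟩
    have hQL : {v : ℝ × ℝ × ℝ | 0 < v.1 ∧ 0 < v.2.1} ⊆ LowR h₁ h₂ := by
      rintro v ⟨h1, h2⟩
      exact ⟨fun h => absurd h h2.ne', fun h => absurd h h1.ne'⟩
    have hconv : Convex ℝ {v : ℝ × ℝ × ℝ | 0 < v.1 ∧ 0 < v.2.1} := by
      intro v hv w hw s t hs ht hst
      obtain ⟨hv1, hv2⟩ := hv
      obtain ⟨hw1, hw2⟩ := hw
      have key : ∀ p q : ℝ, 0 < p → 0 < q → 0 < s * p + t * q := by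
        intro p q hp hq
        rcases hs.lt_or_eq with h | h
        · have := mul_pos h hp
          have := mul_nonneg ht hq.le
          linarith
        · have ht1 : t = 1 := by linarith
          rw [← h, ht1]
          linarith
      refine ⟨?_, ?_⟩
      · show 0 < s * v.1 + t * w.1
        exact key _ _ hv1 hw1
      · show 0 < s * v.2.1 + t * w.2.1
        exact key _ _ hv2 hw2
    have heq := (hg.mono hQL).eqOn (hZ.mono hQU) hconv.isPreconnected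
      (y₀ := (1, 1, 0)) ⟨one_pos, one_pos⟩ hg11
    intro v h1 h2
    exact heq ⟨h1, h2⟩
  -- step 1
  have h1 : ∀ v : ℝ × ℝ × ℝ, 0 < v.1 → v.2.1 < 0 → g v = Z v := by
    obtain ⟨i, hi⟩ := (hΛ 1 0 (h₁ 1)).2 (Or.inl ⟨rfl, rfl⟩)
    have hU : UJ (Ioi 0) h₁ ⊆ UpR h₁ h₂ := by
      rintro v ⟨hv1, hv2⟩
      exact ⟨hv2, fun h => absurd h (ne_of_gt hv1)⟩
    have hD : DJ (Ioi 0) h₁ ⊆ LowR h₁ h₂ := by
      rintro v ⟨hv1, hv2⟩
      exact ⟨hv2, fun h => absurd h (ne_of_gt hv1)⟩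
    have hn : ∀ᶠ v in 𝓝 ((1, 0, h₁ 1) : ℝ × ℝ × ℝ), v ∈ UJ (Ioi 0) h₁ → Z v = a i := by
      filter_upwards [hnear i (1, 0, h₁ 1) hi (fun t ht =>
        ⟨fun _ => ht, fun h => absurd h one_ne_zero⟩)] with v hv hvU
      exact hv (hU hvU)
    have hp := pass_strand a ψ hψ h₁ hc₁ (Ioi 0) isOpen_Ioi ordConnected_Ioi 1
      (show (0 : ℝ) < 1 from one_pos) i hi Z g
      (hZ.mono hU) (hg.mono hD) hn 1 (Or.inl rfl)
      (fun v hv1 hv2 => hQ v hv1 (by linarith))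
    intro v hv1 hv2
    exact hp v hv1 (by linarith)
  -- step 2
  have h2 : ∀ v : ℝ × ℝ × ℝ, v.1 < 0 → v.2.1 < 0 → g v = Z v := by
    obtain ⟨i, hi⟩ := (hΛ 0 (-1) (h₂ (-1))).2 (Or.inr ⟨rfl, rfl⟩)
    have hσ : Continuous (fun v : ℝ × ℝ × ℝ => ((v.2.1, v.1, v.2.2) : ℝ × ℝ × ℝ)) := by
      fun_prop
    have hU : MapsTo (fun v : ℝ × ℝ × ℝ => ((v.2.1, v.1, v.2.2) : ℝ × ℝ × ℝ))
        (UJ (Iio 0) h₂) (UpR h₁ h₂) := by
      rintro v ⟨hv1, hv2⟩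
      exact ⟨fun h => absurd h (ne_of_lt hv1), hv2⟩
    have hD : MapsTo (fun v : ℝ × ℝ × ℝ => ((v.2.1, v.1, v.2.2) : ℝ × ℝ × ℝ))
        (DJ (Iio 0) h₂) (LowR h₁ h₂) := by
      rintro v ⟨hv1, hv2⟩
      exact ⟨fun h => absurd h (ne_of_lt hv1), hv2⟩
    have hn : ∀ᶠ v in 𝓝 ((-1, 0, h₂ (-1)) : ℝ × ℝ × ℝ), v ∈ UJ (Iio 0) h₂ →
        (Z ∘ fun v : ℝ × ℝ × ℝ => ((v.2.1, v.1, v.2.2) : ℝ × ℝ × ℝ)) v = a i := by
      have h3 := hnear i (0, -1, h₂ (-1)) hi (fun t ht =>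
        ⟨fun h => absurd h (by norm_num), fun _ => ht⟩)
      have h4 : Tendsto (fun v : ℝ × ℝ × ℝ => ((v.2.1, v.1, v.2.2) : ℝ × ℝ × ℝ))
          (𝓝 ((-1, 0, h₂ (-1)) : ℝ × ℝ × ℝ)) (𝓝 ((0, -1, h₂ (-1)) : ℝ × ℝ × ℝ)) :=
        hσ.tendsto ((-1, 0, h₂ (-1)) : ℝ × ℝ × ℝ)
      filter_upwards [h4.eventually h3] with v hv hvU
      exact hv (hU hvU)
    have hp := pass_strand a (ψ ∘ fun v : ℝ × ℝ × ℝ => ((v.2.1, v.1, v.2.2) : ℝ × ℝ × ℝ))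
      (hψ.comp hσ) h₂ hc₂ (Iio 0) isOpen_Iio ordConnected_Iio (-1) (by
        show (-1 : ℝ) < 0
        norm_num) i hi
      (Z ∘ fun v : ℝ × ℝ × ℝ => ((v.2.1, v.1, v.2.2) : ℝ × ℝ × ℝ))
      (g ∘ fun v : ℝ × ℝ × ℝ => ((v.2.1, v.1, v.2.2) : ℝ × ℝ × ℝ))
      (hZ.comp hσ.continuousOn hU) (hg.comp hσ.continuousOn hD) hn 1 (Or.inl rfl)
      (fun v hv1 hv2 => h1 (v.2.1, v.1, v.2.2) (show 0 < v.2.1 by linarith) hv1)
    intro v hv1 hv2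
    exact hp (v.2.1, v.1, v.2.2) hv2 (show 1 * v.1 < 0 by linarith)
  -- step 3
  have h3 : ∀ v : ℝ × ℝ × ℝ, v.1 < 0 → 0 < v.2.1 → g v = Z v := by
    obtain ⟨i, hi⟩ := (hΛ (-1) 0 (h₁ (-1))).2 (Or.inl ⟨rfl, rfl⟩)
    have hU : UJ (Iio 0) h₁ ⊆ UpR h₁ h₂ := by
      rintro v ⟨hv1, hv2⟩
      exact ⟨hv2, fun h => absurd h (ne_of_lt hv1)⟩
    have hD : DJ (Iio 0) h₁ ⊆ LowR h₁ h₂ := by
      rintro v ⟨hv1, hv2⟩
      exact ⟨hv2, fun h => absurd h (ne_of_lt hv1)⟩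
    have hn : ∀ᶠ v in 𝓝 ((-1, 0, h₁ (-1)) : ℝ × ℝ × ℝ), v ∈ UJ (Iio 0) h₁ → Z v = a i := by
      filter_upwards [hnear i (-1, 0, h₁ (-1)) hi (fun t ht =>
        ⟨fun _ => ht, fun h => absurd h (by norm_num)⟩)] with v hv hvU
      exact hv (hU hvU)
    have hp := pass_strand a ψ hψ h₁ hc₁ (Iio 0) isOpen_Iio ordConnected_Iio (-1) (by
        show (-1 : ℝ) < 0
        norm_num) i hi Z g
      (hZ.mono hU) (hg.mono hD) hn (-1) (Or.inr rfl)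
      (fun v hv1 hv2 => h2 v hv1 (by linarith))
    intro v hv1 hv2
    exact hp v hv1 (by linarith)
  refine ⟨g, hg, ?_⟩
  rintro v ⟨hvU, hvL⟩
  have hy : v.2.1 ≠ 0 := by
    intro h
    exact lt_asymm (hvU.1 h) (hvL.1 h)
  have hx : v.1 ≠ 0 := by
    intro h
    exact lt_asymm (hvU.2 h) (hvL.2 h)
  rcases lt_or_gt_of_ne hx with hx | hx
  · rcases lt_or_gt_of_ne hy with hy | hy
    · exact h2 v hx hy
    · exact h3 v hx hy
  · rcases lt_or_gt_of_ne hy with hy | hy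
    · exact h1 v hx hy
    · exact hQ v hx hy

end X_low_ext

alias low_ext := X_low_ext.low_ext

end AltGenus
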