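import Pool.Agent.AltGenus.ChartDefs
import Pool.Agent.AltGenus.P_vert_contractible
import Pool.Agent.AltGenus.P_exists_flatOn
import Pool.Agent.AltGenus.P_pass_strand

open Set Topology Filter

namespace AltGenus

namespace X_mid_ext
theorem mid_half (h₂ : ℝ → ℝ) (hc₂ : Continuous h₂) (ε : ℝ) :
    (∃ B : Set (ℝ × ℝ), B = {p | 0 < ε * p.2}) → ε ≠ 0 →
    IsPreconnected {v : ℝ × ℝ × ℝ | 0 < ε * v.2.1 ∧ (v.1 = 0 → h₂ v.2.1 < v.2.2)} := by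
  intro _ hε
  have hconv : Convex ℝ {p : ℝ × ℝ | 0 < ε * p.2} := by
    intro p hp q hq a b ha hb hab
    simp only [mem_setOf_eq] at hp hq ⊢
    have : ε * (a • p + b • q).2 = a * (ε * p.2) + b * (ε * q.2) := by
      simp; ring
    rw [this]
    rcases ha.eq_or_lt with h | h
    · subst h
      have : b = 1 := by linarith
      subst this
      simpa using hq
    · have h1 : 0 < a * (ε * p.2) := mul_pos h hp
      have h2 : 0 ≤ b * (ε * q.2) := mul_nonneg hb hq.le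
      linarith
  have hne : {p : ℝ × ℝ | 0 < ε * p.2}.Nonempty := by
    refine ⟨(0, ε⁻¹), ?_⟩
    simp [hε]
  have hcon : ContractibleSpace {v : ℝ × ℝ × ℝ | 0 < ε * v.2.1 ∧ (v.1 = 0 → h₂ v.2.1 < v.2.2)} := by
    refine vert_contractible {p : ℝ × ℝ | 0 < ε * p.2} hconv hne (fun p => h₂ p.2 + 1)
      (by fun_prop) _ ?_ ?_ ?_
    · intro x y t h
      exact h.1
    · intro x y h
      exact ⟨h, fun _ => by simp⟩
    · intro x y t s h hs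
      refine ⟨h.1, fun hx => ?_⟩
      have h1 := h.2 hx
      simp only at h1 hs ⊢
      rcases (mem_uIcc.1 hs) with h2 | h2 <;> linarith [h2.1]
  exact isPreconnected_iff_preconnectedSpace.2 inferInstance

theorem mid_ext {n : ℕ} (a : Fin n → ℝ) (ψ : ℝ × ℝ × ℝ → ℝ × ℝ) (hψ : Continuous ψ)
    (h₁ h₂ : ℝ → ℝ) (hc₁ : Continuous h₁) (hc₂ : Continuous h₂) (h21 : h₂ 0 < h₁ 0)
    (hΛ : ∀ x y t, (∃ i : Fin n, ψ (x, y, t) = (0, (i : ℝ))) ↔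
      (y = 0 ∧ t = h₁ x) ∨ (x = 0 ∧ t = h₂ y))
    (Z : ℝ × ℝ × ℝ → ℝ) (hZ : FlatOn a ψ (UpR h₁ h₂) Z)
    (hnear : ∀ (i : Fin n) (q : ℝ × ℝ × ℝ), ψ q = (0, (i : ℝ)) →
      (∀ t, q.2.2 < t → (q.1, q.2.1, t) ∈ UpR h₁ h₂) →
      ∀ᶠ v in 𝓝 q, v ∈ UpR h₁ h₂ → Z v = a i) :
    ∃ g : ℝ × ℝ × ℝ → ℝ, FlatOn a ψ (MidR h₁ h₂) g ∧ ∀ v ∈ UpR h₁ h₂ ∩ MidR h₁ h₂, g v = Z v := by
  have hcon : ContractibleSpace (MidR h₁ h₂) := by
    refine vert_contractible univ convex_univ univ_nonempty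
      (fun p => (h₁ 0 + h₂ 0) / 2 - |h₁ p.1 - h₁ 0| + |h₂ p.2 - h₂ 0|)
      (by fun_prop) _ (fun _ _ _ _ => mem_univ _) ?_ ?_
    · intro x y _
      refine ⟨fun hy => ?_, fun hx => ?_⟩
      · simp only at hy ⊢
        subst hy
        rw [sub_self (h₂ 0), abs_zero]
        have := neg_abs_le (h₁ x - h₁ 0)
        linarith
      · simp only at hx ⊢
        subst hx
        rw [sub_self (h₁ 0), abs_zero]
        have := le_abs_self (h₂ y - h₂ 0)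
        linarith
    · intro x y t s h hs
      refine ⟨fun hy => ?_, fun hx => ?_⟩
      · have h1 := h.1 hy
        simp only at h1 hy hs ⊢
        subst hy
        rw [sub_self (h₂ 0), abs_zero] at hs
        have := neg_abs_le (h₁ x - h₁ 0)
        rcases (mem_uIcc.1 hs) with h2 | h2 <;> linarith [h2.2]
      · have h1 := h.2 hx
        simp only at h1 hx hs ⊢
        subst hx
        rw [sub_self (h₁ 0), abs_zero] at hs
        have := le_abs_self (h₂ y - h₂ 0)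
        rcases (mem_uIcc.1 hs) with h2 | h2 <;> linarith [h2.1]
  have hav : ∀ v ∈ MidR h₁ h₂, ∀ i : Fin n, ψ v ≠ (0, (i : ℝ)) := by
    rintro ⟨x, y, t⟩ ⟨hv1, hv2⟩ i hi
    rcases (hΛ x y t).1 ⟨i, hi⟩ with ⟨h1, h2⟩ | ⟨h1, h2⟩
    · have := hv1 h1
      simp only at this
      linarith
    · have := hv2 h1
      simp only at this
      linarith
  have hp0 : ((1 : ℝ), (1 : ℝ), (0 : ℝ)) ∈ MidR h₁ h₂ := by
    refine ⟨fun h => ?_, fun h => ?_⟩ <;> · simp at h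
  obtain ⟨g, hg, hg0⟩ := exists_flatOn a ψ (MidR h₁ h₂) hψ.continuousOn hav hcon hp0
    (Z ((1 : ℝ), (1 : ℝ), (0 : ℝ)))
  -- the upper half
  have hsub : ∀ ε : ℝ, ε ≠ 0 → {v : ℝ × ℝ × ℝ | 0 < ε * v.2.1 ∧ (v.1 = 0 → h₂ v.2.1 < v.2.2)} ⊆
      UpR h₁ h₂ ∩ MidR h₁ h₂ := by
    intro ε hε v hv
    have hne : v.2.1 ≠ 0 := by
      intro h
      have := hv.1
      rw [h, mul_zero] at this
      exact lt_irrefl _ this
    exact ⟨⟨fun h => absurd h hne, hv.2⟩, ⟨fun h => absurd h hne, hv.2⟩⟩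
  have hP : EqOn g Z {v : ℝ × ℝ × ℝ | 0 < (1 : ℝ) * v.2.1 ∧ (v.1 = 0 → h₂ v.2.1 < v.2.2)} := by
    refine FlatOn.eqOn (hg.mono fun v hv => (hsub 1 one_ne_zero hv).2)
      (hZ.mono fun v hv => (hsub 1 one_ne_zero hv).1) (mid_half h₂ hc₂ 1 ⟨_, rfl⟩ one_ne_zero)
      (y₀ := ((1 : ℝ), (1 : ℝ), (0 : ℝ))) ?_ hg0
    refine ⟨by norm_num, fun h => ?_⟩
    simp at h
  obtain ⟨i, hi⟩ := (hΛ 1 0 (h₁ 1)).2 (Or.inl ⟨rfl, rfl⟩)
  have hUJ : UJ (Ioi 0) h₁ ⊆ UpR h₁ h₂ := by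
    rintro v ⟨hv1, hv2⟩
    exact ⟨hv2, fun h => absurd h (ne_of_gt hv1)⟩
  have hDJ : DJ (Ioi 0) h₁ ⊆ MidR h₁ h₂ := by
    rintro v ⟨hv1, hv2⟩
    exact ⟨hv2, fun h => absurd h (ne_of_gt hv1)⟩
  have hpass := pass_strand a ψ hψ h₁ hc₁ (Ioi 0) isOpen_Ioi ordConnected_Ioi 1 (by simp) i hi Z g
    (hZ.mono hUJ) (hg.mono hDJ) (by
      have := hnear i (1, 0, h₁ 1) hi (fun t ht => ⟨fun _ => ht, fun h => by simp at h⟩)
      filter_upwards [this] with v hv hvU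
      exact hv (hUJ hvU)) 1 (Or.inl rfl) (by
      intro v hv1 hv2
      exact hP ⟨hv2, fun h => absurd h (ne_of_gt hv1)⟩)
  have hN : EqOn g Z {v : ℝ × ℝ × ℝ | 0 < (-1 : ℝ) * v.2.1 ∧ (v.1 = 0 → h₂ v.2.1 < v.2.2)} := by
    have hm1 : (-1 : ℝ) ≠ 0 := by norm_num
    refine FlatOn.eqOn (hg.mono fun v hv => (hsub (-1) hm1 hv).2)
      (hZ.mono fun v hv => (hsub (-1) hm1 hv).1) (mid_half h₂ hc₂ (-1) ⟨_, rfl⟩ hm1)
      (y₀ := ((1 : ℝ), (-1 : ℝ), (0 : ℝ))) ?_ (hpass _ (by simp) (by norm_num))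
    refine ⟨by norm_num, fun h => ?_⟩
    simp at h
  refine ⟨g, hg, ?_⟩
  rintro v ⟨hvU, hvM⟩
  rcases lt_trichotomy v.2.1 0 with h | h | h
  · exact hN ⟨by linarith, hvU.2⟩
  · have h1 := hvU.1 h
    have h2 := hvM.1 h
    linarith
  · exact hP ⟨by linarith, hvU.2⟩

end X_mid_ext

alias mid_ext := X_mid_ext.mid_ext

end AltGenus
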