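import Pool.Agent.AltGenus.ChartDefs
import Pool.Agent.AltGenus.P_vert_contractible
import Pool.Agent.AltGenus.P_exists_flatOn
import Pool.Agent.AltGenus.P_pass_strand

open Set Topology Filter

namespace AltGenus

namespace X_reg_ext
theorem reg_ext {n : ℕ} (a : Fin n → ℝ) (ψ : ℝ × ℝ × ℝ → ℝ × ℝ) (hψ : Continuous ψ)
    (h : ℝ → ℝ) (hh : Continuous h)
    (hΛ : ∀ x y t, (∃ i : Fin n, ψ (x, y, t) = (0, (i : ℝ))) ↔ y = 0 ∧ t = h x)
    (Z : ℝ × ℝ × ℝ → ℝ) (hZ : FlatOn a ψ (UJ univ h) Z)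
    (hnear : ∀ (i : Fin n) (q : ℝ × ℝ × ℝ), ψ q = (0, (i : ℝ)) →
      ∀ᶠ v in 𝓝 q, v ∈ UJ univ h → Z v = a i) :
    ∃ g : ℝ × ℝ × ℝ → ℝ, FlatOn a ψ (DJ univ h) g ∧ ∀ v ∈ UJ univ h ∩ DJ univ h, g v = Z v := by
  have hcon : ContractibleSpace (DJ univ h) := by
    refine vert_contractible univ convex_univ ⟨(0, 0), trivial⟩ (fun w => h w.1 - 1)
      (by fun_prop) (DJ univ h) (fun _ _ _ _ => trivial) (fun x y _ => ⟨trivial, fun _ => ?_⟩) ?_
    · show h x - 1 < h x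
      linarith
    · intro x y t s hR hs
      refine ⟨trivial, fun hy => ?_⟩
      have h1 : t < h x := hR.2 hy
      have h2 : s ≤ max t (h x - 1) := hs.2
      show s < h x
      exact lt_of_le_of_lt h2 (max_lt h1 (by linarith))
  have hav : ∀ y ∈ DJ univ h, ∀ i : Fin n, ψ y ≠ (0, (i : ℝ)) := by
    rintro ⟨x, y, t⟩ hy i hi
    have h1 := (hΛ x y t).1 ⟨i, hi⟩
    have h2 : t < h x := hy.2 h1.1
    linarith [h1.2]
  have hy₀ : ((0, 1, 0) : ℝ × ℝ × ℝ) ∈ DJ univ h := ⟨trivial, fun h1 => absurd h1 one_ne_zero⟩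
  obtain ⟨g, hg, hg0⟩ := exists_flatOn a ψ (DJ univ h) hψ.continuousOn hav hcon hy₀ (Z (0, 1, 0))
  have hP : IsPreconnected {v : ℝ × ℝ × ℝ | 0 < v.2.1} := by
    apply Convex.isPreconnected
    intro v hv w hw s t hs ht hst
    have hv' : 0 < v.2.1 := hv
    have hw' : 0 < w.2.1 := hw
    show 0 < s * v.2.1 + t * w.2.1
    rcases hs.eq_or_lt with rfl | hs'
    · rw [zero_add] at hst
      rw [hst, zero_mul, zero_add, one_mul]
      exact hw'
    · have h1 : 0 < s * v.2.1 := mul_pos hs' hv'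
      have h2 : 0 ≤ t * w.2.1 := mul_nonneg ht hw'.le
      linarith
  have hEq : EqOn g Z {v : ℝ × ℝ × ℝ | 0 < v.2.1} := by
    refine FlatOn.eqOn (hg.mono ?_) (hZ.mono ?_) hP (y₀ := (0, 1, 0)) ?_ hg0
    · intro v hv
      exact ⟨trivial, fun h1 => absurd h1 (ne_of_gt hv)⟩
    · intro v hv
      exact ⟨trivial, fun h1 => absurd h1 (ne_of_gt hv)⟩
    · show (0 : ℝ) < 1
      exact one_pos
  obtain ⟨i, hi⟩ := (hΛ 0 0 (h 0)).2 ⟨rfl, rfl⟩
  have hneg := pass_strand a ψ hψ h hh univ isOpen_univ ordConnected_univ 0 trivial i hi Z g hZ hg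
    (hnear i _ hi) 1 (Or.inl rfl) (fun v _ hv => hEq (by
      show 0 < v.2.1
      linarith))
  refine ⟨g, hg, ?_⟩
  rintro v ⟨hU, hD⟩
  rcases lt_trichotomy v.2.1 0 with h1 | h1 | h1
  · exact hneg v trivial (by linarith)
  · exfalso
    have h2 := hU.2 h1
    have h3 := hD.2 h1
    linarith
  · exact hEq h1

end X_reg_ext

alias reg_ext := X_reg_ext.reg_ext

end AltGenus
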