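import Pool.Agent.AltGenus.ChartDefs

open Set Topology Filter

namespace AltGenus

namespace X_half_contractible
theorem contr833 (A : Set ((ℝ × ℝ) × ℝ)) (r : (ℝ × ℝ) × ℝ → (ℝ × ℝ) × ℝ) (hr : Continuous r)
    (c0 : (ℝ × ℝ) × ℝ) (hc0 : c0 ∈ A)
    (h1 : ∀ v ∈ A, ∀ s : ℝ, 0 ≤ s → s ≤ 1 → (1 - s) • v + s • r v ∈ A)
    (h2 : ∀ v ∈ A, ∀ s : ℝ, 0 ≤ s → s ≤ 1 → (1 - s) • r v + s • c0 ∈ A) : ContractibleSpace A := by
  rw [contractible_iff_id_nullhomotopic]
  refine ⟨⟨c0, hc0⟩, ⟨?_⟩⟩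
  have hmem : ∀ (t : unitInterval) (v : A),
      (1 - max 0 (2 * (t : ℝ) - 1)) • ((1 - min 1 (2 * (t : ℝ))) • (v : (ℝ × ℝ) × ℝ) +
        min 1 (2 * (t : ℝ)) • r v) + max 0 (2 * (t : ℝ) - 1) • c0 ∈ A := by
    intro t v
    have t0 := t.2.1
    have t1 := t.2.2
    rcases le_total (t : ℝ) (1/2) with h | h
    · rw [max_eq_left (by linarith), min_eq_right (by linarith)]
      simp only [sub_zero, one_smul, zero_smul, add_zero]
      exact h1 v v.2 _ (by linarith) (by linarith)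
    · rw [max_eq_right (by linarith), min_eq_left (by linarith)]
      simp only [sub_self, zero_smul, zero_add, one_smul]
      exact h2 v v.2 _ (by linarith) (by linarith)
  exact
    { toFun := fun p => ⟨_, hmem p.1 p.2⟩
      continuous_toFun := by
        apply Continuous.subtype_mk
        have h3 : Continuous (fun p : unitInterval × A => r p.2) := hr.comp (by fun_prop)
        fun_prop
      map_zero_left := by
        intro v
        apply Subtype.ext
        simp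
      map_one_left := by
        intro v
        apply Subtype.ext
        show (1 - max 0 (2 * ((1 : unitInterval) : ℝ) - 1)) • ((1 - min 1 (2 * ((1 : unitInterval) : ℝ))) •
          (v : (ℝ × ℝ) × ℝ) + min 1 (2 * ((1 : unitInterval) : ℝ)) • r v) +
            max 0 (2 * ((1 : unitInterval) : ℝ) - 1) • c0 = c0
        have e1 : max (0:ℝ) (2 * ((1 : unitInterval) : ℝ) - 1) = 1 := by norm_num
        rw [e1]
        simp }

theorem half_contractible (g : ℕ) : ContractibleSpace (HBU g) ∧ ContractibleSpace (HBL g) := by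
  have hg : (0:ℝ) ≤ 2 * g + 1 := by positivity
  have memU : ∀ x y z : ℝ, ((x, y), z) ∈ HBU g ↔ ((0 ≤ x ∧ x ≤ 2 * g + 1 ∧ 0 ≤ y ∧ y ≤ 3 ∧
      ∀ j : ℕ, j < g → ¬ (2 * (j : ℝ) + 1 < x ∧ x < 2 * (j : ℝ) + 2 ∧ 1 < y ∧ y < 2)) ∧
      (0 ≤ z ∧ z ≤ 1)) ∧ 3 / 2 ≤ y := by
    intro x y z
    exact Iff.rfl
  have memL : ∀ x y z : ℝ, ((x, y), z) ∈ HBL g ↔ ((0 ≤ x ∧ x ≤ 2 * g + 1 ∧ 0 ≤ y ∧ y ≤ 3 ∧
      ∀ j : ℕ, j < g → ¬ (2 * (j : ℝ) + 1 < x ∧ x < 2 * (j : ℝ) + 2 ∧ 1 < y ∧ y < 2)) ∧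
      (0 ≤ z ∧ z ≤ 1)) ∧ y ≤ 3 / 2 := by
    intro x y z
    exact Iff.rfl
  constructor
  · apply contr833 (HBU g) (fun v => ((v.1.1, max v.1.2 2), v.2)) (by fun_prop) ((0, 2), 0)
    · rw [memU]
      exact ⟨⟨⟨le_rfl, hg, by norm_num, by norm_num, fun j _ h => by linarith [h.2.2.2]⟩, le_rfl, by norm_num⟩,
        by norm_num⟩
    · rintro ⟨⟨x, y⟩, z⟩ hv s s0 s1
      rw [memU] at hv
      obtain ⟨⟨⟨hx0, hx1, hy0, hy3, hh⟩, hz0, hz1⟩, hy⟩ := hv
      show (((1 - s) * x + s * x, (1 - s) * y + s * max y 2), (1 - s) * z + s * z) ∈ HBU g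
      have ex : (1 - s) * x + s * x = x := by ring
      have ez : (1 - s) * z + s * z = z := by ring
      rw [ex, ez, memU]
      have m1 : y ≤ max y 2 := le_max_left _ _
      have m2 : (2:ℝ) ≤ max y 2 := le_max_right _ _
      have m3 : max y 2 ≤ 3 := max_le hy3 (by norm_num)
      have k1 : y ≤ (1 - s) * y + s * max y 2 := by nlinarith
      have k2 : (1 - s) * y + s * max y 2 ≤ 3 := by nlinarith
      refine ⟨⟨⟨hx0, hx1, by linarith, k2, ?_⟩, hz0, hz1⟩, by linarith⟩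
      rintro j hj ⟨a1, a2, a3, a4⟩
      exact hh j hj ⟨a1, a2, by linarith, by linarith⟩
    · rintro ⟨⟨x, y⟩, z⟩ hv s s0 s1
      rw [memU] at hv
      obtain ⟨⟨⟨hx0, hx1, hy0, hy3, hh⟩, hz0, hz1⟩, hy⟩ := hv
      show (((1 - s) * x + s * 0, (1 - s) * max y 2 + s * 2), (1 - s) * z + s * 0) ∈ HBU g
      rw [memU]
      have m1 : y ≤ max y 2 := le_max_left _ _
      have m2 : (2:ℝ) ≤ max y 2 := le_max_right _ _
      have m3 : max y 2 ≤ 3 := max_le hy3 (by norm_num)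
      have k1 : 2 ≤ (1 - s) * max y 2 + s * 2 := by nlinarith
      have k2 : (1 - s) * max y 2 + s * 2 ≤ 3 := by nlinarith
      have k3 : 0 ≤ (1 - s) * x := mul_nonneg (by linarith) hx0
      have k4 : 0 ≤ (1 - s) * z := mul_nonneg (by linarith) hz0
      have k5 : (1 - s) * x ≤ x := by nlinarith
      have k6 : (1 - s) * z ≤ z := by nlinarith
      refine ⟨⟨⟨by linarith, by linarith, by linarith, k2, ?_⟩, by linarith, by linarith⟩, by linarith⟩
      rintro j hj ⟨a1, a2, a3, a4⟩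
      linarith
  · apply contr833 (HBL g) (fun v => ((v.1.1, min v.1.2 1), v.2)) (by fun_prop) ((0, 1), 0)
    · rw [memL]
      exact ⟨⟨⟨le_rfl, hg, by norm_num, by norm_num, fun j _ h => by linarith [h.2.2.1]⟩, le_rfl, by norm_num⟩,
        by norm_num⟩
    · rintro ⟨⟨x, y⟩, z⟩ hv s s0 s1
      rw [memL] at hv
      obtain ⟨⟨⟨hx0, hx1, hy0, hy3, hh⟩, hz0, hz1⟩, hy⟩ := hv
      show (((1 - s) * x + s * x, (1 - s) * y + s * min y 1), (1 - s) * z + s * z) ∈ HBL g
      have ex : (1 - s) * x + s * x = x := by ring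
      have ez : (1 - s) * z + s * z = z := by ring
      rw [ex, ez, memL]
      have m1 : min y 1 ≤ y := min_le_left _ _
      have m2 : min y 1 ≤ 1 := min_le_right _ _
      have m3 : 0 ≤ min y 1 := le_min hy0 (by norm_num)
      have k1 : (1 - s) * y + s * min y 1 ≤ y := by nlinarith
      have k2 : 0 ≤ (1 - s) * y + s * min y 1 :=
        add_nonneg (mul_nonneg (by linarith) hy0) (mul_nonneg s0 m3)
      refine ⟨⟨⟨hx0, hx1, k2, by linarith, ?_⟩, hz0, hz1⟩, by linarith⟩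
      rintro j hj ⟨a1, a2, a3, a4⟩
      exact hh j hj ⟨a1, a2, by linarith, by linarith⟩
    · rintro ⟨⟨x, y⟩, z⟩ hv s s0 s1
      rw [memL] at hv
      obtain ⟨⟨⟨hx0, hx1, hy0, hy3, hh⟩, hz0, hz1⟩, hy⟩ := hv
      show (((1 - s) * x + s * 0, (1 - s) * min y 1 + s * 1), (1 - s) * z + s * 0) ∈ HBL g
      rw [memL]
      have m1 : min y 1 ≤ y := min_le_left _ _
      have m2 : min y 1 ≤ 1 := min_le_right _ _
      have m3 : 0 ≤ min y 1 := le_min hy0 (by norm_num)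
      have k1 : (1 - s) * min y 1 + s * 1 ≤ 1 := by nlinarith
      have k2 : 0 ≤ (1 - s) * min y 1 + s * 1 :=
        add_nonneg (mul_nonneg (by linarith) m3) (by linarith)
      have k3 : 0 ≤ (1 - s) * x := mul_nonneg (by linarith) hx0
      have k4 : 0 ≤ (1 - s) * z := mul_nonneg (by linarith) hz0
      have k5 : (1 - s) * x ≤ x := by nlinarith
      have k6 : (1 - s) * z ≤ z := by nlinarith
      refine ⟨⟨⟨by linarith, by linarith, k2, by linarith, ?_⟩, by linarith, by linarith⟩, by linarith⟩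
      rintro j hj ⟨a1, a2, a3, a4⟩
      linarith

end X_half_contractible

alias half_contractible := X_half_contractible.half_contractible

end AltGenus
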