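import Pool.Agent.AltGenus.HopfDefs
import Pool.Agent.AltGenus.ChartDefs

open Set Topology Filter

namespace AltGenus

namespace X_hopf_set
theorem hopf_set (n : ℕ) :
    (∀ v : S3, v ∈ Lset n ↔ ∃ (i : Fin (2 * n)) (t : ℝ), (v : EuclideanSpace ℝ (Fin 4)) = hopfPt n i t) ∧
    (∀ (v : S3) (i : Fin (2 * n)) (t : ℝ), (i : ℕ) < n →
      (v : EuclideanSpace ℝ (Fin 4)) = hopfPt n i t → kap n v = (0, ((i : ℕ) : ℝ))) := by
  -- the radii
  have rad : ∀ k : ℕ, k < n → 0 < hopfR n k ∧ 0 ≤ hopfS n k ∧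
      hopfR n k ^ 2 + hopfS n k ^ 2 = 1 ∧ 2 * n * (hopfR n k * hopfS n k) = (k : ℝ) := by
    intro k hk
    have hn0 : (0 : ℝ) < n := by
      have : 0 < n := by omega
      exact_mod_cast this
    have hk0 : (0 : ℝ) ≤ k := Nat.cast_nonneg k
    have hkn : (k : ℝ) < n := by exact_mod_cast hk
    have hx0 : 0 ≤ (k : ℝ) / n := div_nonneg hk0 hn0.le
    have hx1 : (k : ℝ) / n < 1 := by rwa [div_lt_one hn0]
    have hq2 : √(1 - ((k : ℝ) / n) ^ 2) ^ 2 = 1 - ((k : ℝ) / n) ^ 2 :=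
      Real.sq_sqrt (by nlinarith)
    have hq0 : 0 ≤ √(1 - ((k : ℝ) / n) ^ 2) := Real.sqrt_nonneg _
    have hq1 : √(1 - ((k : ℝ) / n) ^ 2) ≤ 1 := by
      rw [Real.sqrt_le_one]
      nlinarith [sq_nonneg ((k : ℝ) / n)]
    have hR2 : hopfR n k ^ 2 = (1 + √(1 - ((k : ℝ) / n) ^ 2)) / 2 := by
      unfold hopfR
      exact Real.sq_sqrt (by linarith)
    have hS2 : hopfS n k ^ 2 = (1 - √(1 - ((k : ℝ) / n) ^ 2)) / 2 := by
      unfold hopfS
      exact Real.sq_sqrt (by linarith)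
    have hR0 : 0 < hopfR n k := by
      unfold hopfR
      exact Real.sqrt_pos.2 (by linarith)
    have hS0 : 0 ≤ hopfS n k := Real.sqrt_nonneg _
    refine ⟨hR0, hS0, by rw [hR2, hS2]; ring, ?_⟩
    have h1 : (hopfR n k * hopfS n k) ^ 2 = ((k : ℝ) / n / 2) ^ 2 := by
      rw [mul_pow, hR2, hS2]
      have : (1 + √(1 - ((k : ℝ) / n) ^ 2)) / 2 * ((1 - √(1 - ((k : ℝ) / n) ^ 2)) / 2) =
        (1 - √(1 - ((k : ℝ) / n) ^ 2) ^ 2) / 4 := by ring
      rw [this, hq2]
      ring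
    have h2 : hopfR n k * hopfS n k = (k : ℝ) / n / 2 :=
      (pow_left_inj₀ (mul_nonneg hR0.le hS0) (by positivity) two_ne_zero).1 h1
    rw [h2]
    field_simp
  -- the value of `kap` on the curves
  have kapc : ∀ (v : S3) (r s t : ℝ), (v : EuclideanSpace ℝ (Fin 4)) = hopfCurve r s t →
      kap n v = (0, 2 * n * (r * s)) := by
    intro v r s t h
    have h0 : v.1 0 = r * Real.cos (2 * Real.pi * t) := by rw [h]; simp [hopfCurve]
    have h1 : v.1 1 = r * Real.sin (2 * Real.pi * t) := by rw [h]; simp [hopfCurve]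
    have h2 : v.1 2 = s * Real.sin (2 * Real.pi * t) := by rw [h]; simp [hopfCurve]
    have h3 : v.1 3 = s * Real.cos (2 * Real.pi * t) := by rw [h]; simp [hopfCurve]
    have hsc := Real.sin_sq_add_cos_sq (2 * Real.pi * t)
    unfold kap
    rw [h0, h1, h2, h3]
    refine Prod.ext ?_ ?_
    · simp only
      ring
    · simp only
      have : r * Real.cos (2 * Real.pi * t) * (s * Real.cos (2 * Real.pi * t)) +
          r * Real.sin (2 * Real.pi * t) * (s * Real.sin (2 * Real.pi * t)) =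
          r * s * (Real.sin (2 * Real.pi * t) ^ 2 + Real.cos (2 * Real.pi * t) ^ 2) := by ring
      rw [this, hsc]
      ring
  -- angles
  have ang : ∀ (r x y : ℝ), 0 < r → x ^ 2 + y ^ 2 = r ^ 2 →
      ∃ t : ℝ, x = r * Real.cos (2 * Real.pi * t) ∧ y = r * Real.sin (2 * Real.pi * t) := by
    intro r x y hr hxy
    have hnorm : ‖(⟨x, y⟩ : ℂ)‖ = r := by
      rw [Complex.norm_def, Complex.normSq_mk]
      have : x * x + y * y = r ^ 2 := by rw [← hxy]; ring
      rw [this]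
      exact Real.sqrt_sq hr.le
    refine ⟨Complex.arg ⟨x, y⟩ / (2 * Real.pi), ?_, ?_⟩
    · have h1 : 2 * Real.pi * (Complex.arg ⟨x, y⟩ / (2 * Real.pi)) = Complex.arg ⟨x, y⟩ := by
        field_simp
      rw [h1]
      have h2 := Complex.norm_mul_cos_arg (⟨x, y⟩ : ℂ)
      rw [hnorm] at h2
      exact h2.symm
    · have h1 : 2 * Real.pi * (Complex.arg ⟨x, y⟩ / (2 * Real.pi)) = Complex.arg ⟨x, y⟩ := by
        field_simp
      rw [h1]
      have h2 := Complex.norm_mul_sin_arg (⟨x, y⟩ : ℂ)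
      rw [hnorm] at h2
      exact h2.symm
  have mk : ∀ (v : S3) (r s t : ℝ), v.1 0 = r * Real.cos (2 * Real.pi * t) →
      v.1 1 = r * Real.sin (2 * Real.pi * t) → v.1 2 = s * Real.sin (2 * Real.pi * t) →
      v.1 3 = s * Real.cos (2 * Real.pi * t) →
      (v : EuclideanSpace ℝ (Fin 4)) = hopfCurve r s t := by
    intro v r s t h0 h1 h2 h3
    ext j
    fin_cases j
    · simpa [hopfCurve] using h0
    · simpa [hopfCurve] using h1
    · simpa [hopfCurve] using h2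
    · simpa [hopfCurve] using h3
  have kap2 : ∀ (v : S3) (i : Fin (2 * n)) (t : ℝ), (i : ℕ) < n →
      (v : EuclideanSpace ℝ (Fin 4)) = hopfPt n i t → kap n v = (0, ((i : ℕ) : ℝ)) := by
    intro v i t hi h
    unfold hopfPt at h
    rw [if_pos hi] at h
    rw [kapc v _ _ t h, (rad i hi).2.2.2]
  refine ⟨?_, kap2⟩
  intro v
  constructor
  · rintro ⟨k, hk⟩
    obtain ⟨hR0, hS0, hRS, hRSk⟩ := rad k k.2
    set R := hopfR n k with hRdef
    set S := hopfS n k with hSdef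
    have hn0 : (0 : ℝ) < n := by
      have : 0 < n := lt_of_le_of_lt (Nat.zero_le _) k.2
      exact_mod_cast this
    have e1 : v.1 0 * v.1 2 - v.1 1 * v.1 3 = 0 := congrArg Prod.fst hk
    have e2' : 2 * n * (v.1 0 * v.1 3 + v.1 1 * v.1 2) = ((k : ℕ) : ℝ) := congrArg Prod.snd hk
    have e2 : v.1 0 * v.1 3 + v.1 1 * v.1 2 = R * S := by
      have : 2 * (n : ℝ) * (v.1 0 * v.1 3 + v.1 1 * v.1 2) = 2 * n * (R * S) := by
        rw [e2', hRSk]
      exact mul_left_cancel₀ (by positivity) this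
    have e3 : v.1 0 ^ 2 + v.1 1 ^ 2 + v.1 2 ^ 2 + v.1 3 ^ 2 = 1 := by
      have h := v.2
      rw [mem_sphere_zero_iff_norm] at h
      have h2 := EuclideanSpace.real_norm_sq_eq v.1
      rw [h, Fin.sum_univ_four] at h2
      linarith
    have e4 : (v.1 0 ^ 2 + v.1 1 ^ 2 - R ^ 2) * (v.1 0 ^ 2 + v.1 1 ^ 2 - S ^ 2) = 0 := by
      have hb : v.1 2 ^ 2 + v.1 3 ^ 2 = 1 - (v.1 0 ^ 2 + v.1 1 ^ 2) := by linarith
      have hab : (v.1 0 ^ 2 + v.1 1 ^ 2) * (v.1 2 ^ 2 + v.1 3 ^ 2) = (R * S) ^ 2 := by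
        have : (v.1 0 ^ 2 + v.1 1 ^ 2) * (v.1 2 ^ 2 + v.1 3 ^ 2) =
          (v.1 0 * v.1 2 - v.1 1 * v.1 3) ^ 2 + (v.1 0 * v.1 3 + v.1 1 * v.1 2) ^ 2 := by ring
        rw [this, e1, e2]
        ring
      rw [hb] at hab
      have : (v.1 0 ^ 2 + v.1 1 ^ 2 - R ^ 2) * (v.1 0 ^ 2 + v.1 1 ^ 2 - S ^ 2) =
        (v.1 0 ^ 2 + v.1 1 ^ 2) ^ 2 - (v.1 0 ^ 2 + v.1 1 ^ 2) * (R ^ 2 + S ^ 2) + (R * S) ^ 2 := by
        ring
      rw [this, hRS, ← hab]
      ring
    rcases mul_eq_zero.1 e4 with h | h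
    · obtain ⟨t, ht0, ht1⟩ := ang R (v.1 0) (v.1 1) hR0 (by linarith)
      refine ⟨⟨k, by have := k.2; omega⟩, t, ?_⟩
      have hsc := Real.sin_sq_add_cos_sq (2 * Real.pi * t)
      unfold hopfPt
      rw [if_pos (show ((⟨k, by have := k.2; omega⟩ : Fin (2 * n)) : ℕ) < n from k.2)]
      rw [ht0, ht1] at e1 e2
      have f1 : Real.cos (2 * Real.pi * t) * v.1 2 - Real.sin (2 * Real.pi * t) * v.1 3 = 0 := by
        have : R * (Real.cos (2 * Real.pi * t) * v.1 2 - Real.sin (2 * Real.pi * t) * v.1 3) = 0 := by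
          rw [← e1]; ring
        exact (mul_eq_zero.1 this).resolve_left hR0.ne'
      have f2 : Real.cos (2 * Real.pi * t) * v.1 3 + Real.sin (2 * Real.pi * t) * v.1 2 = S := by
        have : R * (Real.cos (2 * Real.pi * t) * v.1 3 + Real.sin (2 * Real.pi * t) * v.1 2) = R * S := by
          rw [← e2]; ring
        exact mul_left_cancel₀ hR0.ne' this
      apply mk v R S t ht0 ht1
      · calc v.1 2 = v.1 2 * (Real.sin (2 * Real.pi * t) ^ 2 + Real.cos (2 * Real.pi * t) ^ 2) := by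
              rw [hsc]; ring
          _ = Real.cos (2 * Real.pi * t) * (Real.cos (2 * Real.pi * t) * v.1 2 - Real.sin (2 * Real.pi * t) * v.1 3)
              + Real.sin (2 * Real.pi * t) * (Real.cos (2 * Real.pi * t) * v.1 3 + Real.sin (2 * Real.pi * t) * v.1 2) := by ring
          _ = S * Real.sin (2 * Real.pi * t) := by rw [f1, f2]; ring
      · calc v.1 3 = v.1 3 * (Real.sin (2 * Real.pi * t) ^ 2 + Real.cos (2 * Real.pi * t) ^ 2) := by
              rw [hsc]; ring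
          _ = -Real.sin (2 * Real.pi * t) * (Real.cos (2 * Real.pi * t) * v.1 2 - Real.sin (2 * Real.pi * t) * v.1 3)
              + Real.cos (2 * Real.pi * t) * (Real.cos (2 * Real.pi * t) * v.1 3 + Real.sin (2 * Real.pi * t) * v.1 2) := by ring
          _ = S * Real.cos (2 * Real.pi * t) := by rw [f1, f2]; ring
    · obtain ⟨t, ht3, ht2⟩ := ang R (v.1 3) (v.1 2) hR0 (by linarith)
      refine ⟨⟨k + n, by have := k.2; omega⟩, t, ?_⟩
      have hsc := Real.sin_sq_add_cos_sq (2 * Real.pi * t)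
      unfold hopfPt
      rw [if_neg (show ¬ ((⟨k + n, by have := k.2; omega⟩ : Fin (2 * n)) : ℕ) < n by
        simp)]
      have hkk : ((⟨k + n, by have := k.2; omega⟩ : Fin (2 * n)) : ℕ) - n = (k : ℕ) := by
        simp
      rw [hkk]
      rw [ht3, ht2] at e1 e2
      have f1 : v.1 0 * Real.sin (2 * Real.pi * t) - v.1 1 * Real.cos (2 * Real.pi * t) = 0 := by
        have : R * (v.1 0 * Real.sin (2 * Real.pi * t) - v.1 1 * Real.cos (2 * Real.pi * t)) = 0 := by
          rw [← e1]; ring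
        exact (mul_eq_zero.1 this).resolve_left hR0.ne'
      have f2 : v.1 0 * Real.cos (2 * Real.pi * t) + v.1 1 * Real.sin (2 * Real.pi * t) = S := by
        have : R * (v.1 0 * Real.cos (2 * Real.pi * t) + v.1 1 * Real.sin (2 * Real.pi * t)) = R * S := by
          rw [← e2]; ring
        exact mul_left_cancel₀ hR0.ne' this
      refine mk v S R t ?_ ?_ ht2 ht3
      · calc v.1 0 = v.1 0 * (Real.sin (2 * Real.pi * t) ^ 2 + Real.cos (2 * Real.pi * t) ^ 2) := by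
              rw [hsc]; ring
          _ = Real.sin (2 * Real.pi * t) * (v.1 0 * Real.sin (2 * Real.pi * t) - v.1 1 * Real.cos (2 * Real.pi * t))
              + Real.cos (2 * Real.pi * t) * (v.1 0 * Real.cos (2 * Real.pi * t) + v.1 1 * Real.sin (2 * Real.pi * t)) := by ring
          _ = S * Real.cos (2 * Real.pi * t) := by rw [f1, f2]; ring
      · calc v.1 1 = v.1 1 * (Real.sin (2 * Real.pi * t) ^ 2 + Real.cos (2 * Real.pi * t) ^ 2) := by
              rw [hsc]; ring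
          _ = -Real.cos (2 * Real.pi * t) * (v.1 0 * Real.sin (2 * Real.pi * t) - v.1 1 * Real.cos (2 * Real.pi * t))
              + Real.sin (2 * Real.pi * t) * (v.1 0 * Real.cos (2 * Real.pi * t) + v.1 1 * Real.sin (2 * Real.pi * t)) := by ring
          _ = S * Real.sin (2 * Real.pi * t) := by rw [f1, f2]; ring
  · rintro ⟨i, t, h⟩
    by_cases hi : (i : ℕ) < n
    · exact ⟨⟨i, hi⟩, kap2 v i t hi h⟩
    · have hi2 : (i : ℕ) - n < n := by have := i.2; omega
      unfold hopfPt at h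
      rw [if_neg hi] at h
      refine ⟨⟨i - n, hi2⟩, ?_⟩
      rw [kapc v _ _ t h, mul_comm (hopfS n (i - n)) (hopfR n (i - n)), (rad _ hi2).2.2.2]

end X_hopf_set

alias hopf_set := X_hopf_set.hopf_set

end AltGenus
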