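import Pool.Agent.AltGenus.ChartDefs
import Pool.Agent.AltGenus.P_exists_flatOn
import Pool.Agent.AltGenus.P_half_contractible

open Set Topology Filter

namespace AltGenus

namespace X_rank_HB
theorem rank_HB {g n : ℕ} (hgn : g + 2 ≤ n) (Φ : (ℝ × ℝ) × ℝ → ℝ × ℝ)
    (hΦ : ContinuousOn Φ (HB g)) (hav : ∀ v ∈ HB g, ∀ i : Fin n, Φ v ≠ (0, (i : ℝ))) :
    ∃ (b : Fin 3 → Fin n → ℝ) (f : Fin 3 → (ℝ × ℝ) × ℝ → ℝ),
      (∀ k, FlatOn (b k) Φ (HB g) (f k)) ∧
      ∀ c : Fin 3 → ℝ, (∑ k, c k • b k = 0) → (∀ v ∈ HB g, ∑ k, c k * f k v = 0) → c = 0 := by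
  classical
  obtain ⟨hcU, hcL⟩ := half_contractible g
  have hUsub : HBU g ⊆ HB g := fun v hv => hv.1
  have hLsub : HBL g ⊆ HB g := fun v hv => hv.1
  have hpU : IsPreconnected (HBU g) := by
    rw [isPreconnected_iff_preconnectedSpace]
    infer_instance
  have hpL : IsPreconnected (HBL g) := by
    rw [isPreconnected_iff_preconnectedSpace]
    infer_instance
  let m : ℕ → (ℝ × ℝ) × ℝ := fun k => ((2 * (k : ℝ) + 1 / 2, 3 / 2), 0)
  have hJ : ∀ k ≤ g, ∀ v : (ℝ × ℝ) × ℝ, 2 * (k : ℝ) ≤ v.1.1 → v.1.1 ≤ 2 * k + 1 → v.1.2 = 3 / 2 →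
      0 ≤ v.2 → v.2 ≤ 1 → v ∈ HB g := by
    intro k hk v h1 h2 h3 h4 h5
    have hk' : (k : ℝ) ≤ g := by exact_mod_cast hk
    have hk0 : (0 : ℝ) ≤ k := Nat.cast_nonneg _
    refine ⟨⟨by linarith, by linarith, by rw [h3]; norm_num, by rw [h3]; norm_num, ?_⟩, h4, h5⟩
    rintro j hj ⟨h6, h7, _, _⟩
    have h8 : (j : ℝ) < k := by linarith
    have h9 : j + 1 ≤ k := by exact_mod_cast h8
    have h10 : (j : ℝ) + 1 ≤ k := by exact_mod_cast h9
    linarith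
  have hm : ∀ k ≤ g, m k ∈ HB g := by
    intro k hk
    apply hJ k hk
    · show 2 * (k : ℝ) ≤ 2 * (k : ℝ) + 1 / 2; linarith
    · show 2 * (k : ℝ) + 1 / 2 ≤ 2 * (k : ℝ) + 1; linarith
    · rfl
    · exact le_rfl
    · exact zero_le_one
  have hmU : ∀ k ≤ g, m k ∈ HBU g := fun k hk => ⟨hm k hk, le_rfl⟩
  have hmL : ∀ k ≤ g, m k ∈ HBL g := fun k hk => ⟨hm k hk, le_rfl⟩
  have hexU : ∀ p : (Fin n → ℝ) × ℝ, ∃ f : (ℝ × ℝ) × ℝ → ℝ, FlatOn p.1 Φ (HBU g) f ∧ f (m 0) = p.2 :=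
    fun p => exists_flatOn p.1 Φ (HBU g) (hΦ.mono hUsub) (fun y hy i => hav y (hUsub hy) i) hcU (hmU 0 (Nat.zero_le _)) p.2
  have hexL : ∀ p : (Fin n → ℝ) × ℝ, ∃ f : (ℝ × ℝ) × ℝ → ℝ, FlatOn p.1 Φ (HBL g) f ∧ f (m 0) = p.2 :=
    fun p => exists_flatOn p.1 Φ (HBL g) (hΦ.mono hLsub) (fun y hy i => hav y (hLsub hy) i) hcL (hmL 0 (Nat.zero_le _)) p.2
  choose fU hfU1 hfU2 using hexU
  choose fL hfL1 hfL2 using hexL
  have haddU : ∀ p q, EqOn (fU (p + q)) (fU p + fU q) (HBU g) := by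
    intro p q
    refine (hfU1 (p + q)).eqOn ((hfU1 p).add (hfU1 q)) hpU (hmU 0 (Nat.zero_le _)) ?_
    rw [Pi.add_apply, hfU2, hfU2, hfU2]; rfl
  have haddL : ∀ p q, EqOn (fL (p + q)) (fL p + fL q) (HBL g) := by
    intro p q
    refine (hfL1 (p + q)).eqOn ((hfL1 p).add (hfL1 q)) hpL (hmL 0 (Nat.zero_le _)) ?_
    rw [Pi.add_apply, hfL2, hfL2, hfL2]; rfl
  have hsmU : ∀ (c : ℝ) p, EqOn (fU (c • p)) (c • fU p) (HBU g) := by
    intro c p
    refine (hfU1 (c • p)).eqOn ((hfU1 p).smul c) hpU (hmU 0 (Nat.zero_le _)) ?_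
    rw [Pi.smul_apply, hfU2, hfU2]; rfl
  have hsmL : ∀ (c : ℝ) p, EqOn (fL (c • p)) (c • fL p) (HBL g) := by
    intro c p
    refine (hfL1 (c • p)).eqOn ((hfL1 p).smul c) hpL (hmL 0 (Nat.zero_le _)) ?_
    rw [Pi.smul_apply, hfL2, hfL2]; rfl
  let Λ : ((Fin n → ℝ) × ℝ) →ₗ[ℝ] (Fin g → ℝ) :=
    { toFun := fun p k => fU p (m (k + 1)) - fL p (m (k + 1))
      map_add' := by
        intro p q
        funext k
        have hk : (k : ℕ) + 1 ≤ g := k.2
        simp only [Pi.add_apply]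
        rw [haddU p q (hmU _ hk), haddL p q (hmL _ hk)]
        simp only [Pi.add_apply]
        ring
      map_smul' := by
        intro c p
        funext k
        have hk : (k : ℕ) + 1 ≤ g := k.2
        simp only [Pi.smul_apply, RingHom.id_apply]
        rw [hsmU c p (hmU _ hk), hsmL c p (hmL _ hk)]
        simp only [Pi.smul_apply, smul_eq_mul]
        ring }
  have hrank : 3 ≤ Module.finrank ℝ (LinearMap.ker Λ) := by
    have h1 := LinearMap.finrank_range_add_finrank_ker Λ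
    have h2 : Module.finrank ℝ ((Fin n → ℝ) × ℝ) = n + 1 := by simp
    have h3 : Module.finrank ℝ (LinearMap.range Λ) ≤ g := by
      refine (Submodule.finrank_le _).trans ?_
      simp
    omega
  obtain ⟨P, hP⟩ := exists_linearIndependent_of_le_finrank hrank
  have hP' : LinearIndependent ℝ (fun k => (P k : (Fin n → ℝ) × ℝ)) :=
    hP.map' (Submodule.subtype _) (Submodule.ker_subtype _)
  -- equality on the middle
  have hmid : ∀ p ∈ LinearMap.ker Λ, ∀ v ∈ HB g, v.1.2 = 3 / 2 → fU p v = fL p v := by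
    intro p hp v hv hv3
    obtain ⟨⟨h1, h2, _, _, h5⟩, h6, h7⟩ := hv
    obtain ⟨k, hkg, hk1, hk2⟩ : ∃ k : ℕ, k ≤ g ∧ 2 * (k : ℝ) ≤ v.1.1 ∧ v.1.1 ≤ 2 * k + 1 := by
      have hx0 : 0 ≤ v.1.1 / 2 := by linarith
      have ha := Nat.floor_le hx0
      have hb := Nat.lt_floor_add_one (v.1.1 / 2)
      have hc : ⌊v.1.1 / 2⌋₊ ≤ g := by
        have : ((⌊v.1.1 / 2⌋₊ : ℕ) : ℝ) < (g : ℝ) + 1 := by linarith
        have h' : ⌊v.1.1 / 2⌋₊ < g + 1 := by exact_mod_cast this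
        omega
      refine ⟨⌊v.1.1 / 2⌋₊, hc, by linarith, ?_⟩
      rcases Nat.lt_or_ge ⌊v.1.1 / 2⌋₊ g with hlt | hge
      · by_contra hcon
        push Not at hcon
        apply h5 _ hlt
        refine ⟨hcon, by linarith, ?_, ?_⟩
        · rw [hv3]; norm_num
        · rw [hv3]; norm_num
      · have : ⌊v.1.1 / 2⌋₊ = g := le_antisymm hc hge
        rw [this]; exact h2
    let J : Set ((ℝ × ℝ) × ℝ) := (Icc (2 * (k : ℝ)) (2 * k + 1) ×ˢ {(3 / 2 : ℝ)}) ×ˢ Icc (0 : ℝ) 1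
    have hJc : IsPreconnected J :=
      ((isPreconnected_Icc.prod isPreconnected_singleton).prod isPreconnected_Icc)
    have hJHB : J ⊆ HB g := by
      rintro w ⟨⟨⟨hw1, hw2⟩, hw3⟩, hw4, hw5⟩
      exact hJ k hkg w hw1 hw2 hw3 hw4 hw5
    have hJU : J ⊆ HBU g := by
      intro w hw
      refine ⟨hJHB hw, ?_⟩
      have : w.1.2 = 3 / 2 := hw.1.2
      rw [this]
    have hJL : J ⊆ HBL g := by
      intro w hw
      refine ⟨hJHB hw, ?_⟩
      have : w.1.2 = 3 / 2 := hw.1.2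
      rw [this]
    have hmJ : m k ∈ J := by
      refine ⟨⟨⟨?_, ?_⟩, rfl⟩, le_rfl, zero_le_one⟩
      · show 2 * (k : ℝ) ≤ 2 * (k : ℝ) + 1 / 2; linarith
      · show 2 * (k : ℝ) + 1 / 2 ≤ 2 * (k : ℝ) + 1; linarith
    have hvJ : v ∈ J := ⟨⟨⟨hk1, hk2⟩, hv3⟩, h6, h7⟩
    have heq : fU p (m k) = fL p (m k) := by
      rcases Nat.eq_zero_or_pos k with h0 | h0
      · rw [h0, hfU2, hfL2]
      · have hlt : k - 1 < g := by omega
        have := congrFun (LinearMap.mem_ker.1 hp) ⟨k - 1, hlt⟩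
        have h8 : fU p (m (k - 1 + 1)) - fL p (m (k - 1 + 1)) = 0 := this
        rw [Nat.sub_add_cancel h0] at h8
        linarith
    exact ((hfU1 p).mono hJU).eqOn ((hfL1 p).mono hJL) hJc hmJ heq hvJ
  let F : (Fin n → ℝ) × ℝ → (ℝ × ℝ) × ℝ → ℝ := fun p v => if 3 / 2 ≤ v.1.2 then fU p v else fL p v
  have hF : ∀ p ∈ LinearMap.ker Λ, FlatOn p.1 Φ (HB g) (F p) := by
    intro p hp
    have hFU : FlatOn p.1 Φ (HBU g) (F p) := (hfU1 p).congr (by
      intro v hv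
      show fU p v = if 3 / 2 ≤ v.1.2 then fU p v else fL p v
      rw [if_pos hv.2])
    have hFL : FlatOn p.1 Φ (HBL g) (F p) := (hfL1 p).congr (by
      intro v hv
      show fL p v = if 3 / 2 ≤ v.1.2 then fU p v else fL p v
      split_ifs with h
      · exact (hmid p hp v hv.1 (le_antisymm hv.2 h)).symm
      · rfl)
    have hun : HB g = HBU g ∪ HBL g := by
      ext v
      constructor
      · intro hv
        rcases le_total (3 / 2) v.1.2 with h | h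
        · exact Or.inl ⟨hv, h⟩
        · exact Or.inr ⟨hv, h⟩
      · rintro (h | h)
        · exact h.1
        · exact h.1
    rw [hun]
    apply hFU.union_closed hFL
    · intro y hy hyU
      by_contra hne
      have h1 : y ∈ closure (HBU g) := mem_closure_iff_nhdsWithin_neBot.2 ⟨hne⟩
      have h2 : closure (HBU g) ⊆ {v : (ℝ × ℝ) × ℝ | 3 / 2 ≤ v.1.2} :=
        closure_minimal (fun v hv => hv.2) (isClosed_le continuous_const (continuous_snd.comp continuous_fst))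
      exact hyU ⟨hy.1, h2 h1⟩
    · intro y hy hyL
      by_contra hne
      have h1 : y ∈ closure (HBL g) := mem_closure_iff_nhdsWithin_neBot.2 ⟨hne⟩
      have h2 : closure (HBL g) ⊆ {v : (ℝ × ℝ) × ℝ | v.1.2 ≤ 3 / 2} :=
        closure_minimal (fun v hv => hv.2) (isClosed_le (continuous_snd.comp continuous_fst) continuous_const)
      exact hyL ⟨hy.1, h2 h1⟩
  refine ⟨fun k => (P k : (Fin n → ℝ) × ℝ).1, fun k => F (P k), fun k => hF _ (P k).2, ?_⟩
  intro c hc1 hc2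
  have h0 := hc2 (m 0) (hm 0 (Nat.zero_le _))
  have hFm : ∀ p, F p (m 0) = p.2 := by
    intro p
    show (if 3 / 2 ≤ (m 0).1.2 then fU p (m 0) else fL p (m 0)) = p.2
    rw [if_pos le_rfl]
    exact hfU2 p
  simp only [hFm] at h0
  have hsum : ∑ k, c k • (P k : (Fin n → ℝ) × ℝ) = 0 := by
    apply Prod.ext
    · rw [Prod.fst_sum]
      simpa using hc1
    · rw [Prod.snd_sum]
      simpa using h0
  funext k
  exact Fintype.linearIndependent_iff.1 hP' c hsum k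

end X_rank_HB

alias rank_HB := X_rank_HB.rank_HB

end AltGenus
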