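import Pool.Agent.AltGenus.Defs

open Set Topology Filter

namespace AltGenus

namespace Sanity

/-- planar projection used for the round unknot -/
noncomputable def kap (n : ℕ) (v : S3) : ℝ × ℝ := (v.1 2, n * v.1 3)

/-- round unlink -/
def Lset (n : ℕ) : Set S3 := {v | ∃ i : Fin n, kap n v = (0, (i : ℝ))}

section hemi_homeo
noncomputable section aux9654

private abbrev F3 : Type := EuclideanSpace ℝ (Fin 3)

private def upF (w : F3) : EuclideanSpace ℝ (Fin 4) := !₂[w 0, w 1, w 2, √(1 - ‖w‖ ^ 2)]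

private def dnF (v : EuclideanSpace ℝ (Fin 4)) : F3 := !₂[v 0, v 1, v 2]

private lemma cont_upF : Continuous upF := by
  apply (PiLp.continuous_toLp 2 (fun _ : Fin 4 => ℝ)).comp
  apply continuous_pi
  intro i
  fin_cases i
  · show Continuous (fun w : F3 => w 0)
    fun_prop
  · show Continuous (fun w : F3 => w 1)
    fun_prop
  · show Continuous (fun w : F3 => w 2)
    fun_prop
  · show Continuous (fun w : F3 => √(1 - ‖w‖ ^ 2))
    fun_prop

private lemma cont_dnF : Continuous dnF := by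
  apply (PiLp.continuous_toLp 2 (fun _ : Fin 3 => ℝ)).comp
  apply continuous_pi
  intro i
  fin_cases i
  · show Continuous (fun w : EuclideanSpace ℝ (Fin 4) => w 0)
    fun_prop
  · show Continuous (fun w : EuclideanSpace ℝ (Fin 4) => w 1)
    fun_prop
  · show Continuous (fun w : EuclideanSpace ℝ (Fin 4) => w 2)
    fun_prop

private lemma nsq3 (w : F3) : ‖w‖ ^ 2 = w 0 ^ 2 + w 1 ^ 2 + w 2 ^ 2 := by
  rw [EuclideanSpace.norm_sq_eq, Fin.sum_univ_three]
  simp

private lemma nsq4 (w : EuclideanSpace ℝ (Fin 4)) :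
    ‖w‖ ^ 2 = w 0 ^ 2 + w 1 ^ 2 + w 2 ^ 2 + w 3 ^ 2 := by
  rw [EuclideanSpace.norm_sq_eq, Fin.sum_univ_four]
  simp

private lemma up0 (w : F3) : upF w 0 = w 0 := rfl
private lemma up1 (w : F3) : upF w 1 = w 1 := rfl
private lemma up2 (w : F3) : upF w 2 = w 2 := rfl
private lemma up3 (w : F3) : upF w 3 = √(1 - ‖w‖ ^ 2) := rfl
private lemma dn0 (w : EuclideanSpace ℝ (Fin 4)) : dnF w 0 = w 0 := rfl
private lemma dn1 (w : EuclideanSpace ℝ (Fin 4)) : dnF w 1 = w 1 := rfl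
private lemma dn2 (w : EuclideanSpace ℝ (Fin 4)) : dnF w 2 = w 2 := rfl

private lemma upF_mem (w : F3) (hw : w ∈ Metric.closedBall (0 : F3) 1) :
    upF w ∈ Metric.sphere (0 : EuclideanSpace ℝ (Fin 4)) 1 := by
  rw [mem_closedBall_zero_iff] at hw
  rw [mem_sphere_zero_iff_norm]
  have h0 : 0 ≤ 1 - ‖w‖ ^ 2 := by nlinarith [norm_nonneg w]
  have h1 : ‖upF w‖ ^ 2 = 1 := by
    rw [nsq4, up0, up1, up2, up3, Real.sq_sqrt h0, nsq3]
    ring
  have h2 : 0 ≤ ‖upF w‖ := norm_nonneg _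
  nlinarith

private lemma sph (v : S3) : (v : EuclideanSpace ℝ (Fin 4)) 0 ^ 2 +
    (v : EuclideanSpace ℝ (Fin 4)) 1 ^ 2 + (v : EuclideanSpace ℝ (Fin 4)) 2 ^ 2 +
    (v : EuclideanSpace ℝ (Fin 4)) 3 ^ 2 = 1 := by
  have h := v.2
  rw [mem_sphere_zero_iff_norm] at h
  rw [← nsq4, h]
  norm_num

private lemma dnF_sq (v : S3) : 1 - ‖dnF v‖ ^ 2 = (v : EuclideanSpace ℝ (Fin 4)) 3 ^ 2 := by
  rw [nsq3, dn0, dn1, dn2]
  linarith [sph v]

private lemma dnF_mem (v : S3) : dnF v ∈ Metric.closedBall (0 : F3) 1 := by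
  rw [mem_closedBall_zero_iff]
  have h := dnF_sq v
  nlinarith [norm_nonneg (dnF v), sq_nonneg ((v : EuclideanSpace ℝ (Fin 4)) 3)]

private def ballHemi : Metric.closedBall (0 : F3) 1 ≃ₜ ({v : S3 | 0 ≤ v.1 3} : Set S3) where
  toFun w := ⟨⟨upF w, upF_mem w w.2⟩, Real.sqrt_nonneg _⟩
  invFun v := ⟨dnF (v : S3), dnF_mem v⟩
  left_inv w := by
    apply Subtype.ext
    apply PiLp.ext
    intro i
    fin_cases i <;> rfl
  right_inv v := by
    apply Subtype.ext
    apply Subtype.ext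
    apply PiLp.ext
    intro i
    fin_cases i
    · rfl
    · rfl
    · rfl
    · show √(1 - ‖dnF (v : S3)‖ ^ 2) = _
      rw [dnF_sq]
      exact Real.sqrt_sq v.2
  continuous_toFun := by
    apply Continuous.subtype_mk
    apply Continuous.subtype_mk
    exact cont_upF.comp continuous_subtype_val
  continuous_invFun := by
    apply Continuous.subtype_mk
    exact cont_dnF.comp (continuous_subtype_val.comp continuous_subtype_val)

private lemma HB0_eq : HB 0 = (Icc (0:ℝ) 1 ×ˢ Icc (0:ℝ) 3) ×ˢ Icc (0:ℝ) 1 := by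
  ext ⟨⟨x, y⟩, z⟩
  simp only [HB, PS, mem_prod, mem_setOf_eq, mem_Icc]
  constructor
  · rintro ⟨⟨h1, h2, h3, h4, -⟩, h5⟩
    refine ⟨⟨⟨h1, ?_⟩, h3, h4⟩, h5⟩
    simpa using h2
  · rintro ⟨⟨⟨h1, h2⟩, h3, h4⟩, h5⟩
    refine ⟨⟨h1, ?_, h3, h4, ?_⟩, h5⟩
    · simpa using h2
    · intro j hj
      exact absurd hj (Nat.not_lt_zero j)

end aux9654

theorem hemi_homeo : ∃ h : HB 0 ≃ₜ ({v : S3 | 0 ≤ v.1 3} : Set S3),
    ∀ v : HB 0, (h v : S3).1 3 = 0 ↔ (v : (ℝ × ℝ) × ℝ) ∈ frontier (HB 0) := by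
  let L : ((ℝ × ℝ) × ℝ) ≃L[ℝ] F3 := ContinuousLinearEquiv.ofFinrankEq (by simp)
  have hconv : Convex ℝ (HB 0) := by
    rw [HB0_eq]
    exact ((convex_Icc 0 1).prod (convex_Icc 0 3)).prod (convex_Icc 0 1)
  have hcomp : IsCompact (HB 0) := by
    rw [HB0_eq]
    exact (isCompact_Icc.prod isCompact_Icc).prod isCompact_Icc
  have hint : (interior (HB 0)).Nonempty := by
    rw [HB0_eq, interior_prod_eq, interior_prod_eq, interior_Icc, interior_Icc]
    exact ⟨((1 / 2, 1), 1 / 2), by constructor <;> [constructor; skip] <;> norm_num⟩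
  have hLc : IsCompact (L '' HB 0) := hcomp.image L.continuous
  obtain ⟨h, -, h2, h3⟩ := exists_homeomorph_image_interior_closure_frontier_eq_unitBall
    (s := L '' HB 0) (hconv.linear_image L.toLinearMap) (by
      have : interior (L '' HB 0) = L '' interior (HB 0) :=
        (L.toHomeomorph.image_interior (HB 0)).symm
      rw [this]
      exact hint.image _) hLc.isBounded
  rw [hLc.isClosed.closure_eq] at h2
  let H : ((ℝ × ℝ) × ℝ) ≃ₜ F3 := L.toHomeomorph.trans h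
  have hH : ∀ v, H v = h (L v) := fun v => rfl
  have hH1 : H '' HB 0 = Metric.closedBall 0 1 := by
    rw [← h2, ← image_comp]
    rfl
  have hH2 : H '' frontier (HB 0) = Metric.sphere 0 1 := by
    have h4 : frontier (L '' HB 0) = L '' frontier (HB 0) :=
      (L.toHomeomorph.image_frontier (HB 0)).symm
    rw [← h3, h4, ← image_comp]
    rfl
  refine ⟨((H.image (HB 0)).trans (Homeomorph.setCongr hH1)).trans ballHemi, ?_⟩
  intro v
  show √(1 - ‖H v‖ ^ 2) = 0 ↔ _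
  have h5 : H v ∈ Metric.closedBall (0 : F3) 1 := by
    rw [← hH1]; exact mem_image_of_mem _ v.2
  rw [mem_closedBall_zero_iff] at h5
  have h6 : H v ∈ Metric.sphere (0 : F3) 1 ↔ (v : (ℝ × ℝ) × ℝ) ∈ frontier (HB 0) := by
    rw [← hH2]
    exact H.injective.mem_set_image
  rw [← h6, mem_sphere_zero_iff_norm, Real.sqrt_eq_zero']
  have h7 := norm_nonneg (H v)
  constructor
  · intro h8
    nlinarith
  · intro h8
    rw [h8]
    norm_num

end hemi_homeo

section std_heegaard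
noncomputable def rf_aux (x : EuclideanSpace ℝ (Fin 4)) : EuclideanSpace ℝ (Fin 4) :=
  WithLp.toLp 2 (fun i => if i = 3 then -x i else x i)

theorem rf_aux_apply (x : EuclideanSpace ℝ (Fin 4)) (i : Fin 4) :
    rf_aux x i = if i = 3 then -x i else x i := rfl

theorem rf_aux_norm (x : EuclideanSpace ℝ (Fin 4)) : ‖rf_aux x‖ = ‖x‖ := by
  rw [EuclideanSpace.norm_eq, EuclideanSpace.norm_eq]
  congr 1
  apply Finset.sum_congr rfl
  intro i _
  rw [rf_aux_apply]
  split_ifs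
  · rw [norm_neg]
  · rfl

theorem rf_aux_rf_aux (x : EuclideanSpace ℝ (Fin 4)) : rf_aux (rf_aux x) = x := by
  ext i
  rw [rf_aux_apply, rf_aux_apply]
  split_ifs
  · rw [neg_neg]
  · rfl

theorem rf_aux_cont : Continuous rf_aux := by
  unfold rf_aux
  apply (PiLp.continuous_toLp 2 _).comp
  apply continuous_pi
  intro i
  by_cases h : i = 3
  · simp only [h, if_true]
    exact (EuclideanSpace.proj (3 : Fin 4) : EuclideanSpace ℝ (Fin 4) →L[ℝ] ℝ).continuous.neg
  · simp only [h, if_false]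
    exact (EuclideanSpace.proj i : EuclideanSpace ℝ (Fin 4) →L[ℝ] ℝ).continuous

noncomputable def rfS_aux (v : S3) : S3 := ⟨rf_aux v.1, by
  rw [mem_sphere_zero_iff_norm, rf_aux_norm]
  exact mem_sphere_zero_iff_norm.mp v.2⟩

theorem rfS_aux_three (v : S3) : (rfS_aux v).1 3 = -v.1 3 := by
  show rf_aux v.1 3 = _
  rw [rf_aux_apply]
  simp

theorem rfS_aux_rfS_aux (v : S3) : rfS_aux (rfS_aux v) = v := Subtype.ext (rf_aux_rf_aux v.1)

theorem rfS_aux_cont : Continuous rfS_aux :=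
  Continuous.subtype_mk (rf_aux_cont.comp continuous_subtype_val) _

theorem rfS_aux_mem1 (v : ({v : S3 | 0 ≤ v.1 3} : Set S3)) :
    rfS_aux v.1 ∈ ({v : S3 | v.1 3 ≤ 0} : Set S3) := by
  show (rfS_aux v.1).1 3 ≤ 0
  rw [rfS_aux_three]
  have : 0 ≤ v.1.1 3 := v.2
  linarith

theorem rfS_aux_mem2 (v : ({v : S3 | v.1 3 ≤ 0} : Set S3)) :
    rfS_aux v.1 ∈ ({v : S3 | 0 ≤ v.1 3} : Set S3) := by
  show 0 ≤ (rfS_aux v.1).1 3
  rw [rfS_aux_three]
  have : v.1.1 3 ≤ 0 := v.2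
  linarith

noncomputable def rfH_aux : ({v : S3 | 0 ≤ v.1 3} : Set S3) ≃ₜ ({v : S3 | v.1 3 ≤ 0} : Set S3) where
  toFun v := ⟨rfS_aux v.1, rfS_aux_mem1 v⟩
  invFun v := ⟨rfS_aux v.1, rfS_aux_mem2 v⟩
  left_inv v := Subtype.ext (rfS_aux_rfS_aux v.1)
  right_inv v := Subtype.ext (rfS_aux_rfS_aux v.1)
  continuous_toFun := (rfS_aux_cont.comp continuous_subtype_val).subtype_mk rfS_aux_mem1
  continuous_invFun := (rfS_aux_cont.comp continuous_subtype_val).subtype_mk rfS_aux_mem2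

theorem std_heegaard : ∃ H : Heegaard 0, H.Sig = {v : S3 | v.1 3 = 0} ∧
    H.Wp = {v : S3 | 0 ≤ v.1 3} ∧ H.Wm = {v : S3 | v.1 3 ≤ 0} := by
  obtain ⟨h, hh⟩ := hemi_homeo
  refine ⟨{ Sig := {v : S3 | v.1 3 = 0}
            Wp := {v : S3 | 0 ≤ v.1 3}
            Wm := {v : S3 | v.1 3 ≤ 0}
            union := ?_
            inter := ?_
            hp := h
            hm := h.trans rfH_aux
            hp_mem := ?_
            hm_mem := ?_ }, rfl, rfl, rfl⟩
  · ext v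
    simp only [mem_union, Set.mem_ofPred_eq, mem_univ, iff_true]
    exact le_total _ _
  · ext v
    simp only [mem_inter_iff, Set.mem_ofPred_eq]
    constructor
    · rintro ⟨h1, h2⟩
      exact le_antisymm h2 h1
    · intro h1
      exact ⟨h1.ge, h1.le⟩
  · intro v
    exact hh v
  · intro v
    rw [← hh v]
    have h1 : (((h.trans rfH_aux) v : ({v : S3 | v.1 3 ≤ 0} : Set S3)) : S3) =
        rfS_aux (h v : S3) := rfl
    rw [h1]
    show (rfS_aux (h v : S3)).1 3 = 0 ↔ _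
    rw [rfS_aux_three]
    exact neg_eq_zero

end std_heegaard

section std_collar

noncomputable def scE3 : EuclideanSpace ℝ (Fin 4) := EuclideanSpace.single 3 1

theorem scE3_apply (j : Fin 4) : scE3 j = if j = 3 then 1 else 0 := by
  unfold scE3
  simp

theorem sc_normsq (x : EuclideanSpace ℝ (Fin 4)) :
    ‖x‖ ^ 2 = x 0 ^ 2 + x 1 ^ 2 + x 2 ^ 2 + x 3 ^ 2 := by
  rw [EuclideanSpace.norm_sq_eq, Fin.sum_univ_four]
  simp

theorem sc_norm_one {x : EuclideanSpace ℝ (Fin 4)}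
    (h : x 0 ^ 2 + x 1 ^ 2 + x 2 ^ 2 + x 3 ^ 2 = 1) : x ∈ Metric.sphere (0 : EuclideanSpace ℝ (Fin 4)) 1 := by
  rw [mem_sphere_zero_iff_norm]
  have h1 := sc_normsq x
  rw [h] at h1
  have h2 : 0 ≤ ‖x‖ := norm_nonneg x
  nlinarith

theorem sc_one (v : S3) : v.1 0 ^ 2 + v.1 1 ^ 2 + v.1 2 ^ 2 + v.1 3 ^ 2 = 1 := by
  rw [← sc_normsq]
  have : ‖v.1‖ = 1 := mem_sphere_zero_iff_norm.mp v.2
  rw [this, one_pow]

noncomputable def scF (x : EuclideanSpace ℝ (Fin 4)) (t : ℝ) : EuclideanSpace ℝ (Fin 4) :=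
  (√(1 + t ^ 2))⁻¹ • (x + t • scE3)

noncomputable def scG (x : EuclideanSpace ℝ (Fin 4)) : EuclideanSpace ℝ (Fin 4) :=
  (√(1 - (x 3) ^ 2))⁻¹ • (x - x 3 • scE3)

theorem scF_apply (x : EuclideanSpace ℝ (Fin 4)) (t : ℝ) (j : Fin 4) :
    scF x t j = (√(1 + t ^ 2))⁻¹ * (x j + t * (if j = 3 then 1 else 0)) := by
  unfold scF
  rw [PiLp.smul_apply, PiLp.add_apply, PiLp.smul_apply, scE3_apply]
  simp

theorem scG_apply (x : EuclideanSpace ℝ (Fin 4)) (j : Fin 4) :
    scG x j = (√(1 - (x 3) ^ 2))⁻¹ * (x j - x 3 * (if j = 3 then 1 else 0)) := by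
  unfold scG
  rw [PiLp.smul_apply, PiLp.sub_apply, PiLp.smul_apply, scE3_apply]
  simp

theorem scF_mem (v : S3) (h : v.1 3 = 0) (t : ℝ) :
    scF v.1 t ∈ Metric.sphere (0 : EuclideanSpace ℝ (Fin 4)) 1 := by
  apply sc_norm_one
  have h1 := sc_one v
  have hw : 0 < 1 + t ^ 2 := by positivity
  have hw2 : √(1 + t ^ 2) ≠ 0 := (Real.sqrt_pos.mpr hw).ne'
  have hw3 : ((√(1 + t ^ 2))⁻¹) ^ 2 * (1 + t ^ 2) = 1 := by
    rw [inv_pow, Real.sq_sqrt hw.le, inv_mul_cancel₀ hw.ne']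
  rw [h] at h1
  simp only [scF_apply, h]
  rw [if_neg (by decide), if_neg (by decide), if_neg (by decide), if_pos trivial]
  have e : ((√(1 + t ^ 2))⁻¹ * (v.1 0 + t * 0)) ^ 2 + ((√(1 + t ^ 2))⁻¹ * (v.1 1 + t * 0)) ^ 2 +
      ((√(1 + t ^ 2))⁻¹ * (v.1 2 + t * 0)) ^ 2 + ((√(1 + t ^ 2))⁻¹ * (0 + t * 1)) ^ 2 =
      ((√(1 + t ^ 2))⁻¹) ^ 2 * ((v.1 0 ^ 2 + v.1 1 ^ 2 + v.1 2 ^ 2 + 0 ^ 2) + t ^ 2) := by ring
  rw [e, h1, hw3]

theorem scG_mem (v : S3) (h : |v.1 3| < 1) :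
    scG v.1 ∈ Metric.sphere (0 : EuclideanSpace ℝ (Fin 4)) 1 := by
  apply sc_norm_one
  have h1 := sc_one v
  have hw : 0 < 1 - (v.1 3) ^ 2 := by
    have := (sq_lt_one_iff_abs_lt_one (v.1 3)).mpr h
    linarith
  have hw3 : ((√(1 - (v.1 3) ^ 2))⁻¹) ^ 2 * (1 - (v.1 3) ^ 2) = 1 := by
    rw [inv_pow, Real.sq_sqrt hw.le, inv_mul_cancel₀ hw.ne']
  simp only [scG_apply]
  rw [if_neg (by decide), if_neg (by decide), if_neg (by decide), if_pos trivial]
  have e : ((√(1 - (v.1 3) ^ 2))⁻¹ * (v.1 0 - v.1 3 * 0)) ^ 2 +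
      ((√(1 - (v.1 3) ^ 2))⁻¹ * (v.1 1 - v.1 3 * 0)) ^ 2 +
      ((√(1 - (v.1 3) ^ 2))⁻¹ * (v.1 2 - v.1 3 * 0)) ^ 2 +
      ((√(1 - (v.1 3) ^ 2))⁻¹ * (v.1 3 - v.1 3 * 1)) ^ 2 =
      ((√(1 - (v.1 3) ^ 2))⁻¹) ^ 2 * ((v.1 0 ^ 2 + v.1 1 ^ 2 + v.1 2 ^ 2 + v.1 3 ^ 2) - v.1 3 ^ 2) := by
    ring
  rw [e, h1, hw3]

theorem scG_three (v : S3) : scG v.1 3 = 0 := by
  rw [scG_apply, if_pos rfl]
  ring

theorem scF_three (v : S3) (h : v.1 3 = 0) (t : ℝ) : scF v.1 t 3 = t / √(1 + t ^ 2) := by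
  rw [scF_apply, if_pos rfl, h]
  ring

theorem sc_abs (t : ℝ) : |t / √(1 + t ^ 2)| < 1 := by
  have hw : 0 < 1 + t ^ 2 := by positivity
  have hw2 : 0 < √(1 + t ^ 2) := Real.sqrt_pos.mpr hw
  rw [abs_div, abs_of_pos hw2, div_lt_one hw2]
  apply Real.lt_sqrt_of_sq_lt
  rw [sq_abs]
  linarith

theorem sc_sqrt1 (t : ℝ) : √(1 - (t / √(1 + t ^ 2)) ^ 2) = (√(1 + t ^ 2))⁻¹ := by
  have hw : 0 < 1 + t ^ 2 := by positivity
  rw [div_pow, Real.sq_sqrt hw.le]
  have : 1 - t ^ 2 / (1 + t ^ 2) = (1 + t ^ 2)⁻¹ := by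
    field_simp
    ring
  rw [this, Real.sqrt_inv]

theorem sc_sqrt2 (a : ℝ) (h : |a| < 1) :
    √(1 + (a / √(1 - a ^ 2)) ^ 2) = (√(1 - a ^ 2))⁻¹ := by
  have hw : 0 < 1 - a ^ 2 := by
    have := (sq_lt_one_iff_abs_lt_one a).mpr h
    linarith
  rw [div_pow, Real.sq_sqrt hw.le]
  have : 1 + a ^ 2 / (1 - a ^ 2) = (1 - a ^ 2)⁻¹ := by
    field_simp
    ring
  rw [this, Real.sqrt_inv]

theorem sc_GF (v : S3) (h : v.1 3 = 0) (t : ℝ) : scG (scF v.1 t) = v.1 := by
  have hw : 0 < 1 + t ^ 2 := by positivity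
  have hw2 : √(1 + t ^ 2) ≠ 0 := (Real.sqrt_pos.mpr hw).ne'
  ext j
  rw [scG_apply, scF_three v h, sc_sqrt1, scF_apply, inv_inv]
  by_cases hj : j = 3
  · rw [if_pos hj, hj, h]
    field_simp
    ring
  · rw [if_neg hj]
    field_simp
    ring

theorem sc_FG (v : S3) (h : |v.1 3| < 1) :
    scF (scG v.1) (v.1 3 / √(1 - (v.1 3) ^ 2)) = v.1 := by
  have hw : 0 < 1 - (v.1 3) ^ 2 := by
    have := (sq_lt_one_iff_abs_lt_one (v.1 3)).mpr h
    linarith
  have hw2 : √(1 - (v.1 3) ^ 2) ≠ 0 := (Real.sqrt_pos.mpr hw).ne'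
  ext j
  rw [scF_apply, scG_apply, sc_sqrt2 _ h, inv_inv]
  by_cases hj : j = 3
  · rw [if_pos hj, hj]
    field_simp
    ring
  · rw [if_neg hj]
    field_simp
    ring

theorem sc_contF : Continuous fun p : EuclideanSpace ℝ (Fin 4) × ℝ => scF p.1 p.2 := by
  unfold scF
  have h1 : Continuous fun p : EuclideanSpace ℝ (Fin 4) × ℝ => (√(1 + p.2 ^ 2))⁻¹ := by
    apply Continuous.inv₀
    · fun_prop
    · intro p
      have : 0 < 1 + p.2 ^ 2 := by positivity
      exact (Real.sqrt_pos.mpr this).ne'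
  have h2 : Continuous fun p : EuclideanSpace ℝ (Fin 4) × ℝ => p.1 + p.2 • scE3 := by fun_prop
  exact h1.smul h2

theorem std_collar {g : ℕ} (H : Heegaard g) (hS : H.Sig = {v : S3 | v.1 3 = 0})
    (hp : H.Wp = {v : S3 | 0 ≤ v.1 3}) (hm : H.Wm = {v : S3 | v.1 3 ≤ 0}) :
    ∃ E : Collar H, (∀ (s : H.Sig) (t : ℝ), (E.e (s, t)).1 3 = t / √(1 + t ^ 2) ∧
      ∀ j : Fin 4, j ≠ 3 → (E.e (s, t)).1 j = (s : S3).1 j / √(1 + t ^ 2)) ∧
      range E.e = {v : S3 | |v.1 3| < 1} := by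
  have hs : ∀ s : H.Sig, (s : S3).1 3 = 0 := fun s => (Set.ext_iff.mp hS s).mp s.2
  have hs' : ∀ v : S3, v.1 3 = 0 → v ∈ H.Sig := fun v hv => (Set.ext_iff.mp hS v).mpr hv
  have hc3 : Continuous fun v : S3 => v.1 3 := by fun_prop
  let O : Set S3 := {v : S3 | |v.1 3| < 1}
  have hO : IsOpen O := isOpen_lt (continuous_abs.comp hc3) continuous_const
  let e : H.Sig × ℝ → S3 := fun p => ⟨scF p.1.1.1 p.2, scF_mem p.1.1 (hs p.1) p.2⟩
  have he : Continuous e := by
    apply Continuous.subtype_mk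
    exact sc_contF.comp (Continuous.prodMk
      (continuous_subtype_val.comp (continuous_subtype_val.comp continuous_fst)) continuous_snd)
  have heO : ∀ p, e p ∈ O := by
    intro p
    show |scF p.1.1.1 p.2 3| < 1
    rw [scF_three _ (hs p.1)]
    exact sc_abs p.2
  let f : O → H.Sig × ℝ := fun v =>
    (⟨⟨scG v.1.1, scG_mem v.1 v.2⟩, hs' _ (scG_three v.1)⟩, v.1.1 3 / √(1 - (v.1.1 3) ^ 2))
  have hsq : ∀ v : O, √(1 - (v.1.1 3) ^ 2) ≠ 0 := by
    intro v
    have hw : 0 < 1 - (v.1.1 3) ^ 2 := by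
      have := (sq_lt_one_iff_abs_lt_one (v.1.1 3)).mpr v.2
      linarith
    exact (Real.sqrt_pos.mpr hw).ne'
  have hcO : Continuous fun v : O => v.1.1 3 := hc3.comp continuous_subtype_val
  have hf : Continuous f := by
    apply Continuous.prodMk
    · apply Continuous.subtype_mk
      apply Continuous.subtype_mk
      unfold scG
      have h1 : Continuous fun v : O => (√(1 - (v.1.1 3) ^ 2))⁻¹ := by
        apply Continuous.inv₀
        · exact (continuous_const.sub (hcO.pow 2)).sqrt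
        · exact hsq
      apply h1.smul
      exact (continuous_subtype_val.comp continuous_subtype_val).sub
        (hcO.smul continuous_const)
    · apply hcO.div
      · exact (continuous_const.sub (hcO.pow 2)).sqrt
      · exact hsq
  let h : H.Sig × ℝ ≃ₜ O :=
    { toFun := fun p => ⟨e p, heO p⟩
      invFun := f
      left_inv := by
        rintro ⟨s, t⟩
        apply Prod.ext
        · apply Subtype.ext
          apply Subtype.ext
          exact sc_GF s.1 (hs s) t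
        · show (scF s.1.1 t 3) / √(1 - (scF s.1.1 t 3) ^ 2) = t
          rw [scF_three _ (hs s), sc_sqrt1]
          have hw : 0 < 1 + t ^ 2 := by positivity
          have hw2 : √(1 + t ^ 2) ≠ 0 := (Real.sqrt_pos.mpr hw).ne'
          field_simp
      right_inv := by
        intro v
        apply Subtype.ext
        apply Subtype.ext
        exact sc_FG v.1 v.2
      continuous_toFun := he.subtype_mk _
      continuous_invFun := hf }
  have hemb : IsOpenEmbedding e := by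
    have : e = Subtype.val ∘ h := rfl
    rw [this]
    exact hO.isOpenEmbedding_subtypeVal.comp h.isOpenEmbedding
  have hfin : ∀ (s : H.Sig) (t : ℝ), (e (s, t)).1 3 = t / √(1 + t ^ 2) := fun s t =>
    scF_three s.1 (hs s) t
  refine ⟨⟨e, hemb, ?_, ?_, ?_⟩, ?_, ?_⟩
  · intro s
    apply Subtype.ext
    show scF s.1.1 0 = s.1.1
    unfold scF
    simp
  · intro s t ht
    rw [hp]
    show 0 ≤ (e (s, t)).1 3
    rw [hfin]
    positivity
  · intro s t ht
    rw [hm]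
    show (e (s, t)).1 3 ≤ 0
    rw [hfin]
    exact div_nonpos_of_nonpos_of_nonneg ht (Real.sqrt_nonneg _)
  · intro s t
    refine ⟨hfin s t, fun j hj => ?_⟩
    show scF s.1.1 t j = _
    rw [scF_apply, if_neg hj]
    ring
  · show range e = O
    ext v
    constructor
    · rintro ⟨p, rfl⟩
      exact heO p
    · intro hv
      exact ⟨h.symm ⟨v, hv⟩, congrArg Subtype.val (h.apply_symm_apply ⟨v, hv⟩)⟩

end std_collar

section std_chart
theorem norm4 (v : EuclideanSpace ℝ (Fin 4)) :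
    v ∈ Metric.sphere (0 : EuclideanSpace ℝ (Fin 4)) 1 ↔
      v 0 ^ 2 + v 1 ^ 2 + v 2 ^ 2 + v 3 ^ 2 = 1 := by
  rw [mem_sphere_zero_iff_norm, EuclideanSpace.norm_eq, Real.sqrt_eq_one, Fin.sum_univ_four]
  simp only [Real.norm_eq_abs, sq_abs]

/-- the vector of the chart -/
noncomputable def vec4 (A B : ℝ) (p : ℝ × ℝ) : EuclideanSpace ℝ (Fin 4) :=
  WithLp.toLp 2 ![(A - B * p.1) / (√(1 + p.1 ^ 2) * √(1 + p.2 ^ 2)),
    (B + A * p.1) / (√(1 + p.1 ^ 2) * √(1 + p.2 ^ 2)), p.2 / √(1 + p.2 ^ 2), 0]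

theorem vec4_0 (A B : ℝ) (p : ℝ × ℝ) :
    vec4 A B p 0 = (A - B * p.1) / (√(1 + p.1 ^ 2) * √(1 + p.2 ^ 2)) := rfl
theorem vec4_1 (A B : ℝ) (p : ℝ × ℝ) :
    vec4 A B p 1 = (B + A * p.1) / (√(1 + p.1 ^ 2) * √(1 + p.2 ^ 2)) := rfl
theorem vec4_2 (A B : ℝ) (p : ℝ × ℝ) : vec4 A B p 2 = p.2 / √(1 + p.2 ^ 2) := rfl
theorem vec4_3 (A B : ℝ) (p : ℝ × ℝ) : vec4 A B p 3 = 0 := rfl

theorem continuous_vec4 (A B : ℝ) : Continuous (vec4 A B) := by
  have h1 : ∀ x : ℝ, √(1 + x ^ 2) ≠ 0 := fun x => by positivity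
  unfold vec4
  refine (PiLp.continuous_toLp 2 _).comp ?_
  refine continuous_pi fun i => ?_
  fin_cases i
  · simp only [Fin.zero_eta, Matrix.cons_val_zero]
    exact Continuous.div (by fun_prop) (by fun_prop) (fun p => mul_ne_zero (h1 _) (h1 _))
  · simp only [Fin.mk_one, Matrix.cons_val_one, Matrix.cons_val_zero]
    exact Continuous.div (by fun_prop) (by fun_prop) (fun p => mul_ne_zero (h1 _) (h1 _))
  · simp only [Fin.reduceFinMk, Matrix.cons_val]
    exact Continuous.div (by fun_prop) (by fun_prop) (fun p => h1 _)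
  · simp only [Fin.reduceFinMk, Matrix.cons_val]
    exact continuous_const

theorem std_chart (Sig : Set S3) (hS : Sig = {v : S3 | v.1 3 = 0}) (s : Sig)
    (hs : (s : S3).1 2 = 0) :
    ∃ χ : ℝ × ℝ → Sig, IsOpenEmbedding χ ∧ χ (0, 0) = s ∧
      ∀ x y, (χ (x, y) : S3).1 2 = 0 ↔ y = 0 := by
  subst hS
  obtain ⟨A, hA⟩ : ∃ A, A = (s : S3).1 0 := ⟨_, rfl⟩
  obtain ⟨B, hB⟩ : ∃ B, B = (s : S3).1 1 := ⟨_, rfl⟩
  have hs3 : (s : S3).1 3 = 0 := s.2
  have hAB : A ^ 2 + B ^ 2 = 1 := by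
    have := (norm4 (s : S3).1).1 (s : S3).2
    rw [hs, hs3, ← hA, ← hB] at this
    linarith
  have hsq : ∀ x : ℝ, √(1 + x ^ 2) ^ 2 = 1 + x ^ 2 := fun x => Real.sq_sqrt (by positivity)
  have hpos : ∀ x : ℝ, 0 < √(1 + x ^ 2) := fun x => by positivity
  have hmem : ∀ p : ℝ × ℝ, vec4 A B p ∈ Metric.sphere (0 : EuclideanSpace ℝ (Fin 4)) 1 := by
    intro p
    rw [norm4, vec4_0, vec4_1, vec4_2, vec4_3]
    have h1 := hsq p.1
    have h2 := hsq p.2
    have h3 := (hpos p.1).ne'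
    have h4 := (hpos p.2).ne'
    rw [div_pow, div_pow, div_pow, mul_pow, h1, h2]
    have h5 : (1 + p.1 ^ 2 : ℝ) ≠ 0 := by positivity
    have h6 : (1 + p.2 ^ 2 : ℝ) ≠ 0 := by positivity
    have h7 : (A - B * p.1) ^ 2 + (B + A * p.1) ^ 2 = 1 + p.1 ^ 2 := by
      have : (A - B * p.1) ^ 2 + (B + A * p.1) ^ 2 = (A ^ 2 + B ^ 2) * (1 + p.1 ^ 2) := by ring
      rw [this, hAB, one_mul]
    rw [← add_div, h7]
    field_simp
    ring
  have hD : ∀ p : ℝ × ℝ, A * vec4 A B p 0 + B * vec4 A B p 1 =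
      1 / (√(1 + p.1 ^ 2) * √(1 + p.2 ^ 2)) := by
    intro p
    rw [vec4_0, vec4_1, ← mul_div_assoc, ← mul_div_assoc, ← add_div]
    congr 1
    have : A * (A - B * p.1) + B * (B + A * p.1) = A ^ 2 + B ^ 2 := by ring
    rw [this, hAB]
  have hE : ∀ p : ℝ × ℝ, A * vec4 A B p 1 - B * vec4 A B p 0 =
      p.1 / (√(1 + p.1 ^ 2) * √(1 + p.2 ^ 2)) := by
    intro p
    rw [vec4_0, vec4_1, ← mul_div_assoc, ← mul_div_assoc, ← sub_div]
    congr 1
    have : A * (B + A * p.1) - B * (A - B * p.1) = (A ^ 2 + B ^ 2) * p.1 := by ring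
    rw [this, hAB, one_mul]
  have hR : ∀ p : ℝ × ℝ, vec4 A B p 0 ^ 2 + vec4 A B p 1 ^ 2 = (1 / √(1 + p.2 ^ 2)) ^ 2 := by
    intro p
    have h0 := (norm4 _).1 (hmem p)
    rw [vec4_2, vec4_3] at h0
    have h2 := hsq p.2
    have h4 := (hpos p.2).ne'
    have h5 : (p.2 / √(1 + p.2 ^ 2)) ^ 2 + (1 / √(1 + p.2 ^ 2)) ^ 2 = 1 := by
      rw [div_pow, div_pow, h2, ← add_div]
      have h6 : (1 + p.2 ^ 2 : ℝ) ≠ 0 := by positivity
      field_simp
      ring
    linarith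
  let Sg : Set S3 := {v : S3 | v.1 3 = 0}
  let U : Set Sg := {v : Sg | 0 < A * (v : S3).1 0 + B * (v : S3).1 1}
  have hcoord : ∀ i : Fin 4, Continuous (fun v : Sg => (v : S3).1 i) := by
    intro i
    fun_prop
  have hUo : IsOpen U := by
    refine isOpen_lt continuous_const ?_
    exact ((continuous_const.mul (hcoord 0)).add (continuous_const.mul (hcoord 1)))
  have hUR : ∀ v : Sg, v ∈ U → 0 < (v : S3).1 0 ^ 2 + (v : S3).1 1 ^ 2 := by
    intro v hv
    have hv' : 0 < A * (v : S3).1 0 + B * (v : S3).1 1 := hv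
    by_contra hle
    push Not at hle
    have h0 : (v : S3).1 0 = 0 := by nlinarith [sq_nonneg ((v : S3).1 0), sq_nonneg ((v : S3).1 1)]
    have h1 : (v : S3).1 1 = 0 := by nlinarith [sq_nonneg ((v : S3).1 0), sq_nonneg ((v : S3).1 1)]
    rw [h0, h1] at hv'
    simp at hv'
  let e : (ℝ × ℝ) ≃ₜ U :=
    { toFun := fun p => ⟨⟨⟨vec4 A B p, hmem p⟩, vec4_3 A B p⟩, by
        show 0 < A * vec4 A B p 0 + B * vec4 A B p 1
        rw [hD p]
        have := hpos p.1
        have := hpos p.2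
        positivity⟩
      invFun := fun v => ((A * (v : Sg).1.1 1 - B * (v : Sg).1.1 0) /
          (A * (v : Sg).1.1 0 + B * (v : Sg).1.1 1),
        (v : Sg).1.1 2 / √((v : Sg).1.1 0 ^ 2 + (v : Sg).1.1 1 ^ 2))
      left_inv := by
        intro p
        have h3 := (hpos p.1).ne'
        have h4 := (hpos p.2).ne'
        apply Prod.ext
        · show (A * vec4 A B p 1 - B * vec4 A B p 0) / (A * vec4 A B p 0 + B * vec4 A B p 1) = p.1
          rw [hD, hE]
          field_simp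
        · show vec4 A B p 2 / √(vec4 A B p 0 ^ 2 + vec4 A B p 1 ^ 2) = p.2
          rw [hR, Real.sqrt_sq (by positivity), vec4_2]
          field_simp
      right_inv := by
        intro v
        obtain ⟨v, hv⟩ := v
        have hDp : 0 < A * (v : S3).1 0 + B * (v : S3).1 1 := hv
        have hRp := hUR v hv
        have hn := (norm4 (v : S3).1).1 (v : S3).2
        have hv3 : (v : S3).1 3 = 0 := v.2
        have hR2 : √((v : S3).1 0 ^ 2 + (v : S3).1 1 ^ 2) ^ 2 =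
            (v : S3).1 0 ^ 2 + (v : S3).1 1 ^ 2 := Real.sq_sqrt hRp.le
        have hRpos : 0 < √((v : S3).1 0 ^ 2 + (v : S3).1 1 ^ 2) := Real.sqrt_pos.2 hRp
        set R := √((v : S3).1 0 ^ 2 + (v : S3).1 1 ^ 2) with hRdef
        set D := A * (v : S3).1 0 + B * (v : S3).1 1 with hDdef
        have hu : √(1 + ((A * (v : S3).1 1 - B * (v : S3).1 0) / D) ^ 2) = R / D := by
          have : 1 + ((A * (v : S3).1 1 - B * (v : S3).1 0) / D) ^ 2 = (R / D) ^ 2 := by
            rw [div_pow, div_pow, hR2]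
            have hD2 : D ^ 2 ≠ 0 := by positivity
            rw [eq_div_iff hD2, add_mul, div_mul_cancel₀ _ hD2, hDdef]
            have : 1 * (A * (v : S3).1 0 + B * (v : S3).1 1) ^ 2 +
              (A * (v : S3).1 1 - B * (v : S3).1 0) ^ 2 =
              (A ^ 2 + B ^ 2) * ((v : S3).1 0 ^ 2 + (v : S3).1 1 ^ 2) := by ring
            rw [this, hAB, one_mul]
          rw [this, Real.sqrt_sq (by positivity)]
        have hw : √(1 + ((v : S3).1 2 / R) ^ 2) = 1 / R := by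
          have : 1 + ((v : S3).1 2 / R) ^ 2 = (1 / R) ^ 2 := by
            rw [div_pow, div_pow, hR2]
            rw [eq_div_iff hRp.ne', add_mul, div_mul_cancel₀ _ hRp.ne']
            rw [hv3] at hn
            linarith
          rw [this, Real.sqrt_sq (by positivity)]
        apply Subtype.ext
        apply Subtype.ext
        apply Subtype.ext
        have hDne := hDp.ne'
        have hRne := hRpos.ne'
        have huw : R / D * (1 / R) = 1 / D := by field_simp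
        ext i
        fin_cases i
        · show vec4 A B ((A * (v : S3).1 1 - B * (v : S3).1 0) / D, (v : S3).1 2 / R) 0 = _
          rw [vec4_0]
          simp only
          rw [hu, hw, huw, div_div_eq_mul_div, div_one]
          have : (A - B * ((A * (v : S3).1 1 - B * (v : S3).1 0) / D)) * D =
            A * D - B * (A * (v : S3).1 1 - B * (v : S3).1 0) := by
            field_simp
          rw [this, hDdef]
          have : A * (A * (v : S3).1 0 + B * (v : S3).1 1) -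
            B * (A * (v : S3).1 1 - B * (v : S3).1 0) = (A ^ 2 + B ^ 2) * (v : S3).1 0 := by ring
          rw [this, hAB, one_mul]
          rfl
        · show vec4 A B ((A * (v : S3).1 1 - B * (v : S3).1 0) / D, (v : S3).1 2 / R) 1 = _
          rw [vec4_1]
          simp only
          rw [hu, hw, huw, div_div_eq_mul_div, div_one]
          have : (B + A * ((A * (v : S3).1 1 - B * (v : S3).1 0) / D)) * D =
            B * D + A * (A * (v : S3).1 1 - B * (v : S3).1 0) := by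
            field_simp
          rw [this, hDdef]
          have : B * (A * (v : S3).1 0 + B * (v : S3).1 1) +
            A * (A * (v : S3).1 1 - B * (v : S3).1 0) = (A ^ 2 + B ^ 2) * (v : S3).1 1 := by ring
          rw [this, hAB, one_mul]
          rfl
        · show vec4 A B ((A * (v : S3).1 1 - B * (v : S3).1 0) / D, (v : S3).1 2 / R) 2 = _
          rw [vec4_2]
          simp only
          rw [hw]
          have : (v : S3).1 2 / R / (1 / R) = (v : S3).1 2 := by field_simp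
          rw [this]
          rfl
        · show vec4 A B ((A * (v : S3).1 1 - B * (v : S3).1 0) / D, (v : S3).1 2 / R) 3 = _
          rw [vec4_3]
          exact hv3.symm
      continuous_toFun := by
        refine Continuous.subtype_mk (Continuous.subtype_mk (Continuous.subtype_mk
          (continuous_vec4 A B) _) _) _
      continuous_invFun := by
        have hc : ∀ i : Fin 4, Continuous (fun v : U => (v : Sg).1.1 i) := fun i =>
          (hcoord i).comp continuous_subtype_val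
        refine Continuous.prodMk ?_ ?_
        · refine Continuous.div ((continuous_const.mul (hc 1)).sub (continuous_const.mul (hc 0)))
            ((continuous_const.mul (hc 0)).add (continuous_const.mul (hc 1))) (fun v => ?_)
          exact (v.2 : 0 < A * (v : Sg).1.1 0 + B * (v : Sg).1.1 1).ne'
        · refine Continuous.div (hc 2) (((hc 0).pow 2).add ((hc 1).pow 2)).sqrt (fun v => ?_)
          exact (Real.sqrt_pos.2 (hUR v.1 v.2)).ne' }
  refine ⟨fun p => (e p : Sg), ?_, ?_, ?_⟩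
  · exact (hUo.isOpenEmbedding_subtypeVal).comp e.isOpenEmbedding
  · apply Subtype.ext
    apply Subtype.ext
    show vec4 A B (0, 0) = (s : S3).1
    ext i
    fin_cases i
    · show vec4 A B (0, 0) 0 = (s : S3).1 0
      rw [vec4_0]; simp [hA]
    · show vec4 A B (0, 0) 1 = (s : S3).1 1
      rw [vec4_1]; simp [hB]
    · show vec4 A B (0, 0) 2 = (s : S3).1 2
      rw [vec4_2]; simp [hs]
    · show vec4 A B (0, 0) 3 = (s : S3).1 3
      rw [vec4_3]; exact hs3.symm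
  · intro x y
    show vec4 A B (x, y) 2 = 0 ↔ y = 0
    rw [vec4_2]
    simp only
    rw [div_eq_zero_iff]
    constructor
    · rintro (h | h)
      · exact h
      · exact absurd h (hpos y).ne'
    · exact fun h => Or.inl h

end std_chart

section std_cell
/-- the open hemisphere of sign `σ` of the 2-sphere -/
def Dhemi_9661 (σ : ℝ) : Set {v : S3 | v.1 3 = 0} := {v | 0 < σ * (v : S3).1 2}

theorem ball_iff_9661 (x : EuclideanSpace ℝ (Fin 2)) :
    x ∈ Metric.ball (0 : EuclideanSpace ℝ (Fin 2)) 1 ↔ x 0 ^ 2 + x 1 ^ 2 < 1 := by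
  rw [mem_ball_zero_iff, ← sq_lt_one_iff₀ (norm_nonneg x), EuclideanSpace.norm_sq_eq,
    Fin.sum_univ_two]
  simp only [Real.norm_eq_abs, sq_abs]

theorem sphere_iff_9661 (x : EuclideanSpace ℝ (Fin 4)) :
    x ∈ Metric.sphere (0 : EuclideanSpace ℝ (Fin 4)) 1 ↔
      x 0 ^ 2 + x 1 ^ 2 + x 2 ^ 2 + x 3 ^ 2 = 1 := by
  rw [mem_sphere_zero_iff_norm, ← pow_eq_one_iff_of_nonneg (norm_nonneg x) two_ne_zero,
    EuclideanSpace.norm_sq_eq, Fin.sum_univ_four]
  simp only [Real.norm_eq_abs, sq_abs]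

/-- graph map -/
noncomputable def G_9661 (σ : ℝ) (x : EuclideanSpace ℝ (Fin 2)) : EuclideanSpace ℝ (Fin 4) :=
  !₂[x 0, x 1, σ * √(1 - x 0 ^ 2 - x 1 ^ 2), 0]

theorem G_cont_9661 (σ : ℝ) : Continuous (G_9661 σ) := by
  unfold G_9661
  refine (PiLp.continuous_toLp 2 _).comp (continuous_pi (fun i => ?_))
  fin_cases i <;> simp <;> fun_prop

theorem proj_cont_9661 : Continuous (fun v : EuclideanSpace ℝ (Fin 4) =>
    (!₂[v 0, v 1] : EuclideanSpace ℝ (Fin 2))) := by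
  refine (PiLp.continuous_toLp 2 _).comp (continuous_pi (fun i => ?_))
  fin_cases i <;> simp <;> fun_prop

theorem G_sphere_9661 (σ : ℝ) (hσ : σ * σ = 1) (x : EuclideanSpace ℝ (Fin 2))
    (hx : x ∈ Metric.ball (0 : EuclideanSpace ℝ (Fin 2)) 1) :
    G_9661 σ x ∈ Metric.sphere (0 : EuclideanSpace ℝ (Fin 4)) 1 := by
  rw [ball_iff_9661] at hx
  rw [sphere_iff_9661]
  have h0 : G_9661 σ x 0 = x 0 := rfl
  have h1 : G_9661 σ x 1 = x 1 := rfl
  have h2 : G_9661 σ x 2 = σ * √(1 - x 0 ^ 2 - x 1 ^ 2) := rfl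
  have h3 : G_9661 σ x 3 = 0 := rfl
  rw [h0, h1, h2, h3, mul_pow, Real.sq_sqrt (by linarith)]
  nlinarith

/-- the hemisphere is a disk -/
noncomputable def homeo_9661 (σ : ℝ) (hσ : σ * σ = 1) :
    Metric.ball (0 : EuclideanSpace ℝ (Fin 2)) 1 ≃ₜ Dhemi_9661 σ where
  toFun x := ⟨⟨⟨G_9661 σ x.1, G_sphere_9661 σ hσ x.1 x.2⟩, rfl⟩, by
    have hx := (ball_iff_9661 x.1).1 x.2
    show 0 < σ * (σ * √(1 - x.1 0 ^ 2 - x.1 1 ^ 2))
    rw [← mul_assoc, hσ, one_mul]
    exact Real.sqrt_pos.2 (by linarith)⟩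
  invFun v := ⟨!₂[v.1.1.1 0, v.1.1.1 1], by
    rw [ball_iff_9661]
    have h1 := (sphere_iff_9661 v.1.1.1).1 v.1.1.2
    have h2 : v.1.1.1 3 = 0 := v.1.2
    have h3 : 0 < σ * v.1.1.1 2 := v.2
    have h4 : 0 < v.1.1.1 2 ^ 2 := by
      have : v.1.1.1 2 ≠ 0 := by
        intro h; rw [h] at h3; simp at h3
      positivity
    show v.1.1.1 0 ^ 2 + v.1.1.1 1 ^ 2 < 1
    rw [h2] at h1
    linarith⟩
  left_inv x := by
    apply Subtype.ext
    ext i
    fin_cases i <;> rfl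
  right_inv v := by
    apply Subtype.ext
    apply Subtype.ext
    apply Subtype.ext
    have h1 := (sphere_iff_9661 v.1.1.1).1 v.1.1.2
    have h2 : v.1.1.1 3 = 0 := v.1.2
    have h3 : 0 < σ * v.1.1.1 2 := v.2
    have h4 : σ * √(1 - v.1.1.1 0 ^ 2 - v.1.1.1 1 ^ 2) = v.1.1.1 2 := by
      have h5 : 1 - v.1.1.1 0 ^ 2 - v.1.1.1 1 ^ 2 = (σ * v.1.1.1 2) ^ 2 := by
        rw [h2] at h1
        rw [mul_pow, sq σ, hσ]
        linarith
      rw [h5, Real.sqrt_sq h3.le, ← mul_assoc, hσ, one_mul]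
    ext i
    fin_cases i
    · rfl
    · rfl
    · exact h4
    · exact h2.symm
  continuous_toFun := by
    refine Continuous.subtype_mk (Continuous.subtype_mk (Continuous.subtype_mk ?_ _) _) _
    exact (G_cont_9661 σ).comp continuous_subtype_val
  continuous_invFun := by
    refine Continuous.subtype_mk ?_ _
    exact proj_cont_9661.comp (continuous_subtype_val.comp
      (continuous_subtype_val.comp continuous_subtype_val))

theorem hemi_open_9661 (σ : ℝ) : IsOpen (Dhemi_9661 σ) := by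
  unfold Dhemi_9661
  refine isOpen_lt continuous_const (continuous_const.mul ?_)
  have h : Continuous (fun v : EuclideanSpace ℝ (Fin 4) => v 2) := by fun_prop
  exact h.comp (continuous_subtype_val.comp continuous_subtype_val)

theorem hemi_preconn_9661 (σ : ℝ) (hσ : σ * σ = 1) : IsPreconnected (Dhemi_9661 σ) := by
  rw [isPreconnected_iff_preconnectedSpace]
  have h1 : PreconnectedSpace (Metric.ball (0 : EuclideanSpace ℝ (Fin 2)) 1) :=
    Subtype.preconnectedSpace (convex_ball _ _).isPreconnected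
  exact (homeo_9661 σ hσ).surjective.denseRange.preconnectedSpace (homeo_9661 σ hσ).continuous

theorem comp_9661 (σ : ℝ) (hσ : σ * σ = 1) (s : {v : S3 | v.1 3 = 0}) (hs : s ∈ Dhemi_9661 σ) :
    connectedComponentIn {s : {v : S3 | v.1 3 = 0} | (s : S3).1 2 = 0}ᶜ s = Dhemi_9661 σ := by
  have hsub : Dhemi_9661 σ ⊆ {s : {v : S3 | v.1 3 = 0} | (s : S3).1 2 = 0}ᶜ := by
    intro v hv hv2
    have h1 : 0 < σ * (v : S3).1 2 := hv
    have h2 : (v : S3).1 2 = 0 := hv2
    rw [h2, mul_zero] at h1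
    exact lt_irrefl _ h1
  refine Subset.antisymm ?_ ((hemi_preconn_9661 σ hσ).subset_connectedComponentIn hs hsub)
  refine isPreconnected_connectedComponentIn.subset_left_of_subset_union (hemi_open_9661 σ)
    (hemi_open_9661 (-σ)) ?_ ?_ ⟨s, mem_connectedComponentIn (hsub hs), hs⟩
  · rw [Set.disjoint_left]
    intro v h1 h2
    have h1' : 0 < σ * (v : S3).1 2 := h1
    have h2' : 0 < -σ * (v : S3).1 2 := h2
    linarith
  · intro v hv
    have h1 : (v : S3).1 2 ≠ 0 := connectedComponentIn_subset _ _ hv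
    have hσ0 : σ ≠ 0 := by
      rintro rfl
      simp at hσ
    rcases lt_or_gt_of_ne (mul_ne_zero hσ0 h1) with h2 | h2
    · right
      show 0 < -σ * (v : S3).1 2
      linarith
    · left
      exact h2

theorem std_cell (Sig : Set S3) (hS : Sig = {v : S3 | v.1 3 = 0}) (P : Set Sig)
    (hP : P = {s : Sig | (s : S3).1 2 = 0}) (s : Sig) (hs : s ∉ P) :
    Nonempty (connectedComponentIn Pᶜ s ≃ₜ Metric.ball (0 : EuclideanSpace ℝ (Fin 2)) 1) := by
  subst hS
  subst hP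
  have key : ∀ σ : ℝ, σ * σ = 1 → s ∈ Dhemi_9661 σ →
      Nonempty (connectedComponentIn {s : {v : S3 | v.1 3 = 0} | (s : S3).1 2 = 0}ᶜ s ≃ₜ
        Metric.ball (0 : EuclideanSpace ℝ (Fin 2)) 1) := by
    intro σ hσ hsσ
    exact ⟨(Homeomorph.setCongr (comp_9661 σ hσ s hsσ)).trans (homeo_9661 σ hσ).symm⟩
  have hs' : (s : S3).1 2 ≠ 0 := hs
  rcases lt_or_gt_of_ne hs' with h | h
  · exact key (-1) (by norm_num) (by
      show 0 < -1 * (s : S3).1 2
      linarith)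
  · exact key 1 (by norm_num) (by
      show 0 < 1 * (s : S3).1 2
      linarith)

end std_cell

section unlink
/-- the radius of the `i`-th component -/
noncomputable def ulr {n : ℕ} (i : Fin n) : ℝ := Real.sqrt (1 - ((i : ℝ) / n) ^ 2)
theorem ulr_aux {n : ℕ} (i : Fin n) : 0 < 1 - ((i : ℝ) / n) ^ 2 ∧ 0 ≤ (i : ℝ) / n ∧
    (0 : ℝ) < n := by
  have hn : (0 : ℝ) < n := by
    have := i.isLt
    exact_mod_cast (by omega : 0 < n)
  have h1 : (i : ℝ) < n := by exact_mod_cast i.isLt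
  have h2 : (i : ℝ) / n < 1 := by
    rw [div_lt_one hn]
    exact h1
  have h3 : 0 ≤ (i : ℝ) / n := by positivity
  refine ⟨?_, h3, hn⟩
  nlinarith

theorem ulr_pos {n : ℕ} (i : Fin n) : 0 < ulr i := Real.sqrt_pos.mpr (ulr_aux i).1

theorem ulr_sq {n : ℕ} (i : Fin n) : ulr i ^ 2 = 1 - ((i : ℝ) / n) ^ 2 :=
  Real.sq_sqrt (ulr_aux i).1.le

/-- the parametrisation as a curve in `ℝ⁴` -/
noncomputable def ulc {n : ℕ} (i : Fin n) (t : ℝ) : EuclideanSpace ℝ (Fin 4) :=
  !₂[ulr i * Real.cos (2 * Real.pi * t), ulr i * Real.sin (2 * Real.pi * t), 0, (i : ℝ) / n]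

theorem ulc0 {n : ℕ} (i : Fin n) (t : ℝ) : ulc i t 0 = ulr i * Real.cos (2 * Real.pi * t) := by
  simp [ulc]
theorem ulc1 {n : ℕ} (i : Fin n) (t : ℝ) : ulc i t 1 = ulr i * Real.sin (2 * Real.pi * t) := by
  simp [ulc]
theorem ulc2 {n : ℕ} (i : Fin n) (t : ℝ) : ulc i t 2 = 0 := by
  simp [ulc]
theorem ulc3 {n : ℕ} (i : Fin n) (t : ℝ) : ulc i t 3 = (i : ℝ) / n := by
  simp [ulc]

theorem norm_sq4 (v : EuclideanSpace ℝ (Fin 4)) :
    ‖v‖ ^ 2 = v 0 ^ 2 + v 1 ^ 2 + v 2 ^ 2 + v 3 ^ 2 := by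
  rw [EuclideanSpace.norm_sq_eq, Fin.sum_univ_four]
  simp only [Real.norm_eq_abs, sq_abs]

theorem ulc_norm {n : ℕ} (i : Fin n) (t : ℝ) : ‖ulc i t‖ = 1 := by
  have h : ‖ulc i t‖ ^ 2 = 1 := by
    rw [norm_sq4, ulc0, ulc1, ulc2, ulc3]
    have h1 := ulr_sq i
    have h2 := Real.sin_sq_add_cos_sq (2 * Real.pi * t)
    calc (ulr i * Real.cos (2 * Real.pi * t)) ^ 2 + (ulr i * Real.sin (2 * Real.pi * t)) ^ 2 +
          0 ^ 2 + ((i : ℝ) / n) ^ 2
        = ulr i ^ 2 * (Real.sin (2 * Real.pi * t) ^ 2 + Real.cos (2 * Real.pi * t) ^ 2) +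
          ((i : ℝ) / n) ^ 2 := by ring
      _ = 1 := by rw [h1, h2]; ring
  have h0 := norm_nonneg (ulc i t)
  nlinarith

theorem ulc_smooth {n : ℕ} (i : Fin n) : ContDiff ℝ (⊤ : ℕ∞) (fun t => ulc i t) := by
  rw [contDiff_euclidean]
  intro k
  fin_cases k
  · show ContDiff ℝ (⊤ : ℕ∞) (fun t => ulc i t 0)
    simp only [ulc0]
    fun_prop
  · show ContDiff ℝ (⊤ : ℕ∞) (fun t => ulc i t 1)
    simp only [ulc1]
    fun_prop
  · show ContDiff ℝ (⊤ : ℕ∞) (fun t => ulc i t 2)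
    simp only [ulc2]
    fun_prop
  · show ContDiff ℝ (⊤ : ℕ∞) (fun t => ulc i t 3)
    simp only [ulc3]
    fun_prop

theorem ulc_regular {n : ℕ} (i : Fin n) (t : ℝ) : deriv (fun t => ulc i t) t ≠ 0 := by
  intro h
  have hd : DifferentiableAt ℝ (fun t => ulc i t) t :=
    ((ulc_smooth i).differentiable (by simp)).differentiableAt
  have h1 := hd.hasDerivAt
  rw [h] at h1
  have hc : ∀ k : Fin 4, HasDerivAt (fun t => ulc i t k) 0 t := by
    intro k
    have h2 := (EuclideanSpace.proj k : EuclideanSpace ℝ (Fin 4) →L[ℝ] ℝ).hasFDerivAt.comp_hasDerivAt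
      t h1
    have h3 : HasDerivAt (fun t => ulc i t k)
        ((EuclideanSpace.proj k : EuclideanSpace ℝ (Fin 4) →L[ℝ] ℝ) 0) t := h2
    rw [map_zero] at h3
    exact h3
  have hl : HasDerivAt (fun t : ℝ => 2 * Real.pi * t) (2 * Real.pi) t := by
    simpa using (hasDerivAt_id t).const_mul (2 * Real.pi)
  have e0 : HasDerivAt (fun t => ulc i t 0)
      (ulr i * (-Real.sin (2 * Real.pi * t) * (2 * Real.pi))) t := by
    simp only [ulc0]
    exact (hl.cos).const_mul _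
  have e1 : HasDerivAt (fun t => ulc i t 1)
      (ulr i * (Real.cos (2 * Real.pi * t) * (2 * Real.pi))) t := by
    simp only [ulc1]
    exact (hl.sin).const_mul _
  have f0 := e0.unique (hc 0)
  have f1 := e1.unique (hc 1)
  have hr := ulr_pos i
  have hpi := Real.pi_pos
  have s0 : Real.sin (2 * Real.pi * t) = 0 := by
    rcases mul_eq_zero.mp f0 with h | h
    · exact absurd h hr.ne'
    · rcases mul_eq_zero.mp h with h | h
      · linarith
      · exfalso; linarith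
  have c0 : Real.cos (2 * Real.pi * t) = 0 := by
    rcases mul_eq_zero.mp f1 with h | h
    · exact absurd h hr.ne'
    · rcases mul_eq_zero.mp h with h | h
      · exact h
      · exfalso; linarith
  have := Real.sin_sq_add_cos_sq (2 * Real.pi * t)
  rw [s0, c0] at this
  norm_num at this

/-- The unlink as a link. -/
noncomputable def ulK (n : ℕ) : Link n where
  γ i t := ⟨ulc i t, mem_sphere_zero_iff_norm.mpr (ulc_norm i t)⟩
  smooth i := ulc_smooth i
  regular i t := ulc_regular i t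
  periodic i t := by
    apply Subtype.ext
    show ulc i (t + 1) = ulc i t
    have h : 2 * Real.pi * (t + 1) = 2 * Real.pi * t + 2 * Real.pi := by ring
    unfold ulc
    rw [h, Real.cos_add_two_pi, Real.sin_add_two_pi]
  inj i j s t h := by
    have h1 : ulc i s = ulc j t := congrArg Subtype.val h
    have h3 : ulc i s 3 = ulc j t 3 := by rw [h1]
    have h0 : ulc i s 0 = ulc j t 0 := by rw [h1]
    have h2 : ulc i s 1 = ulc j t 1 := by rw [h1]
    rw [ulc3, ulc3] at h3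
    obtain ⟨-, -, hn⟩ := ulr_aux i
    have hij : i = j := by
      have h4 : (i : ℝ) = (j : ℝ) := by
        field_simp at h3
        exact h3
      exact Fin.ext (by exact_mod_cast h4)
    subst hij
    refine ⟨rfl, ?_⟩
    rw [ulc0, ulc0] at h0
    rw [ulc1, ulc1] at h2
    have hr := ulr_pos i
    have hc := mul_left_cancel₀ hr.ne' h0
    have hs := mul_left_cancel₀ hr.ne' h2
    have ha := Real.Angle.cos_sin_inj hc hs
    rw [Real.Angle.angle_eq_iff_two_pi_dvd_sub] at ha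
    obtain ⟨k, hk⟩ := ha
    refine ⟨k, ?_⟩
    have hpi := Real.pi_pos
    have h5 : 2 * Real.pi * (s - t - k) = 0 := by linarith
    rcases mul_eq_zero.mp h5 with h6 | h6
    · exfalso; linarith
    · linarith


theorem exists_unlink (n : ℕ) : ∃ K : Link n, K.carrier = Lset n ∧
    ∀ i t, kap n (K.γ i t) = (0, (i : ℝ)) := by
  have hk : ∀ i t, kap n ((ulK n).γ i t) = (0, (i : ℝ)) := by
    intro i t
    obtain ⟨-, -, hn⟩ := ulr_aux i
    show (ulc i t 2, (n : ℝ) * ulc i t 3) = (0, (i : ℝ))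
    rw [ulc2, ulc3]
    congr 1
    field_simp
  refine ⟨ulK n, ?_, hk⟩
  ext v
  unfold Link.carrier
  rw [mem_iUnion]
  constructor
  · rintro ⟨i, t, rfl⟩
    exact ⟨i, hk i t⟩
  · rintro ⟨i, hi⟩
    obtain ⟨-, -, hn⟩ := ulr_aux i
    have hi' : (v.1 2, (n : ℝ) * v.1 3) = ((0 : ℝ), (i : ℝ)) := hi
    have h2 : v.1 2 = 0 := congrArg Prod.fst hi'
    have h3' : (n : ℝ) * v.1 3 = (i : ℝ) := congrArg Prod.snd hi'
    have h3 : v.1 3 = (i : ℝ) / n := by
      field_simp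
      linarith
    have hv : ‖v.1‖ = 1 := mem_sphere_zero_iff_norm.mp v.2
    have hv2 := norm_sq4 v.1
    rw [hv, h2, h3] at hv2
    have hr := ulr_pos i
    have hr2 := ulr_sq i
    have h01 : v.1 0 ^ 2 + v.1 1 ^ 2 = ulr i ^ 2 := by rw [hr2]; linarith
    obtain ⟨z, hz⟩ : ∃ z : ℂ, z = ⟨v.1 0, v.1 1⟩ := ⟨_, rfl⟩
    have hzn : ‖z‖ = ulr i := by
      have : ‖z‖ ^ 2 = ulr i ^ 2 := by
        rw [← h01, ← Complex.normSq_eq_norm_sq, hz, Complex.normSq_mk]
        ring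
      have h0 := norm_nonneg z
      nlinarith
    have hz0 : z ≠ 0 := by
      intro h
      rw [h, norm_zero] at hzn
      linarith
    have hc := Complex.cos_arg hz0
    have hs := Complex.sin_arg z
    rw [hzn] at hc hs
    have hpi := Real.pi_pos
    have harg : 2 * Real.pi * (z.arg / (2 * Real.pi)) = z.arg := by field_simp
    refine ⟨i, z.arg / (2 * Real.pi), ?_⟩
    apply Subtype.ext
    show ulc i (z.arg / (2 * Real.pi)) = v.1
    ext k
    fin_cases k
    · show ulc i (z.arg / (2 * Real.pi)) 0 = v.1 0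
      rw [ulc0, harg, hc, hz]
      field_simp
    · show ulc i (z.arg / (2 * Real.pi)) 1 = v.1 1
      rw [ulc1, harg, hs, hz]
      field_simp
    · show ulc i (z.arg / (2 * Real.pi)) 2 = v.1 2
      rw [ulc2, h2]
    · show ulc i (z.arg / (2 * Real.pi)) 3 = v.1 3
      rw [ulc3, h3]

end unlink

section unknot_zero
theorem unknot_zero : ∃ K : Link 1, HasAltDiagram K 0 := by
  obtain ⟨K, hK, -⟩ := exists_unlink 1
  have hKm : ∀ v : S3, v ∈ K.carrier ↔ v.1 2 = 0 ∧ v.1 3 = 0 := by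
    intro v
    rw [hK]
    constructor
    · rintro ⟨i, hi⟩
      rw [kap, Prod.mk.injEq] at hi
      have hi0 : i = 0 := Subsingleton.elim _ _
      subst hi0
      refine ⟨hi.1, ?_⟩
      simpa using hi.2
    · rintro ⟨h1, h2⟩
      refine ⟨0, ?_⟩
      rw [kap, h1, h2]
      simp
  obtain ⟨H, hS, hp, hm⟩ := std_heegaard
  obtain ⟨E, hE, hr⟩ := std_collar H hS hp hm
  have hsq : ∀ t : ℝ, √(1 + t ^ 2) ≠ 0 := fun t => by positivity
  have hmem : ∀ (s : H.Sig) (t : ℝ), E.e (s, t) ∈ K.carrier ↔ (s : S3).1 2 = 0 ∧ t = 0 := by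
    intro s t
    obtain ⟨h3, hj⟩ := hE s t
    rw [hKm, h3, hj 2 (by decide), div_eq_zero_iff, div_eq_zero_iff]
    simp [hsq t]
  have hproj : E.proj K.carrier = {s : H.Sig | (s : S3).1 2 = 0} := by
    ext s
    constructor
    · rintro ⟨t, ht⟩
      exact ((hmem s t).1 ht).1
    · intro hs
      exact ⟨0, (hmem s 0).2 ⟨hs, rfl⟩⟩
  have hnoO : ∀ v, ¬ E.Over K.carrier v := by
    rintro v ⟨hv, s, t, t', rfl, hlt, ht'⟩
    have h1 := (hmem s t).1 hv
    have h2 := (hmem s t').1 ht'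
    rw [h1.2, h2.2] at hlt
    exact lt_irrefl _ hlt
  have hnoU : ∀ v, ¬ E.Under K.carrier v := by
    rintro v ⟨hv, s, t, t', rfl, hlt, ht'⟩
    have h1 := (hmem s t).1 hv
    have h2 := (hmem s t').1 ht'
    rw [h1.2, h2.2] at hlt
    exact lt_irrefl _ hlt
  refine ⟨K, H, E, ⟨⟨?_, ∅, Set.finite_empty, ?_, ?_⟩⟩, ?_, ?_⟩
  · intro v hv
    rw [hr]
    have := (hKm v).1 hv
    show |v.1 3| < 1
    rw [this.2]; simp
  · intro s hs _
    rw [hproj] at hs
    obtain ⟨χ, h1, h2, h3⟩ := std_chart H.Sig hS s hs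
    refine ⟨χ, fun _ => 0, h1, continuous_const, h2, fun x y t => ?_⟩
    rw [hmem, h3]
  · intro s hs
    exact absurd hs (Set.notMem_empty s)
  · intro i t t' _ h1
    rcases h1 with h1 | h1
    · exact absurd h1 (hnoO _)
    · exact absurd h1 (hnoU _)
  · intro s hs
    exact std_cell H.Sig hS _ hproj s hs

end unknot_zero

end Sanity

end AltGenus
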