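import Pool.Agent.AltGenus.P_HB_connected
import Pool.Agent.AltGenus.P_Rp_facts
import Pool.Agent.AltGenus.P_S0_connected
import Pool.Agent.AltGenus.P_W_const
import Pool.Agent.AltGenus.P_all_equal
import Pool.Agent.AltGenus.P_chart_facts
import Pool.Agent.AltGenus.P_component_top
import Pool.Agent.AltGenus.P_count
import Pool.Agent.AltGenus.P_crossing_W
import Pool.Agent.AltGenus.P_crossing_rel
import Pool.Agent.AltGenus.P_cyclic_sum
import Pool.Agent.AltGenus.P_dconn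
import Pool.Agent.AltGenus.P_exists_W
import Pool.Agent.AltGenus.P_exists_flatOn
import Pool.Agent.AltGenus.P_ext_all
import Pool.Agent.AltGenus.P_ext_below
import Pool.Agent.AltGenus.P_ext_handlebody
import Pool.Agent.AltGenus.P_flat_extend
import Pool.Agent.AltGenus.P_flat_image
import Pool.Agent.AltGenus.P_half_contractible
import Pool.Agent.AltGenus.P_height_bound
import Pool.Agent.AltGenus.P_hol_kap
import Pool.Agent.AltGenus.P_hol_transfer
import Pool.Agent.AltGenus.P_hopf_circle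
import Pool.Agent.AltGenus.P_hopf_fields
import Pool.Agent.AltGenus.P_hopf_set
import Pool.Agent.AltGenus.P_lift_homotopy
import Pool.Agent.AltGenus.P_low_ext
import Pool.Agent.AltGenus.P_mid_ext
import Pool.Agent.AltGenus.P_near_top
import Pool.Agent.AltGenus.P_pass_strand
import Pool.Agent.AltGenus.P_proj_closed
import Pool.Agent.AltGenus.P_propagate
import Pool.Agent.AltGenus.P_push_continuous
import Pool.Agent.AltGenus.P_rank_HB
import Pool.Agent.AltGenus.P_reg_ext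
import Pool.Agent.AltGenus.P_sig_facts
import Pool.Agent.AltGenus.P_strand_rel
import Pool.Agent.AltGenus.P_top_closure
import Pool.Agent.AltGenus.P_top_exists
import Pool.Agent.AltGenus.P_under_lim
import Pool.Agent.AltGenus.P_vert_contractible
import Pool.Agent.AltGenus.HopfLink
import Pool.Agent.AltGenus.Unknot

open Set Topology Filter

namespace AltGenus

theorem main_contra {g n m : ℕ} (hgn : g + 2 ≤ n) (K : Link m) (hK : K.carrier = Lset n)
    (hk : ∀ j : Fin n, ∃ i : Fin m, ∀ t, kap n (K.γ i t) = (0, (j : ℝ))) :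
    ¬ HasAltDiagram K g := by
  rintro ⟨H, E, ⟨D₀⟩, hA, hC₀⟩
  have D : Diagram E (Lset n) := hK ▸ D₀
  have hC : Cellular E (Lset n) := hK ▸ hC₀
  have hn : 0 < n := by omega
  have hmem : ∀ (i : Fin n) (q : S3), kap n q = (0, (i : ℝ)) → q ∈ Lset n := fun i q h => ⟨i, h⟩
  have hct : ∀ j : Fin n, ∃ q : S3, kap n q = (0, (j : ℝ)) ∧ ¬ E.Under (Lset n) q := by
    intro j
    obtain ⟨i, hi⟩ := hk j
    exact component_top E K D i j hi
  obtain ⟨q₀, hq₀, htop₀⟩ := hct ⟨0, hn⟩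
  obtain ⟨U, hUo, hqU, hUc, hUn, -⟩ := near_top E D ⟨0, hn⟩ q₀ hq₀ htop₀
  obtain ⟨y₀, hy₀U, hy₀R⟩ : (U ∩ Rp E (Lset n)).Nonempty :=
    mem_closure_iff.1 (top_closure E D q₀ (hmem _ _ hq₀) htop₀) U hUo hqU
  obtain ⟨a, Z, ha0, hai, hZ, hZ0⟩ := top_exists hgn E D.sub ⟨0, hn⟩ y₀ hy₀R
  obtain ⟨W, hW1, hW2⟩ := exists_W E D a Z hZ
  have hWc := W_const E K hK D hA hC hn W hW2
    (fun χ h₁ h₂ hχ hc₁ hc₂ h21 hΛ => crossing_W E D hn a Z hZ W hW1 hW2 χ h₁ h₂ hχ hc₁ hc₂ h21 hΛ)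
  have hW0 : W q₀ = 0 := by
    have hcl := top_closure E D q₀ (hmem _ _ hq₀) htop₀
    have hne : (𝓝[Rp E (Lset n)] q₀).NeBot := mem_closure_iff_nhdsWithin_neBot.1 hcl
    have h1 := hW1 q₀ (hmem _ _ hq₀) htop₀
    have h2 : ∀ᶠ v in 𝓝[Rp E (Lset n)] q₀, v ∈ U ∩ Rp E (Lset n) := by
      filter_upwards [self_mem_nhdsWithin, mem_nhdsWithin_of_mem_nhds (hUo.mem_nhds hqU)] with v h3 h4
      exact ⟨h4, h3⟩
    obtain ⟨v, hv1, hv2⟩ := (h1.and h2).exists
    rw [← hv1, hq₀]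
    have h5 : colour a ((⟨0, hn⟩ : Fin n) : ℝ) = a ⟨0, hn⟩ := colour_self a ⟨0, hn⟩
    have h6 : (Z v - a ⟨0, hn⟩) ^ 2 = (Z y₀ - a ⟨0, hn⟩) ^ 2 :=
      (hZ.mono (fun x hx => hx.2 : U ∩ Rp E (Lset n) ⊆ Rp E (Lset n))).sq_near hUc ⟨0, hn⟩
        (fun y hy => hUn y hy.1) hv2 ⟨hy₀U, hy₀R⟩
    show (Z v - colour a ((⟨0, hn⟩ : Fin n) : ℝ)) ^ 2 = 0
    rw [h5, h6, hZ0, hai]
    norm_num
  have hnear : ∀ (i : Fin n) (q : S3), kap n q = (0, (i : ℝ)) → ¬ E.Under (Lset n) q →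
      ∀ᶠ v in 𝓝[Rp E (Lset n)] q, Z v = a i := by
    intro i q hq htop
    have h1 := hW1 q (hmem _ _ hq) htop
    rw [hWc q (hmem _ _ hq) q₀ (hmem _ _ hq₀) htop htop₀, hW0] at h1
    filter_upwards [h1] with v hv
    rw [hq] at hv
    have h5 : colour a ((i : Fin n) : ℝ) = a i := colour_self a i
    have h6 : (Z v - colour a ((i : Fin n) : ℝ)) ^ 2 = 0 := hv
    rw [h5] at h6
    have := pow_eq_zero_iff (two_ne_zero) |>.1 h6
    linarith
  obtain ⟨F, hF, hFZ⟩ := ext_below E D a Z hZ hnear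
  obtain ⟨G, hG, hGF⟩ := ext_all E D.sub a F hF
  have hfacts := Rp_facts (n := n) E D.sub
  have hsub : Rp E (Lset n) ⊆ (Lset n)ᶜ := by
    intro v hv hvL
    obtain ⟨i, hi⟩ := hvL
    exact hfacts.2.2.2.2 v hv i hi
  have heq := all_equal a G hG (Rp E (Lset n)) hfacts.1 hsub (by
    intro i
    obtain ⟨q, hq, htop⟩ := hct i
    refine ⟨q, top_closure E D q (hmem _ _ hq) htop, hq, ?_⟩
    filter_upwards [hnear i q hq htop, self_mem_nhdsWithin] with v hv hvR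
    rw [hGF v _ (hsub hvR), hFZ v hvR, hv]
    rcases hvR with h | ⟨s, t, h, _⟩
    · exact Or.inl h.1
    · exact Or.inr ⟨(s, t), h.symm⟩)
  apply ha0
  ext i
  rw [heq i ⟨0, hn⟩, hai]
  rfl


theorem hopf_contra {g n : ℕ} (hgn : g + 2 ≤ n) : ¬ HasAltDiagram (hopfLink n) g := by
  have hset := hopf_set n
  apply main_contra hgn (hopfLink n)
  · ext v
    rw [hset.1 v]
    unfold Link.carrier
    simp only [mem_iUnion, mem_range]
    constructor
    · rintro ⟨i, t, h⟩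
      exact ⟨i, t, by rw [← h]; rfl⟩
    · rintro ⟨i, t, h⟩
      exact ⟨i, t, Subtype.ext h.symm⟩
  · intro j
    refine ⟨⟨j, by omega⟩, fun t => ?_⟩
    exact hset.2 _ ⟨j, by omega⟩ t j.2 rfl

end AltGenus
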